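import Pool.Agent.NH12.GL.Defs
import Pool.Agent.Helper112.MultLS
import Pool.Agent.W305.CY.Weil
import Pool.Agent.W74.CY.WPP
import Pool.Agent.W216.CY.Div

/-!
# The function modulo a prime
-/

set_option autoImplicit false

namespace Pool.Agent.NH12.GL

open Finset DirichletCharacter
open Pool.Agent.NH12.NV (pc mem_pc)
open Pool.Agent.Helper112.MLS (norm_char sum_norm_char norm_gauss)
open scoped ComplexConjugate

namespace AfAux

lemma sum_range_zmod {q : ℕ} [NeZero q] {M : Type} [AddCommMonoid M] (f : ZMod q → M) :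
    ∑ x ∈ range q, f ((x : ℕ) : ZMod q) = ∑ x : ZMod q, f x := by
  refine Finset.sum_bij' (fun x _ => ((x : ℕ) : ZMod q)) (fun a _ => a.val) ?_ ?_ ?_ ?_ ?_
  · intro x _; exact mem_univ _
  · intro a _; exact mem_range.2 (ZMod.val_lt a)
  · intro x hx
    exact ZMod.val_cast_of_lt (mem_range.1 hx)
  · intro a _
    exact ZMod.natCast_zmod_val a
  · intro x _; rfl

lemma conj_eq {q : ℕ} [NeZero q] (χ : DirichletCharacter ℂ q) (x : ZMod q) :
    conj (χ x) = χ⁻¹ x := by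
  by_cases hx : IsUnit x
  · have h1 := norm_char q χ x
    rw [if_pos hx] at h1
    rw [MulChar.inv_apply_eq_inv', Complex.inv_eq_conj h1]
  · rw [MulChar.map_nonunit _ hx, MulChar.map_nonunit _ hx, map_zero]

lemma norm_le_one' {q : ℕ} [NeZero q] (χ : DirichletCharacter ℂ q) (x : ZMod q) :
    ‖χ x‖ ≤ 1 := by
  rw [norm_char]
  split_ifs <;> norm_num

lemma orth {q : ℕ} [NeZero q] (χ ψ : DirichletCharacter ℂ q) :
    ∑ x : ZMod q, conj (χ x) * ψ x = if χ = ψ then (q.totient : ℂ) else 0 := by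
  split_ifs with h
  · subst h
    have h1 := sum_norm_char q χ
    have h2 : ∀ x : ZMod q, conj (χ x) * χ x = ((‖χ x‖ ^ 2 : ℝ) : ℂ) := by
      intro x
      rw [mul_comm, Complex.mul_conj, Complex.normSq_eq_norm_sq]
    simp_rw [h2]
    rw [← Complex.ofReal_sum, h1]
    simp
  · have h1 : χ⁻¹ * ψ ≠ 1 := by
      intro h1
      apply h
      have h2 := congrArg (fun t => χ * t) h1
      simp only [mul_inv_cancel_left, mul_one] at h2
      exact h2.symm
    have h2 := MulChar.sum_eq_zero_of_ne_one h1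
    rw [← h2]
    refine sum_congr rfl fun x _ => ?_
    rw [conj_eq, MulChar.mul_apply]

lemma pars {q : ℕ} [NeZero q] (S : Finset (DirichletCharacter ℂ q))
    (c : DirichletCharacter ℂ q → ℂ) :
    ∑ x : ZMod q, ‖∑ χ ∈ S, c χ * conj (χ x)‖ ^ 2 = q.totient * ∑ χ ∈ S, ‖c χ‖ ^ 2 := by
  classical
  have e1 : ∀ z : ℂ, ((‖z‖ ^ 2 : ℝ) : ℂ) = z * conj z := by
    intro z
    rw [Complex.mul_conj, Complex.normSq_eq_norm_sq]
  have key : ((∑ x : ZMod q, ‖∑ χ ∈ S, c χ * conj (χ x)‖ ^ 2 : ℝ) : ℂ) =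
      ((q.totient * ∑ χ ∈ S, ‖c χ‖ ^ 2 : ℝ) : ℂ) := by
    push_cast
    have h1 : ∀ x : ZMod q, ((‖∑ χ ∈ S, c χ * conj (χ x)‖ : ℂ)) ^ 2 =
        ∑ χ ∈ S, ∑ ψ ∈ S, c χ * conj (c ψ) * (conj (χ x) * ψ x) := by
      intro x
      have h2 := e1 (∑ χ ∈ S, c χ * conj (χ x))
      push_cast at h2
      rw [h2, map_sum, sum_mul_sum]
      refine sum_congr rfl fun χ _ => sum_congr rfl fun ψ _ => ?_
      rw [map_mul, Complex.conj_conj]
      ring
    rw [sum_congr rfl fun x _ => h1 x, sum_comm, mul_sum]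
    refine sum_congr rfl fun χ hχ => ?_
    rw [sum_comm]
    have h3 : ∀ ψ ∈ S, ∑ x : ZMod q, c χ * conj (c ψ) * (conj (χ x) * ψ x) =
        if χ = ψ then (q.totient : ℂ) * (c χ * conj (c χ)) else 0 := by
      intro ψ _
      rw [← mul_sum, orth]
      split_ifs with h
      · rw [h]; ring
      · ring
    rw [sum_congr rfl h3, sum_ite_eq, if_pos hχ]
    have h2 := e1 (c χ)
    push_cast at h2
    rw [h2]
  exact_mod_cast key

end AfAux

open AfAux in
theorem t_Af : S_Af := by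
  intro η hη
  have hdiv := Pool.Agent.W216.CY.t_div
  have hweil := Pool.Agent.W305.CY.t_weil Pool.Agent.W74.CY.wpp hdiv
  obtain ⟨C, hC, hk⟩ := Pool.Agent.NH12.NV.kloo_prim hweil η hη
  refine ⟨2 * C, by positivity, fun p v hp => ?_⟩
  have hp0 : p ≠ 0 := hp.ne_zero
  have : NeZero p := ⟨hp0⟩
  have hpR : (0 : ℝ) < p := by exact_mod_cast hp.pos
  obtain ⟨c, hc⟩ : ∃ c : DirichletCharacter ℂ p → ℂ, ∀ χ, c χ =
    (gs χ ^ 3 / (((p : ℝ) ^ (3 / 2 : ℝ) : ℝ) : ℂ)) * χ ((v : ℤ) : ZMod p) := ⟨_, fun _ => rfl⟩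
  have hAf : ∀ n : ℤ, Af p v n = ∑ χ ∈ pc p, c χ * conj (χ ((n : ℤ) : ZMod p)) := by
    intro n
    unfold Af
    rw [dif_neg hp0]
    exact sum_congr rfl fun χ _ => by rw [hc]
  have hgs : ∀ χ ∈ pc p, ‖gs χ‖ ^ 2 = p := by
    intro χ hχ
    exact norm_gauss p (mem_pc.1 hχ)
  have hc1 : ∀ χ ∈ pc p, ‖c χ‖ ≤ 1 := by
    intro χ hχ
    rw [hc, norm_mul, norm_div, norm_pow, Complex.norm_real]
    have h1 : ‖gs χ‖ = (p : ℝ) ^ (1 / 2 : ℝ) := by
      rw [← Real.sqrt_eq_rpow, ← hgs χ hχ, Real.sqrt_sq (norm_nonneg _)]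
    have h2 : ‖gs χ‖ ^ 3 = (p : ℝ) ^ (3 / 2 : ℝ) := by
      rw [h1, ← Real.rpow_natCast, ← Real.rpow_mul hpR.le]
      norm_num
    rw [h2, Real.norm_of_nonneg (by positivity), div_self (by positivity), one_mul]
    exact norm_le_one' χ _
  refine ⟨fun n => ?_, ?_, fun y => ?_⟩
  · rw [hAf, hAf]
    push_cast
    rw [ZMod.natCast_self, add_zero]
  · have h1 : ∑ x ∈ range p, ‖Af p v x‖ ^ 2 =
        ∑ x : ZMod p, ‖∑ χ ∈ pc p, c χ * conj (χ x)‖ ^ 2 := by
      rw [← sum_range_zmod]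
      refine sum_congr rfl fun x _ => ?_
      rw [hAf, Int.cast_natCast]
    rw [h1, pars, sq]
    refine mul_le_mul (by exact_mod_cast Nat.totient_le p) ?_ (by positivity) hpR.le
    calc ∑ χ ∈ pc p, ‖c χ‖ ^ 2 ≤ ∑ χ ∈ pc p, (1 : ℝ) := by
          refine sum_le_sum fun χ hχ => ?_
          exact pow_le_one₀ (norm_nonneg _) (hc1 χ hχ)
      _ = ((pc p).card : ℝ) := by rw [sum_const, nsmul_eq_mul, mul_one]
      _ ≤ p := by
          have h2 : (pc p).card ≤ p := by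
            refine (Finset.card_le_univ _).trans ?_
            rw [← Nat.card_eq_fintype_card,
              DirichletCharacter.card_eq_totient_of_hasEnoughRootsOfUnity]
            exact Nat.totient_le p
          exact_mod_cast h2
  · -- the Fourier transform
    have hee : ∀ x : ℕ, ee (-((x : ℝ) * y / p)) =
        conj (ZMod.stdAddChar (N := p) (((x : ℕ) : ZMod p) * ((y : ℤ) : ZMod p))) := by
      intro x
      have h1 : ((x : ℕ) : ZMod p) * ((y : ℤ) : ZMod p) = (((x : ℤ) * y : ℤ) : ZMod p) := by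
        push_cast; ring
      rw [h1, ZMod.stdAddChar_coe, ← Complex.exp_conj]
      unfold ee
      congr 1
      simp only [map_div₀, map_mul, Complex.conj_ofReal, Complex.conj_I, map_ofNat, map_natCast,
        map_intCast]
      push_cast
      ring
    have h1 : ∑ x ∈ range p, Af p v x * ee (-((x : ℝ) * y / p)) =
        ∑ x : ZMod p, (∑ χ ∈ pc p, c χ * conj (χ x)) *
          conj (ZMod.stdAddChar (N := p) (x * ((y : ℤ) : ZMod p))) := by
      rw [← sum_range_zmod]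
      refine sum_congr rfl fun x _ => ?_
      rw [hAf, Int.cast_natCast, hee]
    have h2 : ∀ χ ∈ pc p, ∑ x : ZMod p, conj (χ x) *
        conj (ZMod.stdAddChar (N := p) (x * ((y : ℤ) : ZMod p))) =
        χ ((y : ℤ) : ZMod p) * conj (gs χ) := by
      intro χ hχ
      have h3 := gaussSum_mulShift_of_isPrimitive (ZMod.stdAddChar (N := p)) (mem_pc.1 hχ)
        ((y : ℤ) : ZMod p)
      have h4 := congrArg conj h3
      rw [map_mul, ← conj_eq, Complex.conj_conj] at h4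
      unfold gs
      rw [← h4]
      unfold gaussSum
      rw [map_sum]
      refine sum_congr rfl fun x _ => ?_
      rw [AddChar.mulShift_apply, mul_comm x, ← (starRingEnd ℂ).map_mul]
    obtain ⟨w, hw⟩ : ∃ w : ZMod p, w = ((v : ℤ) : ZMod p) * ((y : ℤ) : ZMod p) := ⟨_, rfl⟩
    have h5 : ∑ x ∈ range p, Af p v x * ee (-((x : ℝ) * y / p)) =
        (((p : ℝ) ^ (-(1 / 2) : ℝ) : ℝ) : ℂ) * ∑ χ ∈ pc p, χ w * gs χ ^ 2 := by
      rw [h1]
      simp_rw [sum_mul]
      rw [sum_comm, mul_sum]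
      refine sum_congr rfl fun χ hχ => ?_
      have h6 : ∑ x : ZMod p, c χ * conj (χ x) *
          conj (ZMod.stdAddChar (N := p) (x * ((y : ℤ) : ZMod p))) =
          c χ * (χ ((y : ℤ) : ZMod p) * conj (gs χ)) := by
        rw [← h2 χ hχ, mul_sum]
        exact sum_congr rfl fun x _ => by ring
      rw [h6, hc, hw, map_mul]
      have h7 : gs χ * conj (gs χ) = (p : ℂ) := by
        rw [Complex.mul_conj, Complex.normSq_eq_norm_sq, hgs χ hχ]
        simp
      have h8 : (((p : ℝ) ^ (3 / 2 : ℝ) : ℝ) : ℂ) * (((p : ℝ) ^ (-(1 / 2) : ℝ) : ℝ) : ℂ) =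
          (p : ℂ) := by
        rw [← Complex.ofReal_mul, ← Real.rpow_add hpR]
        norm_num
      have h9 : (((p : ℝ) ^ (3 / 2 : ℝ) : ℝ) : ℂ) ≠ 0 := by
        have h10 : ((p : ℝ) ^ (3 / 2 : ℝ)) ≠ 0 := by positivity
        exact_mod_cast h10
      rw [div_mul_eq_mul_div, div_mul_eq_mul_div, div_eq_iff h9]
      linear_combination (gs χ ^ 2 * χ ((v : ℤ) : ZMod p) * χ ((y : ℤ) : ZMod p)) * h7 -
        (gs χ ^ 2 * χ ((v : ℤ) : ZMod p) * χ ((y : ℤ) : ZMod p)) * h8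
    rw [h5, norm_mul, Complex.norm_real, Real.norm_of_nonneg (by positivity)]
    by_cases hu : IsUnit w
    · obtain ⟨u, hu'⟩ := hu
      have h6 := hk p u
      rw [hu', hp.divisors, Finset.card_pair hp.one_lt.ne] at h6
      have h7 : ‖∑ χ ∈ pc p, χ w * gs χ ^ 2‖ ≤
          C * (((2 : ℕ) : ℝ) * p) * (p : ℝ) ^ (1 / 2 + η) := h6
      calc (p : ℝ) ^ (-(1 / 2) : ℝ) * ‖∑ χ ∈ pc p, χ w * gs χ ^ 2‖
          ≤ (p : ℝ) ^ (-(1 / 2) : ℝ) * (C * (((2 : ℕ) : ℝ) * p) * (p : ℝ) ^ (1 / 2 + η)) :=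
            mul_le_mul_of_nonneg_left h7 (by positivity)
        _ = 2 * C * ((p : ℝ) ^ (-(1 / 2) : ℝ) * (p : ℝ) ^ (1 / 2 + η)) * p := by
            push_cast; ring
        _ = 2 * C * (p : ℝ) ^ η * p := by
            rw [← Real.rpow_add hpR]
            norm_num
    · have h6 : ∑ χ ∈ pc p, χ w * gs χ ^ 2 = 0 := by
        refine sum_eq_zero fun χ _ => ?_
        rw [MulChar.map_nonunit _ hu, zero_mul]
      rw [h6, norm_zero, mul_zero]
      positivity

end Pool.Agent.NH12.GL
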