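import Pool.Agent.NH12.GL.Defs

/-!
# The bilinear inequality
-/

set_option autoImplicit false

namespace Pool.Agent.NH12.GL

namespace BilAux

open Finset
open scoped ComplexConjugate

theorem ee_add (x y : ℝ) : ee (x + y) = ee x * ee y := by
  unfold ee
  rw [← Complex.exp_add]
  congr 1
  push_cast
  ring

theorem ee_zero : ee 0 = 1 := by
  unfold ee
  simp

theorem ee_norm (x : ℝ) : ‖ee x‖ = 1 := by
  unfold ee
  have h : (2 * Real.pi * Complex.I * x : ℂ) = ((2 * Real.pi * x : ℝ) : ℂ) * Complex.I := by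
    push_cast
    ring
  rw [h, Complex.norm_exp_ofReal_mul_I]

theorem ee_conj (x : ℝ) : conj (ee x) = ee (-x) := by
  unfold ee
  rw [← Complex.exp_conj]
  congr 1
  simp only [map_mul, Complex.conj_ofReal, Complex.conj_I, map_ofNat]
  push_cast
  ring

theorem ee_nat_mul (k : ℕ) (x : ℝ) : ee (k * x) = ee x ^ k := by
  unfold ee
  rw [← Complex.exp_nat_mul]
  congr 1
  push_cast
  ring

theorem ee_int (m : ℤ) : ee (m : ℝ) = 1 := by
  unfold ee
  rw [Complex.exp_eq_one_iff]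
  exact ⟨m, by push_cast; ring⟩

theorem ee_eq_one {x : ℝ} (h : ee x = 1) : ∃ m : ℤ, x = m := by
  unfold ee at h
  rw [Complex.exp_eq_one_iff] at h
  obtain ⟨m, hm⟩ := h
  refine ⟨m, ?_⟩
  have h2 : (2 * Real.pi * Complex.I : ℂ) ≠ 0 := Complex.two_pi_I_ne_zero
  have h3 : (x : ℂ) = (m : ℂ) := by
    apply mul_left_cancel₀ h2
    rw [hm]
    ring
  exact_mod_cast h3

/-- orthogonality -/
theorem orth (q : ℕ) (hq : 0 < q) (m : ℤ) :
    ∑ x ∈ range q, ee ((x : ℝ) * m / q) = if (q : ℤ) ∣ m then (q : ℂ) else 0 := by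
  have hq' : (q : ℝ) ≠ 0 := by exact_mod_cast hq.ne'
  have h1 : ∀ x : ℕ, ee ((x : ℝ) * m / q) = ee ((m : ℝ) / q) ^ x := by
    intro x
    rw [← ee_nat_mul]
    congr 1
    ring
  simp only [h1]
  split_ifs with h
  · obtain ⟨k, hk⟩ := h
    have h2 : ee ((m : ℝ) / q) = 1 := by
      rw [hk]
      push_cast
      rw [mul_div_cancel_left₀ _ hq']
      exact ee_int k
    rw [h2]
    simp
  · have h2 : ee ((m : ℝ) / q) ≠ 1 := by
      intro h3
      obtain ⟨k, hk⟩ := ee_eq_one h3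
      apply h
      refine ⟨k, ?_⟩
      rw [div_eq_iff hq'] at hk
      have h4 : (m : ℝ) = ((q * k : ℤ) : ℝ) := by
        push_cast
        linarith
      exact_mod_cast h4
    rw [geom_sum_eq h2]
    have h3 : ee ((m : ℝ) / q) ^ q = 1 := by
      rw [← ee_nat_mul, mul_div_cancel₀ _ hq']
      exact ee_int m
    rw [h3, sub_self, zero_div]

theorem per_mul {α : Type*} {f : ℤ → α} {q : ℕ} (hf : ∀ n : ℤ, f (n + q) = f n) (n k : ℤ) :
    f (n + q * k) = f n := by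
  have h := (show Function.Periodic f (q : ℤ) from hf).int_mul k
  have h2 := h n
  rw [mul_comm] at h2
  exact h2

theorem per_mod {α : Type*} {f : ℤ → α} {q : ℕ} (hf : ∀ n : ℤ, f (n + q) = f n) (n : ℤ) :
    f (n % q) = f n := by
  have h := per_mul hf (n % q) (n / q)
  rw [Int.emod_add_mul_ediv] at h
  exact h.symm

/-- Fourier expansion of a periodic function -/
theorem fourier (q : ℕ) (hq : 0 < q) (f : ℤ → ℂ) (hf : ∀ n : ℤ, f (n + q) = f n) (n : ℤ) :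
    f n = ∑ x ∈ range q, (1 / (q : ℂ) * ∑ k ∈ range q, f k * ee (-((k : ℝ) * ((x : ℤ) : ℝ) / q))) *
      ee ((x : ℝ) * n / q) := by
  have hqc : (q : ℂ) ≠ 0 := by exact_mod_cast hq.ne'
  have h1 : ∀ x ∈ range q, (1 / (q : ℂ) * ∑ k ∈ range q, f k *
      ee (-((k : ℝ) * ((x : ℤ) : ℝ) / q))) * ee ((x : ℝ) * n / q) =
      1 / (q : ℂ) * ∑ k ∈ range q, f k * ee ((x : ℝ) * ((n - k : ℤ) : ℝ) / q) := by
    intro x _
    rw [mul_assoc, Finset.sum_mul]
    congr 1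
    refine Finset.sum_congr rfl fun k _ => ?_
    rw [mul_assoc, ← ee_add]
    congr 2
    push_cast
    ring
  rw [Finset.sum_congr rfl h1, ← Finset.mul_sum, Finset.sum_comm]
  have h2 : ∀ k ∈ range q, ∑ x ∈ range q, f k * ee ((x : ℝ) * ((n - k : ℤ) : ℝ) / q) =
      if k = (n % q).toNat then f n * q else 0 := by
    intro k hk
    rw [← Finset.mul_sum, orth q hq]
    have hq0 : (0 : ℤ) < q := by exact_mod_cast hq
    have h3 := Int.emod_nonneg n hq0.ne'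
    have hkq : (k : ℤ) < q := by exact_mod_cast Finset.mem_range.1 hk
    by_cases h : (q : ℤ) ∣ n - k
    · have h4 : n % q = k := by
        have h5 : n % q = (k : ℤ) % q := ((Int.modEq_iff_dvd).2 h).symm
        rw [h5]
        exact Int.emod_eq_of_lt (by positivity) hkq
      rw [if_pos h, if_pos (by rw [h4]; simp)]
      congr 1
      rw [← h4]
      exact per_mod hf n
    · rw [if_neg h, mul_zero, if_neg]
      intro h4
      apply h
      have h5 : (k : ℤ) = n % q := by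
        rw [h4]
        exact Int.toNat_of_nonneg h3
      rw [h5]
      exact Int.dvd_self_sub_emod
  rw [Finset.sum_congr rfl h2, Finset.sum_ite_eq']
  have hq0 : (0 : ℤ) < q := by exact_mod_cast hq
  have h3 := Int.emod_nonneg n hq0.ne'
  have h4 := Int.emod_lt_of_pos n hq0
  rw [if_pos (Finset.mem_range.2 (by omega))]
  field_simp

theorem sum_shift {q : ℕ} {f : ℤ → ℝ} (hf : ∀ n : ℤ, f (n + q) = f n) (c : ℤ) :
    ∑ i ∈ range q, f (c + i) = ∑ i ∈ range q, f i := by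
  have step : ∀ c : ℤ, ∑ i ∈ range q, f (c + 1 + i) = ∑ i ∈ range q, f (c + i) := by
    intro c
    have h1 := Finset.sum_range_succ (fun i : ℕ => f (c + i)) q
    have h2 := Finset.sum_range_succ' (fun i : ℕ => f (c + i)) q
    have h3 : ∑ i ∈ range q, f (c + 1 + i) = ∑ i ∈ range q, f (c + ((i + 1 : ℕ) : ℤ)) := by
      refine Finset.sum_congr rfl fun i _ => ?_
      congr 1
      push_cast
      ring
    rw [h3]
    rw [h1] at h2
    rw [hf c] at h2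
    simp only [Nat.cast_zero, add_zero] at h2
    linarith
  induction c using Int.induction_on with
  | zero => simp
  | succ n ih =>
    rw [step, ih]
  | pred n ih =>
    rw [← ih, ← step]
    refine Finset.sum_congr rfl fun i _ => ?_
    congr 1
    ring

/-- sums of nonnegative periodic functions -/
theorem per_sum (q N : ℕ) (hq : 0 < q) (f : ℤ → ℝ) (h0 : ∀ n, 0 ≤ f n)
    (hf : ∀ n : ℤ, f (n + q) = f n) (a : ℤ) :
    ∑ b ∈ Icc 1 N, f (a - b) ≤ ((N : ℝ) / q + 1) * ∑ x ∈ range q, f x := by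
  have key : ∀ k : ℕ, ∑ b ∈ range (q * k), f (a - 1 - b) = k * ∑ x ∈ range q, f x := by
    intro k
    induction k with
    | zero => simp
    | succ k ih =>
      rw [Nat.mul_succ, Finset.sum_range_add, ih]
      have h1 : ∑ x ∈ range q, f (a - 1 - ((q * k + x : ℕ) : ℤ)) = ∑ x ∈ range q, f x := by
        rw [← sum_shift hf (a - 1 - q * k - q + 1), ← Finset.sum_range_reflect]
        refine Finset.sum_congr rfl fun x hx => ?_
        have hx' := Finset.mem_range.1 hx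
        congr 1
        push_cast
        have : ((q - 1 - x : ℕ) : ℤ) = q - 1 - x := by omega
        rw [this]
        ring
      rw [h1]
      push_cast
      ring
  have h1 : ∑ b ∈ Icc 1 N, f (a - b) = ∑ b ∈ range N, f (a - 1 - b) := by
    rw [Finset.range_eq_Ico, Finset.sum_Ico_eq_sum_range]
    have h2 : Icc 1 N = Ico 1 (N + 1) := by
      ext x
      simp only [Finset.mem_Icc, Finset.mem_Ico]
      omega
    rw [h2, Finset.sum_Ico_eq_sum_range]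
    simp only [Nat.add_sub_cancel, Nat.sub_zero]
    refine Finset.sum_congr rfl fun x _ => ?_
    congr 1
    push_cast
    ring
  rw [h1]
  have h2 : N ≤ q * (N / q + 1) := by
    have := Nat.lt_mul_div_succ N hq
    omega
  calc ∑ b ∈ range N, f (a - 1 - b) ≤ ∑ b ∈ range (q * (N / q + 1)), f (a - 1 - b) :=
        Finset.sum_le_sum_of_subset_of_nonneg (Finset.range_mono h2) fun _ _ _ => h0 _
    _ = ((N / q + 1 : ℕ) : ℝ) * ∑ x ∈ range q, f x := key _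
    _ ≤ ((N : ℝ) / q + 1) * ∑ x ∈ range q, f x := by
        apply mul_le_mul_of_nonneg_right _ (Finset.sum_nonneg fun _ _ => h0 _)
        push_cast
        have := Nat.cast_div_le (α := ℝ) (m := N) (n := q)
        linarith

/-- the number of pairs in the same class -/
theorem count (q N : ℕ) (hq : 0 < q) (a : ℤ) :
    ∑ b ∈ Icc 1 N, (if (q : ℤ) ∣ a - b then (1 : ℝ) else 0) ≤ (N : ℝ) / q + 1 := by
  have h1 := per_sum q N hq (fun n => if (q : ℤ) ∣ n then (1 : ℝ) else 0)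
    (fun n => by split_ifs <;> norm_num) (fun n => by
      have : ((q : ℤ) ∣ n + q) ↔ (q : ℤ) ∣ n := by
        constructor
        · intro h
          have := dvd_sub h (dvd_refl (q : ℤ))
          simpa using this
        · intro h
          exact dvd_add h dvd_rfl
      simp only [this]) a
  refine h1.trans ?_
  have h2 : ∑ x ∈ range q, (if (q : ℤ) ∣ (x : ℤ) then (1 : ℝ) else 0) = 1 := by
    rw [Finset.sum_eq_single_of_mem 0 (Finset.mem_range.2 hq)]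
    · simp
    · intro b hb hb0
      rw [if_neg]
      intro h
      have h3 : q ∣ b := by exact_mod_cast h
      have h4 := Nat.le_of_dvd (Nat.pos_of_ne_zero hb0) h3
      have := Finset.mem_range.1 hb
      omega
  rw [h2, mul_one]

/-- the full square of the exponential sum -/
theorem sq_exp (N : ℕ) (θ : ℝ) :
    ∑ a ∈ Icc 1 N, ∑ b ∈ Icc 1 N, ee (((((a : ℤ) - (b : ℤ)) : ℤ) : ℝ) * θ) =
      ((‖∑ a ∈ Icc 1 N, ee ((a : ℝ) * θ)‖ ^ 2 : ℝ) : ℂ) := by
  have h1 : ((‖∑ a ∈ Icc 1 N, ee ((a : ℝ) * θ)‖ ^ 2 : ℝ) : ℂ) =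
      (∑ a ∈ Icc 1 N, ee ((a : ℝ) * θ)) * conj (∑ a ∈ Icc 1 N, ee ((a : ℝ) * θ)) := by
    rw [Complex.mul_conj, Complex.normSq_eq_norm_sq]
  rw [h1, map_sum, Finset.sum_mul_sum]
  refine Finset.sum_congr rfl fun a _ => Finset.sum_congr rfl fun b _ => ?_
  rw [ee_conj, ← ee_add]
  congr 1
  push_cast
  ring

/-- the double sum over two classes -/
theorem two_orth (p p' N : ℕ) (hp : 0 < p) (hp' : 0 < p') (hc : Nat.Coprime p p') (c : ℝ) :
    ∑ x ∈ range p, ∑ y ∈ range p',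
      ‖∑ a ∈ Icc 1 N, ee ((a : ℝ) * ((x : ℝ) / p - (y : ℝ) / p' + c))‖ ^ 2 ≤
      (N : ℝ) * (N + p * p') := by
  have hpr : (p : ℝ) ≠ 0 := by exact_mod_cast hp.ne'
  have hpr' : (p' : ℝ) ≠ 0 := by exact_mod_cast hp'.ne'
  have h0 : 0 ≤ ∑ x ∈ range p, ∑ y ∈ range p',
      ‖∑ a ∈ Icc 1 N, ee ((a : ℝ) * ((x : ℝ) / p - (y : ℝ) / p' + c))‖ ^ 2 := by positivity
  have h1 : (((∑ x ∈ range p, ∑ y ∈ range p',
      ‖∑ a ∈ Icc 1 N, ee ((a : ℝ) * ((x : ℝ) / p - (y : ℝ) / p' + c))‖ ^ 2 : ℝ)) : ℂ) =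
      ∑ a ∈ Icc 1 N, ∑ b ∈ Icc 1 N, ee (((((a : ℤ) - (b : ℤ)) : ℤ) : ℝ) * c) *
        ((if (p : ℤ) ∣ (a : ℤ) - b then (p : ℂ) else 0) *
        (if (p' : ℤ) ∣ (a : ℤ) - b then (p' : ℂ) else 0)) := by
    rw [Complex.ofReal_sum]
    simp only [Complex.ofReal_sum]
    simp only [← sq_exp]
    have e1 : ∀ x ∈ range p, ∑ y ∈ range p', ∑ a ∈ Icc 1 N, ∑ b ∈ Icc 1 N,
        ee (((((a : ℤ) - (b : ℤ)) : ℤ) : ℝ) * ((x : ℝ) / p - (y : ℝ) / p' + c)) =
        ∑ a ∈ Icc 1 N, ∑ b ∈ Icc 1 N, ∑ y ∈ range p',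
        ee (((((a : ℤ) - (b : ℤ)) : ℤ) : ℝ) * ((x : ℝ) / p - (y : ℝ) / p' + c)) := by
      intro x _
      rw [Finset.sum_comm]
      refine Finset.sum_congr rfl fun a _ => ?_
      rw [Finset.sum_comm]
    rw [Finset.sum_congr rfl e1, Finset.sum_comm]
    refine Finset.sum_congr rfl fun a _ => ?_
    rw [Finset.sum_comm]
    refine Finset.sum_congr rfl fun b _ => ?_
    rw [← orth p hp, ← star_star (if (p' : ℤ) ∣ (a : ℤ) - b then (p' : ℂ) else 0)]
    have e2 : star (if (p' : ℤ) ∣ (a : ℤ) - b then (p' : ℂ) else 0) =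
        ∑ y ∈ range p', ee ((y : ℝ) * (((a : ℤ) - (b : ℤ) : ℤ) : ℝ) / p') := by
      rw [orth p' hp']
      split_ifs
      · exact Complex.conj_natCast _
      · exact star_zero _
    rw [e2, star_sum, Finset.sum_mul_sum, Finset.mul_sum]
    refine Finset.sum_congr rfl fun x _ => ?_
    rw [Finset.mul_sum]
    refine Finset.sum_congr rfl fun y _ => ?_
    change _ = _ * (_ * conj _)
    rw [ee_conj, ← ee_add, ← ee_add]
    congr 1
    field_simp
    ring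
  have h2 : ∑ x ∈ range p, ∑ y ∈ range p',
      ‖∑ a ∈ Icc 1 N, ee ((a : ℝ) * ((x : ℝ) / p - (y : ℝ) / p' + c))‖ ^ 2 =
      ‖∑ a ∈ Icc 1 N, ∑ b ∈ Icc 1 N, ee (((((a : ℤ) - (b : ℤ)) : ℤ) : ℝ) * c) *
        ((if (p : ℤ) ∣ (a : ℤ) - b then (p : ℂ) else 0) *
        (if (p' : ℤ) ∣ (a : ℤ) - b then (p' : ℂ) else 0))‖ := by
    rw [← h1, Complex.norm_real, Real.norm_eq_abs, abs_of_nonneg h0]
  rw [h2]
  have h3 : ∀ a ∈ Icc 1 N, ‖∑ b ∈ Icc 1 N, ee (((((a : ℤ) - (b : ℤ)) : ℤ) : ℝ) * c) *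
        ((if (p : ℤ) ∣ (a : ℤ) - b then (p : ℂ) else 0) *
        (if (p' : ℤ) ∣ (a : ℤ) - b then (p' : ℂ) else 0))‖ ≤ N + p * p' := by
    intro a _
    refine (norm_sum_le _ _).trans ?_
    have h4 : ∀ b ∈ Icc 1 N, ‖ee (((((a : ℤ) - (b : ℤ)) : ℤ) : ℝ) * c) *
        ((if (p : ℤ) ∣ (a : ℤ) - b then (p : ℂ) else 0) *
        (if (p' : ℤ) ∣ (a : ℤ) - b then (p' : ℂ) else 0))‖ =
        (p * p') * (if ((p * p' : ℕ) : ℤ) ∣ (a : ℤ) - b then (1 : ℝ) else 0) := by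
      intro b _
      rw [norm_mul, ee_norm, one_mul, norm_mul]
      have h5 : (((p * p' : ℕ) : ℤ) ∣ (a : ℤ) - b) ↔ ((p : ℤ) ∣ (a : ℤ) - b) ∧
          ((p' : ℤ) ∣ (a : ℤ) - b) := by
        push_cast
        constructor
        · intro h
          exact ⟨(Dvd.intro _ rfl).trans h, (Dvd.intro_left _ rfl).trans h⟩
        · rintro ⟨h, h'⟩
          exact IsCoprime.mul_dvd (Nat.isCoprime_iff_coprime.2 hc) h h'
      by_cases h6 : (p : ℤ) ∣ (a : ℤ) - b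
      · by_cases h7 : (p' : ℤ) ∣ (a : ℤ) - b
        · rw [if_pos h6, if_pos h7, if_pos (h5.2 ⟨h6, h7⟩)]
          simp
        · rw [if_neg h7, if_neg (fun h => h7 (h5.1 h).2)]
          simp
      · rw [if_neg h6, if_neg (fun h => h6 (h5.1 h).1)]
        simp
    rw [Finset.sum_congr rfl h4, ← Finset.mul_sum]
    have h5 := count (p * p') N (Nat.mul_pos hp hp') a
    have h6 : (0 : ℝ) ≤ p * p' := by positivity
    refine (mul_le_mul_of_nonneg_left h5 h6).trans ?_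
    push_cast
    rw [mul_add, mul_one, mul_div_cancel₀ _ (mul_ne_zero hpr hpr')]
  refine (norm_sum_le _ _).trans ((Finset.sum_le_sum h3).trans ?_)
  rw [Finset.sum_const, Nat.card_Icc, nsmul_eq_mul, Nat.add_sub_cancel]

/-- products of two periodic functions -/
theorem diag_sum (p r : ℕ) (hp : 0 < p) (hr : 0 < r) (hc : Nat.Coprime p r) (f g : ℤ → ℝ)
    (hf0 : ∀ n, 0 ≤ f n) (hg0 : ∀ n, 0 ≤ g n) (hf : ∀ n : ℤ, f (n + p) = f n)
    (hg : ∀ n : ℤ, g (n + r) = g n) :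
    ∑ x ∈ range (p * r), f x * g x ≤ (∑ x ∈ range p, f x) * ∑ y ∈ range r, g y := by
  rw [Finset.sum_mul_sum, ← Finset.sum_product']
  have h1 : ∀ x ∈ range (p * r), f x * g x = f ((x % p : ℕ) : ℤ) * g ((x % r : ℕ) : ℤ) := by
    intro x _
    push_cast
    rw [per_mod hf, per_mod hg]
  rw [Finset.sum_congr rfl h1]
  have hinj : Set.InjOn (fun x : ℕ => (x % p, x % r)) (range (p * r) : Finset ℕ) := by
    intro x hx y hy hxy
    have h2 := congrArg Prod.fst hxy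
    have h3 := congrArg Prod.snd hxy
    dsimp only at h2 h3
    have h4 : x ≡ y [MOD p * r] := (Nat.modEq_and_modEq_iff_modEq_mul hc).1 ⟨h2, h3⟩
    exact Nat.ModEq.eq_of_lt_of_lt h4 (Finset.mem_range.1 hx) (Finset.mem_range.1 hy)
  rw [← Finset.sum_image (f := fun z : ℕ × ℕ => f (z.1 : ℤ) * g (z.2 : ℤ)) hinj]
  refine Finset.sum_le_sum_of_subset_of_nonneg ?_ fun z _ _ => mul_nonneg (hf0 _) (hg0 _)
  intro z hz
  obtain ⟨x, hx, rfl⟩ := Finset.mem_image.1 hz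
  exact Finset.mem_product.2 ⟨Finset.mem_range.2 (Nat.mod_lt _ hp),
    Finset.mem_range.2 (Nat.mod_lt _ hr)⟩

/-- the off-diagonal terms -/
theorem off_diag (p p' r N : ℕ) (hp : 0 < p) (hp' : 0 < p') (hr : 0 < r) (hc : Nat.Coprime p p')
    (f f' W : ℤ → ℂ) (hf : ∀ n : ℤ, f (n + p) = f n) (hf' : ∀ n : ℤ, f' (n + p') = f' n)
    (hW : ∀ n : ℤ, W (n + r) = W n) (CA : ℝ) (hCA : 0 ≤ CA)
    (hfb : ∀ y : ℤ, ‖∑ x ∈ range p, f x * ee (-((x : ℝ) * y / p))‖ ≤ CA * p)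
    (hfb' : ∀ y : ℤ, ‖∑ x ∈ range p', f' x * ee (-((x : ℝ) * y / p'))‖ ≤ CA * p') :
    ‖∑ a ∈ Icc 1 N, ∑ b ∈ Icc 1 N, f ((a : ℤ) - b) * conj (f' ((a : ℤ) - b)) * W ((a : ℤ) - b)‖ ≤
      CA ^ 2 * (N * (N + p * p')) * ∑ z ∈ range r,
        ‖1 / (r : ℂ) * ∑ k ∈ range r, W k * ee (-((k : ℝ) * ((z : ℤ) : ℝ) / r))‖ := by
  set A : ℕ → ℂ := fun x => 1 / (p : ℂ) * ∑ k ∈ range p, f k * ee (-((k : ℝ) * ((x : ℤ) : ℝ) / p))
    with hA
  set B : ℕ → ℂ := fun x => 1 / (p' : ℂ) *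
    ∑ k ∈ range p', f' k * ee (-((k : ℝ) * ((x : ℤ) : ℝ) / p')) with hB
  set g : ℕ → ℂ := fun x => 1 / (r : ℂ) * ∑ k ∈ range r, W k * ee (-((k : ℝ) * ((x : ℤ) : ℝ) / r))
    with hg
  have hA1 : ∀ x, ‖A x‖ ≤ CA := by
    intro x
    have h1 : (0 : ℝ) < p := by exact_mod_cast hp
    rw [hA]
    dsimp only
    rw [norm_mul, norm_div, norm_one, Complex.norm_natCast, one_div, inv_mul_le_iff₀ h1, mul_comm]
    exact hfb x
  have hB1 : ∀ x, ‖B x‖ ≤ CA := by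
    intro x
    have h1 : (0 : ℝ) < p' := by exact_mod_cast hp'
    rw [hB]
    dsimp only
    rw [norm_mul, norm_div, norm_one, Complex.norm_natCast, one_div, inv_mul_le_iff₀ h1, mul_comm]
    exact hfb' x
  have hexp : ∀ n : ℤ, f n * conj (f' n) * W n = ∑ z ∈ range r, ∑ x ∈ range p, ∑ y ∈ range p',
      (A x * conj (B y) * g z) * ee ((n : ℝ) * ((x : ℝ) / p - (y : ℝ) / p' + (z : ℝ) / r)) := by
    intro n
    have e1 := fourier p hp f hf n
    have e2 := fourier p' hp' f' hf' n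
    have e3 := fourier r hr W hW n
    conv_lhs => rw [e1, e2, e3]
    rw [map_sum, Finset.sum_mul_sum, mul_comm, Finset.sum_mul]
    refine Finset.sum_congr rfl fun z _ => ?_
    rw [Finset.mul_sum]
    refine Finset.sum_congr rfl fun x _ => ?_
    rw [Finset.mul_sum]
    refine Finset.sum_congr rfl fun y _ => ?_
    rw [map_mul, ee_conj]
    have e4 : ee ((n : ℝ) * ((x : ℝ) / p - (y : ℝ) / p' + (z : ℝ) / r)) =
        ee ((x : ℝ) * n / p) * ee (-((y : ℝ) * n / p')) * ee ((z : ℝ) * n / r) := by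
      rw [← ee_add, ← ee_add]
      congr 1
      ring
    rw [e4]
    change g z * _ * (A x * _ * (conj (B y) * _)) = _
    ring
  have hT : ∑ a ∈ Icc 1 N, ∑ b ∈ Icc 1 N,
      f ((a : ℤ) - b) * conj (f' ((a : ℤ) - b)) * W ((a : ℤ) - b) =
      ∑ z ∈ range r, ∑ x ∈ range p, ∑ y ∈ range p', (A x * conj (B y) * g z) *
        ((‖∑ a ∈ Icc 1 N, ee ((a : ℝ) * ((x : ℝ) / p - (y : ℝ) / p' + (z : ℝ) / r))‖ ^ 2 : ℝ) : ℂ) := by
    simp only [hexp, ← sq_exp, Finset.mul_sum]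
    have c1 : ∀ a ∈ Icc 1 N, ∑ b ∈ Icc 1 N, ∑ z ∈ range r, ∑ x ∈ range p, ∑ y ∈ range p',
        (A x * conj (B y) * g z) *
          ee ((((a : ℤ) - (b : ℤ) : ℤ) : ℝ) * ((x : ℝ) / p - (y : ℝ) / p' + (z : ℝ) / r)) =
        ∑ z ∈ range r, ∑ x ∈ range p, ∑ y ∈ range p', ∑ b ∈ Icc 1 N, (A x * conj (B y) * g z) *
          ee ((((a : ℤ) - (b : ℤ) : ℤ) : ℝ) * ((x : ℝ) / p - (y : ℝ) / p' + (z : ℝ) / r)) := by
      intro a _
      rw [Finset.sum_comm]
      refine Finset.sum_congr rfl fun z _ => ?_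
      rw [Finset.sum_comm]
      refine Finset.sum_congr rfl fun x _ => ?_
      rw [Finset.sum_comm]
    rw [Finset.sum_congr rfl c1, Finset.sum_comm]
    refine Finset.sum_congr rfl fun z _ => ?_
    rw [Finset.sum_comm]
    refine Finset.sum_congr rfl fun x _ => ?_
    rw [Finset.sum_comm]
  rw [hT]
  have hz : ∀ z ∈ range r, ‖∑ x ∈ range p, ∑ y ∈ range p', (A x * conj (B y) * g z) *
        ((‖∑ a ∈ Icc 1 N, ee ((a : ℝ) * ((x : ℝ) / p - (y : ℝ) / p' + (z : ℝ) / r))‖ ^ 2 : ℝ) : ℂ)‖ ≤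
      CA ^ 2 * (N * (N + p * p')) * ‖g z‖ := by
    intro z _
    have h1 : ∀ x ∈ range p, ∀ y ∈ range p', ‖(A x * conj (B y) * g z) *
        ((‖∑ a ∈ Icc 1 N, ee ((a : ℝ) * ((x : ℝ) / p - (y : ℝ) / p' + (z : ℝ) / r))‖ ^ 2 : ℝ) : ℂ)‖ ≤
        CA ^ 2 * ‖g z‖ *
          ‖∑ a ∈ Icc 1 N, ee ((a : ℝ) * ((x : ℝ) / p - (y : ℝ) / p' + (z : ℝ) / r))‖ ^ 2 := by
      intro x _ y _
      rw [norm_mul, norm_mul, norm_mul, RCLike.norm_conj, Complex.norm_real, Real.norm_eq_abs,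
        abs_of_nonneg (by positivity)]
      refine mul_le_mul_of_nonneg_right ?_ (by positivity)
      refine mul_le_mul_of_nonneg_right ?_ (norm_nonneg _)
      rw [sq]
      exact mul_le_mul (hA1 x) (hB1 y) (norm_nonneg _) hCA
    refine (norm_sum_le _ _).trans ?_
    refine (Finset.sum_le_sum fun x hx => (norm_sum_le _ _).trans
      (Finset.sum_le_sum fun y hy => h1 x hx y hy)).trans ?_
    simp only [← Finset.mul_sum]
    have h2 := two_orth p p' N hp hp' hc ((z : ℝ) / r)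
    have h3 : 0 ≤ CA ^ 2 * ‖g z‖ := by positivity
    calc CA ^ 2 * ‖g z‖ * ∑ x ∈ range p, ∑ y ∈ range p',
          ‖∑ a ∈ Icc 1 N, ee ((a : ℝ) * ((x : ℝ) / p - (y : ℝ) / p' + (z : ℝ) / r))‖ ^ 2
        ≤ CA ^ 2 * ‖g z‖ * (N * (N + p * p')) := mul_le_mul_of_nonneg_left h2 h3
      _ = _ := by ring
  refine (norm_sum_le _ _).trans ((Finset.sum_le_sum hz).trans ?_)
  rw [← Finset.mul_sum]

end BilAux

open Finset BilAux in
open scoped ComplexConjugate in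
theorem t_bil : S_bil := by
  classical
  intro r P A G CA Bp M L α β hr hL hCA hM hP hAper hA2 hAf hGper hG2 hGf hβ
  have hrR : (0 : ℝ) < r := by exact_mod_cast hr
  have hLR : (0 : ℝ) < L := by exact_mod_cast hL
  set H : ℤ → ℂ := fun n => ∑ p ∈ P, β p * (A p n * G p n) with hH
  -- step 0
  have h0 : ∑ p ∈ P, β p * ∑ n ∈ Icc 1 L, α n * (A p n * G p n) = ∑ n ∈ Icc 1 L, α n * H n := by
    simp only [hH, Finset.mul_sum]
    rw [Finset.sum_comm]
    refine Finset.sum_congr rfl fun n _ => Finset.sum_congr rfl fun p _ => ?_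
    ring
  have h1 : ‖∑ p ∈ P, β p * ∑ n ∈ Icc 1 L, α n * (A p n * G p n)‖ ^ 2 ≤
      (∑ n ∈ Icc 1 L, ‖α n‖ ^ 2) * ∑ n ∈ Icc 1 L, ‖H n‖ ^ 2 := by
    rw [h0]
    have h2 : ‖∑ n ∈ Icc 1 L, α n * H n‖ ≤ ∑ n ∈ Icc 1 L, ‖α n‖ * ‖H n‖ := by
      refine (norm_sum_le _ _).trans (le_of_eq ?_)
      exact Finset.sum_congr rfl fun n _ => norm_mul _ _
    exact (pow_le_pow_left₀ (norm_nonneg _) h2 2).trans (Finset.sum_mul_sq_le_sq_mul_sq _ _ _)
  refine h1.trans (mul_le_mul_of_nonneg_left ?_ (by positivity))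
  -- step 1
  have h2 : (L : ℝ) * ∑ n ∈ Icc 1 L, ‖H n‖ ^ 2 ≤
      ∑ a ∈ Icc 1 (2 * L), ∑ b ∈ Icc 1 (2 * L), ‖H ((a : ℤ) - b)‖ ^ 2 := by
    rw [Finset.sum_comm]
    have h3 : ∀ b ∈ Icc 1 L, ∑ n ∈ Icc 1 L, ‖H n‖ ^ 2 ≤
        ∑ a ∈ Icc 1 (2 * L), ‖H ((a : ℤ) - b)‖ ^ 2 := by
      intro b hb
      have hb' := Finset.mem_Icc.1 hb
      have h4 : ∑ n ∈ Icc 1 L, ‖H n‖ ^ 2 =
          ∑ a ∈ (Icc 1 L).image (fun n => n + b), ‖H ((a : ℤ) - b)‖ ^ 2 := by
        rw [Finset.sum_image (fun x _ y _ hxy => by simpa using hxy)]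
        refine Finset.sum_congr rfl fun n _ => ?_
        push_cast
        rw [add_sub_cancel_right]
      rw [h4]
      refine Finset.sum_le_sum_of_subset_of_nonneg ?_ fun _ _ _ => by positivity
      intro x hx
      obtain ⟨n, hn, rfl⟩ := Finset.mem_image.1 hx
      have hn' := Finset.mem_Icc.1 hn
      rw [Finset.mem_Icc]
      omega
    calc (L : ℝ) * ∑ n ∈ Icc 1 L, ‖H n‖ ^ 2 = ∑ b ∈ Icc 1 L, ∑ n ∈ Icc 1 L, ‖H n‖ ^ 2 := by
          rw [Finset.sum_const, Nat.card_Icc, nsmul_eq_mul, Nat.add_sub_cancel]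
      _ ≤ ∑ b ∈ Icc 1 L, ∑ a ∈ Icc 1 (2 * L), ‖H ((a : ℤ) - b)‖ ^ 2 := Finset.sum_le_sum h3
      _ ≤ _ := by
          refine Finset.sum_le_sum_of_subset_of_nonneg ?_ fun _ _ _ => by positivity
          exact Finset.Icc_subset_Icc_right (by omega)
  -- step 2
  set T : ℕ → ℕ → ℂ := fun p p' => ∑ a ∈ Icc 1 (2 * L), ∑ b ∈ Icc 1 (2 * L),
    A p ((a : ℤ) - b) * conj (A p' ((a : ℤ) - b)) * (G p ((a : ℤ) - b) * conj (G p' ((a : ℤ) - b)))
    with hT
  have h3 : ((∑ a ∈ Icc 1 (2 * L), ∑ b ∈ Icc 1 (2 * L), ‖H ((a : ℤ) - b)‖ ^ 2 : ℝ) : ℂ) =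
      ∑ p ∈ P, ∑ p' ∈ P, β p * conj (β p') * T p p' := by
    rw [Complex.ofReal_sum]
    simp only [Complex.ofReal_sum]
    have h4 : ∀ n : ℤ, ((‖H n‖ ^ 2 : ℝ) : ℂ) = ∑ p ∈ P, ∑ p' ∈ P, β p * conj (β p') *
        (A p n * conj (A p' n) * (G p n * conj (G p' n))) := by
      intro n
      rw [← Complex.normSq_eq_norm_sq, ← Complex.mul_conj, hH]
      dsimp only
      rw [map_sum, Finset.sum_mul_sum]
      refine Finset.sum_congr rfl fun p _ => Finset.sum_congr rfl fun p' _ => ?_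
      rw [map_mul, map_mul]
      ring
    simp only [h4, hT, Finset.mul_sum]
    have c1 : ∀ a ∈ Icc 1 (2 * L), ∑ b ∈ Icc 1 (2 * L), ∑ p ∈ P, ∑ p' ∈ P, β p * conj (β p') *
        (A p ((a : ℤ) - b) * conj (A p' ((a : ℤ) - b)) *
          (G p ((a : ℤ) - b) * conj (G p' ((a : ℤ) - b)))) =
        ∑ p ∈ P, ∑ p' ∈ P, ∑ b ∈ Icc 1 (2 * L), β p * conj (β p') *
        (A p ((a : ℤ) - b) * conj (A p' ((a : ℤ) - b)) *
          (G p ((a : ℤ) - b) * conj (G p' ((a : ℤ) - b)))) := by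
      intro a _
      rw [Finset.sum_comm]
      refine Finset.sum_congr rfl fun p _ => ?_
      rw [Finset.sum_comm]
    rw [Finset.sum_congr rfl c1, Finset.sum_comm]
    refine Finset.sum_congr rfl fun p _ => ?_
    rw [Finset.sum_comm]
  have h4 : ∑ a ∈ Icc 1 (2 * L), ∑ b ∈ Icc 1 (2 * L), ‖H ((a : ℤ) - b)‖ ^ 2 ≤
      ∑ p ∈ P, ∑ p' ∈ P, ‖T p p'‖ := by
    have h5 : 0 ≤ ∑ a ∈ Icc 1 (2 * L), ∑ b ∈ Icc 1 (2 * L), ‖H ((a : ℤ) - b)‖ ^ 2 := by positivity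
    rw [← abs_of_nonneg h5, ← Real.norm_eq_abs, ← Complex.norm_real, h3]
    refine (norm_sum_le _ _).trans (Finset.sum_le_sum fun p hp => (norm_sum_le _ _).trans
      (Finset.sum_le_sum fun p' hp' => ?_))
    rw [norm_mul, norm_mul, RCLike.norm_conj]
    have h6 : ‖β p‖ * ‖β p'‖ ≤ 1 := mul_le_one₀ (hβ p hp) (norm_nonneg _) (hβ p' hp')
    calc ‖β p‖ * ‖β p'‖ * ‖T p p'‖ ≤ 1 * ‖T p p'‖ :=
          mul_le_mul_of_nonneg_right h6 (norm_nonneg _)
      _ = _ := one_mul _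
  -- the diagonal
  set D : ℕ → ℝ := fun p => 2 * L * (2 * L * (p * r) + (p : ℝ) ^ 2 * (r : ℝ) ^ 2) with hD
  have hdiag : ∀ p ∈ P, ‖T p p‖ ≤ D p := by
    intro p hp
    obtain ⟨hpp, hpr, hpB⟩ := hP p hp
    have hp0 := hpp.pos
    have hpR : (0 : ℝ) < p := by exact_mod_cast hp0
    have hc : Nat.Coprime p r := (Nat.Prime.coprime_iff_not_dvd hpp).2 hpr
    set F : ℤ → ℝ := fun n => ‖A p n‖ ^ 2 * ‖G p n‖ ^ 2 with hF
    have hFper : ∀ n : ℤ, F (n + ((p * r : ℕ) : ℤ)) = F n := by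
      intro n
      simp only [hF]
      have e1 : A p (n + ((p * r : ℕ) : ℤ)) = A p n := by
        push_cast
        exact per_mul (hAper p hp) n r
      have e2 : G p (n + ((p * r : ℕ) : ℤ)) = G p n := by
        push_cast
        rw [mul_comm]
        exact per_mul (hGper p hp) n p
      rw [e1, e2]
    have h5 : ∑ x ∈ range (p * r), F x ≤ (p : ℝ) ^ 2 * (r : ℝ) ^ 2 := by
      refine (diag_sum p r hp0 hr hc (fun n => ‖A p n‖ ^ 2) (fun n => ‖G p n‖ ^ 2)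
        (fun n => by positivity) (fun n => by positivity)
        (fun n => by rw [hAper p hp]) (fun n => by rw [hGper p hp])).trans ?_
      exact mul_le_mul (hA2 p hp) (hG2 p hp) (Finset.sum_nonneg fun _ _ => by positivity)
        (by positivity)
    have h6 : ‖T p p‖ ≤ ∑ a ∈ Icc 1 (2 * L), ∑ b ∈ Icc 1 (2 * L), F ((a : ℤ) - b) := by
      refine (norm_sum_le _ _).trans (Finset.sum_le_sum fun a _ => (norm_sum_le _ _).trans
        (Finset.sum_le_sum fun b _ => le_of_eq ?_))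
      rw [norm_mul, norm_mul, norm_mul, RCLike.norm_conj, RCLike.norm_conj]
      simp only [hF]
      ring
    refine h6.trans ?_
    have h7 : ∀ a ∈ Icc 1 (2 * L), ∑ b ∈ Icc 1 (2 * L), F ((a : ℤ) - b) ≤
        2 * L * (p * r) + (p : ℝ) ^ 2 * (r : ℝ) ^ 2 := by
      intro a _
      refine (per_sum (p * r) (2 * L) (Nat.mul_pos hp0 hr) F (fun n => by simp only [hF]; positivity)
        hFper a).trans ?_
      refine (mul_le_mul_of_nonneg_left h5 (by positivity)).trans (le_of_eq ?_)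
      push_cast
      field_simp
    refine (Finset.sum_le_sum h7).trans (le_of_eq ?_)
    rw [Finset.sum_const, Nat.card_Icc, nsmul_eq_mul, Nat.add_sub_cancel]
    push_cast
    rfl
  -- the off-diagonal terms
  set S : ℕ → ℕ → ℕ → ℂ := fun p p' z => ∑ x ∈ range r, G p x * conj (G p' x) *
    ee (-((x : ℝ) * ((z : ℤ) : ℝ) / r)) with hS
  set E : ℕ → ℕ → ℝ := fun p p' => CA ^ 2 * (2 * L * (2 * L + Bp ^ 2)) *
    ∑ z ∈ range r, (1 / r) * ‖S p p' z‖ with hE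
  have hoff : ∀ p ∈ P, ∀ p' ∈ P, p ≠ p' → ‖T p p'‖ ≤ E p p' := by
    intro p hp p' hp' hne
    obtain ⟨hpp, hpr, hpB⟩ := hP p hp
    obtain ⟨hpp', hpr', hpB'⟩ := hP p' hp'
    have hc : Nat.Coprime p p' := (Nat.coprime_primes hpp hpp').2 hne
    have h5 := off_diag p p' r (2 * L) hpp.pos hpp'.pos hr hc (A p) (A p')
      (fun n => G p n * conj (G p' n)) (hAper p hp) (hAper p' hp')
      (fun n => by rw [hGper p hp, hGper p' hp']) CA hCA (hAf p hp) (hAf p' hp')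
    refine h5.trans ?_
    have h6 : (p : ℝ) * p' ≤ Bp ^ 2 := by
      rw [sq]
      exact mul_le_mul hpB hpB' (by positivity) (le_trans (by positivity) hpB)
    have h7 : ∀ z ∈ range r, ‖1 / (r : ℂ) * ∑ k ∈ range r, G p k * conj (G p' k) *
        ee (-((k : ℝ) * ((z : ℤ) : ℝ) / r))‖ = (1 / r) * ‖S p p' z‖ := by
      intro z _
      rw [norm_mul, norm_div, norm_one, Complex.norm_natCast]
    rw [Finset.sum_congr rfl h7, hE]
    dsimp only
    refine mul_le_mul_of_nonneg_right ?_ (Finset.sum_nonneg fun _ _ => by positivity)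
    refine mul_le_mul_of_nonneg_left ?_ (by positivity)
    push_cast
    refine mul_le_mul_of_nonneg_left ?_ (by positivity)
    linarith
  have hE0 : ∀ p p', 0 ≤ E p p' := by
    intro p p'
    simp only [hE]
    have : 0 ≤ ∑ z ∈ range r, (1 / (r : ℝ)) * ‖S p p' z‖ :=
      Finset.sum_nonneg fun _ _ => by positivity
    positivity
  have hall : ∑ p ∈ P, ∑ p' ∈ P, ‖T p p'‖ ≤ ∑ p ∈ P, D p + ∑ p ∈ P, ∑ p' ∈ P, E p p' := by
    rw [← Finset.sum_add_distrib]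
    refine Finset.sum_le_sum fun p hp => ?_
    have h5 : ∀ p' ∈ P, ‖T p p'‖ ≤ (if p = p' then D p else 0) + E p p' := by
      intro p' hp'
      split_ifs with h
      · rw [← h]
        have := hdiag p hp
        have := hE0 p p
        linarith
      · rw [zero_add]
        exact hoff p hp p' hp' h
    refine (Finset.sum_le_sum h5).trans ?_
    rw [Finset.sum_add_distrib, Finset.sum_ite_eq, if_pos hp]
  have hEsum : ∑ p ∈ P, ∑ p' ∈ P, E p p' ≤
      CA ^ 2 * (2 * L * (2 * L + Bp ^ 2)) * (P.card * M * (r : ℝ) ^ (5 / 2 : ℝ)) := by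
    have h5 : ∀ z : ℕ, ∑ p ∈ P, ∑ p' ∈ P, ‖S p p' z‖ ≤ P.card * M * (r : ℝ) ^ (5 / 2 : ℝ) := by
      intro z
      have h6 := hGf (z : ℤ)
      have h7 : (∑ p ∈ P, ∑ p' ∈ P, ‖S p p' z‖) ^ 2 ≤
          (P.card * M * (r : ℝ) ^ (5 / 2 : ℝ)) ^ 2 := by
        rw [← Finset.sum_product']
        have h8 : (∑ x ∈ P ×ˢ P, ‖S x.1 x.2 z‖) ^ 2 ≤
            (P ×ˢ P).card * ∑ x ∈ P ×ˢ P, ‖S x.1 x.2 z‖ ^ 2 := sq_sum_le_card_mul_sum_sq
        refine h8.trans ?_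
        rw [Finset.sum_product, Finset.card_product]
        have h9 : ((r : ℝ) ^ (5 / 2 : ℝ)) ^ 2 = (r : ℝ) ^ 5 := by
          rw [← Real.rpow_natCast, ← Real.rpow_mul hrR.le, ← Real.rpow_natCast]
          norm_num
        rw [mul_pow, h9]
        calc ((P.card * P.card : ℕ) : ℝ) * ∑ p ∈ P, ∑ p' ∈ P, ‖S p p' z‖ ^ 2
            ≤ ((P.card * P.card : ℕ) : ℝ) * (M ^ 2 * (r : ℝ) ^ 5) :=
              mul_le_mul_of_nonneg_left h6 (by positivity)
          _ = _ := by push_cast; ring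
      exact le_of_sq_le_sq h7 (by positivity)
    have h6 : ∑ p ∈ P, ∑ p' ∈ P, E p p' = CA ^ 2 * (2 * L * (2 * L + Bp ^ 2)) *
        ∑ z ∈ range r, (1 / r) * ∑ p ∈ P, ∑ p' ∈ P, ‖S p p' z‖ := by
      simp only [hE, ← Finset.mul_sum]
      congr 2
      have c1 : ∀ p ∈ P, ∑ p' ∈ P, ∑ z ∈ range r, ‖S p p' z‖ =
          ∑ z ∈ range r, ∑ p' ∈ P, ‖S p p' z‖ := fun p _ => Finset.sum_comm
      rw [Finset.sum_congr rfl c1, Finset.sum_comm]
    rw [h6]
    refine mul_le_mul_of_nonneg_left ?_ (by positivity)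
    refine (Finset.sum_le_sum fun z _ => mul_le_mul_of_nonneg_left (h5 z) (by positivity)).trans
      (le_of_eq ?_)
    rw [Finset.sum_const, Finset.card_range, nsmul_eq_mul]
    field_simp
  have hfin := h2.trans (h4.trans (hall.trans (add_le_add_right hEsum _)))
  have hDsum : ∑ p ∈ P, D p = 2 * L * ∑ p ∈ P, (2 * L * (p * r) + (p : ℝ) ^ 2 * (r : ℝ) ^ 2) := by
    rw [Finset.mul_sum]
  rw [hDsum] at hfin
  have h5 : (L : ℝ) * ∑ n ∈ Icc 1 L, ‖H n‖ ^ 2 ≤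
      L * (2 * ∑ p ∈ P, (2 * L * (p * r) + (p : ℝ) ^ 2 * (r : ℝ) ^ 2) +
      2 * CA ^ 2 * (2 * L + Bp ^ 2) * (P.card * M * (r : ℝ) ^ (5 / 2 : ℝ))) := by
    refine hfin.trans (le_of_eq ?_)
    ring
  exact le_of_mul_le_mul_left h5 hLR

end Pool.Agent.NH12.GL
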