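import Pool.Agent.NH12.GL.Coef3

/-!
# The bilinear sums for one modulus `r`
-/

set_option autoImplicit false

namespace Pool.Agent.NH12.GL

open Finset DirichletCharacter Pool.Agent.NH12.NV
open scoped ComplexConjugate

/-- the primes belonging to `r` -/
noncomputable def Pd (Pr : Set ℕ) (N Q r : ℕ) : Finset ℕ := by
  classical
  exact (Icc 1 Q).filter fun p => (p, r) ∈ DD Pr N Q

lemma mem_Pd {Pr : Set ℕ} {N Q r p : ℕ} : p ∈ Pd Pr N Q r ↔ (p, r) ∈ DD Pr N Q := by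
  classical
  unfold Pd
  rw [Finset.mem_filter]
  refine ⟨fun h => h.2, fun h => ⟨?_, h⟩⟩
  have := (mem_DD.1 h).1.1
  exact mem_Icc.2 this

lemma sum_DD_eq {Pr : Set ℕ} {N Q : ℕ} {M : Type} [AddCommMonoid M] (f : ℕ → ℕ → M) :
    ∑ x ∈ DD Pr N Q, f x.1 x.2 = ∑ r ∈ Icc 1 Q, ∑ p ∈ Pd Pr N Q r, f p r := by
  classical
  rw [Finset.sum_sigma' (Icc 1 Q) (fun r => Pd Pr N Q r) (fun r p => f p r)]
  refine Finset.sum_bij' (fun x _ => ⟨x.2, x.1⟩) (fun y _ => (y.2, y.1)) ?_ ?_ ?_ ?_ ?_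
  · intro x hx
    rw [Finset.mem_sigma, mem_Pd]
    exact ⟨mem_Icc.2 (mem_DD.1 hx).1.2, hx⟩
  · intro y hy
    rw [Finset.mem_sigma, mem_Pd] at hy
    exact hy.2
  · intro x _
    rfl
  · intro y _
    rfl
  · intro x _
    rfl

/-- facts about `r` -/
lemma Pd_facts {Pr : Set ℕ} {N Q r p : ℕ} (hp : p ∈ Pd Pr N Q r) :
    1 ≤ Q ∧ 1 ≤ r ∧ p.Prime ∧ ¬ p ∣ r ∧ p * r ≤ Q ∧ (Q : ℝ) ^ (9 / 25 : ℝ) < r ∧
      (r : ℝ) ≤ (Q : ℝ) ^ (2 / 5 : ℝ) := by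
  rw [mem_Pd] at hp
  have h1 := DD_lt hp
  have h2 := DD_cop hp
  rw [mem_DD] at hp
  obtain ⟨⟨⟨h3, h4⟩, h5, h6⟩, ⟨h7, h8⟩, ⟨h9, h10⟩, h11, h12, h13⟩ := hp
  exact ⟨h3.trans h4, h5, h8, (Nat.Prime.coprime_iff_not_dvd h8).1 h2, h12, h11, h1.2⟩

lemma Pd_card {Pr : Set ℕ} {N Q r : ℕ} (hr : 1 ≤ r) :
    ((Pd Pr N Q r).card : ℝ) ≤ (Q : ℝ) / r := by
  have h1 : Pd Pr N Q r ⊆ Icc 1 (Q / r) := by
    intro p hp
    have h2 := Pd_facts hp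
    rw [mem_Icc]
    exact ⟨h2.2.2.1.one_lt.le, (Nat.le_div_iff_mul_le hr).2 h2.2.2.2.2.1⟩
  have h2 := Finset.card_le_card h1
  rw [Nat.card_Icc, Nat.add_sub_cancel] at h2
  calc ((Pd Pr N Q r).card : ℝ) ≤ ((Q / r : ℕ) : ℝ) := by exact_mod_cast h2
    _ ≤ (Q : ℝ) / r := Nat.cast_div_le

/-- **the bilinear sum for one `r`** -/
theorem bil_r (hbil : S_bil) (hA : S_Af) (hG : S_Gf) {η : ℝ} (hη : 0 < η) :
    ∃ C : ℝ, 0 ≤ C ∧ ∀ (Pr : Set ℕ) (N Q L r : ℕ) (u : DirichletCharacter ℂ r → ℂ)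
      (v m : ℤ) (α β : ℕ → ℂ) (Sα : ℝ), (∀ χ, ‖u χ‖ ≤ 1) → 1 ≤ L → (L : ℝ) ≤ (Q : ℝ) ^ (6 / 5 : ℝ) →
      ∑ n ∈ Icc 1 L, ‖α n‖ ^ 2 ≤ Sα → (∀ p ∈ Pd Pr N Q r, ‖β p‖ ≤ 1) →
      ‖∑ p ∈ Pd Pr N Q r, β p * ∑ n ∈ Icc 1 L, α n *
        (Af p v n * Gf r u (m * (p : ℤ) ^ 3) n)‖ ≤
      C * (Real.sqrt Sα * ((Q : ℝ) ^ (2 + 3 * η / 2) * (r : ℝ) ^ (-(5 / 4) : ℝ))) := by
  obtain ⟨C₃, hC₃, hA'⟩ := hA η hη
  obtain ⟨C₄, hC₄, hG'⟩ := hG η hη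
  refine ⟨Real.sqrt (6 + 12 * C₃ ^ 2 * C₄), Real.sqrt_nonneg _, ?_⟩
  intro Pr N Q L r u v m α β Sα hu hL hLQ hα hβ
  have hSα : 0 ≤ Sα := le_trans (Finset.sum_nonneg fun _ _ => by positivity) hα
  rcases Finset.eq_empty_or_nonempty (Pd Pr N Q r) with hE | ⟨p₀, hp₀⟩
  · rw [hE, Finset.sum_empty, norm_zero]
    positivity
  obtain ⟨hQ, hr, -, -, -, hr1, hr2⟩ := Pd_facts hp₀
  have hX1 : (1 : ℝ) ≤ Q := by exact_mod_cast hQ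
  set X : ℝ := (Q : ℝ) with hX
  have hX0 : 0 < X := by linarith
  have hr0 : (0 : ℝ) < r := by exact_mod_cast hr
  have hrX : (r : ℝ) ≤ X := by
    refine hr2.trans ?_
    have := Real.rpow_le_rpow_of_exponent_le hX1 (show (2 / 5 : ℝ) ≤ 1 by norm_num)
    rwa [Real.rpow_one] at this
  set Bp : ℝ := X / r with hBp
  have hBp0 : 0 < Bp := by positivity
  have hple : ∀ p ∈ Pd Pr N Q r, (p : ℝ) * r ≤ X := by
    intro p hp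
    have h := (Nat.cast_le (α := ℝ)).2 (Pd_facts hp).2.2.2.2.1
    rwa [Nat.cast_mul, ← hX] at h
  have hpX : ∀ p ∈ Pd Pr N Q r, (p : ℝ) ≤ Bp := by
    intro p hp
    rw [hBp, le_div_iff₀ hr0]
    exact hple p hp
  obtain ⟨g1, g2, g3⟩ := hG' r u m (Pd Pr N Q r) Bp hr hu
    (fun p hp => ⟨(Pd_facts hp).2.2.1.one_lt.le, hpX p hp⟩)
  set M : ℝ := C₄ * (r : ℝ) ^ η * (Bp / r + 1) with hM
  have hM0 : 0 ≤ M := by positivity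
  have hCA : 0 ≤ C₃ * X ^ η := by positivity
  have key := hbil r (Pd Pr N Q r) (fun p n => Af p v n) (fun p n => Gf r u (m * (p : ℤ) ^ 3) n)
    (C₃ * X ^ η) Bp M L α β hr hL hCA hM0
    (fun p hp => ⟨(Pd_facts hp).2.2.1, (Pd_facts hp).2.2.2.1, hpX p hp⟩)
    (fun p hp n => (hA' p v (Pd_facts hp).2.2.1).1 n)
    (fun p hp => (hA' p v (Pd_facts hp).2.2.1).2.1)
    (fun p hp y => by
      refine ((hA' p v (Pd_facts hp).2.2.1).2.2 y).trans ?_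
      have h1 : (p : ℝ) ≤ X := by
        have h2 := hple p hp
        have h3 : (1 : ℝ) ≤ r := by exact_mod_cast hr
        have h4 : (0 : ℝ) ≤ p := Nat.cast_nonneg _
        nlinarith
      gcongr)
    (fun p _ n => g1 _ n) (fun p _ => g2 _) g3 hβ
  refine (pow_le_pow_iff_left₀ (norm_nonneg _) (by positivity) (n := 2) (by norm_num)).1
    (key.trans ?_)
  -- elementary estimates
  have hL0 : (0 : ℝ) ≤ L := Nat.cast_nonneg _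
  have e1 : ∑ p ∈ Pd Pr N Q r, (2 * (L : ℝ) * (p * r) + (p : ℝ) ^ 2 * (r : ℝ) ^ 2) ≤
      (X / r) * (3 * X ^ (11 / 5 : ℝ)) := by
    have h1 : ∀ p ∈ Pd Pr N Q r, 2 * (L : ℝ) * (p * r) + (p : ℝ) ^ 2 * (r : ℝ) ^ 2 ≤
        3 * X ^ (11 / 5 : ℝ) := by
      intro p hp
      have h2 := hple p hp
      have h3 : (p : ℝ) ^ 2 * (r : ℝ) ^ 2 ≤ X ^ 2 := by
        rw [← mul_pow]
        exact pow_le_pow_left₀ (by positivity) h2 2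
      have h4 : X ^ (6 / 5 : ℝ) * X = X ^ (11 / 5 : ℝ) := by
        nth_rewrite 2 [← Real.rpow_one X]
        rw [← Real.rpow_add hX0]
        norm_num
      have h5 : X ^ 2 ≤ X ^ (11 / 5 : ℝ) := by
        rw [← Real.rpow_natCast]
        exact Real.rpow_le_rpow_of_exponent_le hX1 (by norm_num)
      have h6 : (L : ℝ) * (p * r) ≤ X ^ (11 / 5 : ℝ) := by
        rw [← h4]
        gcongr
      linarith
    refine (Finset.sum_le_sum h1).trans ?_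
    rw [Finset.sum_const, nsmul_eq_mul]
    exact mul_le_mul_of_nonneg_right (Pd_card hr) (by positivity)
  have r52 : (r : ℝ) ^ (5 / 2 : ℝ) * (r : ℝ) ^ (-(5 / 2) : ℝ) = 1 := by
    rw [← Real.rpow_add hr0]
    norm_num
  have e2 : (X / r) * (3 * X ^ (11 / 5 : ℝ)) ≤ 3 * X ^ (4 + 3 * η) * (r : ℝ) ^ (-(5 / 2) : ℝ) := by
    have h1 : X * X ^ (11 / 5 : ℝ) = X ^ (16 / 5 : ℝ) := by
      nth_rewrite 1 [← Real.rpow_one X]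
      rw [← Real.rpow_add hX0]
      norm_num
    have h2 : (r : ℝ)⁻¹ = (r : ℝ) ^ (3 / 2 : ℝ) * (r : ℝ) ^ (-(5 / 2) : ℝ) := by
      rw [← Real.rpow_neg_one, ← Real.rpow_add hr0]
      norm_num
    have h3 : (r : ℝ) ^ (3 / 2 : ℝ) ≤ X ^ (3 / 5 : ℝ) := by
      refine (Real.rpow_le_rpow hr0.le hr2 (by norm_num)).trans (le_of_eq ?_)
      rw [← Real.rpow_mul hX0.le]
      norm_num
    have h4 : X ^ (16 / 5 : ℝ) * X ^ (3 / 5 : ℝ) ≤ X ^ (4 + 3 * η) := by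
      rw [← Real.rpow_add hX0]
      exact Real.rpow_le_rpow_of_exponent_le hX1 (by linarith)
    calc (X / r) * (3 * X ^ (11 / 5 : ℝ)) = 3 * (X * X ^ (11 / 5 : ℝ)) * (r : ℝ)⁻¹ := by
          rw [div_eq_mul_inv]
          ring
      _ = 3 * X ^ (16 / 5 : ℝ) * ((r : ℝ) ^ (3 / 2 : ℝ) * (r : ℝ) ^ (-(5 / 2) : ℝ)) := by
          rw [h1, h2]
      _ ≤ 3 * X ^ (16 / 5 : ℝ) * (X ^ (3 / 5 : ℝ) * (r : ℝ) ^ (-(5 / 2) : ℝ)) := by gcongr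
      _ = 3 * (X ^ (16 / 5 : ℝ) * X ^ (3 / 5 : ℝ)) * (r : ℝ) ^ (-(5 / 2) : ℝ) := by ring
      _ ≤ _ := by gcongr
  have hr2X : (r : ℝ) ^ 2 ≤ X ^ (4 / 5 : ℝ) := by
    rw [← Real.rpow_natCast]
    refine (Real.rpow_le_rpow hr0.le hr2 (by norm_num)).trans (le_of_eq ?_)
    rw [← Real.rpow_mul hX0.le]
    norm_num
  have e3 : 2 * (L : ℝ) + Bp ^ 2 ≤ 3 * (X ^ 2 / (r : ℝ) ^ 2) := by
    have h1 : X ^ (6 / 5 : ℝ) ≤ X ^ 2 / (r : ℝ) ^ 2 := by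
      rw [le_div_iff₀ (by positivity)]
      calc X ^ (6 / 5 : ℝ) * (r : ℝ) ^ 2 ≤ X ^ (6 / 5 : ℝ) * X ^ (4 / 5 : ℝ) := by gcongr
        _ = X ^ 2 := by
            rw [← Real.rpow_add hX0, ← Real.rpow_natCast]
            norm_num
    have h2 : Bp ^ 2 = X ^ 2 / (r : ℝ) ^ 2 := by rw [hBp, div_pow]
    rw [h2]
    linarith
  have e4 : ((Pd Pr N Q r).card : ℝ) * M * (r : ℝ) ^ (5 / 2 : ℝ) ≤
      2 * C₄ * X ^ (2 + η) * (r : ℝ) ^ (-(1 / 2) : ℝ) := by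
    have h1 : (1 : ℝ) ≤ X / (r : ℝ) ^ 2 := by
      rw [le_div_iff₀ (by positivity), one_mul]
      refine hr2X.trans ?_
      have := Real.rpow_le_rpow_of_exponent_le hX1 (show (4 / 5 : ℝ) ≤ 1 by norm_num)
      rwa [Real.rpow_one] at this
    have h2 : Bp / r + 1 ≤ 2 * (X / (r : ℝ) ^ 2) := by
      have h3 : Bp / r = X / (r : ℝ) ^ 2 := by
        rw [hBp, div_div, sq]
      rw [h3]
      linarith
    have h4 : (r : ℝ) ^ η ≤ X ^ η := Real.rpow_le_rpow hr0.le hrX hη.le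
    have h5 : M ≤ C₄ * X ^ η * (2 * (X / (r : ℝ) ^ 2)) := by
      rw [hM]
      have : 0 ≤ Bp / r + 1 := by positivity
      gcongr
    have h6 : X / r * (X / (r : ℝ) ^ 2) * (r : ℝ) ^ (5 / 2 : ℝ) =
        X ^ 2 * (r : ℝ) ^ (-(1 / 2) : ℝ) := by
      have h7 : (r : ℝ) ^ (5 / 2 : ℝ) = (r : ℝ) ^ (-(1 / 2) : ℝ) * (r : ℝ) ^ 3 := by
        rw [← Real.rpow_natCast (r : ℝ) 3, ← Real.rpow_add hr0]
        norm_num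
      rw [h7]
      field_simp
    have h8 : X ^ (2 + η) = X ^ 2 * X ^ η := by
      rw [Real.rpow_add hX0, ← Real.rpow_natCast]
      norm_num
    calc ((Pd Pr N Q r).card : ℝ) * M * (r : ℝ) ^ (5 / 2 : ℝ)
        ≤ (X / r) * (C₄ * X ^ η * (2 * (X / (r : ℝ) ^ 2))) * (r : ℝ) ^ (5 / 2 : ℝ) := by
          have := Pd_card (Pr := Pr) (N := N) (Q := Q) hr
          gcongr
      _ = 2 * C₄ * X ^ η * (X / r * (X / (r : ℝ) ^ 2) * (r : ℝ) ^ (5 / 2 : ℝ)) := by ring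
      _ = _ := by rw [h6, h8]; ring
  have e5 : 2 * (C₃ * X ^ η) ^ 2 * (2 * (L : ℝ) + Bp ^ 2) *
      (((Pd Pr N Q r).card : ℝ) * M * (r : ℝ) ^ (5 / 2 : ℝ)) ≤
      12 * C₃ ^ 2 * C₄ * X ^ (4 + 3 * η) * (r : ℝ) ^ (-(5 / 2) : ℝ) := by
    have h1 : (X ^ η) ^ 2 * X ^ 2 * X ^ (2 + η) = X ^ (4 + 3 * η) := by
      rw [← Real.rpow_natCast (X ^ η), ← Real.rpow_mul hX0.le, ← Real.rpow_natCast X 2,
        ← Real.rpow_add hX0, ← Real.rpow_add hX0]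
      congr 1
      push_cast
      ring
    have h2 : (r : ℝ) ^ (-(1 / 2) : ℝ) / (r : ℝ) ^ 2 = (r : ℝ) ^ (-(5 / 2) : ℝ) := by
      rw [← Real.rpow_natCast (r : ℝ) 2, ← Real.rpow_sub hr0]
      norm_num
    calc 2 * (C₃ * X ^ η) ^ 2 * (2 * (L : ℝ) + Bp ^ 2) *
          (((Pd Pr N Q r).card : ℝ) * M * (r : ℝ) ^ (5 / 2 : ℝ))
        ≤ 2 * (C₃ * X ^ η) ^ 2 * (3 * (X ^ 2 / (r : ℝ) ^ 2)) *
          (2 * C₄ * X ^ (2 + η) * (r : ℝ) ^ (-(1 / 2) : ℝ)) := by gcongr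
      _ = 12 * C₃ ^ 2 * C₄ * ((X ^ η) ^ 2 * X ^ 2 * X ^ (2 + η)) *
          ((r : ℝ) ^ (-(1 / 2) : ℝ) / (r : ℝ) ^ 2) := by ring
      _ = _ := by rw [h1, h2]
  have e6 : 2 * ∑ p ∈ Pd Pr N Q r, (2 * (L : ℝ) * (p * r) + (p : ℝ) ^ 2 * (r : ℝ) ^ 2) +
      2 * (C₃ * X ^ η) ^ 2 * (2 * (L : ℝ) + Bp ^ 2) *
      (((Pd Pr N Q r).card : ℝ) * M * (r : ℝ) ^ (5 / 2 : ℝ)) ≤
      (6 + 12 * C₃ ^ 2 * C₄) * X ^ (4 + 3 * η) * (r : ℝ) ^ (-(5 / 2) : ℝ) := by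
    linarith [e1.trans e2]
  have e7 : (Real.sqrt (6 + 12 * C₃ ^ 2 * C₄) * (Real.sqrt Sα *
      (X ^ (2 + 3 * η / 2) * (r : ℝ) ^ (-(5 / 4) : ℝ)))) ^ 2 =
      Sα * ((6 + 12 * C₃ ^ 2 * C₄) * X ^ (4 + 3 * η) * (r : ℝ) ^ (-(5 / 2) : ℝ)) := by
    have h1 : (X ^ (2 + 3 * η / 2)) ^ 2 = X ^ (4 + 3 * η) := by
      rw [← Real.rpow_natCast, ← Real.rpow_mul hX0.le]
      congr 1
      push_cast
      ring
    have h2 : ((r : ℝ) ^ (-(5 / 4) : ℝ)) ^ 2 = (r : ℝ) ^ (-(5 / 2) : ℝ) := by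
      rw [← Real.rpow_natCast, ← Real.rpow_mul hr0.le]
      norm_num
    rw [mul_pow, mul_pow, mul_pow, Real.sq_sqrt (by positivity), Real.sq_sqrt hSα, h1, h2]
    ring
  rw [e7]
  refine mul_le_mul hα e6 ?_ hSα
  have : 0 ≤ ∑ p ∈ Pd Pr N Q r, (2 * (L : ℝ) * (p * r) + (p : ℝ) ^ 2 * (r : ℝ) ^ 2) :=
    Finset.sum_nonneg fun _ _ => by positivity
  positivity

/-- the sum over `r` -/
theorem bil_sum (hbil : S_bil) (hA : S_Af) (hG : S_Gf) {η : ℝ} (hη : 0 < η) (hη1 : η ≤ 1) :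
    ∃ C : ℝ, 0 ≤ C ∧ ∀ (Pr : Set ℕ) (N Q L : ℕ) (u : (r : ℕ) → DirichletCharacter ℂ r → ℂ)
      (v : ℕ → ℤ) (m : ℤ) (α : ℕ → ℂ) (β : ℕ → ℕ → ℂ) (Sα : ℝ), (∀ r χ, ‖u r χ‖ ≤ 1) →
      1 ≤ Q → 1 ≤ L →
      (L : ℝ) ≤ (Q : ℝ) ^ (6 / 5 : ℝ) → ∑ n ∈ Icc 1 L, ‖α n‖ ^ 2 ≤ Sα →
      (∀ x ∈ DD Pr N Q, ‖β x.1 x.2‖ ≤ 1) →
      ‖∑ x ∈ DD Pr N Q, β x.1 x.2 * ∑ n ∈ Icc 1 L, α n *
        (Af x.1 (v x.2) n * Gf x.2 (u x.2) (m * (x.1 : ℤ) ^ 3) n)‖ ≤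
      C * (Real.sqrt Sα * (Q : ℝ) ^ (191 / 100 + 5 * η / 2)) := by
  obtain ⟨C, hC0, hC⟩ := bil_r hbil hA hG hη
  refine ⟨C / η, by positivity, ?_⟩
  intro Pr N Q L u v m α β Sα hu hQ hL hLQ hα hβ
  have hX1 : (1 : ℝ) ≤ Q := by exact_mod_cast hQ
  have hX0 : (0 : ℝ) < Q := by linarith
  rw [sum_DD_eq (f := fun p r => β p r * ∑ n ∈ Icc 1 L, α n *
        (Af p (v r) n * Gf r (u r) (m * (p : ℤ) ^ 3) n))]
  refine (norm_sum_le _ _).trans ?_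
  have h1 : ∀ r ∈ Icc 1 Q, ‖∑ p ∈ Pd Pr N Q r, β p r * ∑ n ∈ Icc 1 L, α n *
        (Af p (v r) n * Gf r (u r) (m * (p : ℤ) ^ 3) n)‖ ≤
      C * (Real.sqrt Sα * ((Q : ℝ) ^ (191 / 100 + 3 * η / 2))) * (r : ℝ)⁻¹ := by
    intro r hr
    rcases Finset.eq_empty_or_nonempty (Pd Pr N Q r) with hE | ⟨p₀, hp₀⟩
    · rw [hE, Finset.sum_empty, norm_zero]
      positivity
    obtain ⟨-, hr', -, -, -, hr1, hr2⟩ := Pd_facts hp₀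
    have hr0 : (0 : ℝ) < r := by exact_mod_cast hr'
    refine (hC Pr N Q L r (u r) (v r) m α (fun p => β p r) Sα (hu r) hL hLQ hα
      (fun p hp => hβ (p, r) (mem_Pd.1 hp))).trans ?_
    have h2 : (r : ℝ) ^ (-(5 / 4) : ℝ) ≤ (Q : ℝ) ^ (-(9 / 100) : ℝ) * (r : ℝ)⁻¹ := by
      have h3 : (r : ℝ) ^ (-(5 / 4) : ℝ) = (r : ℝ) ^ (-(1 / 4) : ℝ) * (r : ℝ)⁻¹ := by
        rw [← Real.rpow_neg_one, ← Real.rpow_add hr0]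
        norm_num
      rw [h3]
      have h4 : (r : ℝ) ^ (-(1 / 4) : ℝ) ≤ ((Q : ℝ) ^ (9 / 25 : ℝ)) ^ (-(1 / 4) : ℝ) :=
        Real.rpow_le_rpow_of_nonpos (by positivity) hr1.le (by norm_num)
      rw [← Real.rpow_mul hX0.le] at h4
      have h5 : (9 / 25 * -(1 / 4) : ℝ) = -(9 / 100) := by norm_num
      rw [h5] at h4
      gcongr
    have h3 : (Q : ℝ) ^ (191 / 100 + 3 * η / 2) =
        (Q : ℝ) ^ (2 + 3 * η / 2) * (Q : ℝ) ^ (-(9 / 100) : ℝ) := by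
      rw [← Real.rpow_add hX0]
      congr 1
      ring
    rw [h3]
    calc C * (Real.sqrt Sα * ((Q : ℝ) ^ (2 + 3 * η / 2) * (r : ℝ) ^ (-(5 / 4) : ℝ)))
        ≤ C * (Real.sqrt Sα * ((Q : ℝ) ^ (2 + 3 * η / 2) *
          ((Q : ℝ) ^ (-(9 / 100) : ℝ) * (r : ℝ)⁻¹))) := by gcongr
      _ = _ := by ring
  refine (Finset.sum_le_sum h1).trans ?_
  rw [← Finset.mul_sum]
  have h2 := harm_le hQ hη hη1
  have h3 : (Q : ℝ) ^ (191 / 100 + 5 * η / 2) = (Q : ℝ) ^ (191 / 100 + 3 * η / 2) * (Q : ℝ) ^ η := by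
    rw [← Real.rpow_add hX0]
    congr 1
    ring
  rw [h3]
  calc C * (Real.sqrt Sα * ((Q : ℝ) ^ (191 / 100 + 3 * η / 2))) * ∑ r ∈ Icc 1 Q, (r : ℝ)⁻¹
      ≤ C * (Real.sqrt Sα * ((Q : ℝ) ^ (191 / 100 + 3 * η / 2))) * ((Q : ℝ) ^ η / η) := by gcongr
    _ = _ := by ring

end Pool.Agent.NH12.GL
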