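import Pool.Agent.NH12.GL.Tw
import Pool.Agent.NH12.NV.Mass

/-!
# The number of the characters of the moduli `p r` with given parity
-/

set_option autoImplicit false

namespace Pool.Agent.NH12.GL

open Finset DirichletCharacter Pool.Agent.NH12.NV

namespace Cnt

/-- the number of the primitive characters modulo a prime -/
lemma card_pc_prime {p : ℕ} (hp : p.Prime) : (pc p).card + 2 = p := by
  classical
  have hp0 : NeZero p := ⟨hp.ne_zero⟩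
  have h1 : pc p = (Finset.univ : Finset (DirichletCharacter ℂ p)).erase 1 := by
    ext χ
    rw [mem_pc, Finset.mem_erase]
    simp only [Finset.mem_univ, and_true]
    rw [Ne, eq_one_iff_conductor_eq_one, isPrimitive_def]
    constructor
    · intro h h2
      rw [h2] at h
      exact hp.one_lt.ne h
    · intro h
      exact ((Nat.dvd_prime hp).1 χ.conductor_dvd_level).resolve_left h
  have h2 : (Finset.univ : Finset (DirichletCharacter ℂ p)).card = p - 1 := by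
    rw [Finset.card_univ, ← Nat.card_eq_fintype_card,
      DirichletCharacter.card_eq_totient_of_hasEnoughRootsOfUnity ℂ p, Nat.totient_prime hp]
  rw [h1, Finset.card_erase_of_mem (Finset.mem_univ _), h2]
  have := hp.two_le
  omega

lemma card_pc_prime_ge {p : ℕ} (hp : p.Prime) (h3 : 3 ≤ p) : (p : ℝ) / 3 ≤ ((pc p).card : ℝ) := by
  have h1 : ((pc p).card : ℝ) + 2 = p := by exact_mod_cast card_pc_prime hp
  have h2 : (3 : ℝ) ≤ p := by exact_mod_cast h3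
  linarith

/-- the numbers `r` belonging to `p` -/
noncomputable def Rd (Pr : Set ℕ) (N Q p : ℕ) : Finset ℕ := by
  classical
  exact (Icc 1 Q).filter fun r => (p, r) ∈ DD Pr N Q

lemma mem_Rd {Pr : Set ℕ} {N Q r p : ℕ} : r ∈ Rd Pr N Q p ↔ (p, r) ∈ DD Pr N Q := by
  classical
  unfold Rd
  rw [Finset.mem_filter]
  refine ⟨fun h => h.2, fun h => ⟨?_, h⟩⟩
  have := (mem_DD.1 h).1.2
  exact mem_Icc.2 this

lemma sum_DD_eq' {Pr : Set ℕ} {N Q : ℕ} {M : Type} [AddCommMonoid M] (f : ℕ → ℕ → M) :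
    ∑ x ∈ DD Pr N Q, f x.1 x.2 = ∑ p ∈ Icc 1 Q, ∑ r ∈ Rd Pr N Q p, f p r := by
  classical
  rw [Finset.sum_sigma' (Icc 1 Q) (fun p => Rd Pr N Q p) (fun p r => f p r)]
  refine Finset.sum_bij' (fun x _ => ⟨x.1, x.2⟩) (fun y _ => (y.1, y.2)) ?_ ?_ ?_ ?_ ?_
  · intro x hx
    rw [Finset.mem_sigma, mem_Rd]
    exact ⟨mem_Icc.2 (mem_DD.1 hx).1.1, hx⟩
  · intro y hy
    rw [Finset.mem_sigma, mem_Rd] at hy
    exact hy.2
  · intro x _
    rfl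
  · intro y _
    rfl
  · intro x _
    rfl

/-- multiplicativity -/
lemma card_pc_mul (hcrt : S_crt) {a b : ℕ} (ha : 1 ≤ a) (hb : 1 ≤ b) (hab : Nat.Coprime a b) :
    ((pc (a * b)).card : ℝ) = ((pc a).card : ℝ) * ((pc b).card : ℝ) := by
  have ha0 : NeZero a := ⟨by omega⟩
  have hb0 : NeZero b := ⟨by omega⟩
  have hab0 : NeZero (a * b) := ⟨Nat.mul_ne_zero (by omega) (by omega)⟩
  have h1 := (hcrt a b hab).2.1 (fun _ => 1)
  simp only [Finset.sum_const, nsmul_eq_mul, mul_one] at h1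
  have h2 : ((pc (a * b)).card : ℂ) = (((pc a).card * (pc b).card : ℕ) : ℂ) := by
    push_cast
    exact h1
  have h3 : (pc (a * b)).card = (pc a).card * (pc b).card := Nat.cast_injective h2
  rw [h3]
  push_cast
  ring

/-- the sum over the small moduli -/
lemma sum_small (Y : ℝ) (hY : 0 ≤ Y) (n N : ℕ) :
    ∑ q ∈ ((Icc 2 n).filter (fun q => Nat.Coprime q N)).filter (fun q : ℕ => (q : ℝ) ≤ Y),
      ((pc q).card : ℝ) ≤ Y ^ 2 := by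
  classical
  have h1 : ((Icc 2 n).filter (fun q => Nat.Coprime q N)).filter (fun q : ℕ => (q : ℝ) ≤ Y) ⊆
      Icc 1 ⌊Y⌋₊ := by
    intro q hq
    rw [Finset.mem_filter, Finset.mem_filter, Finset.mem_Icc] at hq
    rw [Finset.mem_Icc]
    exact ⟨by omega, Nat.le_floor hq.2⟩
  refine (Finset.sum_le_sum_of_subset_of_nonneg h1 fun _ _ _ => Nat.cast_nonneg _).trans ?_
  have h2 : ∀ q ∈ Icc 1 ⌊Y⌋₊, ((pc q).card : ℝ) ≤ Y := by
    intro q hq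
    rw [Finset.mem_Icc] at hq
    refine (card_pc_le q hq.1).trans ?_
    exact (Nat.cast_le.2 hq.2).trans (Nat.floor_le hY)
  refine (Finset.sum_le_sum h2).trans ?_
  rw [Finset.sum_const, nsmul_eq_mul, Nat.card_Icc, Nat.add_sub_cancel, sq]
  exact mul_le_mul_of_nonneg_right (Nat.floor_le hY) hY

/-- for one prime -/
lemma one_prime {N : ℕ} {c : ℝ} {Q₀ : ℕ}
    (hcnt : ∀ Q : ℕ, Q₀ ≤ Q →
      c * (Q : ℝ) ^ 2 ≤ ∑ q ∈ (Icc 2 Q).filter (fun q => Nat.Coprime q N), ((pc q).card : ℝ))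
    (hc : 0 < c) {Pr : Set ℕ} {Q p : ℕ} (hQ : 1 ≤ Q) (hpP : p ∈ Pr) (hp : p.Prime)
    (h1 : (Q : ℝ) ^ (3 / 5 : ℝ) < p) (h2 : (p : ℝ) ≤ (Q : ℝ) ^ (31 / 50 : ℝ))
    (hpN : Nat.Coprime p N) (hbig : (Q₀ : ℝ) + 1 ≤ (Q : ℝ) ^ (19 / 50 : ℝ))
    (hbig2 : 8 / c ≤ (Q : ℝ) ^ (1 / 25 : ℝ)) :
    c / 8 * ((Q : ℝ) / p) ^ 2 ≤ ∑ r ∈ Rd Pr N Q p, ((pc r).card : ℝ) := by
  classical
  have hX1 : (1 : ℝ) ≤ Q := by exact_mod_cast hQ
  have hX0 : (0 : ℝ) < Q := by linarith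
  have hp0 : (0 : ℝ) < p := by exact_mod_cast hp.pos
  set Y : ℝ := (Q : ℝ) ^ (9 / 25 : ℝ) with hY
  have hY0 : 0 ≤ Y := by positivity
  set n : ℕ := Q / p with hn
  -- the quotient
  have hq1 : (Q : ℝ) ^ (19 / 50 : ℝ) ≤ (Q : ℝ) / p := by
    rw [le_div_iff₀ hp0]
    calc (Q : ℝ) ^ (19 / 50 : ℝ) * p ≤ (Q : ℝ) ^ (19 / 50 : ℝ) * (Q : ℝ) ^ (31 / 50 : ℝ) := by
          gcongr
      _ = Q := by
          rw [← Real.rpow_add hX0]
          norm_num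
  have hq2 : (1 : ℝ) ≤ (Q : ℝ) / p := by
    refine le_trans ?_ hq1
    have : (0 : ℝ) ≤ Q₀ := Nat.cast_nonneg _
    linarith
  have hnf : (n : ℝ) = ((⌊(Q : ℝ) / p⌋₊ : ℕ) : ℝ) := by
    rw [hn, Nat.floor_div_eq_div]
  have hn1 : (Q : ℝ) / p - 1 < n := by
    rw [hnf]
    exact Nat.sub_one_lt_floor _
  have hn2 : (n : ℝ) ≤ (Q : ℝ) / p := by
    rw [hnf]
    exact Nat.floor_le (by positivity)
  have hn3 : Q₀ ≤ n := by
    have : (Q₀ : ℝ) < n := by linarith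
    exact_mod_cast this.le
  have hn4 : (1 : ℝ) ≤ n := by
    rw [hnf]
    exact_mod_cast (Nat.one_le_floor_iff _).2 hq2
  have hn5 : (Q : ℝ) / p / 2 ≤ n := by linarith
  have h3 := hcnt n hn3
  rw [← Finset.sum_filter_add_sum_filter_not _ (fun q : ℕ => (q : ℝ) ≤ Y)] at h3
  have h4 := sum_small Y hY0 n N
  have h5 : ∑ q ∈ ((Icc 2 n).filter (fun q => Nat.Coprime q N)).filter
      (fun q : ℕ => ¬ (q : ℝ) ≤ Y), ((pc q).card : ℝ) ≤ ∑ r ∈ Rd Pr N Q p, ((pc r).card : ℝ) := by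
    refine Finset.sum_le_sum_of_subset_of_nonneg ?_ fun _ _ _ => Nat.cast_nonneg _
    intro r hr
    rw [Finset.mem_filter, Finset.mem_filter, Finset.mem_Icc, not_le] at hr
    obtain ⟨⟨⟨hr1, hr2⟩, hr3⟩, hr4⟩ := hr
    have hpr : p * r ≤ Q := by
      have := (Nat.le_div_iff_mul_le hp.pos).1 hr2
      rwa [mul_comm]
    have hpQ : p ≤ Q := le_trans (Nat.le_mul_of_pos_right p (by omega)) hpr
    have hrQ : r ≤ Q := le_trans (Nat.le_mul_of_pos_left r hp.pos) hpr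
    rw [mem_Rd, mem_DD]
    exact ⟨⟨⟨hp.one_lt.le, hpQ⟩, by show 1 ≤ r; omega, hrQ⟩, ⟨hpP, hp⟩, ⟨h1, h2⟩, hr4, hpr,
      Nat.Coprime.mul_left hpN hr3⟩
  have h6 : Y ^ 2 ≤ c / 8 * ((Q : ℝ) / p) ^ 2 := by
    have h7 : Y ^ 2 = (Q : ℝ) ^ (18 / 25 : ℝ) := by
      rw [hY, ← Real.rpow_natCast, ← Real.rpow_mul hX0.le]
      norm_num
    have h8 : ((Q : ℝ) ^ (19 / 50 : ℝ)) ^ 2 = (Q : ℝ) ^ (18 / 25 : ℝ) * (Q : ℝ) ^ (1 / 25 : ℝ) := by
      rw [← Real.rpow_natCast, ← Real.rpow_mul hX0.le, ← Real.rpow_add hX0]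
      norm_num
    have h9 : ((Q : ℝ) ^ (19 / 50 : ℝ)) ^ 2 ≤ ((Q : ℝ) / p) ^ 2 := by gcongr
    rw [h8] at h9
    rw [h7]
    have h10 : 1 ≤ c / 8 * (Q : ℝ) ^ (1 / 25 : ℝ) := by
      rw [div_le_iff₀ hc] at hbig2
      linarith
    have h11 : 0 < (Q : ℝ) ^ (18 / 25 : ℝ) := by positivity
    calc (Q : ℝ) ^ (18 / 25 : ℝ) = 1 * (Q : ℝ) ^ (18 / 25 : ℝ) := (one_mul _).symm
      _ ≤ (c / 8 * (Q : ℝ) ^ (1 / 25 : ℝ)) * (Q : ℝ) ^ (18 / 25 : ℝ) := by gcongr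
      _ = c / 8 * ((Q : ℝ) ^ (18 / 25 : ℝ) * (Q : ℝ) ^ (1 / 25 : ℝ)) := by ring
      _ ≤ _ := by gcongr
  have h7 : c / 4 * ((Q : ℝ) / p) ^ 2 ≤ c * (n : ℝ) ^ 2 := by
    have h8 : ((Q : ℝ) / p / 2) ^ 2 ≤ (n : ℝ) ^ 2 := by gcongr
    nlinarith
  linarith

end Cnt

open Cnt

/-- **module 5**: the number of the characters -/
theorem t_cnt (hcrt : S_crt) : S_cnt := by
  intro Pr N e hN he hdens
  classical
  obtain ⟨c, Q₀, hc, hcnt⟩ := prim_count hN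
  obtain ⟨d, Q₂, hd, hden⟩ := hdens
  have he1 : ‖e‖ = 1 := by rcases he with rfl | rfl <;> simp
  have ht : ∀ a : ℝ, 0 < a → ∀ b : ℝ, ∀ᶠ Q : ℕ in Filter.atTop, b ≤ (Q : ℝ) ^ a := by
    intro a ha b
    exact ((tendsto_rpow_atTop ha).comp tendsto_natCast_atTop_atTop).eventually_ge_atTop b
  have hev : ∀ᶠ Q : ℕ in Filter.atTop, 1 ≤ Q ∧ Q₂ ≤ Q ∧ (N : ℝ) + 3 ≤ (Q : ℝ) ^ (3 / 5 : ℝ) ∧
      (Q₀ : ℝ) + 1 ≤ (Q : ℝ) ^ (19 / 50 : ℝ) ∧ 8 / c ≤ (Q : ℝ) ^ (1 / 25 : ℝ) ∧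
      96 / (c * d) ≤ (Q : ℝ) ^ (1 : ℝ) := by
    filter_upwards [Filter.eventually_ge_atTop 1, Filter.eventually_ge_atTop Q₂,
      ht (3 / 5) (by norm_num) ((N : ℝ) + 3), ht (19 / 50) (by norm_num) ((Q₀ : ℝ) + 1),
      ht (1 / 25) (by norm_num) (8 / c), ht 1 (by norm_num) (96 / (c * d))] with Q h1 h2 h3 h4 h5 h6
    exact ⟨h1, h2, h3, h4, h5, h6⟩
  obtain ⟨Q₁, hQ₁⟩ := Filter.eventually_atTop.1 hev
  refine ⟨c * d / 96, Q₁, by positivity, fun Q hQ => ?_⟩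
  obtain ⟨g1, g2, g3, g4, g5, g6⟩ := hQ₁ Q hQ
  rw [Real.rpow_one] at g6
  have hX1 : (1 : ℝ) ≤ Q := by exact_mod_cast g1
  have hX0 : (0 : ℝ) < Q := by linarith
  -- the set of the primes
  set P : Finset ℕ := (Icc 1 Q).filter fun p => p ∈ Pr ∧ p.Prime ∧ (Q : ℝ) ^ (3 / 5 : ℝ) < p ∧
    (p : ℝ) ≤ (Q : ℝ) ^ (31 / 50 : ℝ) with hP
  have hPm : ∀ p : ℕ, p ∈ P ↔ p ∈ Pr ∧ p.Prime ∧ (Q : ℝ) ^ (3 / 5 : ℝ) < p ∧
    (p : ℝ) ≤ (Q : ℝ) ^ (31 / 50 : ℝ) := by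
    intro p
    rw [hP, Finset.mem_filter, Finset.mem_Icc]
    refine ⟨fun h => h.2, fun h => ⟨⟨h.2.1.one_lt.le, ?_⟩, h⟩⟩
    have h1 : (p : ℝ) ≤ Q := by
      refine h.2.2.2.trans ?_
      have := Real.rpow_le_rpow_of_exponent_le hX1 (show (31 / 50 : ℝ) ≤ 1 by norm_num)
      rwa [Real.rpow_one] at this
    exact_mod_cast h1
  have hdP := hden Q g2 P hPm
  -- the main term
  have hmain : c * d / 24 * (Q : ℝ) ^ 2 ≤ ∑ x ∈ DD Pr N Q, ((pc (x.1 * x.2)).card : ℝ) := by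
    have h1 : ∑ x ∈ DD Pr N Q, ((pc (x.1 * x.2)).card : ℝ) =
        ∑ x ∈ DD Pr N Q, ((pc x.1).card : ℝ) * ((pc x.2).card : ℝ) := by
      refine Finset.sum_congr rfl fun x hx => ?_
      have h2 := mem_DD.1 hx
      exact card_pc_mul hcrt h2.1.1.1 h2.1.2.1 (DD_cop hx)
    rw [h1, sum_DD_eq' (f := fun p r => ((pc p).card : ℝ) * ((pc r).card : ℝ))]
    have h2 : ∑ p ∈ P, ∑ r ∈ Rd Pr N Q p, ((pc p).card : ℝ) * ((pc r).card : ℝ) ≤
        ∑ p ∈ Icc 1 Q, ∑ r ∈ Rd Pr N Q p, ((pc p).card : ℝ) * ((pc r).card : ℝ) :=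
      Finset.sum_le_sum_of_subset_of_nonneg (Finset.filter_subset _ _)
        fun _ _ _ => Finset.sum_nonneg fun _ _ => by positivity
    refine le_trans ?_ h2
    have h3 : ∀ p ∈ P, c / 24 * (Q : ℝ) ^ 2 * ((1 : ℝ) / p) ≤
        ∑ r ∈ Rd Pr N Q p, ((pc p).card : ℝ) * ((pc r).card : ℝ) := by
      intro p hp
      obtain ⟨hp1, hp2, hp3, hp4⟩ := (hPm p).1 hp
      have hpN' : (N : ℝ) + 3 < p := by linarith
      have hpN : N + 3 < p := by exact_mod_cast hpN'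
      have hcop : Nat.Coprime p N := by
        rw [Nat.Prime.coprime_iff_not_dvd hp2]
        intro h
        have := Nat.le_of_dvd (Nat.pos_of_ne_zero hN) h
        omega
      have hp0 : (0 : ℝ) < p := by exact_mod_cast hp2.pos
      have h4 := one_prime hcnt hc g1 hp1 hp2 hp3 hp4 hcop g4 g5
      have h5 := card_pc_prime_ge hp2 (by omega)
      rw [← Finset.mul_sum]
      calc c / 24 * (Q : ℝ) ^ 2 * ((1 : ℝ) / p) = (p : ℝ) / 3 * (c / 8 * ((Q : ℝ) / p) ^ 2) := by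
            field_simp
            ring
        _ ≤ _ := by gcongr
    refine le_trans ?_ (Finset.sum_le_sum h3)
    rw [← Finset.mul_sum]
    calc c * d / 24 * (Q : ℝ) ^ 2 = c / 24 * (Q : ℝ) ^ 2 * d := by ring
      _ ≤ _ := by gcongr
  -- the sums of `χ(-1)`
  have hneg : ∑ x ∈ DD Pr N Q, ‖∑ χ ∈ pc (x.1 * x.2), χ (-1)‖ ≤ 2 * Q := by
    have h1 : ∀ x ∈ DD Pr N Q, ‖∑ χ ∈ pc (x.1 * x.2), χ (-1)‖ ≤
        ∑ t ∈ (1 + 1).divisors, if t ∣ x.1 * x.2 then (t : ℝ) else 0 := by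
      intro x hx
      have h2 := mem_DD.1 hx
      have : NeZero (x.1 * x.2) := ⟨Nat.mul_ne_zero (by omega) (by omega)⟩
      have h3 := sum_neg_le (m := 1) (q := x.1 * x.2)
      simp only [Nat.cast_one] at h3
      exact h3
    refine (Finset.sum_le_sum h1).trans ?_
    refine (sum_DD_le (f := fun q => ∑ t ∈ (1 + 1).divisors, if t ∣ q then (t : ℝ) else 0)
      fun q => Finset.sum_nonneg fun t _ => by split_ifs <;> positivity).trans ?_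
    refine (sum_dvd_le Q 1).trans (le_of_eq ?_)
    have h4 : ((1 + 1 : ℕ).divisors.card : ℝ) = 2 := by
      have : (1 + 1 : ℕ).divisors.card = 2 := by decide
      exact_mod_cast this
    rw [h4]
    ring
  -- the sum
  have hsplit : ∑ x ∈ DD Pr N Q, ∑ χ ∈ pc (x.1 * x.2), par e χ =
      ((((1 / 2 : ℝ) * ∑ x ∈ DD Pr N Q, ((pc (x.1 * x.2)).card : ℝ) : ℝ)) : ℂ) +
        (e / 2) * ∑ x ∈ DD Pr N Q, ∑ χ ∈ pc (x.1 * x.2), χ (-1) := by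
    push_cast
    rw [Finset.mul_sum, Finset.mul_sum, ← Finset.sum_add_distrib]
    refine Finset.sum_congr rfl fun x _ => ?_
    rw [Finset.mul_sum]
    have h1 : (1 / 2 : ℂ) * ((pc (x.1 * x.2)).card : ℂ) = ∑ χ ∈ pc (x.1 * x.2), (1 / 2 : ℂ) := by
      rw [Finset.sum_const, nsmul_eq_mul]
      ring
    rw [h1, ← Finset.sum_add_distrib]
    refine Finset.sum_congr rfl fun χ _ => ?_
    unfold par
    ring
  rw [hsplit]
  have hn1 : ‖((((1 / 2 : ℝ) * ∑ x ∈ DD Pr N Q, ((pc (x.1 * x.2)).card : ℝ) : ℝ)) : ℂ)‖ =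
      (1 / 2 : ℝ) * ∑ x ∈ DD Pr N Q, ((pc (x.1 * x.2)).card : ℝ) := by
    rw [Complex.norm_real, Real.norm_eq_abs, abs_of_nonneg]
    exact mul_nonneg (by norm_num) (Finset.sum_nonneg fun _ _ => Nat.cast_nonneg _)
  have hn2 : ‖(e / 2) * ∑ x ∈ DD Pr N Q, ∑ χ ∈ pc (x.1 * x.2), χ (-1)‖ ≤ Q := by
    rw [norm_mul, norm_div, he1]
    have h2 : ‖(2 : ℂ)‖ = 2 := by simp
    rw [h2]
    have h3 := (norm_sum_le (DD Pr N Q) (fun x => ∑ χ ∈ pc (x.1 * x.2), χ (-1))).trans hneg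
    linarith
  have htri := norm_sub_norm_le
    ((((1 / 2 : ℝ) * ∑ x ∈ DD Pr N Q, ((pc (x.1 * x.2)).card : ℝ) : ℝ)) : ℂ)
    (-((e / 2) * ∑ x ∈ DD Pr N Q, ∑ χ ∈ pc (x.1 * x.2), χ (-1)))
  rw [sub_neg_eq_add, norm_neg, hn1] at htri
  have hQ2 : (Q : ℝ) ≤ c * d / 96 * (Q : ℝ) ^ 2 := by
    rw [div_le_iff₀ (by positivity)] at g6
    have h1 : 1 ≤ c * d / 96 * Q := by linarith
    calc (Q : ℝ) = 1 * Q := (one_mul _).symm
      _ ≤ (c * d / 96 * Q) * Q := by gcongr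
      _ = _ := by ring
  linarith

end Pool.Agent.NH12.GL
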