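import Pool.Agent.NH12.NV.KP

/-!
# Twists of degree three: definitions and statements of the modules
-/

set_option autoImplicit false

namespace Pool.Agent.NH12.GL

open Finset DirichletCharacter
open Pool.Agent.NH12.NV (pc)
open scoped ComplexConjugate

/-- `e(x)` -/
noncomputable def ee (x : ℝ) : ℂ := Complex.exp (2 * Real.pi * Complex.I * x)

/-- the product of two characters, to the product of the moduli -/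
noncomputable def pr (a b : ℕ) (χ : DirichletCharacter ℂ a) (ψ : DirichletCharacter ℂ b) :
    DirichletCharacter ℂ (a * b) :=
  changeLevel (Dvd.intro b rfl) χ * changeLevel (Dvd.intro_left a rfl) ψ

/-- the Gauss sum -/
noncomputable def gs {q : ℕ} [NeZero q] (χ : DirichletCharacter ℂ q) : ℂ :=
  gaussSum χ (ZMod.stdAddChar (N := q))

/-- **module 1**: primitive characters of a product of coprime moduli -/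
def S_crt : Prop := ∀ (a b : ℕ) [NeZero a] [NeZero b] [NeZero (a * b)], Nat.Coprime a b →
  (∀ (χ : DirichletCharacter ℂ a) (ψ : DirichletCharacter ℂ b) (n : ℤ),
    pr a b χ ψ ((n : ℤ) : ZMod (a * b)) = χ ((n : ℤ) : ZMod a) * ψ ((n : ℤ) : ZMod b)) ∧
  (∀ f : DirichletCharacter ℂ (a * b) → ℂ,
    ∑ χ ∈ pc (a * b), f χ = ∑ χ ∈ pc a, ∑ ψ ∈ pc b, f (pr a b χ ψ)) ∧
  (∀ (χ : DirichletCharacter ℂ a) (ψ : DirichletCharacter ℂ b),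
    gs (pr a b χ ψ) = χ ((b : ℕ) : ZMod a) * ψ ((a : ℕ) : ZMod b) * gs χ * gs ψ)

/-- **module 2**: the bilinear inequality. `A p` is periodic modulo `p`, `G p` modulo `r`. -/
def S_bil : Prop := ∀ (r : ℕ) (P : Finset ℕ) (A G : ℕ → ℤ → ℂ) (CA Bp M : ℝ) (L : ℕ) (α β : ℕ → ℂ),
  1 ≤ r → 1 ≤ L → 0 ≤ CA → 0 ≤ M → (∀ p ∈ P, p.Prime ∧ ¬ p ∣ r ∧ (p : ℝ) ≤ Bp) →
  (∀ p ∈ P, ∀ n : ℤ, A p (n + p) = A p n) →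
  (∀ p ∈ P, ∑ x ∈ range p, ‖A p x‖ ^ 2 ≤ (p : ℝ) ^ 2) →
  (∀ p ∈ P, ∀ y : ℤ, ‖∑ x ∈ range p, A p x * ee (-((x : ℝ) * y / p))‖ ≤ CA * p) →
  (∀ p ∈ P, ∀ n : ℤ, G p (n + r) = G p n) →
  (∀ p ∈ P, ∑ x ∈ range r, ‖G p x‖ ^ 2 ≤ (r : ℝ) ^ 2) →
  (∀ z : ℤ, ∑ p ∈ P, ∑ p' ∈ P,
    ‖∑ x ∈ range r, G p x * conj (G p' x) * ee (-((x : ℝ) * z / r))‖ ^ 2 ≤ M ^ 2 * (r : ℝ) ^ 5) →
  (∀ p ∈ P, ‖β p‖ ≤ 1) →
  ‖∑ p ∈ P, β p * ∑ n ∈ Icc 1 L, α n * (A p n * G p n)‖ ^ 2 ≤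
    (∑ n ∈ Icc 1 L, ‖α n‖ ^ 2) * (2 * ∑ p ∈ P, (2 * L * (p * r) + (p : ℝ) ^ 2 * (r : ℝ) ^ 2) +
      2 * CA ^ 2 * (2 * L + Bp ^ 2) * (P.card * M * (r : ℝ) ^ (5 / 2 : ℝ)))

/-- the function modulo the prime `p` -/
noncomputable def Af (p : ℕ) (v n : ℤ) : ℂ :=
  if h : p = 0 then 0 else
    haveI : NeZero p := ⟨h⟩
    ∑ χ ∈ pc p, (gs χ ^ 3 / (((p : ℝ) ^ (3 / 2 : ℝ) : ℝ) : ℂ)) * χ ((v : ℤ) : ZMod p) *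
      conj (χ ((n : ℤ) : ZMod p))

/-- **module 3**: properties of `Af` (by the Weil bound, `kloo_prim`) -/
def S_Af : Prop := ∀ η : ℝ, 0 < η → ∃ C : ℝ, 0 < C ∧ ∀ (p : ℕ) (v : ℤ), p.Prime →
  (∀ n : ℤ, Af p v (n + p) = Af p v n) ∧
  ∑ x ∈ range p, ‖Af p v x‖ ^ 2 ≤ (p : ℝ) ^ 2 ∧
  ∀ y : ℤ, ‖∑ x ∈ range p, Af p v x * ee (-((x : ℝ) * y / p))‖ ≤ C * (p : ℝ) ^ η * p

/-- the function modulo `r` -/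
noncomputable def Gf (r : ℕ) (u : DirichletCharacter ℂ r → ℂ) (v n : ℤ) : ℂ :=
  ∑ χ ∈ pc r, u χ * χ ((v : ℤ) : ZMod r) * conj (χ ((n : ℤ) : ZMod r))

/-- **module 4**: properties of `Gf` (orthogonality); `t` bounds the number of cube roots of one -/
def S_Gf : Prop := ∀ η : ℝ, 0 < η → ∃ C : ℝ, 0 < C ∧ ∀ (r : ℕ) (u : DirichletCharacter ℂ r → ℂ)
  (m : ℤ) (P : Finset ℕ) (Bp : ℝ), 1 ≤ r → (∀ χ, ‖u χ‖ ≤ 1) →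
  (∀ p ∈ P, 1 ≤ p ∧ (p : ℝ) ≤ Bp) →
  (∀ (v n : ℤ), Gf r u v (n + r) = Gf r u v n) ∧
  (∀ v : ℤ, ∑ x ∈ range r, ‖Gf r u v x‖ ^ 2 ≤ (r : ℝ) ^ 2) ∧
  ∀ z : ℤ, ∑ p ∈ P, ∑ p' ∈ P,
    ‖∑ x ∈ range r, Gf r u (m * p ^ 3) x * conj (Gf r u (m * p' ^ 3) x) *
      ee (-((x : ℝ) * z / r))‖ ^ 2 ≤ (C * (r : ℝ) ^ η * (Bp / r + 1)) ^ 2 * (r : ℝ) ^ 5

end Pool.Agent.NH12.GL
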