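import Pool.Agent.NH12.NV.Moment2
import Pool.Agent.NH12.GL.Defs

/-!
# Sums over the primitive characters with a given parity
-/

set_option autoImplicit false

namespace Pool.Agent.NH12.GL

open Finset DirichletCharacter Pool.Agent.NH12.NV

/-- the projection to the characters with `χ(-1) = e` -/
noncomputable def par (e : ℂ) {q : ℕ} (χ : DirichletCharacter ℂ q) : ℂ := (1 + e * χ (-1)) / 2

lemma par_le {e : ℂ} (he : ‖e‖ ≤ 1) {q : ℕ} (χ : DirichletCharacter ℂ q) : ‖par e χ‖ ≤ 1 := by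
  unfold par
  rw [norm_div]
  have h1 : ‖1 + e * χ (-1)‖ ≤ 1 + 1 * 1 := by
    refine (norm_add_le _ _).trans ?_
    rw [norm_one, norm_mul]
    gcongr
    exact DirichletCharacter.norm_le_one χ _
  have h2 : ‖(2 : ℂ)‖ = 2 := by simp
  rw [h2, div_le_one (by norm_num)]
  linarith

lemma chi_neg_one {q : ℕ} (χ : DirichletCharacter ℂ q) : χ (-1) = 1 ∨ χ (-1) = -1 := by
  have h1 : χ (-1) * χ (-1) = 1 := by rw [← map_mul]; simp
  exact mul_self_eq_one_iff.1 h1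

lemma par_eq {e : ℂ} (he : e = 1 ∨ e = -1) {q : ℕ} (χ : DirichletCharacter ℂ q) :
    par e χ = if χ (-1) = e then 1 else 0 := by
  unfold par
  rcases he with rfl | rfl <;> rcases chi_neg_one χ with h | h <;> rw [h] <;> norm_num

/-- the sum of `χ(-m)` -/
lemma sum_neg_le {m q : ℕ} [NeZero q] :
    ‖∑ χ ∈ pc q, χ (-(m : ZMod q))‖ ≤
      ∑ d ∈ (m + 1).divisors, if d ∣ q then (d : ℝ) else 0 := by
  classical
  have hq : 0 < q := Nat.pos_of_ne_zero (NeZero.ne q)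
  by_cases hc : IsUnit (-(m : ZMod q))
  swap
  · have h1 : ∑ χ ∈ pc q, χ (-(m : ZMod q)) = 0 :=
      Finset.sum_eq_zero fun χ _ => χ.map_nonunit hc
    rw [h1, norm_zero]
    exact Finset.sum_nonneg fun d _ => by split_ifs <;> positivity
  set m' : ℕ := (-(m : ZMod q)).val with hm'
  have e1 : ((m' : ℕ) : ZMod q) = -(m : ZMod q) := ZMod.natCast_zmod_val _
  have e2 : Nat.Coprime m' q := by
    rw [← ZMod.isUnit_iff_coprime, e1]
    exact hc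
  have h2 := norm_sp_le hq e2
  rw [sp_eq, e1] at h2
  refine h2.trans ?_
  have h3 : q.divisors.filter (fun d => (m' : ZMod d) = 1) ⊆
      (m + 1).divisors.filter (fun d => d ∣ q) := by
    intro d hd
    rw [Finset.mem_filter, Nat.mem_divisors] at hd
    rw [Finset.mem_filter, Nat.mem_divisors]
    refine ⟨⟨?_, by omega⟩, hd.1.1⟩
    have h4 : ((m' + m : ℕ) : ZMod q) = 0 := by
      push_cast
      rw [e1]
      ring
    have h5 : q ∣ m' + m := (ZMod.natCast_eq_zero_iff _ _).1 h4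
    have h6 : ((m' + m : ℕ) : ZMod d) = 0 := (ZMod.natCast_eq_zero_iff _ _).2 (hd.1.1.trans h5)
    push_cast at h6
    rw [hd.2] at h6
    have h7 : ((m + 1 : ℕ) : ZMod d) = 0 := by
      push_cast
      rw [add_comm]
      exact h6
    exact (ZMod.natCast_eq_zero_iff _ _).1 h7
  rw [← Finset.sum_filter]
  calc ∑ d ∈ q.divisors.filter (fun d => (m' : ZMod d) = 1), (Nat.totient d : ℝ)
      ≤ ∑ d ∈ (m + 1).divisors.filter (fun d => d ∣ q), (Nat.totient d : ℝ) :=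
        Finset.sum_le_sum_of_subset_of_nonneg h3 fun _ _ _ => by positivity
    _ ≤ _ := Finset.sum_le_sum fun d _ => by exact_mod_cast Nat.totient_le d

lemma sum_dvd_le (Q m : ℕ) : ∑ q ∈ Icc 1 Q, ∑ d ∈ (m + 1).divisors, (if d ∣ q then (d : ℝ) else 0) ≤
    Q * ((m + 1).divisors.card : ℝ) := by
  rw [Finset.sum_comm]
  have h2 : ∀ d ∈ (m + 1).divisors, ∑ q ∈ Icc 1 Q, (if d ∣ q then (d : ℝ) else 0) ≤ Q := by
    intro d hd
    have hd0 : 0 < d := Nat.pos_of_mem_divisors hd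
    rw [← Finset.sum_filter, Finset.sum_const, nsmul_eq_mul]
    have h3 : ((Icc 1 Q).filter fun q => d ∣ q).card = Q / d := by
      have : Icc 1 Q = Ioc 0 Q := by
        ext x
        simp only [mem_Icc, mem_Ioc]
        omega
      rw [this]
      exact Nat.Ioc_filter_dvd_card_eq_div Q d
    rw [h3]
    exact_mod_cast Nat.div_mul_le_self Q d
  refine (Finset.sum_le_sum h2).trans (le_of_eq ?_)
  rw [Finset.sum_const, nsmul_eq_mul]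
  ring

/-- the norm of the sum of `χ(m)` over the primitive characters of one parity -/
noncomputable def Hp (e : ℂ) (m q : ℕ) : ℝ := ‖∑ χ ∈ pc q, par e χ * χ (m : ZMod q)‖

lemma Hp_nn (e : ℂ) (m q : ℕ) : 0 ≤ Hp e m q := norm_nonneg _

lemma Hp_le_two {e : ℂ} (he : ‖e‖ ≤ 1) (m q : ℕ) :
    Hp e m q ≤ (‖∑ χ ∈ pc q, χ (m : ZMod q)‖ + ‖∑ χ ∈ pc q, χ (-(m : ZMod q))‖) / 2 := by
  unfold Hp par
  have h1 : ∑ χ ∈ pc q, (1 + e * χ (-1)) / 2 * χ (m : ZMod q) =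
      ((∑ χ ∈ pc q, χ (m : ZMod q)) + e * ∑ χ ∈ pc q, χ (-(m : ZMod q))) / 2 := by
    rw [Finset.mul_sum, ← Finset.sum_add_distrib, Finset.sum_div]
    refine Finset.sum_congr rfl fun χ _ => ?_
    have : χ (-(m : ZMod q)) = χ (-1) * χ (m : ZMod q) := by
      rw [← map_mul]
      congr 1
      ring
    rw [this]
    ring
  rw [h1, norm_div]
  have h2 : ‖(2 : ℂ)‖ = 2 := by simp
  rw [h2]
  refine div_le_div_of_nonneg_right ((norm_add_le _ _).trans ?_) (by norm_num)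
  rw [norm_mul]
  gcongr
  calc ‖e‖ * ‖∑ χ ∈ pc q, χ (-(m : ZMod q))‖ ≤ 1 * ‖∑ χ ∈ pc q, χ (-(m : ZMod q))‖ := by gcongr
    _ = _ := one_mul _

lemma Hp_le {e : ℂ} (he : ‖e‖ ≤ 1) (m : ℕ) {q : ℕ} (hq : 1 ≤ q) : Hp e m q ≤ q := by
  unfold Hp
  refine (norm_sum_le _ _).trans ?_
  have h1 : ∀ χ ∈ pc q, ‖par e χ * χ (m : ZMod q)‖ ≤ 1 := by
    intro χ _
    rw [norm_mul]
    exact mul_le_one₀ (par_le he χ) (norm_nonneg _) (DirichletCharacter.norm_le_one χ _)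
  refine (Finset.sum_le_sum h1).trans ?_
  rw [Finset.sum_const, nsmul_eq_mul, mul_one]
  exact card_pc_le q hq

/-- the sum over the moduli -/
lemma sum_Hp_le {e : ℂ} (he : ‖e‖ ≤ 1) {m Q : ℕ} (hm : 2 ≤ m) :
    ∑ q ∈ Icc 1 Q, Hp e m q ≤
      Q * (((m - 1).divisors.card : ℝ) + ((m + 1).divisors.card : ℝ)) := by
  have h1 : ∀ q ∈ Icc 1 Q, Hp e m q ≤ Gm m q +
      ∑ d ∈ (m + 1).divisors, (if d ∣ q then (d : ℝ) else 0) := by
    intro q hq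
    rw [mem_Icc] at hq
    have : NeZero q := ⟨by omega⟩
    have h2 := Hp_le_two he m q
    have h3 := norm_sum_le_Gm (q := q) hm
    have h4 := sum_neg_le (m := m) (q := q)
    have h5 := norm_nonneg (∑ χ ∈ pc q, χ (m : ZMod q))
    have h6 := norm_nonneg (∑ χ ∈ pc q, χ (-(m : ZMod q)))
    linarith
  refine (Finset.sum_le_sum h1).trans ?_
  rw [Finset.sum_add_distrib]
  have h2 := sum_Gm_le (Q := Q) hm
  have h3 := sum_dvd_le Q m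
  linarith

lemma sum_Hp_le' {e : ℂ} (he : ‖e‖ ≤ 1) {η C : ℝ} (hη : 0 < η) (hη1 : η ≤ 1)
    (hC : ∀ n : ℕ, 1 ≤ n → (n.divisors.card : ℝ) ≤ C * (n : ℝ) ^ η) (hC0 : 0 ≤ C) {Q m : ℕ}
    (hm : 2 ≤ m) : ∑ q ∈ Icc 1 Q, Hp e m q ≤ Q * (3 * C * (m : ℝ) ^ η) := by
  refine (sum_Hp_le he hm).trans ?_
  have hm0 : (0 : ℝ) < m := by exact_mod_cast (by omega : 0 < m)
  have h1 := hC (m - 1) (by omega)
  have h2 := hC (m + 1) (by omega)
  have h3 : ((m - 1 : ℕ) : ℝ) ^ η ≤ (m : ℝ) ^ η :=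
    Real.rpow_le_rpow (by positivity) (by exact_mod_cast Nat.sub_le _ _) hη.le
  have h4 : ((m + 1 : ℕ) : ℝ) ^ η ≤ 2 * (m : ℝ) ^ η := by
    have h5 : ((m + 1 : ℕ) : ℝ) ≤ 2 * m := by
      push_cast
      have : (1 : ℝ) ≤ m := by exact_mod_cast (by omega : 1 ≤ m)
      linarith
    calc ((m + 1 : ℕ) : ℝ) ^ η ≤ (2 * (m : ℝ)) ^ η := Real.rpow_le_rpow (by positivity) h5 hη.le
      _ = 2 ^ η * (m : ℝ) ^ η := Real.mul_rpow (by norm_num) hm0.le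
      _ ≤ 2 * (m : ℝ) ^ η := by
        have := Real.rpow_le_rpow_of_exponent_le (show (1 : ℝ) ≤ 2 by norm_num) hη1
        rw [Real.rpow_one] at this
        gcongr
  have h5 : ((m - 1).divisors.card : ℝ) + ((m + 1).divisors.card : ℝ) ≤ 3 * C * (m : ℝ) ^ η := by
    have h6 : C * ((m - 1 : ℕ) : ℝ) ^ η ≤ C * (m : ℝ) ^ η := by gcongr
    have h7 : C * ((m + 1 : ℕ) : ℝ) ^ η ≤ C * (2 * (m : ℝ) ^ η) := by gcongr
    linarith
  gcongr

/-- the pairs `(p, r)` -/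
noncomputable def DD (Pr : Set ℕ) (N Q : ℕ) : Finset (ℕ × ℕ) := by
  classical
  exact ((Icc 1 Q) ×ˢ (Icc 1 Q)).filter fun x => (x.1 ∈ Pr ∧ x.1.Prime) ∧
    ((Q : ℝ) ^ (3 / 5 : ℝ) < x.1 ∧ (x.1 : ℝ) ≤ (Q : ℝ) ^ (31 / 50 : ℝ)) ∧
    (Q : ℝ) ^ (9 / 25 : ℝ) < x.2 ∧ x.1 * x.2 ≤ Q ∧ Nat.Coprime (x.1 * x.2) N

lemma mem_DD {Pr : Set ℕ} {N Q : ℕ} {x : ℕ × ℕ} : x ∈ DD Pr N Q ↔
    ((1 ≤ x.1 ∧ x.1 ≤ Q) ∧ (1 ≤ x.2 ∧ x.2 ≤ Q)) ∧ (x.1 ∈ Pr ∧ x.1.Prime) ∧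
    ((Q : ℝ) ^ (3 / 5 : ℝ) < x.1 ∧ (x.1 : ℝ) ≤ (Q : ℝ) ^ (31 / 50 : ℝ)) ∧
    (Q : ℝ) ^ (9 / 25 : ℝ) < x.2 ∧ x.1 * x.2 ≤ Q ∧ Nat.Coprime (x.1 * x.2) N := by
  classical
  unfold DD
  rw [Finset.mem_filter, Finset.mem_product, mem_Icc, mem_Icc]

lemma DD_lt {Pr : Set ℕ} {N Q : ℕ} {x : ℕ × ℕ} (hx : x ∈ DD Pr N Q) : x.2 < x.1 ∧
    (x.2 : ℝ) ≤ (Q : ℝ) ^ (2 / 5 : ℝ) := by
  rw [mem_DD] at hx
  obtain ⟨⟨⟨h1, h2⟩, h3, h4⟩, ⟨h5, h6⟩, ⟨h7, h8⟩, h9, h10, h11⟩ := hx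
  have hQ1 : (1 : ℝ) ≤ Q := by exact_mod_cast h1.trans h2
  have hQ0 : (0 : ℝ) < Q := by linarith
  have e1 : (Q : ℝ) ^ (2 / 5 : ℝ) * (Q : ℝ) ^ (3 / 5 : ℝ) = Q := by
    rw [← Real.rpow_add hQ0]
    norm_num
  have h12 : (x.2 : ℝ) ≤ (Q : ℝ) ^ (2 / 5 : ℝ) := by
    have h13 : (x.1 : ℝ) * x.2 ≤ Q := by exact_mod_cast h10
    have h14 : 0 < (Q : ℝ) ^ (3 / 5 : ℝ) := by positivity
    have h15 : (Q : ℝ) ^ (3 / 5 : ℝ) * x.2 ≤ (Q : ℝ) ^ (3 / 5 : ℝ) * (Q : ℝ) ^ (2 / 5 : ℝ) := by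
      calc (Q : ℝ) ^ (3 / 5 : ℝ) * x.2 ≤ x.1 * x.2 := by gcongr
        _ ≤ Q := h13
        _ = _ := by rw [mul_comm, e1]
    exact le_of_mul_le_mul_left h15 h14
  refine ⟨?_, h12⟩
  have h16 : (Q : ℝ) ^ (2 / 5 : ℝ) ≤ (Q : ℝ) ^ (3 / 5 : ℝ) :=
    Real.rpow_le_rpow_of_exponent_le hQ1 (by norm_num)
  have h17 : (x.2 : ℝ) < x.1 := by linarith
  exact_mod_cast h17

lemma DD_cop {Pr : Set ℕ} {N Q : ℕ} {x : ℕ × ℕ} (hx : x ∈ DD Pr N Q) : Nat.Coprime x.1 x.2 := by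
  have h1 := (DD_lt hx).1
  rw [mem_DD] at hx
  have hp := hx.2.1.2
  rw [Nat.Prime.coprime_iff_not_dvd hp]
  intro h
  have := Nat.le_of_dvd (by omega) h
  omega

lemma DD_inj {Pr : Set ℕ} {N Q : ℕ} {x y : ℕ × ℕ} (hx : x ∈ DD Pr N Q) (hy : y ∈ DD Pr N Q)
    (h : x.1 * x.2 = y.1 * y.2) : x = y := by
  have hx' := mem_DD.1 hx
  have hy' := mem_DD.1 hy
  have h1 : x.1 = y.1 := by
    by_contra hne
    have hco : Nat.Coprime x.1 y.1 := (Nat.coprime_primes hx'.2.1.2 hy'.2.1.2).2 hne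
    have h2 : x.1 ∣ y.2 := by
      have h3 : x.1 ∣ y.1 * y.2 := ⟨x.2, h.symm⟩
      exact hco.dvd_of_dvd_mul_left h3
    have h4 := Nat.le_of_dvd (by omega) h2
    have h5 : (y.2 : ℝ) ≤ (Q : ℝ) ^ (2 / 5 : ℝ) := (DD_lt hy).2
    have hQ1 : (1 : ℝ) ≤ Q := by exact_mod_cast hx'.1.1.1.trans hx'.1.1.2
    have h16 : (Q : ℝ) ^ (2 / 5 : ℝ) ≤ (Q : ℝ) ^ (3 / 5 : ℝ) :=
      Real.rpow_le_rpow_of_exponent_le hQ1 (by norm_num)
    have h6 : (x.1 : ℝ) ≤ y.2 := by exact_mod_cast h4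
    linarith [hx'.2.2.1.1]
  have h2 : x.2 = y.2 := by
    rw [h1] at h
    exact Nat.eq_of_mul_eq_mul_left (by omega) h
  exact Prod.ext h1 h2

/-- sums over the products -/
lemma sum_DD_le {Pr : Set ℕ} {N Q : ℕ} {f : ℕ → ℝ} (hf : ∀ q, 0 ≤ f q) :
    ∑ x ∈ DD Pr N Q, f (x.1 * x.2) ≤ ∑ q ∈ Icc 1 Q, f q := by
  classical
  have h1 : ∑ x ∈ DD Pr N Q, f (x.1 * x.2) =
      ∑ q ∈ (DD Pr N Q).image (fun x => x.1 * x.2), f q := by
    rw [Finset.sum_image]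
    intro x hx y hy h
    exact DD_inj hx hy h
  rw [h1]
  refine Finset.sum_le_sum_of_subset_of_nonneg ?_ fun q _ _ => hf q
  intro q hq
  rw [Finset.mem_image] at hq
  obtain ⟨x, hx, rfl⟩ := hq
  rw [mem_DD] at hx
  rw [mem_Icc]
  exact ⟨Nat.mul_pos (by omega) (by omega), hx.2.2.2.2.1⟩

/-- **the direct part** -/
theorem direct {e : ℂ} (he : ‖e‖ ≤ 1) {η C : ℝ} (hη : 0 < η) (hη1 : η ≤ 1)
    (hC : ∀ n : ℕ, 1 ≤ n → (n.divisors.card : ℝ) ≤ C * (n : ℝ) ^ η) (hC0 : 0 ≤ C)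
    {v : ℕ → ℂ} (hv0 : v 0 = 0) (hs : Summable fun n : ℕ => ‖v n‖ * (n : ℝ) ^ η)
    {Pr : Set ℕ} {N Q K : ℕ} (hK : 1 ≤ K) {a : ℕ → ℂ} (ha1 : a 1 = 1) :
    ‖∑ x ∈ DD Pr N Q, ∑ χ ∈ pc (x.1 * x.2), par e χ *
        ((∑' n : ℕ, χ (n : ZMod (x.1 * x.2)) * v n) *
          ∑ k ∈ Icc 1 K, a k * χ (k : ZMod (x.1 * x.2))) -
      v 1 * ∑ x ∈ DD Pr N Q, ∑ χ ∈ pc (x.1 * x.2), par e χ‖ ≤
      (Q : ℝ) * (3 * C * ((∑ k ∈ Icc 1 K, ‖a k‖ * (k : ℝ) ^ η) * ∑' n : ℕ, ‖v n‖ * (n : ℝ) ^ η)) := by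
  classical
  have hs0 : Summable fun n : ℕ => ‖v n‖ := by
    refine Summable.of_nonneg_of_le (fun n => norm_nonneg _) (fun n => ?_) hs
    rcases Nat.eq_zero_or_pos n with rfl | hn
    · simp [hv0]
    · exact le_mul_of_one_le_right (norm_nonneg _)
        (Real.one_le_rpow (by exact_mod_cast hn) hη.le)
  have hvs : ∀ {q : ℕ} (χ : DirichletCharacter ℂ q), Summable fun n : ℕ => χ (n : ZMod q) * v n := by
    intro q χ
    refine Summable.of_norm_bounded hs0 fun n => ?_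
    rw [norm_mul]
    calc _ ≤ 1 * ‖v n‖ := by
          gcongr
          exact DirichletCharacter.norm_le_one χ _
      _ = _ := one_mul _
  set g : ℕ → ℕ → ℕ → ℂ := fun k n q => a k * v n * ∑ χ ∈ pc q, par e χ * χ ((n * k : ℕ) : ZMod q)
    with hg
  have hgn : ∀ k n q, ‖g k n q‖ = ‖a k‖ * ‖v n‖ * Hp e (n * k) q := by
    intro k n q
    rw [hg]
    simp only [norm_mul]
    rfl
  have hHq : ∀ (m : ℕ) {q : ℕ}, 1 ≤ q → Hp e m q ≤ q := fun m q hq => Hp_le he m hq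
  have hgs : ∀ (k : ℕ) {q : ℕ}, 1 ≤ q → Summable fun n => g k n q := by
    intro k q hq
    refine Summable.of_norm_bounded (hs0.mul_left (‖a k‖ * q)) fun n => ?_
    rw [hgn]
    have := hHq (n * k) hq
    calc ‖a k‖ * ‖v n‖ * Hp e (n * k) q ≤ ‖a k‖ * ‖v n‖ * q := by gcongr
      _ = _ := by ring
  have hDq : ∀ x ∈ DD Pr N Q, 1 ≤ x.1 * x.2 := by
    intro x hx
    rw [mem_DD] at hx
    exact Nat.mul_pos (by omega) (by omega)
  have e1 : ∀ x ∈ DD Pr N Q, ∑ χ ∈ pc (x.1 * x.2), par e χ *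
        ((∑' n : ℕ, χ (n : ZMod (x.1 * x.2)) * v n) *
          ∑ k ∈ Icc 1 K, a k * χ (k : ZMod (x.1 * x.2))) =
      ∑ k ∈ Icc 1 K, ∑' n : ℕ, g k n (x.1 * x.2) := by
    intro x hx
    set q := x.1 * x.2 with hq
    have h1 : ∀ χ ∈ pc q, par e χ * ((∑' n : ℕ, χ (n : ZMod q) * v n) *
          ∑ k ∈ Icc 1 K, a k * χ (k : ZMod q)) =
        ∑ k ∈ Icc 1 K, ∑' n : ℕ, (a k * v n) * (par e χ * χ ((n * k : ℕ) : ZMod q)) := by
      intro χ _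
      rw [Finset.mul_sum, Finset.mul_sum]
      refine Finset.sum_congr rfl fun k _ => ?_
      rw [← tsum_mul_right, ← tsum_mul_left]
      refine tsum_congr fun n => ?_
      rw [Nat.cast_mul, map_mul]
      ring
    rw [Finset.sum_congr rfl h1, Finset.sum_comm]
    refine Finset.sum_congr rfl fun k _ => ?_
    have hsum : ∀ χ ∈ pc q, Summable fun n : ℕ => (a k * v n) *
        (par e χ * χ ((n * k : ℕ) : ZMod q)) := by
      intro χ _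
      refine ((hvs χ).mul_left (a k * par e χ * χ (k : ZMod q))).congr fun n => ?_
      rw [Nat.cast_mul, map_mul]
      ring
    rw [← Summable.tsum_finsetSum hsum]
    refine tsum_congr fun n => ?_
    rw [hg]
    simp only
    rw [Finset.mul_sum]
  rw [Finset.sum_congr rfl e1]
  -- interchange
  set D := DD Pr N Q with hD
  have e2 : ∑ x ∈ D, ∑ k ∈ Icc 1 K, ∑' n : ℕ, g k n (x.1 * x.2) =
      ∑ k ∈ Icc 1 K, ∑' n : ℕ, ∑ x ∈ D, g k n (x.1 * x.2) := by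
    rw [Finset.sum_comm]
    refine Finset.sum_congr rfl fun k _ => ?_
    rw [Summable.tsum_finsetSum fun x hx => hgs k (hDq x hx)]
  rw [e2]
  set T₀ : ℕ → ℕ → ℂ := fun k n => if k = 1 ∧ n = 1 then
    v 1 * ∑ x ∈ D, ∑ χ ∈ pc (x.1 * x.2), par e χ else 0 with hT₀
  have hT₀s : ∀ k, Summable (T₀ k) := by
    intro k
    refine summable_of_hasFiniteSupport ((Set.finite_singleton 1).subset fun n hn => ?_)
    rw [Function.mem_support, hT₀] at hn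
    by_contra hcon
    exact hn (if_neg fun h => hcon h.2)
  have e3 : v 1 * ∑ x ∈ D, ∑ χ ∈ pc (x.1 * x.2), par e χ = ∑ k ∈ Icc 1 K, ∑' n : ℕ, T₀ k n := by
    symm
    rw [Finset.sum_eq_single (s := Icc 1 K) 1]
    · rw [tsum_eq_single 1]
      · simp [hT₀]
      · intro n hn
        simp [hT₀, hn]
    · intro k _ hk
      simp [hT₀, hk]
    · intro h
      exact absurd (mem_Icc.2 ⟨le_rfl, hK⟩) h
  rw [e3, ← Finset.sum_sub_distrib]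
  refine (norm_sum_le _ _).trans ?_
  have hterm : ∀ k ∈ Icc 1 K, ‖(∑' n : ℕ, ∑ x ∈ D, g k n (x.1 * x.2)) - ∑' n : ℕ, T₀ k n‖ ≤
      (Q * (3 * C)) * ((‖a k‖ * (k : ℝ) ^ η) * ∑' n : ℕ, ‖v n‖ * (n : ℝ) ^ η) := by
    intro k hk
    have hk1 := (mem_Icc.1 hk).1
    have hk0 : (0 : ℝ) < k := by exact_mod_cast hk1
    have hs1 : Summable fun n : ℕ => ∑ x ∈ D, g k n (x.1 * x.2) :=
      summable_sum fun x hx => hgs k (hDq x hx)
    rw [← hs1.tsum_sub (hT₀s k), ← tsum_mul_left, ← tsum_mul_left]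
    have hs2 : Summable fun n : ℕ => (Q * (3 * C)) * ((‖a k‖ * (k : ℝ) ^ η) *
        (‖v n‖ * (n : ℝ) ^ η)) := (hs.mul_left _).mul_left _
    refine tsum_of_norm_bounded hs2.hasSum fun n => ?_
    have hnn : 0 ≤ (Q * (3 * C)) * ((‖a k‖ * (k : ℝ) ^ η) * (‖v n‖ * (n : ℝ) ^ η)) := by positivity
    by_cases h : k = 1 ∧ n = 1
    · obtain ⟨rfl, rfl⟩ := h
      have h3 : ∑ x ∈ D, g 1 1 (x.1 * x.2) - T₀ 1 1 = 0 := by
        simp only [hg, hT₀, ha1, if_pos (And.intro rfl rfl), one_mul, mul_one, Nat.cast_one,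
          map_one]
        rw [Finset.mul_sum, sub_self]
      rw [h3, norm_zero]
      exact hnn
    · have h3 : T₀ k n = 0 := by rw [hT₀]; simp only [if_neg h]
      rw [h3, sub_zero]
      rcases Nat.eq_zero_or_pos n with rfl | hn
      · have : ∀ x ∈ D, g k 0 (x.1 * x.2) = 0 := fun x _ => by simp [hg, hv0]
        rw [Finset.sum_congr rfl this, Finset.sum_const_zero, norm_zero]
        exact hnn
      · have hm : 2 ≤ n * k := by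
          by_contra hcon
          have h4 : n * k = 1 := by
            have : 0 < n * k := Nat.mul_pos hn hk1
            omega
          exact h ⟨Nat.dvd_one.1 ⟨n, by rw [mul_comm]; exact h4.symm⟩,
            Nat.dvd_one.1 ⟨k, h4.symm⟩⟩
        refine (norm_sum_le _ _).trans ?_
        rw [Finset.sum_congr rfl fun x _ => hgn k n (x.1 * x.2), ← Finset.mul_sum]
        have h5 : ∑ x ∈ D, Hp e (n * k) (x.1 * x.2) ≤ Q * (3 * C * ((n * k : ℕ) : ℝ) ^ η) :=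
          (sum_DD_le fun q => Hp_nn e (n * k) q).trans (sum_Hp_le' he hη hη1 hC hC0 hm)
        rw [Nat.cast_mul, Real.mul_rpow (by positivity) (by positivity)] at h5
        calc ‖a k‖ * ‖v n‖ * ∑ x ∈ D, Hp e (n * k) (x.1 * x.2)
            ≤ ‖a k‖ * ‖v n‖ * (Q * (3 * C * ((n : ℝ) ^ η * (k : ℝ) ^ η))) := by gcongr
          _ = _ := by ring
  refine (Finset.sum_le_sum hterm).trans (le_of_eq ?_)
  rw [← Finset.mul_sum, ← Finset.sum_mul]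
  ring

end Pool.Agent.NH12.GL
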