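import Pool.Agent.NH12.NV.Mol2
import Pool.Agent.NH12.GL.Sum

/-!
# Coefficients of degree three
-/

set_option autoImplicit false

namespace Pool.Agent.NH12.GL

open Complex Filter Topology Finset
open Pool.Agent.R399.TW Pool.Agent.R399.TM Pool.Agent.NH12.BA Pool.Agent.NH12.NV
open scoped ComplexConjugate

lemma E_three_le (n : ℕ) (hn : n ≠ 0) : E (fun _ => (3 : ℝ)) n ≤ (n.divisors.card : ℝ) ^ 2 := by
  have h1 : (fun _ : ℕ => (3 : ℝ)) = fun k : ℕ => (fun _ : ℕ => (2 : ℝ)) k + (fun _ => (1 : ℝ)) k := by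
    funext k
    norm_num
  rw [h1, ← E_add]
  unfold cv
  have h2 : ∀ p ∈ n.divisorsAntidiagonal,
      E (fun _ => (2 : ℝ)) p.1 * E (fun _ => (1 : ℝ)) p.2 ≤ (n.divisors.card : ℝ) := by
    intro p hp
    have h3 := Nat.mem_divisorsAntidiagonal.1 hp
    have hp1 : p.1 ≠ 0 := fun h => hn (by rw [← h3.1, h, zero_mul])
    have hp2 : p.2 ≠ 0 := fun h => hn (by rw [← h3.1, h, mul_zero])
    rw [E_const_one p.2 hp2, mul_one]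
    refine (E_two_le p.1 hp1).trans ?_
    have h4 : p.1.divisors ⊆ n.divisors := Nat.divisors_subset_of_dvd hn ⟨p.2, h3.1.symm⟩
    exact_mod_cast Finset.card_le_card h4
  refine (Finset.sum_le_sum h2).trans (le_of_eq ?_)
  rw [Finset.sum_const, nsmul_eq_mul]
  have h4 : n.divisorsAntidiagonal.card = n.divisors.card := by
    rw [← Nat.map_div_right_divisors, Finset.card_map]
  rw [h4]
  ring

variable {b₁ b₂ b₃ : ℝ → ℝ}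

/-- the coefficients of the mollifier -/
lemma am_le3 (hw : Wts b₁ b₂ b₃) {η : ℝ} (hη : 0 < η) : ∃ B : ℝ, 0 ≤ B ∧
    ∀ (l : ℝ) (c : ℕ → ℂ), (∀ n, ‖c n‖ ≤ 3) →
    ∀ k : ℕ, 1 ≤ k → ‖am b₁ l c k‖ ≤ B * (k : ℝ) ^ (η - 1 / 2) := by
  obtain ⟨C, hC0, hC⟩ := Pool.Agent.W216.CY.divisor_bound (η / 2) (by positivity)
  refine ⟨C ^ 2, by positivity, fun l c hc k hk => ?_⟩
  have hk0 : (0 : ℝ) < k := by exact_mod_cast hk
  have hk1 : (1 : ℝ) ≤ k := by exact_mod_cast hk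
  have h1 := hw.mw_le l c k
  have h2 : E (fun n => ‖c n‖) k ≤ E (fun _ => (3 : ℝ)) k :=
    E_mono (fun n => norm_nonneg _) hc k
  have h3 := E_three_le k (by omega)
  have h4 := hC k (by omega)
  have h6 : (k.divisors.card : ℝ) ^ 2 ≤ C ^ 2 * (k : ℝ) ^ η := by
    refine (pow_le_pow_left₀ (Nat.cast_nonneg _) h4 2).trans (le_of_eq ?_)
    rw [mul_pow, ← Real.rpow_natCast ((k : ℝ) ^ (η / 2)), ← Real.rpow_mul hk0.le]
    congr 2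
    push_cast
    ring
  unfold am
  rw [norm_mul]
  have h5 : ‖(k : ℂ) ^ (-(1 / 2) : ℂ)‖ = (k : ℝ) ^ (-(1 / 2) : ℝ) := by
    rw [← Complex.ofReal_natCast, Complex.norm_cpow_eq_rpow_re_of_pos hk0]
    congr 1
    simp
  rw [h5]
  calc ‖mw b₁ l c k‖ * (k : ℝ) ^ (-(1 / 2) : ℝ)
      ≤ (C ^ 2 * (k : ℝ) ^ η) * (k : ℝ) ^ (-(1 / 2) : ℝ) := by
        have := h1.trans (h2.trans (h3.trans h6))
        gcongr
    _ = C ^ 2 * (k : ℝ) ^ (η - 1 / 2) := by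
        rw [mul_assoc, ← Real.rpow_add hk0]
        congr 2

lemma sum_inv_sqrt (K : ℕ) : ∑ k ∈ Icc 1 K, (k : ℝ) ^ (-(1 / 2) : ℝ) ≤ 2 * (K : ℝ) ^ (1 / 2 : ℝ) := by
  induction K with
  | zero => simp
  | succ K ih =>
    rw [Finset.sum_Icc_succ_top (by omega)]
    have h1 : (0 : ℝ) < (K + 1 : ℕ) := by positivity
    have h2 : (((K + 1 : ℕ) : ℝ)) ^ (-(1 / 2) : ℝ) ≤
        2 * ((K + 1 : ℕ) : ℝ) ^ (1 / 2 : ℝ) - 2 * (K : ℝ) ^ (1 / 2 : ℝ) := by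
      rw [← Real.sqrt_eq_rpow, ← Real.sqrt_eq_rpow, Real.rpow_neg h1.le, ← Real.sqrt_eq_rpow]
      set s := Real.sqrt ((K + 1 : ℕ) : ℝ) with hs
      set t := Real.sqrt (K : ℝ) with ht
      have hs2 : s ^ 2 = K + 1 := by
        rw [hs, Real.sq_sqrt h1.le]
        push_cast
        ring
      have ht2 : t ^ 2 = K := by rw [ht, Real.sq_sqrt (Nat.cast_nonneg _)]
      have hs0 : 0 < s := Real.sqrt_pos.2 h1
      have ht0 : 0 ≤ t := Real.sqrt_nonneg _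
      rw [inv_le_iff_one_le_mul₀ hs0]
      nlinarith [sq_nonneg (s - t)]
    linarith

/-- sums of the coefficients of the mollifier -/
lemma sum_a_le {a : ℕ → ℂ} {B η : ℝ} (hB : 0 ≤ B) (hη : 0 < η) (hη1 : η ≤ 1 / 8)
    (ha : ∀ k : ℕ, 1 ≤ k → ‖a k‖ ≤ B * (k : ℝ) ^ (η - 1 / 2)) {Q K : ℕ} (hQ : 1 ≤ Q)
    (hKQ : (K : ℝ) ≤ 2 * (Q : ℝ) ^ (1 / 8 : ℝ)) :
    ∑ k ∈ Icc 1 K, ‖a k‖ * (k : ℝ) ^ η ≤ 4 * B * (Q : ℝ) ^ (1 / 16 + η / 4) := by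
  have hQ0 : (0 : ℝ) < Q := by exact_mod_cast hQ
  have h1 : ∀ k ∈ Icc 1 K, ‖a k‖ * (k : ℝ) ^ η ≤
      B * (K : ℝ) ^ (2 * η) * (k : ℝ) ^ (-(1 / 2) : ℝ) := by
    intro k hk
    rw [mem_Icc] at hk
    have hk0 : (0 : ℝ) < k := by exact_mod_cast hk.1
    have hkK : (k : ℝ) ≤ K := by exact_mod_cast hk.2
    have h2 : (k : ℝ) ^ (η - 1 / 2) * (k : ℝ) ^ η = (k : ℝ) ^ (2 * η) * (k : ℝ) ^ (-(1 / 2) : ℝ) := by
      rw [← Real.rpow_add hk0, ← Real.rpow_add hk0]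
      congr 1
      ring
    calc ‖a k‖ * (k : ℝ) ^ η ≤ (B * (k : ℝ) ^ (η - 1 / 2)) * (k : ℝ) ^ η := by
          have := ha k hk.1
          gcongr
      _ = B * ((k : ℝ) ^ (2 * η) * (k : ℝ) ^ (-(1 / 2) : ℝ)) := by rw [mul_assoc, h2]
      _ ≤ B * ((K : ℝ) ^ (2 * η) * (k : ℝ) ^ (-(1 / 2) : ℝ)) := by
          have := Real.rpow_le_rpow hk0.le hkK (show 0 ≤ 2 * η by positivity)
          gcongr
      _ = _ := by ring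
  refine (Finset.sum_le_sum h1).trans ?_
  rw [← Finset.mul_sum]
  have h2 := sum_inv_sqrt K
  have hK0 : (0 : ℝ) ≤ K := Nat.cast_nonneg _
  have h3 : (K : ℝ) ^ (2 * η) * (K : ℝ) ^ (1 / 2 : ℝ) ≤ 2 * (Q : ℝ) ^ (1 / 16 + η / 4) := by
    rw [← Real.rpow_add_of_nonneg hK0 (by positivity) (by norm_num)]
    calc (K : ℝ) ^ (2 * η + 1 / 2) ≤ (2 * (Q : ℝ) ^ (1 / 8 : ℝ)) ^ (2 * η + 1 / 2) :=
          Real.rpow_le_rpow hK0 hKQ (by positivity)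
      _ = 2 ^ (2 * η + 1 / 2) * (Q : ℝ) ^ (1 / 16 + η / 4) := by
          rw [Real.mul_rpow (by norm_num) (by positivity), ← Real.rpow_mul hQ0.le]
          congr 2
          ring
      _ ≤ 2 ^ (1 : ℝ) * (Q : ℝ) ^ (1 / 16 + η / 4) := by
          have := Real.rpow_le_rpow_of_exponent_le (show (1 : ℝ) ≤ 2 by norm_num)
            (show 2 * η + 1 / 2 ≤ 1 by linarith)
          gcongr
      _ = _ := by rw [Real.rpow_one]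
  calc B * (K : ℝ) ^ (2 * η) * ∑ k ∈ Icc 1 K, (k : ℝ) ^ (-(1 / 2) : ℝ)
      ≤ B * (K : ℝ) ^ (2 * η) * (2 * (K : ℝ) ^ (1 / 2 : ℝ)) := by gcongr
    _ = 2 * B * ((K : ℝ) ^ (2 * η) * (K : ℝ) ^ (1 / 2 : ℝ)) := by ring
    _ ≤ 2 * B * (2 * (Q : ℝ) ^ (1 / 16 + η / 4)) := by gcongr
    _ = _ := by ring

lemma sum_a_le' {a : ℕ → ℂ} {B η : ℝ} (hB : 0 ≤ B) (hη : 0 < η) (hη1 : η ≤ 1 / 8)
    (ha : ∀ k : ℕ, 1 ≤ k → ‖a k‖ ≤ B * (k : ℝ) ^ (η - 1 / 2)) {Q K : ℕ} (hQ : 1 ≤ Q)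
    (hKQ : (K : ℝ) ≤ 2 * (Q : ℝ) ^ (1 / 8 : ℝ)) :
    ∑ k ∈ Icc 1 K, ‖a k‖ ≤ 4 * B * (Q : ℝ) ^ (1 / 16 + η / 4) := by
  refine le_trans (Finset.sum_le_sum fun k hk => ?_) (sum_a_le hB hη hη1 ha hQ hKQ)
  rw [mem_Icc] at hk
  exact le_mul_of_one_le_right (norm_nonneg _)
    (Real.one_le_rpow (by exact_mod_cast hk.1) hη.le)

/-- the sum of the squares of the coefficients of the mollifier -/
lemma sum_sq_a {a : ℕ → ℂ} {B η : ℝ} (hB : 0 ≤ B) (hη : 0 < η) (hη1 : η ≤ 1 / 8)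
    (ha : ∀ k : ℕ, 1 ≤ k → ‖a k‖ ≤ B * (k : ℝ) ^ (η - 1 / 2)) {Q K : ℕ} (hQ : 1 ≤ Q)
    (hKQ : (K : ℝ) ≤ 2 * (Q : ℝ) ^ (1 / 8 : ℝ)) :
    ∑ k ∈ Icc 1 K, ‖a k‖ ^ 2 ≤ B ^ 2 * (2 / η) * (Q : ℝ) ^ (3 * η / 8) := by
  have hQ0 : (0 : ℝ) < Q := by exact_mod_cast hQ
  have hK0 : (0 : ℝ) ≤ K := Nat.cast_nonneg _
  rcases Nat.eq_zero_or_pos K with rfl | hKpos
  · simp
    positivity
  have hK1 : (1 : ℝ) ≤ K := by exact_mod_cast hKpos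
  have h1 : ∀ k ∈ Icc 1 K, ‖a k‖ ^ 2 ≤ B ^ 2 * (K : ℝ) ^ (2 * η) * (k : ℝ)⁻¹ := by
    intro k hk
    rw [mem_Icc] at hk
    have hk0 : (0 : ℝ) < k := by exact_mod_cast hk.1
    have hkK : (k : ℝ) ≤ K := by exact_mod_cast hk.2
    refine (pow_le_pow_left₀ (norm_nonneg _) (ha k hk.1) 2).trans ?_
    have h2 : ((k : ℝ) ^ (η - 1 / 2)) ^ 2 = (k : ℝ) ^ (2 * η) * (k : ℝ)⁻¹ := by
      rw [← Real.rpow_natCast, ← Real.rpow_mul hk0.le, ← Real.rpow_neg_one,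
        ← Real.rpow_add hk0]
      congr 1
      push_cast
      ring
    rw [mul_pow, h2]
    have := Real.rpow_le_rpow hk0.le hkK (show 0 ≤ 2 * η by positivity)
    calc B ^ 2 * ((k : ℝ) ^ (2 * η) * (k : ℝ)⁻¹) ≤ B ^ 2 * ((K : ℝ) ^ (2 * η) * (k : ℝ)⁻¹) := by
          gcongr
      _ = _ := by ring
  refine (Finset.sum_le_sum h1).trans ?_
  rw [← Finset.mul_sum]
  have h2 : ∑ k ∈ Icc 1 K, (k : ℝ)⁻¹ ≤ (K : ℝ) ^ η / η := by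
    have h3 := harmonic_le_one_add_log K
    rw [harmonic_eq_sum_Icc] at h3
    push_cast at h3
    have h4 : Real.log ((K : ℝ) ^ η) ≤ (K : ℝ) ^ η - 1 :=
      Real.log_le_sub_one_of_pos (by positivity)
    rw [Real.log_rpow (by linarith)] at h4
    rw [le_div_iff₀ hη]
    have h5 : (∑ k ∈ Icc 1 K, (k : ℝ)⁻¹) * η ≤ (1 + Real.log K) * η := by gcongr
    linarith
  have h3 : (K : ℝ) ^ (2 * η) * (K : ℝ) ^ η ≤ 2 * (Q : ℝ) ^ (3 * η / 8) := by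
    rw [← Real.rpow_add_of_nonneg hK0 (by positivity) (by positivity)]
    calc (K : ℝ) ^ (2 * η + η) ≤ (2 * (Q : ℝ) ^ (1 / 8 : ℝ)) ^ (2 * η + η) :=
          Real.rpow_le_rpow hK0 hKQ (by positivity)
      _ = 2 ^ (2 * η + η) * (Q : ℝ) ^ (3 * η / 8) := by
          rw [Real.mul_rpow (by norm_num) (by positivity), ← Real.rpow_mul hQ0.le]
          congr 2
          ring
      _ ≤ 2 ^ (1 : ℝ) * (Q : ℝ) ^ (3 * η / 8) := by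
          have := Real.rpow_le_rpow_of_exponent_le (show (1 : ℝ) ≤ 2 by norm_num)
            (show 2 * η + η ≤ 1 by linarith)
          gcongr
      _ = _ := by rw [Real.rpow_one]
  calc B ^ 2 * (K : ℝ) ^ (2 * η) * ∑ k ∈ Icc 1 K, (k : ℝ)⁻¹
      ≤ B ^ 2 * (K : ℝ) ^ (2 * η) * ((K : ℝ) ^ η / η) := by gcongr
    _ = B ^ 2 / η * ((K : ℝ) ^ (2 * η) * (K : ℝ) ^ η) := by ring
    _ ≤ B ^ 2 / η * (2 * (Q : ℝ) ^ (3 * η / 8)) := by gcongr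
    _ = _ := by ring

lemma one_add_log_le' {Q : ℕ} (hQ : 1 ≤ Q) {η : ℝ} (hη : 0 < η) (hη1 : η ≤ 1) :
    1 + Real.log Q ≤ (Q : ℝ) ^ η / η := by
  have hQ1 : (1 : ℝ) ≤ Q := by exact_mod_cast hQ
  have h4 : Real.log ((Q : ℝ) ^ η) ≤ (Q : ℝ) ^ η - 1 :=
    Real.log_le_sub_one_of_pos (by positivity)
  rw [Real.log_rpow (by linarith)] at h4
  rw [le_div_iff₀ hη]
  linarith

lemma harm_le {Q : ℕ} (hQ : 1 ≤ Q) {η : ℝ} (hη : 0 < η) (hη1 : η ≤ 1) :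
    ∑ k ∈ Icc 1 Q, (k : ℝ)⁻¹ ≤ (Q : ℝ) ^ η / η := by
  have h3 := harmonic_le_one_add_log Q
  rw [harmonic_eq_sum_Icc] at h3
  push_cast at h3
  exact h3.trans (one_add_log_le' hQ hη hη1)

end Pool.Agent.NH12.GL
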