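import Pool.Agent.NH12.GL.Defs

/-!
# Primitive characters of a product of coprime moduli
-/

set_option autoImplicit false

namespace Pool.Agent.NH12.GL

open Finset DirichletCharacter
open Pool.Agent.NH12.NV (pc mem_pc)

namespace Crt

variable {a b : ℕ}

theorem coprime_iff (n : ℤ) : IsCoprime n ((a * b : ℕ) : ℤ) ↔
    IsCoprime n (a : ℤ) ∧ IsCoprime n (b : ℤ) := by
  push_cast
  exact IsCoprime.mul_right_iff

/-- The values. -/
theorem pr_apply (χ : DirichletCharacter ℂ a) (ψ : DirichletCharacter ℂ b) (n : ℤ) :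
    pr a b χ ψ ((n : ℤ) : ZMod (a * b)) = χ ((n : ℤ) : ZMod a) * ψ ((n : ℤ) : ZMod b) := by
  by_cases h : IsCoprime n ((a * b : ℕ) : ℤ)
  · unfold pr
    rw [MulChar.mul_apply, changeLevel_eq_cast_of_dvd' _ _ h, changeLevel_eq_cast_of_dvd' _ _ h]
  · rw [(apply_eq_zero_iff _ n).2 h]
    rw [coprime_iff, not_and_or] at h
    rcases h with h | h
    · rw [(apply_eq_zero_iff χ n).2 h, zero_mul]
    · rw [(apply_eq_zero_iff ψ n).2 h, mul_zero]

/-- An integer with given residues. -/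
theorem exists_int (hab : Nat.Coprime a b) (x y : ℤ) :
    ∃ n : ℤ, ((n : ℤ) : ZMod a) = x ∧ ((n : ℤ) : ZMod b) = y := by
  obtain ⟨u, v, huv⟩ := (Nat.isCoprime_iff_coprime.2 hab : IsCoprime (a : ℤ) (b : ℤ))
  refine ⟨x * (v * b) + y * (u * a), ?_, ?_⟩
  · have h1 : v * b = 1 - u * a := by linarith
    rw [h1]
    push_cast
    rw [ZMod.natCast_self]
    ring
  · have h1 : u * a = 1 - v * b := by linarith
    rw [h1]
    push_cast
    rw [ZMod.natCast_self]
    ring

theorem pr_injective (hab : Nat.Coprime a b) {χ χ' : DirichletCharacter ℂ a}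
    {ψ ψ' : DirichletCharacter ℂ b} (h : pr a b χ ψ = pr a b χ' ψ') : χ = χ' ∧ ψ = ψ' := by
  constructor
  · ext u
    obtain ⟨x, hx⟩ := ZMod.intCast_surjective (u : ZMod a)
    obtain ⟨n, h1, h2⟩ := exists_int hab x 1
    have h3 := pr_apply χ ψ n
    rw [h, pr_apply, h1, h2, hx, Int.cast_one, map_one, map_one, mul_one, mul_one] at h3
    exact h3.symm
  · ext u
    obtain ⟨x, hx⟩ := ZMod.intCast_surjective (u : ZMod b)
    obtain ⟨n, h1, h2⟩ := exists_int hab 1 x
    have h3 := pr_apply χ ψ n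
    rw [h, pr_apply, h1, h2, hx, Int.cast_one, map_one, map_one, one_mul, one_mul] at h3
    exact h3.symm

theorem pr_bijective [NeZero a] [NeZero b] [NeZero (a * b)] (hab : Nat.Coprime a b) :
    Function.Bijective fun q : DirichletCharacter ℂ a × DirichletCharacter ℂ b =>
      pr a b q.1 q.2 := by
  rw [Fintype.bijective_iff_injective_and_card]
  constructor
  · intro q q' h
    obtain ⟨h1, h2⟩ := pr_injective hab h
    exact Prod.ext h1 h2
  · rw [Fintype.card_prod, ← Nat.card_eq_fintype_card, ← Nat.card_eq_fintype_card,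
      ← Nat.card_eq_fintype_card, DirichletCharacter.card_eq_totient_of_hasEnoughRootsOfUnity,
      DirichletCharacter.card_eq_totient_of_hasEnoughRootsOfUnity,
      DirichletCharacter.card_eq_totient_of_hasEnoughRootsOfUnity, Nat.totient_mul hab]

/-- The conductor of a product. -/
theorem cond_mul_dvd {q d e : ℕ} [NeZero q] {f g : DirichletCharacter ℂ q}
    (hf : FactorsThrough f d) (hg : FactorsThrough g e) : (f * g).conductor ∣ Nat.lcm d e := by
  have hl : Nat.lcm d e ∣ q := Nat.lcm_dvd hf.dvd hg.dvd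
  have h1 := hf.mono (m := Nat.lcm d e) _ (Nat.dvd_lcm_left d e) hl
  have h2 := hg.mono (m := Nat.lcm d e) _ (Nat.dvd_lcm_right d e) hl
  apply conductor_dvd_of_mem_conductorSet
  obtain ⟨h3, f0, hf0⟩ := h1
  obtain ⟨h4, g0, hg0⟩ := h2
  exact ⟨hl, f0 * g0, by rw [map_mul, ← hf0, ← hg0]⟩

theorem pr_primitive [NeZero a] [NeZero b] [NeZero (a * b)] (hab : Nat.Coprime a b)
    (χ : DirichletCharacter ℂ a) (ψ : DirichletCharacter ℂ b) :
    (pr a b χ ψ).IsPrimitive ↔ χ.IsPrimitive ∧ ψ.IsPrimitive := by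
  have hc1 : (changeLevel (Dvd.intro b rfl : a ∣ a * b) χ).conductor = χ.conductor :=
    conductor_changeLevel _ _
  have hc2 : (changeLevel (Dvd.intro_left a rfl : b ∣ a * b) ψ).conductor = ψ.conductor :=
    conductor_changeLevel _ _
  have hF1 := factorsThrough_conductor (changeLevel (Dvd.intro b rfl : a ∣ a * b) χ)
  have hF2 := factorsThrough_conductor (changeLevel (Dvd.intro_left a rfl : b ∣ a * b) ψ)
  rw [hc1] at hF1
  rw [hc2] at hF2
  have ha0 : a ≠ 0 := NeZero.ne a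
  have hb0 : b ≠ 0 := NeZero.ne b
  constructor
  · intro h
    have h1 : (pr a b χ ψ).conductor ∣ Nat.lcm χ.conductor ψ.conductor := cond_mul_dvd hF1 hF2
    rw [(isPrimitive_def _).1 h] at h1
    have h2 : a * b ∣ χ.conductor * ψ.conductor := h1.trans (Nat.lcm_dvd_mul _ _)
    have h3 : a * b ≤ χ.conductor * ψ.conductor := Nat.le_of_dvd
      (Nat.mul_pos (Nat.pos_of_ne_zero (conductor_ne_zero χ)) (Nat.pos_of_ne_zero (conductor_ne_zero ψ))) h2
    have h4 : χ.conductor ≤ a := Nat.le_of_dvd (Nat.pos_of_ne_zero ha0) χ.conductor_dvd_level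
    have h5 : ψ.conductor ≤ b := Nat.le_of_dvd (Nat.pos_of_ne_zero hb0) ψ.conductor_dvd_level
    rw [isPrimitive_def, isPrimitive_def]
    have ha : 0 < a := Nat.pos_of_ne_zero ha0
    have hb : 0 < b := Nat.pos_of_ne_zero hb0
    constructor
    · by_contra hne
      have h6 : χ.conductor < a := lt_of_le_of_ne h4 hne
      have : χ.conductor * ψ.conductor < a * b :=
        lt_of_le_of_lt (Nat.mul_le_mul_left _ h5) (Nat.mul_lt_mul_of_pos_right h6 hb)
      omega
    · by_contra hne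
      have h6 : ψ.conductor < b := lt_of_le_of_ne h5 hne
      have : χ.conductor * ψ.conductor < a * b :=
        lt_of_le_of_lt (Nat.mul_le_mul_right _ h4) (Nat.mul_lt_mul_of_pos_left h6 ha)
      omega
  · rintro ⟨h1, h2⟩
    rw [isPrimitive_def] at h1 h2 ⊢
    have hF := factorsThrough_conductor (pr a b χ ψ)
    have hinv : ∀ (m : ℕ) (hm : m ∣ a * b) (f : DirichletCharacter ℂ m),
        FactorsThrough (changeLevel hm f)⁻¹ m := by
      intro m hm f
      exact ⟨hm, f⁻¹, by rw [map_inv]⟩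
    have e1 : pr a b χ ψ * (changeLevel (Dvd.intro_left a rfl : b ∣ a * b) ψ)⁻¹ =
        changeLevel (Dvd.intro b rfl : a ∣ a * b) χ := by
      unfold pr
      rw [mul_assoc, mul_inv_cancel, mul_one]
    have e2 : pr a b χ ψ * (changeLevel (Dvd.intro b rfl : a ∣ a * b) χ)⁻¹ =
        changeLevel (Dvd.intro_left a rfl : b ∣ a * b) ψ := by
      unfold pr
      have hfg : ∀ f g : DirichletCharacter ℂ (a * b), f * g * f⁻¹ = g := fun f g => by
        rw [mul_comm f g, mul_assoc, mul_inv_cancel, mul_one]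
      exact hfg _ _
    have d1 : a ∣ (pr a b χ ψ).conductor * b := by
      have h3 := cond_mul_dvd hF (hinv b (Dvd.intro_left a rfl) ψ)
      rw [e1, hc1, h1] at h3
      exact h3.trans (Nat.lcm_dvd_mul _ _)
    have d2 : b ∣ (pr a b χ ψ).conductor * a := by
      have h3 := cond_mul_dvd hF (hinv a (Dvd.intro b rfl) χ)
      rw [e2, hc2, h2] at h3
      exact h3.trans (Nat.lcm_dvd_mul _ _)
    have d3 : a ∣ (pr a b χ ψ).conductor := hab.dvd_of_dvd_mul_right d1
    have d4 : b ∣ (pr a b χ ψ).conductor := hab.symm.dvd_of_dvd_mul_right d2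
    exact Nat.dvd_antisymm (conductor_dvd_level _) (hab.mul_dvd_of_dvd_of_dvd d3 d4)

theorem sum_pc [NeZero a] [NeZero b] [NeZero (a * b)] (hab : Nat.Coprime a b)
    (f : DirichletCharacter ℂ (a * b) → ℂ) :
    ∑ χ ∈ pc (a * b), f χ = ∑ χ ∈ pc a, ∑ ψ ∈ pc b, f (pr a b χ ψ) := by
  classical
  rw [← Finset.sum_product']
  symm
  refine Finset.sum_bij (fun q _ => pr a b q.1 q.2) ?_ ?_ ?_ ?_
  · intro q hq
    rw [mem_product, mem_pc, mem_pc] at hq
    rw [mem_pc]
    exact (pr_primitive hab _ _).2 hq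
  · intro q _ q' _ h
    exact (pr_bijective hab).1 h
  · intro χ hχ
    obtain ⟨q, hq⟩ := (pr_bijective hab).2 χ
    refine ⟨q, ?_, hq⟩
    rw [mem_pc, ← hq] at hχ
    rw [mem_product, mem_pc, mem_pc]
    exact (pr_primitive hab _ _).1 hχ
  · intro q _
    rfl

/-- The Chinese remainder bijection. -/
theorem crt_bij [NeZero a] [NeZero b] [NeZero (a * b)] (hab : Nat.Coprime a b) :
    Function.Bijective fun q : ZMod a × ZMod b =>
      ((((q.1.val : ℤ) * b + (q.2.val : ℤ) * a : ℤ)) : ZMod (a * b)) := by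
  rw [Fintype.bijective_iff_injective_and_card]
  constructor
  · rintro ⟨x, y⟩ ⟨x', y'⟩ h
    dsimp only at h
    rw [ZMod.intCast_eq_intCast_iff] at h
    have ha : (a : ℤ) ∣ ((a * b : ℕ) : ℤ) := by push_cast; exact Dvd.intro _ rfl
    have hb : (b : ℤ) ∣ ((a * b : ℕ) : ℤ) := by push_cast; exact Dvd.intro_left _ rfl
    have h1 := (ZMod.intCast_eq_intCast_iff _ _ a).2 (h.of_dvd ha)
    have h2 := (ZMod.intCast_eq_intCast_iff _ _ b).2 (h.of_dvd hb)
    push_cast at h1 h2
    rw [ZMod.natCast_self, mul_zero, mul_zero, add_zero, add_zero, ZMod.natCast_zmod_val,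
      ZMod.natCast_zmod_val] at h1
    rw [ZMod.natCast_self, mul_zero, mul_zero, zero_add, zero_add, ZMod.natCast_zmod_val,
      ZMod.natCast_zmod_val] at h2
    have hub : IsUnit ((b : ℕ) : ZMod a) := (ZMod.isUnit_iff_coprime b a).2 hab.symm
    have hua : IsUnit ((a : ℕ) : ZMod b) := (ZMod.isUnit_iff_coprime a b).2 hab
    rw [hub.mul_left_inj] at h1
    rw [hua.mul_left_inj] at h2
    rw [h1, h2]
  · rw [Fintype.card_prod, ZMod.card, ZMod.card, ZMod.card]

theorem gauss [NeZero a] [NeZero b] [NeZero (a * b)] (hab : Nat.Coprime a b)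
    (χ : DirichletCharacter ℂ a) (ψ : DirichletCharacter ℂ b) :
    gs (pr a b χ ψ) = χ ((b : ℕ) : ZMod a) * ψ ((a : ℕ) : ZMod b) * gs χ * gs ψ := by
  classical
  have ha : (a : ℂ) ≠ 0 := Nat.cast_ne_zero.2 (NeZero.ne a)
  have hb : (b : ℂ) ≠ 0 := Nat.cast_ne_zero.2 (NeZero.ne b)
  unfold gs gaussSum
  rw [← (crt_bij hab).sum_comp (fun z => pr a b χ ψ z * ZMod.stdAddChar z), Fintype.sum_prod_type]
  rw [mul_assoc, Finset.sum_mul_sum, Finset.mul_sum]
  refine Finset.sum_congr rfl fun x _ => ?_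
  rw [Finset.mul_sum]
  refine Finset.sum_congr rfl fun y _ => ?_
  rw [pr_apply]
  have e1 : ((((x.val : ℤ) * b + (y.val : ℤ) * a : ℤ)) : ZMod a) = x * b := by
    push_cast
    rw [ZMod.natCast_self, mul_zero, add_zero, ZMod.natCast_zmod_val]
  have e2 : ((((x.val : ℤ) * b + (y.val : ℤ) * a : ℤ)) : ZMod b) = y * a := by
    push_cast
    rw [ZMod.natCast_self, mul_zero, zero_add, ZMod.natCast_zmod_val]
  have e3 : ZMod.stdAddChar ((((x.val : ℤ) * b + (y.val : ℤ) * a : ℤ)) : ZMod (a * b)) =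
      ZMod.stdAddChar x * ZMod.stdAddChar y := by
    have hx : x = (((x.val : ℕ) : ℤ) : ZMod a) := by
      push_cast
      rw [ZMod.natCast_zmod_val]
    have hy : y = (((y.val : ℕ) : ℤ) : ZMod b) := by
      push_cast
      rw [ZMod.natCast_zmod_val]
    conv_rhs => rw [hx, hy]
    rw [ZMod.stdAddChar_coe, ZMod.stdAddChar_coe, ZMod.stdAddChar_coe, ← Complex.exp_add]
    congr 1
    push_cast
    field_simp
  rw [e1, e2, e3, map_mul, map_mul]
  ring

end Crt

theorem t_crt : S_crt := by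
  intro a b _ _ _ hab
  exact ⟨Crt.pr_apply, Crt.sum_pc hab, Crt.gauss hab⟩

end Pool.Agent.NH12.GL
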