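import Pool.Agent.NH12.GL.Defs
import Pool.Agent.W216.CY.Div

/-!
# Mean squares over correlations of averages of characters
-/

set_option autoImplicit false
set_option linter.unusedSectionVars false

namespace Pool.Agent.NH12.GL

open Finset DirichletCharacter
open Pool.Agent.NH12.NV (pc)
open scoped ComplexConjugate

section cube

/-- the number of cube roots of one -/
noncomputable def g4cu (n : ℕ) : ℕ := Nat.card {x : ZMod n // x ^ 3 = 1}

lemma g4cu_one : g4cu 1 ≤ 1 := by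
  unfold g4cu
  have : Subsingleton {x : ZMod 1 // x ^ 3 = 1} := ⟨fun a b => Subtype.ext (Subsingleton.elim _ _)⟩
  exact Finite.card_le_one_iff_subsingleton.mpr this

lemma g4cu_mul {a b : ℕ} (hab : Nat.Coprime a b) : g4cu (a * b) = g4cu a * g4cu b := by
  unfold g4cu
  rw [← Nat.card_prod]
  refine Nat.card_congr ?_
  let e := ZMod.chineseRemainder hab
  have h1 : ∀ x : ZMod (a * b), x ^ 3 = 1 ↔ (e x).1 ^ 3 = 1 ∧ (e x).2 ^ 3 = 1 := by
    intro x
    rw [← e.injective.eq_iff, map_pow, map_one, Prod.ext_iff, Prod.pow_fst, Prod.pow_snd,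
      Prod.fst_one, Prod.snd_one]
  exact {
    toFun := fun x => (⟨(e x.1).1, ((h1 x.1).1 x.2).1⟩, ⟨(e x.1).2, ((h1 x.1).1 x.2).2⟩)
    invFun := fun y => ⟨e.symm (y.1.1, y.2.1), by
      rw [h1, RingEquiv.apply_symm_apply]
      exact ⟨y.1.2, y.2.2⟩⟩
    left_inv := fun x => Subtype.ext (by simp)
    right_inv := fun y => by simp }

lemma g4cu_units (n : ℕ) : g4cu n = Nat.card {u : (ZMod n)ˣ // u ^ 3 = 1} := by
  unfold g4cu
  refine Nat.card_congr ?_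
  exact {
    toFun := fun x => ⟨⟨x.1, x.1 ^ 2, by rw [← pow_succ', x.2], by rw [← pow_succ, x.2]⟩,
      Units.ext x.2⟩
    invFun := fun u => ⟨(u.1 : ZMod n), by rw [← Units.val_pow_eq_pow_val, u.2, Units.val_one]⟩
    left_inv := fun x => rfl
    right_inv := fun u => Subtype.ext (Units.ext rfl) }

lemma g4cu_prime_pow {p k : ℕ} (hp : p.Prime) (hk : 0 < k) : g4cu (p ^ k) ≤ 3 := by
  classical
  have : NeZero (p ^ k) := ⟨pow_ne_zero _ hp.ne_zero⟩
  rw [g4cu_units]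
  rcases eq_or_ne p 2 with rfl | hp2
  · have h1 : Subsingleton {u : (ZMod (2 ^ k))ˣ // u ^ 3 = 1} := by
      refine ⟨fun a b => ?_⟩
      have h2 : ∀ u : (ZMod (2 ^ k))ˣ, u ^ 3 = 1 → u = 1 := by
        intro u hu
        have h3 : orderOf u ∣ 3 := orderOf_dvd_of_pow_eq_one hu
        have h4 : orderOf u ∣ 2 ^ (k - 1) := by
          have h5 := orderOf_dvd_card (x := u)
          rwa [ZMod.card_units_eq_totient, Nat.totient_prime_pow Nat.prime_two hk,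
            Nat.succ_sub_one, mul_one] at h5
        have h5 : Nat.Coprime 3 (2 ^ (k - 1)) := Nat.Coprime.pow_right _ (by norm_num)
        have h6 := Nat.dvd_gcd h3 h4
        rw [h5] at h6
        exact orderOf_eq_one_iff.mp (Nat.dvd_one.mp h6)
      exact Subtype.ext ((h2 _ a.2).trans (h2 _ b.2).symm)
    exact (Finite.card_le_one_iff_subsingleton.mpr h1).trans (by norm_num)
  · have h1 : IsCyclic (ZMod (p ^ k))ˣ := ZMod.isCyclic_units_of_prime_pow p hp hp2 k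
    have h2 := IsCyclic.card_pow_eq_one_le (α := (ZMod (p ^ k))ˣ) (n := 3) (by norm_num)
    rw [Nat.card_eq_fintype_card, Fintype.card_subtype]
    exact h2

lemma g4cu_le (n : ℕ) (hn : n ≠ 0) : g4cu n ≤ n.divisors.card ^ 2 := by
  induction n using Nat.recOnPosPrimePosCoprime with
  | prime_pow p k hp hk =>
    rw [Nat.divisors_prime_pow hp, Finset.card_map, Finset.card_range]
    refine (g4cu_prime_pow hp hk).trans ?_
    calc 3 ≤ 2 ^ 2 := by norm_num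
      _ ≤ (k + 1) ^ 2 := Nat.pow_le_pow_left (by omega) 2
  | zero => exact absurd rfl hn
  | one => simpa using g4cu_one
  | coprime a b ha hb hab iha ihb =>
    rw [g4cu_mul hab, Nat.Coprime.card_divisors_mul hab, mul_pow]
    exact Nat.mul_le_mul (iha (by omega)) (ihb (by omega))

lemma g4cu_bound (η : ℝ) (hη : 0 < η) : ∃ C : ℝ, 0 < C ∧ ∀ n : ℕ, n ≠ 0 →
    (g4cu n : ℝ) ≤ C * (n : ℝ) ^ η := by
  obtain ⟨C, hC, h⟩ := Pool.Agent.W216.CY.divisor_bound (η / 2) (by positivity)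
  refine ⟨C ^ 2, by positivity, fun n hn => ?_⟩
  have h1 := h n hn
  have h2 : (g4cu n : ℝ) ≤ ((n.divisors.card : ℕ) : ℝ) ^ 2 := by exact_mod_cast g4cu_le n hn
  have h3 : ((n : ℝ) ^ (η / 2)) ^ 2 = (n : ℝ) ^ η := by
    rw [← Real.rpow_natCast, ← Real.rpow_mul (by positivity)]
    congr 1
    push_cast
    ring
  calc (g4cu n : ℝ) ≤ ((n.divisors.card : ℕ) : ℝ) ^ 2 := h2
    _ ≤ (C * (n : ℝ) ^ (η / 2)) ^ 2 := by gcongr
    _ = C ^ 2 * (n : ℝ) ^ η := by rw [mul_pow, h3]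

end cube

section orth
variable {r : ℕ} [NeZero r]

lemma g4_orth (χ ψ : DirichletCharacter ℂ r) :
    ∑ x : ZMod r, χ x * conj (ψ x) = if χ = ψ then (r.totient : ℂ) else 0 := by
  classical
  have h1 : ∀ x : ZMod r, χ x * conj (ψ x) = (χ * ψ⁻¹) x := by
    intro x
    rw [MulChar.mul_apply, ← MulChar.star_apply' ψ x]
    rfl
  rw [Finset.sum_congr rfl fun x _ => h1 x]
  split_ifs with h
  · subst h
    rw [mul_inv_cancel, MulChar.sum_one_eq_card_units, ZMod.card_units_eq_totient]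
  · exact MulChar.sum_eq_zero_of_ne_one (fun h2 => h (mul_inv_eq_one.mp h2))

/-- Parseval -/
lemma g4_parseval (X : Finset (DirichletCharacter ℂ r)) (a : DirichletCharacter ℂ r → ℂ) :
    ∑ x : ZMod r, ‖∑ χ ∈ X, a χ * χ x‖ ^ 2 = r.totient * ∑ χ ∈ X, ‖a χ‖ ^ 2 := by
  classical
  have h1 : (((∑ x : ZMod r, ‖∑ χ ∈ X, a χ * χ x‖ ^ 2 : ℝ)) : ℂ) =
      ((r.totient * ∑ χ ∈ X, ‖a χ‖ ^ 2 : ℝ) : ℂ) := by
    push_cast
    have h2 : ∀ w : ℂ, ((‖w‖ : ℝ) : ℂ) ^ 2 = w * conj w := fun w => by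
      rw [Complex.mul_conj, Complex.normSq_eq_norm_sq]; push_cast; rfl
    simp only [h2]
    have h3 : ∀ x : ZMod r, (∑ χ ∈ X, a χ * χ x) * conj (∑ χ ∈ X, a χ * χ x) =
        ∑ χ ∈ X, ∑ ψ ∈ X, a χ * conj (a ψ) * (χ x * conj (ψ x)) := by
      intro x
      rw [map_sum, Finset.sum_mul_sum]
      refine Finset.sum_congr rfl fun χ _ => Finset.sum_congr rfl fun ψ _ => ?_
      rw [map_mul]; ring
    rw [Finset.sum_congr rfl fun x _ => h3 x, Finset.sum_comm, Finset.mul_sum]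
    refine Finset.sum_congr rfl fun χ hχ => ?_
    rw [Finset.sum_comm]
    have h4 : ∀ ψ ∈ X, ∑ x : ZMod r, a χ * conj (a ψ) * (χ x * conj (ψ x)) =
        if χ = ψ then a χ * conj (a ψ) * (r.totient : ℂ) else 0 := by
      intro ψ _
      rw [← Finset.mul_sum, g4_orth]
      split_ifs <;> ring
    rw [Finset.sum_congr rfl h4, Finset.sum_ite_eq, if_pos hχ]
    ring
  exact_mod_cast h1

lemma g4_parseval' (X : Finset (DirichletCharacter ℂ r)) (a : DirichletCharacter ℂ r → ℂ) :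
    ∑ x : ZMod r, ‖∑ χ ∈ X, a χ * conj (χ x)‖ ^ 2 = r.totient * ∑ χ ∈ X, ‖a χ‖ ^ 2 := by
  have h1 := g4_parseval X (fun χ => conj (a χ))
  have h2 : ∀ x : ZMod r, ‖∑ χ ∈ X, a χ * conj (χ x)‖ = ‖∑ χ ∈ X, conj (a χ) * χ x‖ := by
    intro x
    rw [← Complex.norm_conj (∑ χ ∈ X, a χ * conj (χ x)), map_sum]
    congr 1
    refine Finset.sum_congr rfl fun χ _ => ?_
    rw [map_mul, Complex.conj_conj]
  simp only [h2]
  rw [h1]
  simp only [Complex.norm_conj]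

/-- Bessel -/
lemma g4_bessel (X : Finset (DirichletCharacter ℂ r)) (f : ZMod r → ℂ) :
    ∑ χ ∈ X, ‖∑ x : ZMod r, f x * conj (χ x)‖ ^ 2 ≤ r.totient * ∑ x : ZMod r, ‖f x‖ ^ 2 := by
  classical
  set F : DirichletCharacter ℂ r → ℂ := fun χ => ∑ x : ZMod r, f x * conj (χ x) with hF
  set S : ℝ := ∑ χ ∈ X, ‖F χ‖ ^ 2 with hS
  have hS0 : 0 ≤ S := Finset.sum_nonneg fun _ _ => by positivity
  have h1 : (S : ℂ) = ∑ x : ZMod r, f x * conj (∑ χ ∈ X, F χ * χ x) := by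
    rw [hS]
    push_cast
    have h2 : ∀ w : ℂ, ((‖w‖ : ℝ) : ℂ) ^ 2 = w * conj w := fun w => by
      rw [Complex.mul_conj, Complex.normSq_eq_norm_sq]; push_cast; rfl
    simp only [h2]
    have h3 : ∀ χ ∈ X, F χ * conj (F χ) = ∑ x : ZMod r, f x * conj (F χ * χ x) := by
      intro χ _
      conv_lhs => rw [hF]
      simp only
      rw [Finset.sum_mul]
      refine Finset.sum_congr rfl fun x _ => ?_
      rw [map_mul]; ring
    rw [Finset.sum_congr rfl h3, Finset.sum_comm]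
    refine Finset.sum_congr rfl fun x _ => ?_
    rw [map_sum, Finset.mul_sum]
  have h2 : S ≤ ∑ x : ZMod r, ‖f x‖ * ‖∑ χ ∈ X, F χ * χ x‖ := by
    have h3 : S = ‖(S : ℂ)‖ := by
      rw [Complex.norm_real, Real.norm_of_nonneg hS0]
    rw [h3, h1]
    refine (norm_sum_le _ _).trans (Finset.sum_le_sum fun x _ => ?_)
    rw [norm_mul, Complex.norm_conj]
  have h3 := Finset.sum_mul_sq_le_sq_mul_sq (Finset.univ : Finset (ZMod r)) (fun x => ‖f x‖)
    (fun x => ‖∑ χ ∈ X, F χ * χ x‖)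
  rw [g4_parseval X F] at h3
  have h4 : S ^ 2 ≤ (∑ x : ZMod r, ‖f x‖ ^ 2) * (r.totient * S) :=
    (pow_le_pow_left₀ hS0 h2 2).trans h3
  rcases eq_or_lt_of_le hS0 with h5 | h5
  · rw [← h5]; positivity
  · have h6 : S * S ≤ (r.totient * ∑ x : ZMod r, ‖f x‖ ^ 2) * S := by nlinarith
    exact le_of_mul_le_mul_right h6 h5

end orth

section main
variable {r : ℕ} [NeZero r]

/-- the function on residues -/
noncomputable def g4B (u : DirichletCharacter ℂ r → ℂ) (v x : ZMod r) : ℂ :=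
  ∑ χ ∈ pc r, u χ * χ v * conj (χ x)

lemma g4B_eq (u : DirichletCharacter ℂ r → ℂ) (v n : ℤ) :
    Gf r u v n = g4B u ((v : ℤ) : ZMod r) ((n : ℤ) : ZMod r) := rfl

lemma g4B_zero (u : DirichletCharacter ℂ r → ℂ) {v : ZMod r} (hv : ¬ IsUnit v) (x : ZMod r) :
    g4B u v x = 0 := by
  unfold g4B
  refine Finset.sum_eq_zero fun χ _ => ?_
  rw [MulChar.map_nonunit χ hv, mul_zero, zero_mul]

lemma g4_card (X : Finset (DirichletCharacter ℂ r)) : X.card ≤ r.totient := by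
  refine (Finset.card_le_univ X).trans ?_
  rw [← DirichletCharacter.card_eq_totient_of_hasEnoughRootsOfUnity ℂ r, Nat.card_eq_fintype_card]

lemma g4_tot : (r.totient : ℝ) ≤ r := by exact_mod_cast Nat.totient_le r

lemma g4B_sq {u : DirichletCharacter ℂ r → ℂ} (hu : ∀ χ, ‖u χ‖ ≤ 1) (v : ZMod r) :
    ∑ x : ZMod r, ‖g4B u v x‖ ^ 2 ≤ (r : ℝ) ^ 2 := by
  unfold g4B
  rw [g4_parseval' (pc r) (fun χ => u χ * χ v)]
  have h1 : ∑ χ ∈ pc r, ‖u χ * χ v‖ ^ 2 ≤ r.totient := by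
    calc ∑ χ ∈ pc r, ‖u χ * χ v‖ ^ 2 ≤ ∑ χ ∈ pc r, 1 := by
          refine Finset.sum_le_sum fun χ _ => ?_
          rw [norm_mul]
          have h2 := hu χ
          have h3 := DirichletCharacter.norm_le_one χ v
          have h4 : ‖u χ‖ * ‖χ v‖ ≤ 1 := mul_le_one₀ h2 (norm_nonneg _) h3
          exact pow_le_one₀ (by positivity) h4
      _ = ((pc r).card : ℝ) := by simp
      _ ≤ r.totient := by exact_mod_cast g4_card (pc r)
  have h2 := g4_tot (r := r)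
  calc (r.totient : ℝ) * ∑ χ ∈ pc r, ‖u χ * χ v‖ ^ 2 ≤ r * r := by gcongr; exact h1.trans h2
    _ = _ := by ring

/-- the correlation -/
noncomputable def g4G (u : DirichletCharacter ℂ r → ℂ) (E : ZMod r → ℂ) (v v' : ZMod r) : ℂ :=
  ∑ x : ZMod r, g4B u v x * conj (g4B u v' x) * E x

lemma g4G_sum {u : DirichletCharacter ℂ r → ℂ} (hu : ∀ χ, ‖u χ‖ ≤ 1) {E : ZMod r → ℂ}
    (hE : ∀ x, ‖E x‖ ≤ 1) (v' : ZMod r) :
    ∑ v : ZMod r, ‖g4G u E v v'‖ ^ 2 ≤ (r : ℝ) ^ 4 := by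
  set f : ZMod r → ℂ := fun x => conj (g4B u v' x) * E x with hf
  have h1 : ∀ v, g4G u E v v' = ∑ χ ∈ pc r, (u χ * ∑ x : ZMod r, f x * conj (χ x)) * χ v := by
    intro v
    unfold g4G
    conv_lhs =>
      enter [2, x]
      rw [g4B, mul_assoc, Finset.sum_mul]
    rw [Finset.sum_comm]
    refine Finset.sum_congr rfl fun χ _ => ?_
    rw [Finset.mul_sum, Finset.sum_mul]
    refine Finset.sum_congr rfl fun x _ => ?_
    simp only [hf]
    ring
  simp only [h1]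
  rw [g4_parseval (pc r)]
  have h2 : ∑ χ ∈ pc r, ‖u χ * ∑ x : ZMod r, f x * conj (χ x)‖ ^ 2 ≤
      r.totient * ∑ x : ZMod r, ‖f x‖ ^ 2 := by
    refine le_trans (Finset.sum_le_sum fun χ _ => ?_) (g4_bessel (pc r) f)
    rw [norm_mul, mul_pow]
    have h3 : ‖u χ‖ ^ 2 ≤ 1 := pow_le_one₀ (norm_nonneg _) (hu χ)
    exact mul_le_of_le_one_left (by positivity) h3
  have h3 : ∑ x : ZMod r, ‖f x‖ ^ 2 ≤ (r : ℝ) ^ 2 := by
    refine le_trans (Finset.sum_le_sum fun x _ => ?_) (g4B_sq hu v')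
    simp only [hf]
    rw [norm_mul, Complex.norm_conj, mul_pow]
    exact mul_le_of_le_one_right (by positivity) (pow_le_one₀ (norm_nonneg _) (hE x))
  have h4 := g4_tot (r := r)
  calc (r.totient : ℝ) * ∑ χ ∈ pc r, ‖u χ * ∑ x : ZMod r, f x * conj (χ x)‖ ^ 2
      ≤ r.totient * (r.totient * ∑ x : ZMod r, ‖f x‖ ^ 2) := by gcongr
    _ ≤ r * (r * r ^ 2) := by gcongr
    _ = _ := by ring

lemma g4G_sum2 {u : DirichletCharacter ℂ r → ℂ} (hu : ∀ χ, ‖u χ‖ ≤ 1) {E : ZMod r → ℂ}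
    (hE : ∀ x, ‖E x‖ ≤ 1) : ∑ v' : ZMod r, ∑ v : ZMod r, ‖g4G u E v v'‖ ^ 2 ≤ (r : ℝ) ^ 5 := by
  calc ∑ v' : ZMod r, ∑ v : ZMod r, ‖g4G u E v v'‖ ^ 2 ≤ ∑ v' : ZMod r, (r : ℝ) ^ 4 :=
        Finset.sum_le_sum fun v' _ => g4G_sum hu hE v'
    _ = _ := by
      rw [Finset.sum_const, Finset.card_univ, ZMod.card, nsmul_eq_mul]; ring

lemma g4G_zero (u : DirichletCharacter ℂ r → ℂ) (E : ZMod r → ℂ) {v v' : ZMod r}
    (h : ¬ IsUnit v ∨ ¬ IsUnit v') : g4G u E v v' = 0 := by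
  unfold g4G
  refine Finset.sum_eq_zero fun x _ => ?_
  rcases h with h | h
  · rw [g4B_zero u h, zero_mul, zero_mul]
  · rw [g4B_zero u h, map_zero, mul_zero, zero_mul]

/-- sums over the fibres of a map -/
lemma g4_fiber {P : Finset ℕ} (h : ℕ → ZMod r) {F : ZMod r → ℝ} (hF0 : ∀ v, 0 ≤ F v)
    (hF : ∀ v, ¬ IsUnit v → F v = 0) {K : ℝ}
    (hK : ∀ v, IsUnit v → ((P.filter (fun p => h p = v)).card : ℝ) ≤ K) :
    ∑ p ∈ P, F (h p) ≤ K * ∑ v : ZMod r, F v := by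
  classical
  rw [← Finset.sum_fiberwise P h (fun p => F (h p)), Finset.mul_sum]
  refine Finset.sum_le_sum fun v _ => ?_
  have h1 : ∑ p ∈ P.filter (fun p => h p = v), F (h p) =
      ((P.filter (fun p => h p = v)).card : ℝ) * F v := by
    rw [Finset.sum_congr rfl (g := fun _ => F v) (fun p hp => by rw [(Finset.mem_filter.mp hp).2]),
      Finset.sum_const, nsmul_eq_mul]
  rw [h1]
  by_cases hv : IsUnit v
  · exact mul_le_mul_of_nonneg_right (hK v hv) (hF0 v)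
  · rw [hF v hv, mul_zero, mul_zero]

lemma g4_res (N : ℕ) (a : ZMod r) :
    (((Icc 1 N).filter (fun n : ℕ => (n : ZMod r) = a)).card : ℝ) ≤ N / r + 1 := by
  have hq : 0 < r := NeZero.pos r
  have h1 : ((Icc 1 N).filter (fun n : ℕ => (n : ZMod r) = a)).card ≤ (range (N / r + 1)).card := by
    refine Finset.card_le_card_of_injOn (fun n => n / r) (fun n hn => ?_) fun n hn k hk hnk => ?_
    · rw [Finset.mem_coe, Finset.mem_filter, mem_Icc] at hn
      rw [Finset.mem_coe, Finset.mem_range]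
      exact Nat.lt_succ_of_le (Nat.div_le_div_right hn.1.2)
    · rw [Finset.mem_coe, Finset.mem_filter] at hn hk
      have h2 : (n : ZMod r) = (k : ZMod r) := by rw [hn.2, hk.2]
      rw [ZMod.natCast_eq_natCast_iff] at h2
      have h3 : n % r = k % r := h2
      simp only at hnk
      rw [← Nat.div_add_mod n r, ← Nat.div_add_mod k r, h3, hnk]
  rw [Finset.card_range] at h1
  have h2 : ((N / r + 1 : ℕ) : ℝ) ≤ N / r + 1 := by
    push_cast
    have := @Nat.cast_div_le ℝ _ _ _ N r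
    linarith
  exact le_trans (by exact_mod_cast h1) h2

lemma g4_mult {P : Finset ℕ} {Bp : ℝ} (hP : ∀ p ∈ P, 1 ≤ p ∧ (p : ℝ) ≤ Bp) (m : ℤ) (v : ZMod r)
    (hv : IsUnit v) (hB : 0 ≤ Bp) :
    ((P.filter (fun p : ℕ => (((m * (p : ℤ) ^ 3 : ℤ)) : ZMod r) = v)).card : ℝ) ≤
      g4cu r * (Bp / r + 1) := by
  classical
  have hr : (0 : ℝ) < r := by exact_mod_cast NeZero.pos r
  rcases (P.filter (fun p : ℕ => (((m * (p : ℤ) ^ 3 : ℤ)) : ZMod r) = v)).eq_empty_or_nonempty with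
    he | ⟨p0, hp0⟩
  · rw [he]
    simp only [Finset.card_empty, Nat.cast_zero]
    positivity
  · have h0 := (Finset.mem_filter.mp hp0).2
    push_cast at h0
    have hm : IsUnit ((m : ℤ) : ZMod r) := isUnit_of_mul_isUnit_left (h0 ▸ hv)
    have hp0u : IsUnit ((p0 : ZMod r)) := by
      have h1 : IsUnit ((p0 : ZMod r) ^ 3) := isUnit_of_mul_isUnit_right (h0 ▸ hv)
      exact (isUnit_pow_iff (by norm_num)).mp h1
    obtain ⟨w, hw⟩ := hp0u
    set T : Finset (ZMod r) := (univ : Finset (ZMod r)).filter (fun x => x ^ 3 = 1) with hT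
    have hTc : T.card = g4cu r := by
      rw [g4cu, Nat.card_eq_fintype_card, Fintype.card_subtype]
    have hsub : P.filter (fun p : ℕ => (((m * (p : ℤ) ^ 3 : ℤ)) : ZMod r) = v) ⊆
        T.biUnion (fun x => (Icc 1 ⌊Bp⌋₊).filter (fun n : ℕ => (n : ZMod r) = (w : ZMod r) * x)) := by
      intro p hp
      obtain ⟨hpP, hpv⟩ := Finset.mem_filter.mp hp
      push_cast at hpv
      rw [Finset.mem_biUnion]
      refine ⟨(w⁻¹ : (ZMod r)ˣ) * (p : ZMod r), ?_, ?_⟩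
      · rw [hT, Finset.mem_filter]
        refine ⟨Finset.mem_univ _, ?_⟩
        have h2 : (p : ZMod r) ^ 3 = (p0 : ZMod r) ^ 3 := by
          apply hm.mul_left_cancel
          rw [hpv, h0]
        rw [mul_pow, h2, ← hw, ← mul_pow, Units.inv_mul, one_pow]
      · rw [Finset.mem_filter, mem_Icc]
        refine ⟨⟨(hP p hpP).1, Nat.le_floor (hP p hpP).2⟩, ?_⟩
        rw [Units.mul_inv_cancel_left]
    have h1 : ((P.filter (fun p : ℕ => (((m * (p : ℤ) ^ 3 : ℤ)) : ZMod r) = v)).card : ℝ) ≤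
        ∑ x ∈ T, (((Icc 1 ⌊Bp⌋₊).filter (fun n : ℕ => (n : ZMod r) = (w : ZMod r) * x)).card : ℝ) := by
      exact_mod_cast (Finset.card_le_card hsub).trans Finset.card_biUnion_le
    refine h1.trans ?_
    calc ∑ x ∈ T, (((Icc 1 ⌊Bp⌋₊).filter (fun n : ℕ => (n : ZMod r) = (w : ZMod r) * x)).card : ℝ)
        ≤ ∑ x ∈ T, (Bp / r + 1) := by
          refine Finset.sum_le_sum fun x _ => (g4_res _ _).trans ?_
          have h2 : ((⌊Bp⌋₊ : ℕ) : ℝ) ≤ Bp := Nat.floor_le hB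
          gcongr
      _ = g4cu r * (Bp / r + 1) := by
          rw [Finset.sum_const, nsmul_eq_mul, hTc]

lemma g4_range {M : Type*} [AddCommMonoid M] (g : ℕ → M) :
    ∑ x ∈ range r, g x = ∑ y : ZMod r, g y.val := by
  refine Finset.sum_bij' (fun x _ => (x : ZMod r)) (fun y _ => y.val) ?_ ?_ ?_ ?_ ?_
  · intro x _; exact Finset.mem_univ _
  · intro y _; exact Finset.mem_range.mpr (ZMod.val_lt y)
  · intro x hx; exact ZMod.val_cast_of_lt (Finset.mem_range.mp hx)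
  · intro y _; exact ZMod.natCast_zmod_val y
  · intro x hx; rw [ZMod.val_cast_of_lt (Finset.mem_range.mp hx)]

end main

lemma g4_ee (x : ℝ) : ‖ee x‖ ≤ 1 := by
  unfold ee
  rw [Complex.norm_exp]
  simp

theorem t_Gf : S_Gf := by
  intro η hη
  obtain ⟨C, hC, hcu⟩ := g4cu_bound η hη
  refine ⟨C, hC, ?_⟩
  intro r u m P Bp hr hu hP
  have hr0 : r ≠ 0 := by omega
  have : NeZero r := ⟨hr0⟩
  have hrR : (0 : ℝ) < r := by exact_mod_cast Nat.pos_of_ne_zero hr0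
  refine ⟨?_, ?_, ?_⟩
  · intro v n
    rw [g4B_eq, g4B_eq]
    push_cast
    rw [ZMod.natCast_self, add_zero]
  · intro v
    rw [g4_range (r := r) (fun x => ‖Gf r u v x‖ ^ 2)]
    have h1 : ∀ y : ZMod r, Gf r u v (y.val : ℕ) = g4B u ((v : ℤ) : ZMod r) y := by
      intro y
      rw [g4B_eq]
      congr 1
      rw [Int.cast_natCast, ZMod.natCast_zmod_val]
    simp only [h1]
    exact g4B_sq hu _
  · intro z
    set E : ZMod r → ℂ := fun y => ee (-(((y.val : ℕ) : ℝ) * z / r)) with hE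
    have hE1 : ∀ y, ‖E y‖ ≤ 1 := fun y => g4_ee _
    have h1 : ∀ p p' : ℕ, ∑ x ∈ range r, Gf r u (m * p ^ 3) x * conj (Gf r u (m * p' ^ 3) x) *
        ee (-((x : ℝ) * z / r)) = g4G u E (((m * (p : ℤ) ^ 3 : ℤ)) : ZMod r)
          (((m * (p' : ℤ) ^ 3 : ℤ)) : ZMod r) := by
      intro p p'
      rw [g4_range (r := r) (fun x => Gf r u (m * p ^ 3) x * conj (Gf r u (m * p' ^ 3) x) *
        ee (-((x : ℝ) * z / r)))]
      unfold g4G
      refine Finset.sum_congr rfl fun y _ => ?_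
      rw [g4B_eq, g4B_eq, Int.cast_natCast, ZMod.natCast_zmod_val]
    simp only [h1]
    rcases P.eq_empty_or_nonempty with he | ⟨p1, hp1⟩
    · rw [he]
      simp only [Finset.sum_empty]
      positivity
    have hB : 0 ≤ Bp := le_trans (by positivity) (hP p1 hp1).2
    set K : ℝ := g4cu r * (Bp / r + 1) with hK
    have hK0 : 0 ≤ K := by positivity
    have hmult : ∀ v : ZMod r, IsUnit v →
        ((P.filter (fun p : ℕ => (((m * (p : ℤ) ^ 3 : ℤ)) : ZMod r) = v)).card : ℝ) ≤ K :=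
      fun v hv => g4_mult hP m v hv hB
    have h2 : ∀ p ∈ P, ∑ p' ∈ P, ‖g4G u E (((m * (p : ℤ) ^ 3 : ℤ)) : ZMod r)
        (((m * (p' : ℤ) ^ 3 : ℤ)) : ZMod r)‖ ^ 2 ≤
        K * ∑ v' : ZMod r, ‖g4G u E (((m * (p : ℤ) ^ 3 : ℤ)) : ZMod r) v'‖ ^ 2 := by
      intro p _
      exact g4_fiber (fun p' : ℕ => (((m * (p' : ℤ) ^ 3 : ℤ)) : ZMod r))
        (F := fun v' => ‖g4G u E (((m * (p : ℤ) ^ 3 : ℤ)) : ZMod r) v'‖ ^ 2)
        (fun v => by positivity) (fun v hv => by rw [g4G_zero u E (Or.inr hv)]; simp) hmult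
    refine (Finset.sum_le_sum h2).trans ?_
    rw [← Finset.mul_sum]
    have h3 : ∑ p ∈ P, ∑ v' : ZMod r, ‖g4G u E (((m * (p : ℤ) ^ 3 : ℤ)) : ZMod r) v'‖ ^ 2 ≤
        K * ∑ v : ZMod r, ∑ v' : ZMod r, ‖g4G u E v v'‖ ^ 2 :=
      g4_fiber (fun p : ℕ => (((m * (p : ℤ) ^ 3 : ℤ)) : ZMod r))
        (F := fun v => ∑ v' : ZMod r, ‖g4G u E v v'‖ ^ 2)
        (fun v => Finset.sum_nonneg fun _ _ => by positivity)
        (fun v hv => Finset.sum_eq_zero fun v' _ => by rw [g4G_zero u E (Or.inl hv)]; simp) hmult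
    have h4 : ∑ v : ZMod r, ∑ v' : ZMod r, ‖g4G u E v v'‖ ^ 2 ≤ (r : ℝ) ^ 5 := by
      rw [Finset.sum_comm]
      exact g4G_sum2 hu hE1
    have h5 : K ≤ C * (r : ℝ) ^ η * (Bp / r + 1) := by
      rw [hK]
      exact mul_le_mul_of_nonneg_right (hcu r hr0) (by positivity)
    calc K * ∑ p ∈ P, ∑ v' : ZMod r, ‖g4G u E (((m * (p : ℤ) ^ 3 : ℤ)) : ZMod r) v'‖ ^ 2
        ≤ K * (K * ∑ v : ZMod r, ∑ v' : ZMod r, ‖g4G u E v v'‖ ^ 2) := by gcongr
      _ ≤ K * (K * (r : ℝ) ^ 5) := by gcongr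
      _ = K ^ 2 * (r : ℝ) ^ 5 := by ring
      _ ≤ _ := by gcongr

end Pool.Agent.NH12.GL
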