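import Pool.Agent.NH12.GL.Tw

/-!
# Statement of the module 17: shifts
-/

set_option autoImplicit false

namespace Pool.Agent.NH12.GL

open Finset Filter Topology Complex MeasureTheory
open Pool.Agent.R399.TW Pool.Agent.R399.TM Pool.Agent.NH12.NV
open scoped ComplexConjugate

/-- **module 17**: a family shifted by `i t₀` -/
def S_shift : Prop := ∀ (m : ℕ) (Pr : Set ℕ) (N : ℕ) (e : ℂ) (R V S : ℝ) (c : ℕ → ℂ)
    (F ep : (q : ℕ) → DirichletCharacter ℂ q → ℂ → ℂ) (g : ℂ → ℂ) (b : ℕ → ℕ → ℂ)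
    (u : (r : ℕ) → DirichletCharacter ℂ r → ℂ) (v : ℕ → ℤ) (M : ℤ),
    TwM m Pr N e R V S c F ep g b u v M → ∀ t₀ : ℝ,
    ∃ (V' : ℝ) (ep' : (q : ℕ) → DirichletCharacter ℂ q → ℂ → ℂ) (g' : ℂ → ℂ) (b' : ℕ → ℕ → ℂ),
      TwM m Pr N e R V' S (fun n => c n * (n : ℂ) ^ (-((t₀ : ℂ) * I)))
        (fun q χ s => F q χ (s + (t₀ : ℂ) * I)) ep' g' b' u v M

end Pool.Agent.NH12.GL
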