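import Pool.Agent.NH12.GL.Fin
import Pool.Agent.NH12.GL.Tw5
import Pool.Agent.NH12.GL.Crt
import Pool.Agent.NH12.GL.Bil
import Pool.Agent.NH12.GL.Af
import Pool.Agent.NH12.GL.Gf
import Pool.Agent.NH12.GL.Cnt
import Pool.Agent.R399.TM.Multi

/-!
# The general theorem at the points `1/2 + i t₀`
-/

set_option autoImplicit false

namespace Pool.Agent.NH12.GL

open Complex Filter Topology Finset
open Pool.Agent.R399.TW Pool.Agent.R399.TM Pool.Agent.NH12.BA Pool.Agent.NH12.NV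
open scoped ComplexConjugate

variable {Pr : Set ℕ} {N : ℕ} {e : ℂ} {R V S : ℝ} {c : ℕ → ℂ}
  {F ep : (q : ℕ) → DirichletCharacter ℂ q → ℂ → ℂ} {g : ℂ → ℂ} {b : ℕ → ℕ → ℂ}
  {u : (r : ℕ) → DirichletCharacter ℂ r → ℂ} {v : ℕ → ℤ} {M : ℤ}

lemma norm_shift_le (c : ℕ → ℂ) (t₀ : ℝ) (n : ℕ) :
    ‖c n * (n : ℂ) ^ (-((t₀ : ℂ) * I))‖ ≤ ‖c n‖ := by
  rw [norm_mul]
  have h : ‖(n : ℂ) ^ (-((t₀ : ℂ) * I))‖ ≤ 1 := by
    rcases Nat.eq_zero_or_pos n with rfl | hn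
    · by_cases h0 : (-((t₀ : ℂ) * I)) = 0
      · rw [h0]
        simp
      · rw [Nat.cast_zero, Complex.zero_cpow h0]
        simp
    · rw [← Complex.ofReal_natCast, Complex.norm_cpow_eq_rpow_re_of_pos (by exact_mod_cast hn)]
      simp
  exact mul_le_of_le_one_right (norm_nonneg _) h

/-- the mean square condition is invariant under shifts -/
lemma SqA.shift {CA : ℝ} {A : ℕ} (h : SqA c CA A) (t₀ : ℝ) :
    SqA (fun n => c n * (n : ℂ) ^ (-((t₀ : ℂ) * I))) CA A := by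
  intro K hK
  refine le_trans (Finset.sum_le_sum fun k _ => ?_) (h K hK)
  refine div_le_div_of_nonneg_right ?_ (Nat.cast_nonneg k)
  exact pow_le_pow_left₀ (E_nonneg (fun _ => norm_nonneg _) k)
    (E_mono (fun _ => norm_nonneg _) (norm_shift_le c t₀) k) 2

/-- **the general theorem** at `1/2 + i t₀` -/
theorem pos3t (hsh : S_shift) (hN : N ≠ 0) (he : e = 1 ∨ e = -1) (hdens : Dens Pr)
    (hT : TwM 3 Pr N e R V S c F ep g b u v M) {CA : ℝ} {A : ℕ} (hCA : 0 ≤ CA)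
    (hSA : SqA c CA A) (t₀ : ℝ) : ∃ (c₂ κ : ℝ) (Q₀ : ℕ), 0 < c₂ ∧ 0 < κ ∧ ∀ Q : ℕ, Q₀ ≤ Q →
      c₂ * (Q : ℝ) ^ 2 ≤
        (count N Q (fun q χ => χ (-1) = e ∧ κ / Real.log Q ^ A ≤ ‖F q χ (1 / 2 + t₀ * I)‖ ∧
          ∀ s : ℂ, ‖s - (1 / 2 + t₀ * I)‖ ≤ κ / Real.log Q → F q χ s ≠ 0) : ℝ) := by
  obtain ⟨V', ep', g', b', hT'⟩ := hsh 3 Pr N e R V S c F ep g b u v M hT t₀
  obtain ⟨c₂, κ, Q₀, h1, h2, h3⟩ := pos3 t_crt t_bil t_Af t_Gf (t_cnt t_crt) hN he hdens hT' hCA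
    (hSA.shift t₀)
  refine ⟨c₂, κ, Q₀, h1, h2, fun Q hQ => (h3 Q hQ).trans ?_⟩
  refine Pool.Agent.R399.TM.count_mono (N := N) (N' := N) (Q := Q) (dvd_refl N) ?_
  rintro q χ - - - ⟨g1, g2, g3⟩
  refine ⟨g1, g2, fun s hs => ?_⟩
  have h4 := g3 (s - t₀ * I) (by
    refine le_trans (le_of_eq ?_) hs
    congr 1
    ring)
  have h5 : s - t₀ * I + (t₀ : ℂ) * I = s := by ring
  rwa [h5] at h4

end Pool.Agent.NH12.GL
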