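import Pool.Agent.NH12.GL.First
import Pool.Agent.NH12.GL.Coef3
import Pool.Agent.NH12.NV.Pos

/-!
# A positive proportion of the twists of degree three does not vanish near the central point
-/

set_option autoImplicit false

namespace Pool.Agent.NH12.GL

open Complex Filter Topology Finset
open Pool.Agent.R399.TW Pool.Agent.R399.TM Pool.Agent.NH12.BA Pool.Agent.NH12.NV
open scoped ComplexConjugate

variable {b₁ b₂ b₃ : ℝ → ℝ}

/-- the mean square of the coefficients -/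
def SqA (c : ℕ → ℂ) (CA : ℝ) (A : ℕ) : Prop := ∀ K : ℕ, 1 ≤ K →
  ∑ k ∈ Icc 1 K, E (fun n => ‖c n‖) k ^ 2 / k ≤ CA * (1 + Real.log K) ^ (2 * A)

lemma am_sq_le (hw : Wts b₁ b₂ b₃) (l : ℝ) (c : ℕ → ℂ) {k : ℕ} (hk : 1 ≤ k) :
    ‖am b₁ l c k‖ ^ 2 ≤ E (fun n => ‖c n‖) k ^ 2 / k := by
  have hk0 : (0 : ℝ) < k := by exact_mod_cast hk
  have h1 := hw.mw_le l c k
  unfold am
  rw [norm_mul, mul_pow]
  have h5 : ‖(k : ℂ) ^ (-(1 / 2) : ℂ)‖ ^ 2 = (k : ℝ)⁻¹ := by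
    rw [← Complex.ofReal_natCast, Complex.norm_cpow_eq_rpow_re_of_pos hk0, ← Real.rpow_natCast,
      ← Real.rpow_mul hk0.le, ← Real.rpow_neg_one]
    congr 1
    simp
  rw [h5, div_eq_mul_inv]
  exact mul_le_mul_of_nonneg_right (pow_le_pow_left₀ (norm_nonneg _) h1 2) (by positivity)

lemma am_sum (hw : Wts b₁ b₂ b₃) {c : ℕ → ℂ} {CA : ℝ} {A : ℕ} (hCA : 0 ≤ CA) (hA : SqA c CA A)
    {l : ℝ} (hl : 8 ≤ l) : ∑ k ∈ Icc 1 (Xl l), ‖am b₁ l c k‖ ^ 2 ≤ CA * l ^ (2 * A) := by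
  have hK1 : 1 ≤ Xl l := Xl_ge (by linarith)
  have hK0 : (0 : ℝ) < Xl l := by exact_mod_cast hK1
  refine (Finset.sum_le_sum fun k hk => am_sq_le hw l c (mem_Icc.1 hk).1).trans
    ((hA _ hK1).trans ?_)
  have h5 : Real.log (Xl l) ≤ 1 / 8 * l := by
    rw [← Real.log_exp (1 / 8 * l)]
    exact Real.log_le_log hK0 (Xl_le l)
  have h6 : 0 ≤ Real.log (Xl l) := Real.log_nonneg (by exact_mod_cast hK1)
  refine mul_le_mul_of_nonneg_left (pow_le_pow_left₀ (by linarith) ?_ _) hCA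
  linarith

/-- powers of the logarithm -/
lemma log_pow_le (A : ℕ) : ∃ C : ℝ, 0 ≤ C ∧ ∀ Q : ℕ, 1 ≤ Q →
    (1 + Real.log Q) ^ (2 * A) ≤ C * (Q : ℝ) ^ (1 / 1000 : ℝ) := by
  set η : ℝ := 1 / (2000 * (A + 1)) with hη
  have hη0 : 0 < η := by positivity
  have hη1 : η ≤ 1 := by
    rw [hη, div_le_one (by positivity)]
    have : (0 : ℝ) ≤ A := Nat.cast_nonneg _
    linarith
  refine ⟨(1 / η) ^ (2 * A), by positivity, fun Q hQ => ?_⟩
  have hX1 : (1 : ℝ) ≤ Q := by exact_mod_cast hQ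
  have hX0 : (0 : ℝ) < Q := by linarith
  have h1 := one_add_log_leN hQ hη0 hη1
  have h2 : 0 ≤ 1 + Real.log Q := by
    have := Real.log_nonneg hX1
    linarith
  have h3 := pow_le_pow_left₀ h2 h1 (2 * A)
  refine h3.trans ?_
  have h4 : ((Q : ℝ) ^ η / η) ^ (2 * A) = (1 / η) ^ (2 * A) * (Q : ℝ) ^ (η * (2 * A : ℕ)) := by
    rw [div_eq_mul_one_div, mul_pow, ← Real.rpow_natCast ((Q : ℝ) ^ η), ← Real.rpow_mul hX0.le]
    ring
  rw [h4]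
  refine mul_le_mul_of_nonneg_left ?_ (by positivity)
  refine Real.rpow_le_rpow_of_exponent_le hX1 ?_
  rw [hη]
  push_cast
  have h5 : (0 : ℝ) ≤ A := Nat.cast_nonneg _
  rw [div_mul_eq_mul_div, one_mul, div_le_div_iff₀ (by positivity) (by norm_num)]
  nlinarith

variable {Pr : Set ℕ} {N : ℕ} {e : ℂ} {R V S : ℝ} {c : ℕ → ℂ}
  {F ep : (q : ℕ) → DirichletCharacter ℂ q → ℂ → ℂ} {g : ℂ → ℂ} {b : ℕ → ℕ → ℂ}
  {u : (r : ℕ) → DirichletCharacter ℂ r → ℂ} {v : ℕ → ℤ} {M : ℤ}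

/-- the sum over the characters of one parity -/
lemma sum_par (he : e = 1 ∨ e = -1) {Q : ℕ} (f : (Σ q : ℕ, DirichletCharacter ℂ q) → ℂ)
    {S : Finset (Σ q : ℕ, DirichletCharacter ℂ q)}
    (hS : ∀ i, i ∈ S ↔ i ∈ DI Pr N Q ∧ i.2 (-1) = e) :
    ∑ i ∈ DI Pr N Q, par e i.2 * f i = ∑ i ∈ S, f i := by
  classical
  have h1 : S = (DI Pr N Q).filter fun i => i.2 (-1) = e := by
    ext i
    rw [hS, Finset.mem_filter]
  rw [h1, Finset.sum_filter]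
  refine Finset.sum_congr rfl fun i _ => ?_
  rw [par_eq he]
  split_ifs <;> simp

/-- **the general theorem** -/
theorem pos3 (hcrt : S_crt) (hbil : S_bil) (hA' : S_Af) (hG' : S_Gf) (hcnt : S_cnt)
    (hN : N ≠ 0) (he : e = 1 ∨ e = -1) (hdens : Dens Pr)
    (hT : TwM 3 Pr N e R V S c F ep g b u v M) {CA : ℝ} {A : ℕ} (hCA : 0 ≤ CA)
    (hSA : SqA c CA A) : ∃ (c₂ κ : ℝ) (Q₀ : ℕ), 0 < c₂ ∧ 0 < κ ∧ ∀ Q : ℕ, Q₀ ≤ Q →
      c₂ * (Q : ℝ) ^ 2 ≤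
        (count N Q (fun q χ => χ (-1) = e ∧ κ / Real.log Q ^ A ≤ ‖F q χ (1 / 2)‖ ∧
          ∀ s : ℂ, ‖s - 1 / 2‖ ≤ κ / Real.log Q → F q χ s ≠ 0) : ℝ) := by
  classical
  have hdiv := Pool.Agent.W216.CY.t_div
  obtain ⟨b₁, b₂, b₃, hw⟩ := exists_wts
  obtain ⟨CL, hCL0, hCL⟩ := log_pow_le A
  obtain ⟨C₁, hC₁, hmom⟩ := first3 hcrt hbil hA' hG' hdiv he hT (B := CA * CL) (by positivity)
  obtain ⟨C₂, hC₂, hnear⟩ := near2 hw (m := 3) le_rfl (c := c) R V S S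
  obtain ⟨c₀, Q₁, hc₀, hmass⟩ := hcnt Pr N e hN he hdens
  have hR := hT.R_pos
  have hV := hT.V_nn
  set c₁ : ℝ := c₀ / 2 with hc₁d
  have hc₁ : 0 < c₁ := by positivity
  set M' : ℝ := C₂ * 64 * Real.exp 22 with hM
  have hM0 : 0 ≤ M' := by positivity
  set κ : ℝ := min 1 (c₁ / (16 * (M' + 9 * CA + 1))) with hκ
  have hκ0 : 0 < κ := lt_min one_pos (by positivity)
  have hκ1 : κ ≤ 1 := min_le_left _ _
  have hκ2 : (4 * M' + 18 * CA) * κ ^ 2 ≤ (c₁ / 4) ^ 2 := by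
    have h1 : κ ≤ c₁ / (16 * (M' + 9 * CA + 1)) := min_le_right _ _
    have h2 : κ * (16 * (M' + 9 * CA + 1)) ≤ c₁ := by rwa [le_div_iff₀ (by positivity)] at h1
    have h3 : (κ * (16 * (M' + 9 * CA + 1))) ^ 2 ≤ c₁ ^ 2 :=
      pow_le_pow_left₀ (by positivity) h2 2
    have h4 : 0 ≤ κ ^ 2 := by positivity
    have h5 : 4 * M' + 18 * CA ≤ 16 * (M' + 9 * CA + 1) ^ 2 := by
      nlinarith [mul_nonneg hM0 hCA, mul_nonneg hM0 hM0, mul_nonneg hCA hCA]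
    calc (4 * M' + 18 * CA) * κ ^ 2 ≤ (16 * (M' + 9 * CA + 1) ^ 2) * κ ^ 2 := by gcongr
      _ = (κ * (16 * (M' + 9 * CA + 1))) ^ 2 / 16 := by ring
      _ ≤ c₁ ^ 2 / 16 := by gcongr
      _ = _ := by ring
  -- large `Q`
  have hlim : Tendsto (fun Q : ℕ => (Q : ℝ) ^ (1 / 100 : ℝ)) atTop atTop :=
    (tendsto_rpow_atTop (by norm_num)).comp tendsto_natCast_atTop_atTop
  obtain ⟨Q₂, hQ₂⟩ := Filter.eventually_atTop.1 (hlim.eventually_ge_atTop (2 * C₁ / c₁))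
  obtain ⟨Q₃, hQ₃⟩ := exists_nat_ge (Real.exp 7)
  refine ⟨c₁ ^ 2 / (16 * (M' + 1)), κ / 2 ^ (A + 2), max (max Q₁ Q₂) (max Q₃ 1), by positivity,
    by positivity, fun Q hQ => ?_⟩
  have hQ1' : Q₁ ≤ Q := (le_max_left _ _).trans ((le_max_left _ _).trans hQ)
  have hQ2' : Q₂ ≤ Q := (le_max_right _ _).trans ((le_max_left _ _).trans hQ)
  have hQ3' : Q₃ ≤ Q := (le_max_left _ _).trans ((le_max_right _ _).trans hQ)
  have hQ1 : 1 ≤ Q := (le_max_right _ _).trans ((le_max_right _ _).trans hQ)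
  have hq1 : (1 : ℝ) ≤ Q := by exact_mod_cast hQ1
  have hq0 : (0 : ℝ) < Q := by linarith
  have hlog7 : 7 ≤ Real.log Q := by
    rw [← Real.log_exp 7]
    refine Real.log_le_log (Real.exp_pos _) (hQ₃.trans ?_)
    exact_mod_cast hQ3'
  set l : ℝ := 1 + Real.log Q with hl
  have hl8 : 8 ≤ l := by rw [hl]; linarith
  have hl0 : 0 < l := by linarith
  -- the data
  have hDat : Dat 3 c R V S Q (idx N Q) (fun i => chs i.2) (fun i => F i.1 i.2) := by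
    refine ⟨hQ1, hR.le, hV, hT.S_nn, hT.lin,
      fun θ h0 h1 => SB_of hT.sq h0 h1, ls_idx N hQ1, fun i hi => ?_, card_idx_le N Q⟩
    rw [mem_idx] at hi
    have hm := hT.mem i.1 i.2 hi.1.1 hi.2.1 hi.2.2
    refine hm.mono hV ?_
    have h2 : ((i.1 : ℕ) : ℝ) ≤ Q := by exact_mod_cast hi.1.2
    gcongr
  set G : (Σ q : ℕ, DirichletCharacter ℂ q) → ℂ → ℂ :=
    fun i => Gw b₁ l c (chs i.2) (F i.1 i.2) with hG
  have hQl : Real.exp (2 * l) = Real.exp 2 * (Q : ℝ) ^ 2 := by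
    have h1 : (Q : ℝ) ^ 2 = Real.exp (2 * Real.log Q) := by
      rw [← Real.exp_log (show (0 : ℝ) < (Q : ℝ) ^ 2 by positivity), Real.log_pow]
      push_cast
      rfl
    rw [h1, ← Real.exp_add]
    congr 1
    rw [hl]
    ring
  -- the second moment
  have hsec : ∀ s : ℂ, ‖s - 1 / 2‖ ≤ 2 / l → ∑ i ∈ idx N Q, ‖G i s‖ ^ 2 ≤ M' * (Q : ℝ) ^ 2 := by
    intro s hs
    have h2l : 2 / l ≤ 1 / 4 := by
      rw [div_le_iff₀ hl0]
      linarith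
    have hre : |s.re - 1 / 2| ≤ 2 / l := by
      have h1 := Complex.abs_re_le_norm (s - 1 / 2)
      have h2 : (s - 1 / 2).re = s.re - 1 / 2 := by simp
      rw [h2] at h1
      exact h1.trans hs
    have him : |s.im| ≤ 1 := by
      have h1 := Complex.abs_im_le_norm (s - 1 / 2)
      have h2 : (s - 1 / 2).im = s.im := by simp
      rw [h2] at h1
      linarith
    have h1 := hnear Q (idx N Q) (fun i => chs i.2) (fun i => F i.1 i.2) l (2 / l) s hDat hT.sq hl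
      hl8 (by linarith) hre
    refine h1.trans ?_
    have h3 : Real.exp ((2 + 10 * (2 / l)) * l) = Real.exp 22 * (Q : ℝ) ^ 2 := by
      have h4 : (2 + 10 * (2 / l)) * l = 2 * l + 20 := by
        field_simp
        ring
      rw [h4, Real.exp_add, hQl, show (22 : ℝ) = 2 + 20 by norm_num, Real.exp_add]
      ring
    rw [h3]
    have h5 : (1 + |s.im|) ^ (2 * 3) ≤ 64 := by
      have h6 : 1 + |s.im| ≤ 2 := by linarith
      calc (1 + |s.im|) ^ (2 * 3) ≤ (2 : ℝ) ^ (2 * 3) :=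
            pow_le_pow_left₀ (by positivity) h6 _
        _ = 64 := by norm_num
    calc C₂ * (1 + |s.im|) ^ (2 * 3) * (Real.exp 22 * (Q : ℝ) ^ 2)
        ≤ C₂ * 64 * (Real.exp 22 * (Q : ℝ) ^ 2) := by gcongr
      _ = _ := by rw [hM]; ring
  have hams : ∑ k ∈ Icc 1 (Xl l), ‖am b₁ l c k‖ ^ 2 ≤ CA * l ^ (2 * A) :=
    am_sum hw hCA hSA hl8
  -- the index set
  set S₀ : Finset (Σ q : ℕ, DirichletCharacter ℂ q) :=
    (DI Pr N Q).filter fun i => i.2 (-1) = e with hS₀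
  have hS₀m : ∀ i, i ∈ S₀ ↔ i ∈ DI Pr N Q ∧ i.2 (-1) = e := fun i => by
    rw [hS₀, Finset.mem_filter]
  have hS₀i : S₀ ⊆ idx N Q := (Finset.filter_subset _ _).trans (DI_sub Pr N Q)
  -- the first moment
  have hfirst : c₁ / 2 * (Q : ℝ) ^ 2 ≤ ‖∑ i ∈ S₀, G i (1 / 2)‖ := by
    have h1 := hmom Q (Xl l) (am b₁ l c) hQ1 (Xl_ge hl0.le)
      (by rw [hl]; exact Xl_le_two hQ1) (am_one hw l c)
      (hams.trans (by
        have := hCL Q hQ1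
        rw [← hl] at this
        calc CA * l ^ (2 * A) ≤ CA * (CL * (Q : ℝ) ^ (1 / 1000 : ℝ)) := by gcongr
          _ = _ := by ring))
    have e1 : ∑ i ∈ S₀, G i (1 / 2) = ∑ i ∈ DI Pr N Q, par e i.2 * (F i.1 i.2 (1 / 2) *
          ∑ k ∈ Icc 1 (Xl l), am b₁ l c k * i.2 (k : ZMod i.1)) := by
      rw [sum_par he (fun i => F i.1 i.2 (1 / 2) *
          ∑ k ∈ Icc 1 (Xl l), am b₁ l c k * i.2 (k : ZMod i.1)) hS₀m]
      refine Finset.sum_congr rfl fun i _ => ?_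
      exact gw_half l c i.2 (F i.1 i.2)
    rw [← e1] at h1
    have h2 := hmass Q hQ1'
    rw [← sum_DI (fun q χ => par e χ)] at h2
    have h5 := norm_sub_norm_le (((Ph (183 / 100 * Real.log Q) : ℝ) : ℂ) *
      ∑ i ∈ DI Pr N Q, par e i.2) (∑ i ∈ S₀, G i (1 / 2))
    rw [norm_sub_rev, norm_mul, Complex.norm_real, Real.norm_of_nonneg (Ph_nn _)] at h5
    have h6 : C₁ * (Q : ℝ) ^ (199 / 100 : ℝ) ≤ c₁ / 2 * (Q : ℝ) ^ 2 := by
      have h7 := hQ₂ Q hQ2'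
      rw [div_le_iff₀ hc₁] at h7
      have h8 : (Q : ℝ) ^ 2 = (Q : ℝ) ^ (199 / 100 : ℝ) * (Q : ℝ) ^ (1 / 100 : ℝ) := by
        rw [← Real.rpow_add hq0, ← Real.rpow_natCast]
        norm_num
      rw [h8]
      have h9 : 0 < (Q : ℝ) ^ (199 / 100 : ℝ) := by positivity
      nlinarith
    have h7 : 1 / 2 ≤ Ph (183 / 100 * Real.log Q) := half_le_Ph (by positivity)
    have h8 : 1 / 2 * (c₀ * (Q : ℝ) ^ 2) ≤
        Ph (183 / 100 * Real.log Q) * ‖∑ i ∈ DI Pr N Q, par e i.2‖ := by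
      gcongr
    have h9 : 1 / 2 * (c₀ * (Q : ℝ) ^ 2) = c₁ * (Q : ℝ) ^ 2 := by rw [hc₁d]; ring
    linarith
  -- the bad characters
  have hl2 : l ≤ 2 * Real.log Q := by rw [hl]; linarith
  have hlogp : 0 < Real.log Q := by linarith
  set κ' : ℝ := κ / 2 ^ (A + 2) with hκ'
  set B₁ := S₀.filter (fun i => ∃ s : ℂ, ‖s - 1 / 2‖ ≤ κ' / Real.log Q ∧ F i.1 i.2 s = 0)
    with hB₁
  set B₂ := S₀.filter (fun i => ‖F i.1 i.2 (1 / 2)‖ < κ' / Real.log Q ^ A) with hB₂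
  have hB₁S : B₁ ⊆ S₀ := Finset.filter_subset _ _
  have hB₂S : B₂ ⊆ S₀ := Finset.filter_subset _ _
  have h2A : (1 : ℝ) ≤ 2 ^ A := one_le_pow₀ (by norm_num)
  have hrad : κ' / Real.log Q ≤ κ / l := by
    rw [hκ', div_div, div_le_div_iff_of_pos_left hκ0 (by positivity) hl0]
    have h3 : (2 : ℝ) ≤ 2 ^ (A + 2) := by
      rw [pow_add]
      nlinarith
    nlinarith
  have hrad2 : κ' / Real.log Q ^ A ≤ κ / l ^ A := by
    rw [hκ', div_div, div_le_div_iff_of_pos_left hκ0 (by positivity) (by positivity)]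
    calc l ^ A ≤ (2 * Real.log Q) ^ A := pow_le_pow_left₀ hl0.le hl2 A
      _ = 2 ^ A * Real.log Q ^ A := mul_pow _ _ _
      _ ≤ 2 ^ (A + 2) * Real.log Q ^ A := by
          have : (2 : ℝ) ^ A ≤ 2 ^ (A + 2) := pow_le_pow_right₀ (by norm_num) (by omega)
          gcongr
  have hbad1 : ∑ i ∈ B₁, ‖G i (1 / 2)‖ ^ 2 ≤ 4 * M' * κ ^ 2 * (Q : ℝ) ^ 2 := by
    have hDv : ∀ i ∈ B₁, Dv (G i) 1 (1 / 2) (κ / l) := by
      intro i hi
      rw [hB₁, Finset.mem_filter] at hi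
      obtain ⟨hi1, s, hs, hFs⟩ := hi
      have hi2 := mem_idx.1 (hS₀i hi1)
      have hFd : Differentiable ℂ (F i.1 i.2) :=
        (hT.mem i.1 i.2 hi2.1.1 hi2.2.1 hi2.2.2).diff
      have h1 : ((1 : ℕ) : ℕ∞) ≤ analyticOrderAt (F i.1 i.2) s := by
        rw [Nat.cast_one, Order.one_le_iff_ne_zero]
        exact (hFd.analyticAt s).analyticOrderAt_ne_zero.2 hFs
      have h2 : Dv (F i.1 i.2) 1 s 0 := Dv.of_order hFd le_rfl h1
      have h3 : Dv (F i.1 i.2) 1 (1 / 2) (κ / l) := h2.move (by linarith)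
      exact h3.mul (cut_diff _ _) (fun s => rfl)
    have h1 := dv_gen B₁ G (s₁ := 1 / 2) (r := 1 / l) (a := κ / l) (b := 1 / l)
      (B := M' * (Q : ℝ) ^ 2) (k := 1) (by positivity) (by positivity) (by positivity)
      (by
        rw [← add_div, mul_one_div]
        gcongr
        linarith) hDv (fun t => by
        refine le_trans (Finset.sum_le_sum_of_subset_of_nonneg (hB₁S.trans hS₀i)
          fun _ _ _ => by positivity) (hsec _ ?_)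
        rw [circleMap_sub_center, norm_circleMap_zero, abs_of_pos (by positivity)]
        rw [mul_one_div])
    have h2 : κ / l / (1 / l) = κ := by field_simp
    rw [h2, pow_one] at h1
    refine h1.trans (le_of_eq ?_)
    ring
  have hbad2 : ∑ i ∈ B₂, ‖G i (1 / 2)‖ ^ 2 ≤ 18 * CA * κ ^ 2 * (Q : ℝ) ^ 2 := by
    have h1 : ∀ i ∈ B₂, ‖G i (1 / 2)‖ ^ 2 ≤ (κ / l ^ A) ^ 2 *
        ‖∑ k ∈ Icc 1 (Xl l), am b₁ l c k * i.2 (k : ZMod i.1)‖ ^ 2 := by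
      intro i hi
      rw [hB₂, Finset.mem_filter] at hi
      have h2 : G i (1 / 2) = F i.1 i.2 (1 / 2) *
          ∑ k ∈ Icc 1 (Xl l), am b₁ l c k * i.2 (k : ZMod i.1) := gw_half l c i.2 (F i.1 i.2)
      rw [h2, norm_mul, mul_pow]
      refine mul_le_mul_of_nonneg_right ?_ (by positivity)
      exact pow_le_pow_left₀ (norm_nonneg _) (hi.2.le.trans hrad2) 2
    refine (Finset.sum_le_sum h1).trans ?_
    rw [← Finset.mul_sum]
    have h2 := (ls_idx N hQ1).ls (Xl l) (am b₁ l c)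
    rw [Real.rpow_zero, mul_one] at h2
    have h3 : ((Xl l : ℕ) : ℝ) ≤ 2 * (Q : ℝ) ^ 2 := by
      rw [hl]
      refine (Xl_le_two hQ1).trans ?_
      have h4 : (Q : ℝ) ^ (1 / 8 : ℝ) ≤ (Q : ℝ) ^ 2 := by
        rw [← Real.rpow_natCast]
        exact Real.rpow_le_rpow_of_exponent_le hq1 (by norm_num)
      gcongr
    have h0 : 0 ≤ ∑ k ∈ Icc 1 (Xl l), ‖am b₁ l c k‖ ^ 2 :=
      Finset.sum_nonneg fun _ _ => by positivity
    have h5 : ∑ i ∈ B₂, ‖∑ k ∈ Icc 1 (Xl l), am b₁ l c k * i.2 (k : ZMod i.1)‖ ^ 2 ≤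
        18 * (Q : ℝ) ^ 2 * (CA * l ^ (2 * A)) := by
      refine (Finset.sum_le_sum_of_subset_of_nonneg (hB₂S.trans hS₀i)
        fun _ _ _ => by positivity).trans (h2.trans ?_)
      calc 6 * ((Q : ℝ) ^ 2 + (Xl l : ℕ)) * ∑ k ∈ Icc 1 (Xl l), ‖am b₁ l c k‖ ^ 2
          ≤ 6 * ((Q : ℝ) ^ 2 + 2 * (Q : ℝ) ^ 2) * (CA * l ^ (2 * A)) := by gcongr
        _ = _ := by ring
    calc (κ / l ^ A) ^ 2 * ∑ i ∈ B₂, ‖∑ k ∈ Icc 1 (Xl l), am b₁ l c k * i.2 (k : ZMod i.1)‖ ^ 2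
        ≤ (κ / l ^ A) ^ 2 * (18 * (Q : ℝ) ^ 2 * (CA * l ^ (2 * A))) := by gcongr
      _ = 18 * CA * κ ^ 2 * (Q : ℝ) ^ 2 := by
          rw [div_pow, ← pow_mul, mul_comm A 2]
          field_simp
  have hbad : ∑ i ∈ B₁ ∪ B₂, ‖G i (1 / 2)‖ ^ 2 ≤ (c₁ / 4) ^ 2 * (Q : ℝ) ^ 2 := by
    have h1 : ∑ i ∈ B₁ ∪ B₂, ‖G i (1 / 2)‖ ^ 2 ≤
        ∑ i ∈ B₁, ‖G i (1 / 2)‖ ^ 2 + ∑ i ∈ B₂, ‖G i (1 / 2)‖ ^ 2 := by
      have h2 := Finset.sum_union_inter (s₁ := B₁) (s₂ := B₂) (f := fun i => ‖G i (1 / 2)‖ ^ 2)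
      have h3 : 0 ≤ ∑ i ∈ B₁ ∩ B₂, ‖G i (1 / 2)‖ ^ 2 := Finset.sum_nonneg fun _ _ => by positivity
      linarith
    refine h1.trans ((add_le_add hbad1 hbad2).trans ?_)
    calc 4 * M' * κ ^ 2 * (Q : ℝ) ^ 2 + 18 * CA * κ ^ 2 * (Q : ℝ) ^ 2
        = ((4 * M' + 18 * CA) * κ ^ 2) * (Q : ℝ) ^ 2 := by ring
      _ ≤ _ := by gcongr
  have hcard : (S₀.card : ℝ) ≤ (Q : ℝ) ^ 2 :=
    le_trans (by exact_mod_cast Finset.card_le_card hS₀i) (card_idx_le N Q)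
  have key := proportion S₀ (B₁ ∪ B₂) (Finset.union_subset hB₁S hB₂S) (fun i => G i (1 / 2))
    (P := (Q : ℝ) ^ 2) hc₁ hM0 (by positivity)
    hfirst ((Finset.sum_le_sum_of_subset_of_nonneg hS₀i fun _ _ _ => by positivity).trans
      (hsec (1 / 2) (by simp; positivity))) hbad hcard
  refine key.trans ?_
  rw [count_eq]
  have hsub : S₀ \ (B₁ ∪ B₂) ⊆ (idx N Q).filter (fun i => i.2 (-1) = e ∧
      κ' / Real.log Q ^ A ≤ ‖F i.1 i.2 (1 / 2)‖ ∧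
      ∀ s : ℂ, ‖s - 1 / 2‖ ≤ κ' / Real.log Q → F i.1 i.2 s ≠ 0) := by
    intro i hi
    obtain ⟨h1, h2⟩ := Finset.mem_sdiff.1 hi
    rw [Finset.mem_filter]
    refine ⟨hS₀i h1, ((hS₀m i).1 h1).2, not_lt.1 fun h3 => h2 (Finset.mem_union_right _ ?_),
      fun s hs h0 => h2 (Finset.mem_union_left _ ?_)⟩
    · rw [hB₂]
      exact Finset.mem_filter.2 ⟨h1, h3⟩
    · rw [hB₁]
      exact Finset.mem_filter.2 ⟨h1, s, hs, h0⟩
  exact_mod_cast Finset.card_le_card hsub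

end Pool.Agent.NH12.GL
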