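import Pool.Agent.NH12.GL.Tw3
import Pool.Agent.NH12.GL.Pos3
import Pool.Agent.Y772.HI.Sel
import Pool.Agent.Y767.CA.As

/-!
# Statements of the modules 13 - 16
-/

set_option autoImplicit false

namespace Pool.Agent.NH12.GL

open Finset Filter Topology Complex MeasureTheory NumberField
open ArithmeticFunction (vonMangoldt)
open Pool.Agent.R399.TW Pool.Agent.R399.TM Pool.Agent.NH12.NV
open Pool.Agent.Y767 (IsHecke)
open Pool.Agent.Y767.CA (CD cf)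
open Pool.Agent.Y773 (LI cc)
open scoped ComplexConjugate

/-- **module 13**: primes splitting completely in any number field -/
def S_splg : Prop := ∀ (K : Type) [Field K] [NumberField K], Dens (Spl K)

/-- the Rankin-Selberg limit -/
def RSl (c : ℕ → ℂ) : Prop :=
  (∀ σ : ℝ, 1 < σ → Summable fun n : ℕ => vonMangoldt n * ‖c n‖ ^ 2 * (n : ℝ) ^ (-σ)) ∧
  Tendsto (fun σ : ℝ => (σ - 1) * ∑' n : ℕ, vonMangoldt n * ‖c n‖ ^ 2 * (n : ℝ) ^ (-σ))
    (𝓝[>] 1) (𝓝 1)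

/-- **module 14**: the mean square of the coefficients, irreducible case -/
def S_sqa : Prop := ∀ c : ℕ → ℂ, RSl c → ∃ CA : ℝ, 0 ≤ CA ∧ SqA c CA 1

/-- **module 15**: the Rankin-Selberg limit for Hecke characters of totally real fields of degree
two and three -/
def S_rsh : Prop := ∀ (K : Type) [Field K] [NumberField K] [IsTotallyReal K],
    Module.finrank ℚ K = 2 ∨ Module.finrank ℚ K = 3 → ∀ (𝔣 : Ideal (𝓞 K))
    (ν : InfinitePlace K → ℝ) (ψ : Ideal (𝓞 K) →*₀ ℂ), IsHecke K 𝔣 ν ψ → ∑ w, ν w = 0 →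
    ∀ (p : ℕ) (P P' : Ideal (𝓞 K)), p.Prime → ¬ p ∣ Ideal.absNorm 𝔣 → Ideal.absNorm P = p →
      Ideal.absNorm P' = p → ψ P ≠ ψ P' → RSl (cc ψ)

/-- **module 16**: cuspidal data with explicit root numbers. `ω` is the central character, `w₀` the
constant (which depends on the parity of `χ`); `F q χ` is the finite part of `D.Λ q χ` -/
def S_cd : Prop := ∀ (m : ℕ) (D : CD m) (ω : DirichletCharacter ℂ D.N) (w₀ : ℂ → ℂ),
    ‖w₀ 1‖ = 1 → ‖w₀ (-1)‖ = 1 →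
    (∀ (q : ℕ) [NeZero q] (χ : DirichletCharacter ℂ q), 2 ≤ q → Nat.Coprime q D.N →
      χ.IsPrimitive → ∀ s : ℂ, D.Λ q χ (1 - s) =
        (w₀ (χ (-1)) * ω (q : ZMod D.N) * χ ((D.N : ℕ) : ZMod q) *
          (gs χ ^ m / (((q : ℝ) ^ (m / 2 : ℝ) : ℝ) : ℂ))) * conj (D.Λ q χ (conj s))) →
    ∀ e : ℂ, (e = 1 ∨ e = -1) → ∀ N : ℕ, D.N ∣ N →
    ∃ (V S : ℝ) (ep : (q : ℕ) → DirichletCharacter ℂ q → ℂ → ℂ) (g : ℂ → ℂ) (b : ℕ → ℕ → ℂ)
      (u : (r : ℕ) → DirichletCharacter ℂ r → ℂ) (v : ℕ → ℤ) (M : ℤ),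
      TwM m Set.univ N e D.N V S (cf D.α) D.F ep g b u v M

end Pool.Agent.NH12.GL
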