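import Pool.Agent.NH12.GL.Hecke2
import Pool.Agent.NH12.GL.Main3
import Pool.Agent.NH12.GL.Tw4

/-!
# Totally real cubic fields
-/

set_option autoImplicit false

namespace Pool.Agent.NH12.GL

open Finset Filter Topology Complex MeasureTheory NumberField
open Pool.Agent.R399.TW Pool.Agent.R399.TM Pool.Agent.NH12.NV
open Pool.Agent.Y767 (IsHecke eq_of_LI)
open Pool.Agent.Y773 (LI cc)
open scoped ComplexConjugate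

theorem level_ne {K : Type} [Field K] [NumberField K] [IsTotallyReal K] {𝔣 : Ideal (𝓞 K)}
    (h : 𝔣 ≠ ⊥) : Ideal.absNorm 𝔣 * (discr K).natAbs ≠ 0 :=
  mul_ne_zero (fun h1 => h (Ideal.absNorm_eq_zero_iff.1 h1))
    (Int.natAbs_ne_zero.2 (discr_ne_zero K))

/-- **the theorem for totally real cubic fields** -/
theorem cubic (hspl : S_splg) (hsqa : S_sqa) (hrsh : S_rsh) (hsh : S_shift)
    (K : Type) [Field K] [NumberField K] [IsTotallyReal K] (hK : Module.finrank ℚ K = 3)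
    (𝔣 : Ideal (𝓞 K)) (ν : InfinitePlace K → ℝ) (ψ : Ideal (𝓞 K) →*₀ ℂ)
    (hψ : IsHecke K 𝔣 ν ψ) (hν : ∑ w, ν w = 0)
    (hne : ∃ (p : ℕ) (𝔭 𝔭' : Ideal (𝓞 K)), p.Prime ∧ ¬ p ∣ Ideal.absNorm 𝔣 ∧
        Ideal.absNorm 𝔭 = p ∧ Ideal.absNorm 𝔭' = p ∧ ψ 𝔭 ≠ ψ 𝔭')
    (L : (q : ℕ) → DirichletCharacter ℂ q → ℂ → ℂ)
    (hL : ∀ (q : ℕ) (χ : DirichletCharacter ℂ q), 2 ≤ q →
        Nat.Coprime q (Ideal.absNorm 𝔣 * (discr K).natAbs) → χ.IsPrimitive →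
        Differentiable ℂ (L q χ) ∧
        ∀ s : ℂ, 1 < s.re → L q χ s = LI (Pool.Agent.Y773.tw ψ χ) s)
    (e : ℂ) (he : e = 1 ∨ e = -1) (t₀ : ℝ) :
    ∃ (c₂ κ : ℝ) (Q₀ : ℕ), 0 < c₂ ∧ 0 < κ ∧ ∀ Q : ℕ, Q₀ ≤ Q → c₂ * (Q : ℝ) ^ 2 ≤
        (count (Ideal.absNorm 𝔣 * (discr K).natAbs) Q (fun q χ => χ (-1) = e ∧
          κ / Real.log Q ≤ ‖L q χ (1 / 2 + t₀ * I)‖ ∧
          ∀ s : ℂ, ‖s - (1 / 2 + t₀ * I)‖ ≤ κ / Real.log Q → L q χ s ≠ 0) : ℝ) := by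
  obtain ⟨p, P, P', hp, hpf, hP, hP', hPP⟩ := hne
  obtain ⟨CA, hCA, hA⟩ := hsqa (cc ψ) (hrsh K (Or.inr hK) 𝔣 ν ψ hψ hν p P P' hp hpf hP hP' hPP)
  obtain ⟨R, V, S, F, ep, g, b, u, v, M, -, hT, hF⟩ := hecke_cc K 𝔣 ν ψ _ e hψ hν dvd_rfl he
  rw [hK] at hT
  obtain ⟨c₂, κ, Q₀, h1, h2, h3⟩ := pos3t hsh (level_ne hψ.ne_bot) he (hspl K) hT hCA hA t₀
  refine ⟨c₂, κ, Q₀, h1, h2, fun Q hQ => (h3 Q hQ).trans ?_⟩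
  refine Pool.Agent.R399.TM.count_mono (dvd_refl _) ?_
  rintro q χ hq hqN hχ ⟨g1, g2, g3⟩
  obtain ⟨l1, l2⟩ := hL q χ hq hqN hχ
  obtain ⟨f1, f2⟩ := hF q χ hq hqN hχ
  have hLF : L q χ = F q χ := eq_of_LI l1 f1 (fun s h => by rw [l2 s h, f2 s h])
  rw [hLF]
  rw [pow_one] at g2
  exact ⟨g1, g2, g3⟩

end Pool.Agent.NH12.GL
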