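import Pool.Agent.NH12.GL.Tw2

/-!
# Strengthened statements of the modules 8, 9, 12 (with the bound for the coefficients)
-/

set_option autoImplicit false

namespace Pool.Agent.NH12.GL

open Finset Filter Topology Complex MeasureTheory NumberField
open Pool.Agent.R399.TW Pool.Agent.R399.TM Pool.Agent.NH12.NV
open Pool.Agent.Y767 (IsHecke)
open Pool.Agent.Y773 (LI)
open scoped ComplexConjugate

/-- **module 8'** -/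
def S_dir' : Prop := ∀ (N₁ N : ℕ) [NeZero N₁] (ψ : DirichletCharacter ℂ N₁) (e : ℂ),
    ψ.IsPrimitive → N₁ ∣ N → (e = 1 ∨ e = -1) →
    ∃ (V S : ℝ) (c : ℕ → ℂ) (ep : (q : ℕ) → DirichletCharacter ℂ q → ℂ → ℂ) (g : ℂ → ℂ)
      (b : ℕ → ℕ → ℂ) (u : (r : ℕ) → DirichletCharacter ℂ r → ℂ) (v : ℕ → ℤ) (M : ℤ),
      (∀ n, ‖c n‖ ≤ 1) ∧ TwM 1 Set.univ N e N₁ V S c
        (fun q χ s => if h : q = 0 then 0 else
          haveI : NeZero (q * N₁) := ⟨mul_ne_zero h (NeZero.ne N₁)⟩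
          DirichletCharacter.LFunction (pr q N₁ χ ψ) s) ep g b u v M

/-- **module 9'** -/
def S_newf' : Prop := ∀ {N₂ : ℕ} [NeZero N₂] {η : DirichletCharacter ℂ N₂}
    {f : CuspForm (CongruenceSubgroup.Gamma1 N₂ : Subgroup (Matrix.GeneralLinearGroup (Fin 2) ℝ)) 1}
    {w : ℂ}, Pool.Agent.W192.WO.Newf1 N₂ η f w → ∀ (N : ℕ) (e : ℂ), N₂ ∣ N → (e = 1 ∨ e = -1) →
    ∃ (V S : ℝ) (c : ℕ → ℂ) (F ep : (q : ℕ) → DirichletCharacter ℂ q → ℂ → ℂ) (g : ℂ → ℂ)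
      (b : ℕ → ℕ → ℂ) (u : (r : ℕ) → DirichletCharacter ℂ r → ℂ) (v : ℕ → ℤ) (M : ℤ),
      (∀ n, ‖c n‖ ≤ 2) ∧ TwM 2 Set.univ N e N₂ V S c F ep g b u v M ∧
      ∀ (q : ℕ) (χ : DirichletCharacter ℂ q), 1 ≤ q → Nat.Coprime q N₂ → χ.IsPrimitive →
        Differentiable ℂ (F q χ) ∧ ∀ s : ℂ, 1 < s.re → HasProd (fun p : Nat.Primes =>
        (1 - χ ((p : ℕ) : ZMod q) * Pool.Agent.W192.CY.cf f p * ((p : ℕ) : ℂ) ^ (-s) +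
          χ ((p : ℕ) : ZMod q) ^ 2 * η ((p : ℕ) : ZMod N₂) *
            ((p : ℕ) : ℂ) ^ (-2 * s))⁻¹) (F q χ s)

/-- **module 12'**; `N` is any multiple of `N(𝔣) |disc|` -/
def S_hecke' : Prop := ∀ (K : Type) [Field K] [NumberField K] [IsTotallyReal K]
    (𝔣 : Ideal (𝓞 K)) (ν : InfinitePlace K → ℝ) (ψ : Ideal (𝓞 K) →*₀ ℂ) (N : ℕ) (e : ℂ),
    IsHecke K 𝔣 ν ψ → ∑ w, ν w = 0 → Ideal.absNorm 𝔣 * (discr K).natAbs ∣ N →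
    (e = 1 ∨ e = -1) →
    ∃ (R V S : ℝ) (c : ℕ → ℂ) (F ep : (q : ℕ) → DirichletCharacter ℂ q → ℂ → ℂ) (g : ℂ → ℂ)
      (b : ℕ → ℕ → ℂ) (u : (r : ℕ) → DirichletCharacter ℂ r → ℂ) (v : ℕ → ℤ) (M : ℤ),
      (∀ n, ‖c n‖ ≤ (Module.finrank ℚ K : ℝ)) ∧
      TwM (Module.finrank ℚ K) (Spl K) N e R V S c F ep g b u v M ∧
      ∀ (q : ℕ) (χ : DirichletCharacter ℂ q), 2 ≤ q →
        Nat.Coprime q N → χ.IsPrimitive →
        Differentiable ℂ (F q χ) ∧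
        ∀ s : ℂ, 1 < s.re → F q χ s = LI (Pool.Agent.Y773.tw ψ χ) s

end Pool.Agent.NH12.GL
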