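import Pool.Agent.NH12.GL.Tw2
import Pool.Agent.NH12.GL.Tw3
import Pool.Agent.NH12.NV.Mem2

/-!
# Newforms of weight one: the family of the twists with explicit root numbers
-/

set_option autoImplicit false

namespace Pool.Agent.NH12.GL

open Finset Filter Topology Complex MeasureTheory
open Pool.Agent.R399.TW Pool.Agent.R399.TM Pool.Agent.NH12.NV
open Pool.Agent.Y767.CA (GGc FEc cj Gd LX GGc_ne conj_GGc)
open Pool.Agent.W192.WO (Newf1)
open Pool.Agent.W108.TW (Th continuousOn_Th Th_isBigO mellin_conj Th_conj summable_term)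
open UpperHalfPlane MatrixGroups CongruenceSubgroup
open scoped ComplexConjugate

/-- the Mellin transform of a theta-like series, with the explicit constant in the functional
equation (the proof of `W388.StMellin` of `Pool.Agent.W108.TW.Mellin`) -/
theorem mellin_w (k : ℤ) (hk : 1 ≤ k) (N Q : ℝ) (hN : 1 ≤ N) (hQ : 1 ≤ Q) (b : ℕ → ℂ) (m C : ℝ)
    (hb0 : b 0 = 0) (hm : 0 ≤ m) (hb : ∀ n : ℕ, 1 ≤ n → ‖b n‖ ≤ C * (n : ℝ) ^ m)
    (w : ℂ) (hw : ‖w‖ = 1)
    (hfe : ∀ t : ℝ, 0 < t →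
      ∑' n : ℕ, b n * (Real.exp (-(2 * Real.pi * n / (Real.sqrt N * Q)) / t) : ℂ) =
      w * (t : ℂ) ^ k * ∑' n : ℕ, (starRingEnd ℂ) (b n) *
        (Real.exp (-(2 * Real.pi * n / (Real.sqrt N * Q)) * t) : ℂ)) :
    ∃ F : ℂ → ℂ, W388.FE2 k N Q F ∧
      (∀ s : ℂ, s.im ≠ 0 → W388.GG k N Q s * F s = w * (starRingEnd ℂ)
        (W388.GG k N Q (1 - (starRingEnd ℂ) s) * F (1 - (starRingEnd ℂ) s))) ∧
      ∀ s : ℂ, m + 2 < s.re → F s = ∑' n : ℕ, b n * (n : ℂ) ^ (-(s + ((k : ℂ) - 1) / 2)) := by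
  -- notation
  set R : ℝ := Real.sqrt N * Q with hR
  have hRpos : 0 < R := by
    have : 0 < Real.sqrt N := Real.sqrt_pos.mpr (by linarith)
    have hQ' : 0 < Q := by linarith
    positivity
  set c : ℝ := 2 * Real.pi / R with hc'
  have hc : 0 < c := by have := Real.pi_pos; positivity
  have hkr : (1 : ℝ) ≤ k := by exact_mod_cast hk
  have hb' : ∀ n : ℕ, 1 ≤ n → ‖(starRingEnd ℂ) (b n)‖ ≤ C * (n : ℝ) ^ m := by
    intro n hn; rw [RCLike.norm_conj]; exact hb n hn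
  have hb0' : (starRingEnd ℂ) (b 0) = 0 := by rw [hb0, map_zero]
  let P : WeakFEPair ℂ :=
    { f := Th b c
      g := Th (fun n => (starRingEnd ℂ) (b n)) c
      k := (k : ℝ)
      ε := w
      f₀ := 0
      g₀ := 0
      hf_int := (continuousOn_Th hb0 hb hc).locallyIntegrableOn measurableSet_Ioi
      hg_int := (continuousOn_Th hb0' hb' hc).locallyIntegrableOn measurableSet_Ioi
      hk := by linarith
      hε := by intro h; rw [h, norm_zero] at hw; exact zero_ne_one hw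
      h_feq := by
        intro x (hx : 0 < x)
        have h := hfe x hx
        rw [smul_eq_mul, Real.rpow_intCast, Complex.ofReal_zpow]
        rw [Th, Th]
        have e1 : ∀ n : ℕ, -(c * n) * (1 / x) = -(2 * Real.pi * n / R) / x := by
          intro n; rw [hc']; ring
        have e2 : ∀ n : ℕ, -(c * n) * x = -(2 * Real.pi * n / R) * x := by
          intro n; rw [hc']; ring
        simp only [e1, e2]
        exact h
      hf_top := Th_isBigO hb0 hb hc
      hg_top := Th_isBigO hb0' hb' hc }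
  have hP : IsStrongFEPair P := ⟨rfl, rfl⟩
  have hΛf : P.Λ = mellin (Th b c) := hP.Λ_eq
  have hΛg : P.symm.Λ = mellin (Th (fun n => (starRingEnd ℂ) (b n)) c) := hP.symm_Λ_eq
  -- the archimedean factor
  have hcC : (c : ℂ) ≠ 0 := by exact_mod_cast hc.ne'
  set κ : ℂ := ((k : ℂ) - 1) / 2 with hκ
  have hκr : κ = (((k : ℝ) - 1) / 2 : ℝ) := by rw [hκ]; push_cast; ring
  let F : ℂ → ℂ := fun s => P.Λ (s + κ) * (c : ℂ) ^ (s + κ) * (Complex.Gamma (s + κ))⁻¹
  have hGF : ∀ s : ℂ, s.im ≠ 0 → W388.GG k N Q s * F s = (c : ℂ) ^ κ * P.Λ (s + κ) := by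
    intro s hs
    have hG : Complex.Gamma (s + κ) ≠ 0 := by
      apply Complex.Gamma_ne_zero
      intro j h
      apply hs
      have h2 := congrArg Complex.im h
      rw [hκr] at h2
      simpa using h2
    have h1 : ((Real.sqrt N * Q / (2 * Real.pi) : ℝ) : ℂ) = (c : ℂ)⁻¹ := by
      rw [hc', ← Complex.ofReal_inv, inv_div]
    have harg : (c : ℂ).arg ≠ Real.pi := by
      rw [Complex.arg_ofReal_of_nonneg hc.le]; exact Real.pi_pos.ne
    rw [W388.GG, h1, Complex.inv_cpow _ _ harg]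
    have hcs : (c : ℂ) ^ s ≠ 0 := by
      rw [Complex.cpow_def_of_ne_zero hcC]; exact Complex.exp_ne_zero _
    simp only [F]
    rw [Complex.cpow_add _ _ hcC, ← hκ]
    field_simp
  have hFE : ∀ s : ℂ, s.im ≠ 0 → W388.GG k N Q s * F s = w * (starRingEnd ℂ)
      (W388.GG k N Q (1 - (starRingEnd ℂ) s) * F (1 - (starRingEnd ℂ) s)) := by
    -- functional equation
    intro s hs
    have hs2 : (1 - (starRingEnd ℂ) s).im ≠ 0 := by
      simpa using hs
    rw [hGF s hs, hGF _ hs2]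
    have hκc : (starRingEnd ℂ) κ = κ := by rw [hκr, Complex.conj_ofReal]
    have e1 : 1 - (starRingEnd ℂ) s + κ = (P.k : ℂ) - (starRingEnd ℂ) (s + κ) := by
      have : (P.k : ℂ) = (k : ℂ) := by simp [P]
      rw [this, map_add, hκc, hκ]; ring
    rw [e1, P.functional_equation, hΛg]
    have e2 : mellin (Th (fun n => (starRingEnd ℂ) (b n)) c) ((starRingEnd ℂ) (s + κ)) =
        (starRingEnd ℂ) (mellin (Th b c) (s + κ)) := by
      rw [← mellin_conj]
      congr 1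
      funext t
      exact Th_conj b c t
    rw [e2, hΛf]
    have e3 : (starRingEnd ℂ) ((c : ℂ) ^ κ) = (c : ℂ) ^ κ := by
      have : (c : ℂ) ^ κ = ((c ^ (((k : ℝ) - 1) / 2) : ℝ) : ℂ) := by
        rw [hκr, Complex.ofReal_cpow hc.le]
      rw [this, Complex.conj_ofReal]
    have hPε : P.ε = w := rfl
    rw [hPε, smul_eq_mul, map_mul, map_mul, e3, Complex.conj_conj]
    have hww : w * (starRingEnd ℂ) w = 1 := by
      rw [Complex.mul_conj, Complex.normSq_eq_norm_sq, hw]; simp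
    linear_combination (-(c : ℂ) ^ κ * mellin (Th b c) (s + κ)) * hww
  refine ⟨F, ⟨?_, ⟨w, hw, hFE⟩, ?_⟩, hFE, ?_⟩
  · -- differentiable
    have h1 : Differentiable ℂ (fun s : ℂ => P.Λ (s + κ)) :=
      hP.differentiable_Λ.comp (differentiable_id.add_const κ)
    have h2 : Differentiable ℂ (fun s : ℂ => (c : ℂ) ^ (s + κ)) := by
      intro s
      exact (DifferentiableAt.const_cpow (by fun_prop) (Or.inl hcC))
    have h3 : Differentiable ℂ (fun s : ℂ => (Complex.Gamma (s + κ))⁻¹) :=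
      Complex.differentiable_one_div_Gamma.comp (differentiable_id.add_const κ)
    exact (h1.mul h2).mul h3
  · -- vertical strips
    intro a b'
    have hM := fun s => (hP.hasMellin s).1
    set A : ℝ := a + ((k : ℝ) - 1) / 2 with hA
    set B : ℝ := b' + ((k : ℝ) - 1) / 2 with hB
    have hIA : IntegrableOn (fun t : ℝ => t ^ (A - 1) * ‖Th b c t‖) (Set.Ioi 0) := by
      have := (hM (A : ℂ)).norm
      refine IntegrableOn.congr_fun this (fun t (ht : 0 < t) => ?_) measurableSet_Ioi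
      simp only [smul_eq_mul, norm_mul]
      rw [Complex.norm_cpow_eq_rpow_re_of_pos ht]
      simp [P]
    have hIB : IntegrableOn (fun t : ℝ => t ^ (B - 1) * ‖Th b c t‖) (Set.Ioi 0) := by
      have := (hM (B : ℂ)).norm
      refine IntegrableOn.congr_fun this (fun t (ht : 0 < t) => ?_) measurableSet_Ioi
      simp only [smul_eq_mul, norm_mul]
      rw [Complex.norm_cpow_eq_rpow_re_of_pos ht]
      simp [P]
    refine ⟨‖(c : ℂ) ^ κ‖ * ∫ t in Set.Ioi (0 : ℝ),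
      (t ^ (A - 1) * ‖Th b c t‖ + t ^ (B - 1) * ‖Th b c t‖), fun s hs1 hs2 hs3 => ?_⟩
    have hs0 : s.im ≠ 0 := by
      intro h; rw [h, abs_zero] at hs3; linarith
    rw [hGF s hs0, norm_mul]
    refine mul_le_mul_of_nonneg_left ?_ (norm_nonneg _)
    rw [hΛf, mellin]
    refine (norm_integral_le_integral_norm _).trans ?_
    refine setIntegral_mono_on (hM (s + κ)).norm (hIA.add hIB) measurableSet_Ioi
      (fun t (ht : 0 < t) => ?_)
    rw [norm_smul, Complex.norm_cpow_eq_rpow_re_of_pos ht]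
    have hre : (s + κ - 1).re = s.re + ((k : ℝ) - 1) / 2 - 1 := by
      rw [hκr]; simp
    rw [hre, ← add_mul]
    refine mul_le_mul_of_nonneg_right ?_ (norm_nonneg _)
    rcases le_total t 1 with h1 | h1
    · have : t ^ (s.re + ((k : ℝ) - 1) / 2 - 1) ≤ t ^ (A - 1) :=
        Real.rpow_le_rpow_of_exponent_ge ht h1 (by rw [hA]; linarith)
      have h2 : 0 ≤ t ^ (B - 1) := by positivity
      linarith
    · have : t ^ (s.re + ((k : ℝ) - 1) / 2 - 1) ≤ t ^ (B - 1) :=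
        Real.rpow_le_rpow_of_exponent_le h1 (by rw [hB]; linarith)
      have h2 : 0 ≤ t ^ (A - 1) := by positivity
      linarith
  · -- Dirichlet series
    intro s hs
    set S : ℂ := s + κ with hS
    have hSre : S.re = s.re + ((k : ℝ) - 1) / 2 := by rw [hS, hκr]; simp
    have hSm : m + 2 < S.re := by rw [hSre]; linarith
    have hSpos : 0 < S.re := by linarith
    have hG : Complex.Gamma S ≠ 0 := Complex.Gamma_ne_zero_of_re_pos hSpos
    have h1 := hasSum_mellin (a := b) (p := fun n : ℕ => c * n) (F := Th b c) (s := S)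
      (by
        intro n
        rcases Nat.eq_zero_or_pos n with rfl | hn
        · exact Or.inl hb0
        · right
          have : (0 : ℝ) < n := by exact_mod_cast hn
          positivity) hSpos
      (by
        intro t (ht : 0 < t)
        exact (summable_term hb0 hb hc ht).hasSum)
      (by
        have h2 : Summable (fun n : ℕ => |C| / c ^ S.re * (n : ℝ) ^ (m - S.re)) :=
          (Real.summable_nat_rpow.mpr (by linarith)).mul_left _
        refine Summable.of_nonneg_of_le (fun n => by positivity) (fun n => ?_) h2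
        rcases Nat.eq_zero_or_pos n with rfl | hn
        · rw [hb0, norm_zero, zero_div]; positivity
        · have hn' : (0 : ℝ) < n := by exact_mod_cast hn
          have h3 : ‖b n‖ ≤ |C| * (n : ℝ) ^ m :=
            (hb n hn).trans (mul_le_mul_of_nonneg_right (le_abs_self C) (by positivity))
          rw [Real.mul_rpow hc.le hn'.le, Real.rpow_sub hn', div_mul_div_comm]
          exact div_le_div_of_nonneg_right h3 (by positivity))
    have h2 := h1.tsum_eq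
    have h3 : F s = (∑' n : ℕ, Complex.Gamma S * b n / ((c * n : ℝ) : ℂ) ^ S) * (c : ℂ) ^ S *
        (Complex.Gamma S)⁻¹ := by
      simp only [F]
      rw [← hS, hΛf, ← h2]
    have hcs : (c : ℂ) ^ S ≠ 0 := by
      rw [Complex.cpow_def_of_ne_zero hcC]; exact Complex.exp_ne_zero _
    rw [h3, ← tsum_mul_right, ← tsum_mul_right]
    refine tsum_congr (fun n => ?_)
    rcases Nat.eq_zero_or_pos n with rfl | hn
    · rw [hb0]; simp
    · have hn' : (n : ℂ) ≠ 0 := by exact_mod_cast hn.ne'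
      have hnS : (n : ℂ) ^ S ≠ 0 := by
        rw [Complex.cpow_def_of_ne_zero hn']; exact Complex.exp_ne_zero _
      rw [Complex.ofReal_mul, Complex.mul_cpow_ofReal_nonneg hc.le (Nat.cast_nonneg n),
        Complex.cpow_neg]
      simp only [Complex.ofReal_natCast]
      field_simp

lemma lx_of_gg {R : ℝ} (hR : 0 < R) {F : ℂ → ℂ} {w : ℂ}
    (h : ∀ s : ℂ, s.im ≠ 0 → W388.GG 1 (R ^ 2) 1 s * F s = w * (starRingEnd ℂ)
      (W388.GG 1 (R ^ 2) 1 (1 - (starRingEnd ℂ) s) * F (1 - (starRingEnd ℂ) s))) (z : ℂ)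
    (hz : Gd mu2 z) : F z = LX w (R ^ 2) mu2 z * rfl1 F z := by
  have hR2 : (0 : ℝ) < R ^ 2 := by positivity
  have h0 : z.im ≠ 0 := by
    have := hz 0
    simpa [mu2] using this
  have h1 := h z h0
  have h2 : GGc (R ^ 2) mu2 z * F z = w * (starRingEnd ℂ)
      (GGc (R ^ 2) mu2 (1 - (starRingEnd ℂ) z) * F (1 - (starRingEnd ℂ) z)) := by
    rw [ggc_eq hR, ggc_eq hR, mul_assoc, h1, mul_assoc (2 : ℂ), map_mul (starRingEnd ℂ) 2]
    have h2 : conj (2 : ℂ) = 2 := Complex.conj_ofNat 2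
    rw [h2]
    ring
  rw [map_mul, conj_GGc hR2] at h2
  have e1 : (starRingEnd ℂ) (1 - (starRingEnd ℂ) z) = 1 - z := by simp
  rw [e1] at h2
  have hg := GGc_ne hR2 hz
  unfold LX rfl1
  field_simp
  linear_combination h2

/-- the root number of a twist -/
noncomputable def wn {N : ℕ} (η : DirichletCharacter ℂ N) (w : ℂ) (q : ℕ)
    (χ : DirichletCharacter ℂ q) : ℂ :=
  if h : q = 0 then 0 else
    haveI : NeZero q := ⟨h⟩
    (w * η (q : ZMod N)) * χ (N : ZMod q) * gs χ ^ 2 / q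

lemma wn_eq {N : ℕ} (η : DirichletCharacter ℂ N) (w : ℂ) (q : ℕ) [NeZero q]
    (χ : DirichletCharacter ℂ q) :
    wn η w q χ = (w * η (q : ZMod N)) * χ (N : ZMod q) * gs χ ^ 2 / q := by
  unfold wn
  rw [dif_neg (NeZero.ne q)]

lemma norm_wn {N : ℕ} [NeZero N] {η : DirichletCharacter ℂ N} {w : ℂ} (hw1 : ‖w‖ = 1)
    (q : ℕ) [NeZero q] (χ : DirichletCharacter ℂ q) (hco : Nat.Coprime q N)
    (hpr : χ.IsPrimitive) : ‖wn η w q χ‖ = 1 := by
  rw [wn_eq]
  have hqn : 0 < q := Nat.pos_of_ne_zero (NeZero.ne q)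
  have hq : (0 : ℝ) < q := by exact_mod_cast hqn
  have hη : ‖η (q : ZMod N)‖ = 1 := by
    obtain ⟨u, hu⟩ := (ZMod.isUnit_iff_coprime q N).mpr hco
    rw [← hu]
    exact η.unit_norm_eq_one u
  have hχN : ‖χ (N : ZMod q)‖ = 1 := by
    obtain ⟨u, hu⟩ := (ZMod.isUnit_iff_coprime N q).mpr hco.symm
    rw [← hu]
    exact χ.unit_norm_eq_one u
  have h1 := Pool.Agent.Helper112.MLS.norm_gauss q hpr
  unfold gs
  rw [norm_div, norm_mul, norm_mul, norm_mul, hw1, hη, hχN, norm_pow, h1,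
    Complex.norm_natCast]
  field_simp

/-- everything about one twist -/
theorem twist_w {N : ℕ} [NeZero N] {η : DirichletCharacter ℂ N}
    {f : CuspForm (Gamma1 N : Subgroup (GL (Fin 2) ℝ)) 1} {w : ℂ} (hf : Newf1 N η f w)
    (q : ℕ) [NeZero q] (χ : DirichletCharacter ℂ q) (hco : Nat.Coprime q N) (hpr : χ.IsPrimitive) :
    ∃ F : ℂ → ℂ, FEc ((N : ℝ) * (q : ℝ) ^ 2) mu2 F ∧
      (∀ s : ℂ, 1 < s.re → HasProd (fun p : Nat.Primes =>
        (1 - χ ((p : ℕ) : ZMod q) * Pool.Agent.W192.CY.cf f p * ((p : ℕ) : ℂ) ^ (-s) +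
          χ ((p : ℕ) : ZMod q) ^ 2 * η ((p : ℕ) : ZMod N) *
            ((p : ℕ) : ℂ) ^ (-2 * s))⁻¹) (F s)) ∧
      ∀ z : ℂ, Gd mu2 z → F z = LX (wn η w q χ) ((N : ℝ) * (q : ℝ) ^ 2) mu2 z * rfl1 F z := by
  have htwist := Pool.Agent.W597.WO.w_twist
  have hcoef := Pool.Agent.W538.WO.w_coef
  have heul := Pool.Agent.W138.WO.EUL.w_eul hcoef
  have hafe := Pool.Agent.W435.WO.w_afe htwist heul
  obtain ⟨F, hFd, hFs, -⟩ := hafe N η f w hf q χ hco hpr
  obtain ⟨μ, hμ⟩ := hcoef N η f w hf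
  have hNn : 0 < N := Nat.pos_of_ne_zero (NeZero.ne N)
  have hqn : 0 < q := Nat.pos_of_ne_zero (NeZero.ne q)
  have hN : (0 : ℝ) < N := by exact_mod_cast hNn
  have hN1 : (1 : ℝ) ≤ N := by exact_mod_cast hNn
  have hq : (0 : ℝ) < q := by exact_mod_cast hqn
  have hq1 : (1 : ℝ) ≤ q := by exact_mod_cast hqn
  set R : ℝ := Real.sqrt N * q with hR
  have hR0 : 0 < R := by positivity
  have hR1 : 1 ≤ R := by
    rw [hR]
    exact one_le_mul_of_one_le_of_one_le (Real.one_le_sqrt.2 hN1) hq1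
  have hR2 : R ^ 2 = (N : ℝ) * (q : ℝ) ^ 2 := by
    rw [hR, mul_pow, Real.sq_sqrt hN.le]
  have hw : ‖wn η w q χ‖ = 1 := norm_wn hf.norm q χ hco hpr
  have hcb : ∀ n : ℕ, 1 ≤ n → ‖Pool.Agent.W192.CY.cf f n‖ ≤ (1 : ℝ) * (n : ℝ) ^ (1 : ℝ) := by
    intro n hn
    have hn0 : (0 : ℝ) < n := by exact_mod_cast hn
    have h2 := hμ.cle n hn
    rw [norm_mul, Complex.norm_real, Real.norm_of_nonneg (Real.sqrt_nonneg _)] at h2
    have h4 : (0 : ℝ) < Real.sqrt n := Real.sqrt_pos.mpr hn0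
    have h5 := le_of_mul_le_mul_right h2 h4
    have h6 : (n.divisors.card : ℝ) ≤ n := by exact_mod_cast Nat.card_divisors_le_self n
    rw [one_mul, Real.rpow_one]
    exact h5.trans h6
  have hc0 : Pool.Agent.W192.CY.cf f 0 = 0 := Pool.Agent.W435.WO.cf_zero f
  have hsq : Real.sqrt (R ^ 2) * 1 = Real.sqrt N * q := by rw [Real.sqrt_sq hR0.le, mul_one]
  obtain ⟨G, hG, hGw, hGs⟩ := mellin_w 1 le_rfl (R ^ 2) 1 (by nlinarith) le_rfl
    (fun n => χ (n : ZMod q) * Pool.Agent.W192.CY.cf f n) 1 1 (by simp [hc0]) (by norm_num)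
    (fun n hn => by
      rw [norm_mul]
      calc ‖χ (n : ZMod q)‖ * ‖Pool.Agent.W192.CY.cf f n‖ ≤ 1 * ((1 : ℝ) * (n : ℝ) ^ (1 : ℝ)) :=
            mul_le_mul (χ.norm_le_one _) (hcb n hn) (norm_nonneg _) zero_le_one
        _ = _ := by rw [one_mul]) (wn η w q χ) hw
    (fun t ht => by
      rw [hsq, zpow_one, wn_eq]
      exact htwist N η f w hf q χ hco hpr t ht)
  have hFG : F = G := by
    refine entire_eq hFd hG.diff (R := 3) fun s hs => ?_
    rw [hFs s (by linarith), hGs s (by linarith)]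
    refine tsum_congr fun n => ?_
    simp
  subst hFG
  refine ⟨F, ?_, fun s hs => ?_, ?_⟩
  · rw [← hR2]
    exact fec_of_fe2 hR0 hG
  · rw [hFs s hs]
    exact (heul N η f w hf q χ s hs).2
  · rw [← hR2]
    exact lx_of_gg hR0 hGw

/-- the factor of the functional equations at the moduli `r` -/
noncomputable def un (r : ℕ) (χ : DirichletCharacter ℂ r) : ℂ := by
  classical
  exact if h : r = 0 then 0 else
    haveI : NeZero r := ⟨h⟩
    if χ.IsPrimitive then gs χ ^ 2 / r else 0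

lemma un_eq (r : ℕ) [NeZero r] {χ : DirichletCharacter ℂ r} (h : χ.IsPrimitive) :
    un r χ = gs χ ^ 2 / r := by
  unfold un
  rw [dif_neg (NeZero.ne r), if_pos h]

lemma un_le (r : ℕ) (χ : DirichletCharacter ℂ r) : ‖un r χ‖ ≤ 1 := by
  by_cases h : r = 0
  · unfold un
    rw [dif_pos h]
    simp
  · have : NeZero r := ⟨h⟩
    by_cases h2 : χ.IsPrimitive
    · rw [un_eq r h2, norm_div, norm_pow]
      unfold gs
      rw [Pool.Agent.Helper112.MLS.norm_gauss r h2, Complex.norm_natCast]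
      exact div_self_le_one _
    · unfold un
      rw [dif_neg h, if_neg h2]
      simp

/-- products of primitive characters of coprime moduli are primitive -/
lemma pr_prim (hcrt : S_crt) {a b : ℕ} [NeZero a] [NeZero b] (hab : Nat.Coprime a b)
    {χ : DirichletCharacter ℂ a} {ψ : DirichletCharacter ℂ b} (hχ : χ.IsPrimitive)
    (hψ : ψ.IsPrimitive) : (pr a b χ ψ).IsPrimitive := by
  classical
  have : NeZero (a * b) := ⟨mul_ne_zero (NeZero.ne a) (NeZero.ne b)⟩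
  have h1 := (hcrt a b hab).2.1 fun φ => if φ = pr a b χ ψ then 1 else 0
  by_contra h
  have h2 : ∑ φ ∈ pc (a * b), (if φ = pr a b χ ψ then (1 : ℂ) else 0) = 0 := by
    refine Finset.sum_eq_zero fun φ hφ => ?_
    rw [if_neg]
    rintro rfl
    exact h (mem_pc.1 hφ)
  rw [h2] at h1
  have h3 : (∑ χ' ∈ pc a, ∑ ψ' ∈ pc b, (if pr a b χ' ψ' = pr a b χ ψ then (1 : ℂ) else 0)) =
      ((∑ χ' ∈ pc a, ∑ ψ' ∈ pc b, (if pr a b χ' ψ' = pr a b χ ψ then 1 else 0) : ℕ) : ℂ) := by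
    push_cast
    rfl
  rw [h3] at h1
  have h4 : (∑ χ' ∈ pc a, ∑ ψ' ∈ pc b, (if pr a b χ' ψ' = pr a b χ ψ then 1 else 0) : ℕ) = 0 := by
    exact_mod_cast h1.symm
  rw [Finset.sum_eq_zero_iff] at h4
  have h5 := h4 χ (mem_pc.2 hχ)
  rw [Finset.sum_eq_zero_iff] at h5
  have h6 := h5 ψ (mem_pc.2 hψ)
  rw [if_pos rfl] at h6
  exact one_ne_zero h6

lemma wn_pr (hcrt : S_crt) {N : ℕ} {η : DirichletCharacter ℂ N} (w : ℂ) {p r : ℕ}
    [NeZero p] [NeZero r] (hpr : Nat.Coprime p r) {χ₁ : DirichletCharacter ℂ p}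
    {χ₂ : DirichletCharacter ℂ r} (h2 : χ₂.IsPrimitive) :
    wn η w (p * r) (pr p r χ₁ χ₂) = (w * η ((p * r : ℕ) : ZMod N)) * un r χ₂ *
      χ₁ (((N * r ^ 2 : ℕ) : ℤ) : ZMod p) * χ₂ ((((N : ℕ) : ℤ) * (p : ℤ) ^ 2 : ℤ) : ZMod r) *
        (gs χ₁ ^ 2 / (p : ℂ)) := by
  have : NeZero (p * r) := ⟨mul_ne_zero (NeZero.ne p) (NeZero.ne r)⟩
  obtain ⟨c1, -, c3⟩ := hcrt p r hpr
  have hp : (p : ℂ) ≠ 0 := Nat.cast_ne_zero.2 (NeZero.ne p)
  have hr : (r : ℂ) ≠ 0 := Nat.cast_ne_zero.2 (NeZero.ne r)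
  have e1 : pr p r χ₁ χ₂ ((N : ℕ) : ZMod (p * r)) = χ₁ (N : ZMod p) * χ₂ (N : ZMod r) := by
    have := c1 χ₁ χ₂ (N : ℤ)
    simpa using this
  rw [wn_eq, e1, c3, un_eq r h2]
  have e2 : χ₁ (((N * r ^ 2 : ℕ) : ℤ) : ZMod p) = χ₁ (N : ZMod p) * χ₁ (r : ZMod p) ^ 2 := by
    rw [← map_pow, ← map_mul]
    congr 1
    push_cast
    rfl
  have e3 : χ₂ ((((N : ℕ) : ℤ) * (p : ℤ) ^ 2 : ℤ) : ZMod r) =
      χ₂ (N : ZMod r) * χ₂ (p : ZMod r) ^ 2 := by
    rw [← map_pow, ← map_mul]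
    congr 1
    push_cast
    rfl
  rw [e2, e3]
  push_cast
  field_simp

theorem t_newf' (hcrt : S_crt) : S_newf' := by
  classical
  intro N₂ _ η f w hf N e hN2 he
  obtain ⟨α, hα1, hα2⟩ := exists_satake hf
  have hN : (0 : ℝ) < N₂ := by exact_mod_cast Nat.pos_of_ne_zero (NeZero.ne N₂)
  have hex : ∀ (q : ℕ) (χ : DirichletCharacter ℂ q), ∃ F : ℂ → ℂ,
      (1 ≤ q → Nat.Coprime q N₂ → χ.IsPrimitive →
      FEc ((N₂ : ℝ) * (q : ℝ) ^ 2) mu2 F ∧
      (∀ s : ℂ, 1 < s.re → HasProd (fun p : Nat.Primes =>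
        (1 - χ ((p : ℕ) : ZMod q) * Pool.Agent.W192.CY.cf f p * ((p : ℕ) : ℂ) ^ (-s) +
          χ ((p : ℕ) : ZMod q) ^ 2 * η ((p : ℕ) : ZMod N₂) *
            ((p : ℕ) : ℂ) ^ (-2 * s))⁻¹) (F s)) ∧
      ∀ z : ℂ, Gd mu2 z →
        F z = LX (wn η w q χ) ((N₂ : ℝ) * (q : ℝ) ^ 2) mu2 z * rfl1 F z) := by
    intro q χ
    by_cases h : 1 ≤ q ∧ Nat.Coprime q N₂ ∧ χ.IsPrimitive
    · obtain ⟨h1, h2, h3⟩ := h
      have : NeZero q := ⟨by omega⟩
      obtain ⟨F, hF⟩ := twist_w hf q χ h2 h3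
      exact ⟨F, fun _ _ _ => hF⟩
    · exact ⟨fun _ => 0, fun h1 h2 h3 => absurd ⟨h1, h2, h3⟩ h⟩
  choose F hF using hex
  have hmu : ∀ i, -1 / 2 < (mu2 i).re := fun i => by fin_cases i <;> simp [mu2] <;> norm_num
  have hmuV : ∀ i, ‖mu2 i‖ + 3 ≤ 4 := fun i => by fin_cases i <;> simp [mu2] <;> norm_num
  refine ⟨15, 96 * 2 ^ 2, Pool.Agent.Y767.CA.cf α, F,
    fun q χ => LX (wn η w q χ) ((N₂ : ℝ) * (q : ℝ) ^ 2) mu2, gq mu2,
    fun p r => w * η ((p * r : ℕ) : ZMod N₂), un, fun r => ((N₂ * r ^ 2 : ℕ) : ℤ), ((N₂ : ℕ) : ℤ),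
    norm_cf_le hα1, ⟨hN, by norm_num, by norm_num,
      fun σ hσ => Pool.Agent.Y767.CA.summable_lin
        (fun σ hσ => summ_of_bdd (norm_cf_le hα1) hσ) hσ,
      sqb_of_bdd (norm_cf_le hα1), ?_, ?_, ?_, un_le, gq_gr hmu⟩, ?_⟩
  · intro q χ hq hqN hχ
    have hqN2 : Nat.Coprime q N₂ := Nat.Coprime.coprime_dvd_right hN2 hqN
    obtain ⟨h1, h2, -⟩ := hF q χ (by omega) hqN2 hχ
    have hq0 : (0 : ℝ) < q := by
      have : 0 < q := by omega
      exact_mod_cast this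
    have hser : ∀ s : ℂ, 1 < s.re →
        F q χ s = LSeries (tw (chs χ) (E (Pool.Agent.Y767.CA.cf α))) s := by
      refine ser_of_euler (fun p hp j => (hα1 p j).trans ?_)
        (fun σ hσ => summ_of_bdd (norm_cf_le hα1) hσ) (chs_one χ) (chs_mul χ) (chs_le χ) h1.diff
        fun s hs => ?_
      · rw [Real.one_le_sqrt]
        exact_mod_cast hp.one_lt.le
      · refine (h2 s hs).congr_fun ?_
        intro p
        obtain ⟨e1, e2⟩ := hα2 p p.2
        have e3 : ((p : ℕ) : ℂ) ^ (-2 * s) = (((p : ℕ) : ℂ) ^ (-s)) ^ 2 := by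
          rw [← Complex.cpow_nat_mul]
          congr 1
          push_cast
          ring
        rw [Fin.prod_univ_two, ← mul_inv, ← e1, ← e2, e3]
        congr 1
        unfold chs
        ring
    have h3 := mem_of_fec (κ := Fin 2) (R := (N₂ : ℝ) * (q : ℝ) ^ 2) (V := 4) (by positivity)
      (μ := mu2) hmu hmuV (by norm_num) h1
      (c := Pool.Agent.Y767.CA.cf α) (ψ := chs χ)
      (fun σ hσ => Pool.Agent.Y767.CA.summable_lin
        (fun σ hσ => summ_of_bdd (norm_cf_le hα1) hσ) hσ)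
      (chs_mul χ) (chs_one χ) (chs_le χ) hser
    rw [Fintype.card_fin] at h3
    norm_num at h3
    exact h3
  · intro p r _ _ χ₁ χ₂ hr _ hp hco hcoN h1 h2 _
    have hpr := pr_prim hcrt hco h1 h2
    have hcoN2 : Nat.Coprime (p * r) N₂ := Nat.Coprime.coprime_dvd_right hN2 hcoN
    have hpr0 : 1 ≤ p * r := Nat.mul_pos hp.pos (by omega)
    have : NeZero (p * r) := ⟨by omega⟩
    have hq0 : (0 : ℝ) < ((p * r : ℕ) : ℝ) := by exact_mod_cast hpr0
    obtain ⟨h3, -, h4⟩ := hF (p * r) (pr p r χ₁ χ₂) hpr0 hcoN2 hpr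
    refine ⟨?_, fun z => ?_⟩
    · have h5 := eps_of_fe (R := (N₂ : ℝ) * ((p * r : ℕ) : ℝ) ^ 2) (V := 4) (by positivity)
        (μ := mu2) hmu hmuV (by norm_num) h3.diff (norm_wn hf.norm (p * r) _ hcoN2 hpr) h4
      rw [Fintype.card_fin] at h5
      norm_num at h5
      norm_num
      exact h5
    · have hp1 : (((p : ℝ) ^ (((2 : ℕ) : ℝ) / 2 : ℝ) : ℝ) : ℂ) = (p : ℂ) := by
        norm_num
      rw [hp1]
      show LX _ _ _ _ = _
      rw [LX_eq (by positivity), wn_pr hcrt w hco h2]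
  · intro p r
    rw [norm_mul, hf.norm, one_mul]
    exact η.norm_le_one _
  · intro q χ hq hco hχ
    obtain ⟨h1, h2, -⟩ := hF q χ hq hco hχ
    exact ⟨h1.diff, h2⟩

theorem t_newf (hcrt : S_crt) : S_newf := by
  intro N₂ _ η f w hf N e hN2 he
  obtain ⟨V, S, c, F, ep, g, b, u, v, M, -, h1, h2⟩ := t_newf' hcrt hf N e hN2 he
  exact ⟨V, S, c, F, ep, g, b, u, v, M, h1, h2⟩

end Pool.Agent.NH12.GL
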