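import Pool.Agent.NH12.GL.Tw4
import Pool.Agent.NH12.GL.Newf
import Pool.Agent.R399.TW.InstD

/-!
# Cuspidal data with explicit root numbers: the family of the twists
-/

set_option autoImplicit false

namespace Pool.Agent.NH12.GL

open Finset Filter Topology Complex MeasureTheory
open Pool.Agent.R399.TW Pool.Agent.R399.TM Pool.Agent.NH12.NV
open Pool.Agent.Y767.CA (GGc FEc cj Gd LX GGc_ne conj_GGc CD cf eps_of summable_lin)
open scoped ComplexConjugate

lemma lx_of_fe {κ : Type} [Fintype κ] {R : ℝ} (hR : 0 < R) {μ : κ → ℂ} {F : ℂ → ℂ} {w z : ℂ}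
    (hz : Gd μ z) (h : GGc R μ z * F z = w * (starRingEnd ℂ)
      (GGc R μ (1 - (starRingEnd ℂ) z) * F (1 - (starRingEnd ℂ) z))) :
    F z = LX w R μ z * rfl1 F z := by
  rw [map_mul, conj_GGc hR] at h
  have e1 : (starRingEnd ℂ) (1 - (starRingEnd ℂ) z) = 1 - z := by simp
  rw [e1] at h
  have hg := GGc_ne hR hz
  unfold LX rfl1
  field_simp
  linear_combination h

/-- the normalised power of the Gauss sum -/
noncomputable def gm (m q : ℕ) (χ : DirichletCharacter ℂ q) : ℂ :=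
  if h : q = 0 then 0 else
    haveI : NeZero q := ⟨h⟩
    gs χ ^ m / (((q : ℝ) ^ (m / 2 : ℝ) : ℝ) : ℂ)

lemma gm_eq (m q : ℕ) [NeZero q] (χ : DirichletCharacter ℂ q) :
    gm m q χ = gs χ ^ m / (((q : ℝ) ^ (m / 2 : ℝ) : ℝ) : ℂ) := by
  unfold gm
  rw [dif_neg (NeZero.ne q)]

lemma norm_gm (m q : ℕ) [NeZero q] {χ : DirichletCharacter ℂ q} (hχ : χ.IsPrimitive) :
    ‖gm m q χ‖ = 1 := by
  have hq : (0 : ℝ) < q := by exact_mod_cast Nat.pos_of_ne_zero (NeZero.ne q)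
  have h1 := Pool.Agent.Helper112.MLS.norm_gauss q hχ
  have h2 : ‖gs χ‖ = Real.sqrt q := by
    unfold gs
    rw [← h1, Real.sqrt_sq (norm_nonneg _)]
  have h3 : Real.sqrt q ^ m = (q : ℝ) ^ (m / 2 : ℝ) := by
    rw [Real.sqrt_eq_rpow, ← Real.rpow_natCast, ← Real.rpow_mul hq.le]
    congr 1
    ring
  rw [gm_eq, norm_div, norm_pow, h2, h3, Complex.norm_real, Real.norm_of_nonneg (by positivity)]
  exact div_self (by positivity)

/-- the factor at the moduli `r` -/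
noncomputable def um (m r : ℕ) (χ : DirichletCharacter ℂ r) : ℂ := by
  classical
  exact if χ.IsPrimitive then gm m r χ else 0

lemma um_eq (m r : ℕ) {χ : DirichletCharacter ℂ r} (h : χ.IsPrimitive) :
    um m r χ = gm m r χ := by
  unfold um
  rw [if_pos h]

lemma um_le (m r : ℕ) (χ : DirichletCharacter ℂ r) : ‖um m r χ‖ ≤ 1 := by
  by_cases h2 : χ.IsPrimitive
  · rw [um_eq m r h2]
    by_cases h : r = 0
    · unfold gm
      rw [dif_pos h]
      simp
    · have : NeZero r := ⟨h⟩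
      exact (norm_gm m r h2).le
  · unfold um
    rw [if_neg h2]
    simp

lemma gm_pr (hcrt : S_crt) (m : ℕ) {p r : ℕ} [NeZero p] [NeZero r] (hpr : Nat.Coprime p r)
    (χ₁ : DirichletCharacter ℂ p) (χ₂ : DirichletCharacter ℂ r) :
    gm m (p * r) (pr p r χ₁ χ₂) = χ₁ (r : ZMod p) ^ m * χ₂ (p : ZMod r) ^ m * gm m p χ₁ *
      gm m r χ₂ := by
  have : NeZero (p * r) := ⟨mul_ne_zero (NeZero.ne p) (NeZero.ne r)⟩
  obtain ⟨-, -, c3⟩ := hcrt p r hpr
  have hp : (0 : ℝ) < p := by exact_mod_cast Nat.pos_of_ne_zero (NeZero.ne p)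
  have hr : (0 : ℝ) < r := by exact_mod_cast Nat.pos_of_ne_zero (NeZero.ne r)
  have h1 : (((p * r : ℕ) : ℝ) ^ (m / 2 : ℝ) : ℝ) = (p : ℝ) ^ (m / 2 : ℝ) *
      (r : ℝ) ^ (m / 2 : ℝ) := by
    rw [Nat.cast_mul, Real.mul_rpow hp.le hr.le]
  have h2 : ((((p : ℝ) ^ (m / 2 : ℝ) : ℝ)) : ℂ) ≠ 0 := ofReal_ne_zero.2 (by positivity)
  have h3 : ((((r : ℝ) ^ (m / 2 : ℝ) : ℝ)) : ℂ) ≠ 0 := ofReal_ne_zero.2 (by positivity)
  rw [gm_eq, gm_eq, gm_eq, c3, h1, ofReal_mul]
  field_simp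
  ring

theorem t_cd (hcrt : S_crt) : S_cd := by
  classical
  intro m D ω w₀ hw1 hw2 hfe e he N hN
  have hL : Lin (cf D.α) := fun σ hσ => summable_lin D.rs_sum hσ
  obtain ⟨C, hC⟩ := sqb_of_lim D.rs_sum D.rs_lim
  have hW := D.W_ge
  have hwe : ‖w₀ e‖ = 1 := by
    rcases he with rfl | rfl
    · exact hw1
    · exact hw2
  have hDN : (0 : ℝ) < D.N := by exact_mod_cast D.N_pos
  have hDN0 : D.N ≠ 0 := by
    have := D.N_pos
    omega
  have : NeZero D.N := ⟨hDN0⟩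
  have hmu : ∀ i, -1 / 2 < (D.μ e i).re := D.μ_re e he
  have hmuV : ∀ i, ‖D.μ e i‖ + 3 ≤ D.W + 2 := fun i => by linarith [D.norm_μ he i]
  refine ⟨3 * (1 + (D.W + 2)), max C 0,
    fun q χ => LX (w₀ e * ω (q : ZMod D.N) * χ ((D.N : ℕ) : ZMod q) * gm m q χ)
      ((D.N : ℝ) * (q : ℝ) ^ m) (D.μ e), gq (D.μ e),
    fun p r => w₀ e * ω ((p * r : ℕ) : ZMod D.N), um m, fun r => ((D.N * r ^ m : ℕ) : ℤ),
    ((D.N : ℕ) : ℤ), ⟨hDN, by linarith, le_max_right _ _, hL, ?_, ?_, ?_, ?_, um_le m,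
      gq_gr hmu⟩⟩
  · intro σ h1 h2 n
    refine (hC σ h1 h2 n).trans ?_
    have h3 : 0 < σ - 1 := by linarith
    gcongr
    exact le_max_left _ _
  · intro q χ hq hqN hχ
    have hqN2 : Nat.Coprime q D.N := Nat.Coprime.coprime_dvd_right hN hqN
    have hR := D.R_pos hq
    have hmem : Mem (cf D.α) (D.R q) (3 * (1 + (D.W + 2))) (Fintype.card (Fin m)) (chs χ)
        (D.F q χ) := by
      refine mem_of_fec hR (μ := D.μ (χ (-1))) (D.μ_re _ (eps_of χ))
        (fun i => by linarith [D.norm_μ (eps_of χ) i]) (by linarith) (cd_fec D χ hq hqN2 hχ) hL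
        (chs_mul χ) (chs_one χ) (chs_le χ) ?_
      refine ser_of_euler D.α_le D.rs_sum (chs_one χ) (chs_mul χ) (chs_le χ) (D.diff χ hq hqN2 hχ)
        fun s hs => ?_
      have h1 := D.euler q χ hq hqN2 hχ s hs
      rw [D.F_eq]
      exact h1
    rw [Fintype.card_fin] at hmem
    exact hmem
  · intro p r _ _ χ₁ χ₂ hr _ hp hco hcoN h1 h2 he1
    have hpr := pr_prim hcrt hco h1 h2
    have hcoN2 : Nat.Coprime (p * r) D.N := Nat.Coprime.coprime_dvd_right hN hcoN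
    have hpr2 : 2 ≤ p * r := le_trans hr (Nat.le_mul_of_pos_left r hp.pos)
    have : NeZero (p * r) := ⟨by omega⟩
    have hq0 : (0 : ℝ) < ((p * r : ℕ) : ℝ) := by
      have : 0 < p * r := by omega
      exact_mod_cast this
    have hR := D.R_pos hpr2
    set χ := pr p r χ₁ χ₂ with hχ
    have hω : ‖ω ((p * r : ℕ) : ZMod D.N)‖ = 1 := by
      obtain ⟨u, hu⟩ := (ZMod.isUnit_iff_coprime (p * r) D.N).mpr hcoN2
      rw [← hu]
      exact ω.unit_norm_eq_one u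
    have hχN : ‖χ ((D.N : ℕ) : ZMod (p * r))‖ = 1 := by
      obtain ⟨u, hu⟩ := (ZMod.isUnit_iff_coprime D.N (p * r)).mpr hcoN2.symm
      rw [← hu]
      exact χ.unit_norm_eq_one u
    have hW1 : ‖w₀ e * ω ((p * r : ℕ) : ZMod D.N) * χ ((D.N : ℕ) : ZMod (p * r)) *
        gm m (p * r) χ‖ = 1 := by
      rw [norm_mul, norm_mul, norm_mul, hwe, hω, hχN, norm_gm m (p * r) hpr]
      norm_num
    refine ⟨?_, fun z => ?_⟩
    · have h5 := eps_of_fe (R := (D.N : ℝ) * ((p * r : ℕ) : ℝ) ^ m) (V := D.W + 2) hR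
        (μ := D.μ e) hmu hmuV (by linarith) (D.diff χ hpr2 hcoN2 hpr) hW1 (fun z hz => ?_)
      · rw [Fintype.card_fin] at h5
        exact h5
      · have key : ∀ z : ℂ, Gd (D.μ e) z →
            GGc (D.R (p * r)) (D.μ e) z * D.F (p * r) χ z = D.Λ (p * r) χ z := by
          intro z hz
          rw [D.F_eq, he1, mul_div_cancel₀ _ (GGc_ne hR hz)]
        have hs2 : Gd (D.μ e) (1 - conj z) := by
          intro i
          have : (1 - conj z).im = z.im := by simp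
          rw [this]
          exact hz i
        refine lx_of_fe hR hz ?_
        rw [key z hz, key _ hs2]
        have h6 := hfe (p * r) χ hpr2 hcoN2 hpr (1 - z)
        have e1 : (1 - (1 - z)) = z := by ring
        have e2 : conj (1 - z) = 1 - conj z := by simp
        rw [e1, e2, he1, ← gm_eq] at h6
        exact h6
    · show LX _ _ _ _ = _
      rw [LX_eq (R := (D.N : ℝ) * ((p * r : ℕ) : ℝ) ^ m) hR, hχ, gm_pr hcrt m hco, ← gm_eq, um_eq m r h2]
      obtain ⟨c1, -, -⟩ := hcrt p r hco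
      have e1 : pr p r χ₁ χ₂ ((D.N : ℕ) : ZMod (p * r)) =
          χ₁ ((D.N : ℕ) : ZMod p) * χ₂ ((D.N : ℕ) : ZMod r) := by
        have := c1 χ₁ χ₂ (D.N : ℤ)
        simpa using this
      have e2 : χ₁ (((D.N * r ^ m : ℕ) : ℤ) : ZMod p) =
          χ₁ ((D.N : ℕ) : ZMod p) * χ₁ (r : ZMod p) ^ m := by
        rw [← map_pow, ← map_mul]
        congr 1
        push_cast
        rfl
      have e3 : χ₂ ((((D.N : ℕ) : ℤ) * (p : ℤ) ^ m : ℤ) : ZMod r) =
          χ₂ ((D.N : ℕ) : ZMod r) * χ₂ (p : ZMod r) ^ m := by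
        rw [← map_pow, ← map_mul]
        congr 1
        push_cast
        rfl
      rw [e1, e2, e3]
      ring
  · intro p r
    rw [norm_mul, hwe, one_mul]
    exact ω.norm_le_one _

end Pool.Agent.NH12.GL
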