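import Pool.Agent.NH12.GL.Tw2
import Pool.Agent.Y772.SL.Gal
import Pool.Agent.Y772.DK.Main

/-!
# Primes in a progression and primes splitting completely, in short ranges
-/

set_option autoImplicit false

namespace Pool.Agent.NH12.GL

open Finset Filter Topology Complex NumberField
open Pool.Agent.Y772.SL (av)
open scoped ArithmeticFunction.vonMangoldt

/-- the characteristic function of a set of primes -/
noncomputable def chr68 (T : Set ℕ) (n : ℕ) : ℝ := T.indicator (fun _ => (1 : ℝ)) n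

lemma chr68_nonneg (T : Set ℕ) (n : ℕ) : 0 ≤ chr68 T n := by
  unfold chr68
  exact Set.indicator_nonneg (fun _ _ => zero_le_one) n

lemma chr68_le (T : Set ℕ) (n : ℕ) : |chr68 T n| ≤ 1 := by
  rw [abs_of_nonneg (chr68_nonneg T n)]
  unfold chr68
  by_cases h : n ∈ T
  · rw [Set.indicator_of_mem h]
  · rw [Set.indicator_of_notMem h]
    exact zero_le_one

lemma dens_mono68 {T T' : Set ℕ} (h : T ⊆ T') (hT : Dens T) : Dens T' := by
  classical
  obtain ⟨c, Q₀, hc, hQ⟩ := hT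
  refine ⟨c, Q₀, hc, fun Q hQ0 P hP => ?_⟩
  refine (hQ Q hQ0 (P.filter (· ∈ T)) fun p => ?_).trans ?_
  · rw [Finset.mem_filter, hP]
    constructor
    · rintro ⟨⟨_, h2⟩, h3⟩
      exact ⟨h3, h2⟩
    · rintro ⟨h1, h2⟩
      exact ⟨⟨h h1, h2⟩, h1⟩
  · exact Finset.sum_le_sum_of_subset_of_nonneg (Finset.filter_subset _ _)
      fun p _ _ => by positivity

/-- a set of primes with an average has positive density in the short ranges -/
theorem dens_of_av68 {T : Set ℕ} {A : ℝ} (hA : 0 < A) (hT : ∀ p ∈ T, p.Prime)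
    (h : Tendsto (av (chr68 T)) (𝓝[>] 0) (𝓝 A)) : Dens T := by
  classical
  have hΛ : ∀ n : ℕ, 0 ≤ Λ n := fun n => ArithmeticFunction.vonMangoldt_nonneg
  set v : ℕ → ℝ := fun n => A⁻¹ * (chr68 T n * Λ n / n) with hv
  have hv0 : ∀ n, 0 ≤ v n := fun n =>
    mul_nonneg (inv_nonneg.2 hA.le) (div_nonneg (mul_nonneg (chr68_nonneg T n) (hΛ n))
      (Nat.cast_nonneg n))
  have hconv : ∀ (σ : ℝ), 0 < σ → ∀ n : ℕ, v n * (n : ℝ) ^ (-σ) =
      A⁻¹ * (chr68 T n * Λ n * (n : ℝ) ^ (-(1 + σ))) := by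
    intro σ hσ n
    rcases Nat.eq_zero_or_pos n with rfl | hn
    · simp [hv]
    · have hn0 : (0 : ℝ) < n := by exact_mod_cast hn
      rw [neg_add, Real.rpow_add hn0, Real.rpow_neg_one, hv]
      ring
  have hk := W688.TW.t_kara v hv0 (by simp [hv]) (fun σ hσ => by
      refine ((Pool.Agent.Y772.NV.summable_bdd hσ _ _ (chr68_le T)).mul_left A⁻¹).congr
        fun n => (hconv σ hσ n).symm) (by
      have h1 := h.const_mul A⁻¹
      rw [inv_mul_cancel₀ hA.ne'] at h1
      refine h1.congr' ?_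
      filter_upwards [self_mem_nhdsWithin] with σ hσ
      unfold av
      rw [tsum_congr (hconv σ hσ), tsum_mul_left]
      ring)
  -- the window
  set S : ℝ → ℝ := fun x => ∑ n ∈ Finset.Icc 1 ⌊x⌋₊, v n with hS
  have hev : ∀ᶠ x : ℝ in atTop, |S x / Real.log x - 1| < 1 / 1000 := by
    have := (Metric.tendsto_nhds.1 hk) (1 / 1000) (by norm_num)
    simpa [Real.dist_eq] using this
  obtain ⟨X, hX⟩ := eventually_atTop.1 hev
  have hQt : Tendsto (fun Q : ℕ => (Q : ℝ) ^ (3 / 5 : ℝ)) atTop atTop :=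
    (tendsto_rpow_atTop (by norm_num)).comp tendsto_natCast_atTop_atTop
  obtain ⟨Q₀, hQ₀⟩ := eventually_atTop.1 ((hQt.eventually_ge_atTop X).and (eventually_ge_atTop 2))
  refine ⟨A / 62, Q₀, by positivity, fun Q hQ P hP => ?_⟩
  obtain ⟨hQX, hQ2⟩ := hQ₀ Q hQ
  have hQ1 : (1 : ℝ) < Q := by
    have : 1 < Q := by omega
    exact_mod_cast this
  have hQ0 : (0 : ℝ) < Q := by linarith
  have hlog : 0 < Real.log Q := Real.log_pos hQ1
  set y : ℝ := (Q : ℝ) ^ (3 / 5 : ℝ) with hy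
  set x : ℝ := (Q : ℝ) ^ (31 / 50 : ℝ) with hx
  have hyx : y ≤ x := Real.rpow_le_rpow_of_exponent_le hQ1.le (by norm_num)
  have hly : Real.log y = 3 / 5 * Real.log Q := Real.log_rpow hQ0 _
  have hlx : Real.log x = 31 / 50 * Real.log Q := Real.log_rpow hQ0 _
  have hy0 : 0 < y := Real.rpow_pos_of_pos hQ0 _
  have hx0 : 0 < x := Real.rpow_pos_of_pos hQ0 _
  have h1 := hX y hQX
  have h2 := hX x (hQX.trans hyx)
  have hlx0 : 0 < Real.log x := by rw [hlx]; positivity
  have hly0 : 0 < Real.log y := by rw [hly]; positivity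
  rw [abs_lt] at h1 h2
  have h3 : S y ≤ (1 + 1 / 1000) * Real.log y := by
    have : S y / Real.log y < 1 + 1 / 1000 := by linarith [h1.2]
    exact ((div_lt_iff₀ hly0).1 this).le
  have h4 : (1 - 1 / 1000) * Real.log x ≤ S x := by
    have : 1 - 1 / 1000 < S x / Real.log x := by linarith [h2.1]
    exact ((lt_div_iff₀ hlx0).1 this).le
  have h5 : Real.log Q / 100 ≤ S x - S y := by
    rw [hlx] at h4
    rw [hly] at h3
    linarith
  have hfl : ⌊y⌋₊ ≤ ⌊x⌋₊ := Nat.floor_le_floor hyx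
  have h6 : S x - S y = ∑ n ∈ Finset.Ioc ⌊y⌋₊ ⌊x⌋₊, v n := by
    have e1 : ∀ m : ℕ, ∑ n ∈ Finset.Icc 1 m, v n = ∑ n ∈ Finset.Ioc 0 m, v n := fun m => by
      congr 1
    simp only [hS]
    rw [e1, e1, ← Finset.sum_Ioc_consecutive v (Nat.zero_le _) hfl]
    ring
  have h7 : ∑ n ∈ Finset.Ioc ⌊y⌋₊ ⌊x⌋₊, v n = ∑ p ∈ P, v p := by
    symm
    apply Finset.sum_subset_zero_on_sdiff
    · intro p hp
      obtain ⟨_, _, hp3, hp4⟩ := (hP p).1 hp
      rw [Finset.mem_Ioc]
      exact ⟨(Nat.floor_lt hy0.le).2 hp3, Nat.le_floor hp4⟩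
    · intro n hn
      rw [Finset.mem_sdiff, Finset.mem_Ioc] at hn
      by_cases hnT : n ∈ T
      · exfalso
        apply hn.2
        rw [hP]
        exact ⟨hnT, hT n hnT, (Nat.floor_lt hy0.le).1 hn.1.1,
          (Nat.le_floor_iff hx0.le).1 hn.1.2⟩
      · simp only [hv, chr68]
        rw [Set.indicator_of_notMem hnT]
        ring
    · exact fun _ _ => rfl
  have h8 : ∑ p ∈ P, v p ≤ ∑ p ∈ P, A⁻¹ * Real.log x * ((1 : ℝ) / p) := by
    apply Finset.sum_le_sum
    intro p hp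
    obtain ⟨hp1, hp2, hp3, hp4⟩ := (hP p).1 hp
    have hp0 : (0 : ℝ) < p := by exact_mod_cast hp2.pos
    simp only [hv, chr68]
    rw [Set.indicator_of_mem hp1, ArithmeticFunction.vonMangoldt_apply_prime hp2, one_mul]
    have hpx : Real.log p ≤ Real.log x := Real.log_le_log hp0 hp4
    calc A⁻¹ * (Real.log p / p) ≤ A⁻¹ * (Real.log x / p) := by gcongr
      _ = _ := by ring
  have h9 : ∑ p ∈ P, v p ≤ A⁻¹ * Real.log x * ∑ p ∈ P, (1 : ℝ) / p := by
    rw [Finset.mul_sum]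
    exact h8
  have h10 : Real.log Q / 100 ≤ A⁻¹ * Real.log x * ∑ p ∈ P, (1 : ℝ) / p := by
    calc _ ≤ _ := h5
      _ = _ := h6.trans h7
      _ ≤ _ := h9
  rw [hlx] at h10
  have h11 : A⁻¹ * (31 / 50 * Real.log Q) * ∑ p ∈ P, (1 : ℝ) / p =
      (Real.log Q / 100) * (A⁻¹ * 62 * ∑ p ∈ P, (1 : ℝ) / p) := by ring
  rw [h11] at h10
  have h12 : 1 ≤ A⁻¹ * 62 * ∑ p ∈ P, (1 : ℝ) / p := by
    by_contra h13
    push Not at h13
    have : (Real.log Q / 100) * (A⁻¹ * 62 * ∑ p ∈ P, (1 : ℝ) / p) < (Real.log Q / 100) * 1 :=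
      mul_lt_mul_of_pos_left h13 (by positivity)
    linarith
  rw [div_le_iff₀ (by norm_num)]
  have h14 := mul_le_mul_of_nonneg_left h12 hA.le
  calc A = A * 1 := by ring
    _ ≤ A * (A⁻¹ * 62 * ∑ p ∈ P, (1 : ℝ) / p) := h14
    _ = (A * A⁻¹) * ((∑ p ∈ P, (1 : ℝ) / p) * 62) := by ring
    _ = _ := by rw [mul_inv_cancel₀ hA.ne', one_mul]

/-! ### primes in a progression -/

theorem t_dens : S_dens := by
  intro f hf
  have : NeZero f := ⟨by omega⟩
  set T : Set ℕ := {p : ℕ | p.Prime ∧ p ≡ 1 [MOD f]} with hTdef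
  have hφ : (0 : ℝ) < (f.totient : ℝ)⁻¹ := inv_pos.mpr (mod_cast f.totient.pos_of_neZero)
  refine dens_mono68 (T := T) (fun p hp => hp.2) (dens_of_av68 hφ (fun p hp => hp.1) ?_)
  -- all the integers congruent to one
  set u : ℕ → ℝ := fun n => if (n : ZMod f) = 1 then 1 else 0 with hu
  have hub : ∀ n, |u n| ≤ 1 := by
    intro n
    simp only [hu]
    split_ifs <;> simp
  refine Pool.Agent.Y772.SL.av_congr (chr68_le T) hub ∅ (fun p hp _ => ?_) ?_
  · simp only [chr68, hu]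
    by_cases hp1 : (p : ZMod f) = 1
    · have : p ∈ T := by
        refine ⟨hp, ?_⟩
        rw [← ZMod.natCast_eq_natCast_iff, hp1, Nat.cast_one]
      rw [Set.indicator_of_mem this, if_pos hp1]
    · have : p ∉ T := by
        intro h
        apply hp1
        have h2 := (ZMod.natCast_eq_natCast_iff _ _ _).2 h.2
        rw [h2, Nat.cast_one]
      rw [Set.indicator_of_notMem this, if_neg hp1]
  · have ha : IsUnit (1 : ZMod f) := isUnit_one
    have H : ∀ {x : ℝ}, 1 < x →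
        ∑' n : ℕ, ArithmeticFunction.vonMangoldt.residueClass (1 : ZMod f) n / (n : ℝ) ^ x =
        (ArithmeticFunction.vonMangoldt.LFunctionResidueClassAux (1 : ZMod f) x).re +
          (f.totient : ℝ)⁻¹ / (x - 1) := by
      intro x hx
      refine ofReal_injective ?_
      simp only [ofReal_tsum, ofReal_div, ofReal_cpow (Nat.cast_nonneg _), ofReal_natCast,
        ofReal_add, ofReal_inv, ofReal_sub, ofReal_one]
      simp_rw [← ArithmeticFunction.vonMangoldt.LFunctionResidueClassAux_real ha hx,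
        ArithmeticFunction.vonMangoldt.eqOn_LFunctionResidueClassAux ha <|
          Set.mem_ofPred.mpr (ofReal_re x ▸ hx), sub_add_cancel,
        LSeries, LSeries.term]
      refine tsum_congr fun n ↦ ?_
      split_ifs with hn
      · simp only [hn, ArithmeticFunction.vonMangoldt.residueClass_apply_zero, ofReal_zero,
          zero_div]
      · rfl
    have hcont : ContinuousWithinAt (fun σ : ℝ =>
        (ArithmeticFunction.vonMangoldt.LFunctionResidueClassAux (1 : ZMod f)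
          ((1 + σ : ℝ) : ℂ)).re) (Set.Ici 0) 0 := by
      have h1 := ArithmeticFunction.vonMangoldt.continuousOn_LFunctionResidueClassAux (1 : ZMod f)
      have h2 : ContinuousOn (fun σ : ℝ => ((1 + σ : ℝ) : ℂ)) (Set.Ici 0) := by fun_prop
      have h3 := continuous_re.comp_continuousOn (h1.comp h2 (fun σ hσ => by
        have : (0 : ℝ) ≤ σ := hσ
        simp only [Set.mem_ofPred_eq, ofReal_re]
        linarith))
      exact h3 0 Set.self_mem_Ici
    have hlim : Tendsto (fun σ : ℝ => σ *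
        (ArithmeticFunction.vonMangoldt.LFunctionResidueClassAux (1 : ZMod f)
          ((1 + σ : ℝ) : ℂ)).re + (f.totient : ℝ)⁻¹) (𝓝[>] 0) (𝓝 (0 *
        (ArithmeticFunction.vonMangoldt.LFunctionResidueClassAux (1 : ZMod f)
          ((1 + (0:ℝ) : ℝ) : ℂ)).re + (f.totient : ℝ)⁻¹)) := by
      have h1 : Tendsto (fun σ : ℝ => σ) (𝓝[>] 0) (𝓝 0) := tendsto_id.mono_left nhdsWithin_le_nhds
      have h2 := hcont.tendsto.mono_left (nhdsWithin_mono 0 Set.Ioi_subset_Ici_self)
      exact (h1.mul h2).add_const _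
    rw [zero_mul, zero_add] at hlim
    refine hlim.congr' ?_
    filter_upwards [self_mem_nhdsWithin] with σ hσ
    have hσ' : (0 : ℝ) < σ := hσ
    unfold av
    have h5 : ∑' n : ℕ, u n * Λ n * (n : ℝ) ^ (-(1 + σ)) =
        ∑' n : ℕ, ArithmeticFunction.vonMangoldt.residueClass (1 : ZMod f) n /
          (n : ℝ) ^ (1 + σ) := by
      refine tsum_congr fun n => ?_
      rw [Real.rpow_neg (Nat.cast_nonneg n), ← div_eq_mul_inv]
      congr 1
      unfold ArithmeticFunction.vonMangoldt.residueClass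
      simp only [hu]
      by_cases hn : (n : ZMod f) = 1
      · rw [if_pos hn, Set.indicator_of_mem (by exact hn), one_mul]
      · rw [if_neg hn, Set.indicator_of_notMem (by exact hn), zero_mul]
    rw [h5, H (by linarith)]
    have h6 : (1 : ℝ) + σ - 1 = σ := by ring
    rw [h6, mul_add, mul_div_cancel₀ _ hσ'.ne']

/-! ### primes splitting completely -/

/-- the reduction modulo a prime ideal of norm `p` -/
lemma exists_red68 {K : Type} [Field K] [NumberField K] {p : ℕ} (hp : p.Prime)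
    {P : Ideal (𝓞 K)} (h : Ideal.absNorm P = p) :
    ∃ φ : 𝓞 K →+* ZMod p, RingHom.ker φ = P := by
  have : Fact p.Prime := ⟨hp⟩
  have hcard : Nat.card (𝓞 K ⧸ P) = p := by
    rw [← h, Ideal.absNorm_apply, Submodule.cardQuot_apply]
  have hfin : Finite (𝓞 K ⧸ P) := Nat.finite_of_card_ne_zero (by rw [hcard]; exact hp.ne_zero)
  have : Fintype (𝓞 K ⧸ P) := Fintype.ofFinite _
  have hc2 : Fintype.card (𝓞 K ⧸ P) = p := by rw [← Nat.card_eq_fintype_card, hcard]
  refine ⟨(ZMod.ringEquivOfPrime (𝓞 K ⧸ P) hp hc2).symm.toRingHom.comp (Ideal.Quotient.mk P), ?_⟩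
  rw [← RingHom.comap_ker]
  have : RingHom.ker (ZMod.ringEquivOfPrime (𝓞 K ⧸ P) hp hc2).symm.toRingHom = ⊥ := by
    rw [← RingHom.injective_iff_ker_eq_bot]
    exact (ZMod.ringEquivOfPrime (𝓞 K ⧸ P) hp hc2).symm.injective
  rw [this, ← RingHom.ker_eq_comap_bot, Ideal.mk_ker]

theorem t_split : S_split := by
  intro K _ _ hG
  classical
  have hfb := Pool.Agent.Y772.SK.finite_bad' K (𝔟 := differentIdeal ℤ (𝓞 K)) differentIdeal_ne_bot
  obtain ⟨B, hB, hDK⟩ := Pool.Agent.Y772.DK.t_dirK K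
  obtain ⟨-, -, -, -, -, -, hb, hv, -, -, -⟩ :=
    hDK (Pool.Agent.Y772.NZ.one K) (Pool.Agent.Y772.NZ.one_norm K)
  set n := Module.finrank ℚ K with hn
  have hn0 : 0 < n := Module.finrank_pos
  have hnR : (0 : ℝ) < n := by exact_mod_cast hn0
  set T : Set ℕ := {p : ℕ | p ∈ Pool.Agent.Y772.NZ.TT K ∧ p ∉ hfb.toFinset} with hT
  -- the primes in `T` split completely
  have hsub : T ⊆ Spl K := by
    rintro p ⟨⟨hp, P, hP⟩, hpS⟩
    rw [Set.Finite.mem_toFinset] at hpS
    have hd : ¬ P ∣ differentIdeal ℤ (𝓞 K) := fun h => hpS ⟨P, hP, h⟩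
    have hcard := Pool.Agent.Y772.SL.ncard_norm' hG hp hP hd
    have hfin : {Q : Ideal (𝓞 K) | Ideal.absNorm Q = p}.Finite :=
      Ideal.finite_setOfPred_absNorm_eq p
    have : Finite {Q : Ideal (𝓞 K) | Ideal.absNorm Q = p} := hfin
    have hc2 : Nat.card {Q : Ideal (𝓞 K) | Ideal.absNorm Q = p} = Module.finrank ℚ K := hcard
    let e := (Finite.equivFinOfCardEq hc2).symm
    choose φ hφ using fun i => exists_red68 (K := K) hp (e i).2
    refine ⟨φ, fun i j hij => ?_⟩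
    apply e.injective
    apply Subtype.ext
    rw [← hφ i, ← hφ j, hij]
  refine dens_mono68 hsub (dens_of_av68 (A := (n : ℝ)⁻¹) (inv_pos.2 hnR)
    (fun p hp => hp.1.1) ?_)
  have h1 := Pool.Agent.Y772.SL.lim_one Pool.Agent.Y772.DK.t_dirK K
  have hu : ∀ k, |(n : ℝ) * chr68 T k| ≤ n := by
    intro k
    rw [abs_mul, abs_of_pos hnR]
    have := mul_le_mul_of_nonneg_left (chr68_le T k) hnR.le
    rwa [mul_one] at this
  have h2 := Pool.Agent.Y772.SL.av_congr hu
    (v := fun k => (Pool.Agent.Y773.cc (Pool.Agent.Y772.NZ.one K) k).re) (B := n)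
    (fun k => (abs_re_le_norm _).trans (hb k)) hfb.toFinset (fun p hp hS => ?_) h1
  · have h3 := h2.const_mul (n : ℝ)⁻¹
    rw [mul_one] at h3
    refine h3.congr fun σ => ?_
    rw [Pool.Agent.Y772.SL.av_mul, ← mul_assoc, inv_mul_cancel₀ hnR.ne', one_mul]
  · by_cases hpT : p ∈ Pool.Agent.Y772.NZ.TT K
    · have hmem : p ∈ T := ⟨hpT, hS⟩
      obtain ⟨-, P, hP⟩ := hpT
      rw [Set.Finite.mem_toFinset] at hS
      have hd : ¬ P ∣ differentIdeal ℤ (𝓞 K) := fun h => hS ⟨P, hP, h⟩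
      have e1 := hv p hp
      rw [Pool.Agent.Y772.SL.sum_orbit hG hp hP hd] at e1
      have o1 : Pool.Agent.Y773.cc (Pool.Agent.Y772.NZ.one K) p = (Nat.card Gal(K/ℚ) : ℂ) := by
        rw [e1, Finset.sum_congr rfl fun g _ => Pool.Agent.Y772.NZ.one_ne K
          (Pool.Agent.Y772.SL.ne_bot_of_norm hp
            (by rw [Pool.Agent.Y772.SL.absNorm_smul', hP]))]
        simp [Nat.card_eq_fintype_card]
      simp only [chr68]
      rw [Set.indicator_of_mem hmem, o1, IsGalois.card_aut_eq_finrank ℚ K, mul_one]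
      simp [hn]
    · have hnm : p ∉ T := fun h => hpT h.1
      simp only [chr68]
      rw [Set.indicator_of_notMem hnm, Pool.Agent.Y772.NZ.cc_zero_of_not hp (hv p hp) hpT]
      simp

end Pool.Agent.NH12.GL
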