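import Pool.Agent.NH12.GL.Tw5

/-!
# Families of twists shifted by `i t₀` (module 17, helper17)
-/

set_option autoImplicit false

namespace Pool.Agent.NH12.GL

open Finset Filter Topology Complex MeasureTheory
open Pool.Agent.R399.TW Pool.Agent.R399.TM Pool.Agent.NH12.NV
open ArithmeticFunction (vonMangoldt)
open scoped ComplexConjugate

namespace Shf

lemma norm_cp_le {x : ℝ} (hx : 0 ≤ x) (t₀ : ℝ) : ‖(x : ℂ) ^ (-((t₀ : ℂ) * I))‖ ≤ 1 := by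
  rcases hx.eq_or_lt with h | h
  · rw [← h, Complex.ofReal_zero]
    by_cases h0 : (-((t₀ : ℂ) * I)) = 0
    · rw [h0, Complex.cpow_zero, norm_one]
    · rw [Complex.zero_cpow h0, norm_zero]
      exact zero_le_one
  · rw [Complex.norm_cpow_eq_rpow_re_of_pos h]
    have : (-((t₀ : ℂ) * I)).re = 0 := by simp
    rw [this, Real.rpow_zero]

lemma norm_cp_nat (n : ℕ) (t₀ : ℝ) : ‖(n : ℂ) ^ (-((t₀ : ℂ) * I))‖ ≤ 1 := by
  have := norm_cp_le (x := (n : ℝ)) (Nat.cast_nonneg n) t₀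
  simpa using this

lemma pt_shift (x t t₀ : ℝ) : pt x t + (t₀ : ℂ) * I = pt x (t + t₀) := by
  unfold pt
  push_cast
  ring

lemma re_shift (z : ℂ) (t₀ : ℝ) : (z + (t₀ : ℂ) * I).re = z.re := by simp

lemma im_shift (z : ℂ) (t₀ : ℝ) : (z + (t₀ : ℂ) * I).im = z.im + t₀ := by simp

lemma strip_shift {a b : ℝ} {z : ℂ} (hz : z ∈ strip a b) (t₀ : ℝ) :
    z + (t₀ : ℂ) * I ∈ strip a b := by
  unfold strip at hz ⊢
  rw [Set.mem_setOf_eq] at hz ⊢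
  rwa [re_shift]

lemma gr_shift {f : ℂ → ℂ} {a b : ℝ}
    (h : ∃ A C : ℝ, ∀ z ∈ strip a b, ‖f z‖ ≤ C * Real.exp (A * |z.im|)) (t₀ : ℝ) :
    ∃ A C : ℝ, ∀ z ∈ strip a b, ‖f (z + (t₀ : ℂ) * I)‖ ≤ C * Real.exp (A * |z.im|) := by
  obtain ⟨A, C, hC⟩ := h
  refine ⟨|A|, |C| * Real.exp (|A| * |t₀|), fun z hz => ?_⟩
  have h1 := hC _ (strip_shift hz t₀)
  rw [im_shift] at h1
  refine h1.trans ?_
  rw [mul_assoc, ← Real.exp_add]
  refine mul_le_mul (le_abs_self C) (Real.exp_le_exp.2 ?_) (Real.exp_pos _).le (abs_nonneg C)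
  calc A * |z.im + t₀| ≤ |A| * |z.im + t₀| :=
        mul_le_mul_of_nonneg_right (le_abs_self A) (abs_nonneg _)
    _ ≤ |A| * (|z.im| + |t₀|) := mul_le_mul_of_nonneg_left (abs_add_le _ _) (abs_nonneg A)
    _ = _ := by ring

lemma rfl1_shift (F : ℂ → ℂ) (z : ℂ) (t₀ : ℝ) :
    rfl1 (fun s => F (s + (t₀ : ℂ) * I)) z = rfl1 F (z + (t₀ : ℂ) * I) := by
  unfold rfl1
  have h : 1 - conj z + (t₀ : ℂ) * I = 1 - conj (z + (t₀ : ℂ) * I) := by
    rw [map_add, map_mul, conj_I, conj_ofReal]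
    ring
  simp only [h]

lemma eps_shift {R V : ℝ} {m : ℕ} {F ε : ℂ → ℂ} (hR : 0 ≤ R) (hV : 0 ≤ V) (h : Eps R V m F ε)
    (t₀ : ℝ) : Eps R (V * (1 + |t₀|)) m (fun s => F (s + (t₀ : ℂ) * I))
      (fun s => ε (s + (t₀ : ℂ) * I)) where
  cont := h.cont.comp (by fun_prop) fun z hz => strip_shift hz t₀
  diff := by
    refine h.diff.comp (by fun_prop) fun z hz => ?_
    rw [Set.mem_setOf_eq] at hz ⊢
    rwa [re_shift]
  gr := gr_shift h.gr t₀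
  mid := fun t => by
    simp only [pt_shift]
    exact h.mid _
  left := fun t => by
    simp only [pt_shift]
    refine (h.left _).trans ?_
    refine mul_le_mul_of_nonneg_left (pow_le_pow_left₀ (by positivity) ?_ m) hR
    rw [mul_assoc]
    refine mul_le_mul_of_nonneg_left ?_ hV
    have h1 := abs_add_le t t₀
    have h2 : 0 ≤ |t₀| * |t| := by positivity
    linarith
  fe := fun t => by
    simp only [pt_shift, rfl1_shift]
    exact h.fe _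

lemma E_shift (c : ℕ → ℂ) (t₀ : ℝ) (n : ℕ) :
    E (fun n => c n * (n : ℂ) ^ (-((t₀ : ℂ) * I))) n = (n : ℂ) ^ (-((t₀ : ℂ) * I)) * E c n := by
  rw [E_twist c (fun n : ℕ => (n : ℂ) ^ (-((t₀ : ℂ) * I))) (by simp) (fun a b => by
    push_cast
    exact Complex.natCast_mul_natCast_cpow a b _)]
  congr 1
  funext k
  ring

lemma ser_shift (c ψ : ℕ → ℂ) (t₀ : ℝ) (s : ℂ) : LSeries (tw ψ (E c)) (s + (t₀ : ℂ) * I) =
    LSeries (tw ψ (E (fun n => c n * (n : ℂ) ^ (-((t₀ : ℂ) * I))))) s := by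
  unfold LSeries
  congr 1
  funext n
  rcases eq_or_ne n 0 with hn | hn
  · rw [hn, LSeries.term_zero, LSeries.term_zero]
  · rw [LSeries.term_of_ne_zero hn, LSeries.term_of_ne_zero hn]
    unfold tw
    rw [E_shift]
    have hn' : (n : ℂ) ≠ 0 := by exact_mod_cast hn
    rw [Complex.cpow_add _ _ hn', Complex.cpow_neg]
    have h1 : (n : ℂ) ^ s ≠ 0 := fun h => hn' ((Complex.cpow_eq_zero_iff _ _).1 h).1
    have h2 : (n : ℂ) ^ ((t₀ : ℂ) * I) ≠ 0 := fun h => hn' ((Complex.cpow_eq_zero_iff _ _).1 h).1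
    field_simp

lemma mem_shift {c ψ : ℕ → ℂ} {R V : ℝ} {m : ℕ} {F : ℂ → ℂ} (hR : 0 ≤ R) (hV : 0 ≤ V)
    (h : Mem c R V m ψ F) (t₀ : ℝ) :
    Mem (fun n => c n * (n : ℂ) ^ (-((t₀ : ℂ) * I))) R (V * (1 + |t₀|)) m ψ
      (fun s => F (s + (t₀ : ℂ) * I)) where
  mul := h.mul
  one := h.one
  le := h.le
  diff := h.diff.comp (by fun_prop)
  ser := fun s hs => by
    rw [h.ser _ (by rwa [re_shift]), ser_shift]
  gr := gr_shift h.gr t₀
  fe := by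
    obtain ⟨ε, hε⟩ := h.fe
    exact ⟨_, eps_shift hR hV hε t₀⟩

end Shf

open Shf in
/-- **module 17**: a family shifted by `i t₀` -/
theorem t_shift : S_shift := by
  intro m Pr N e R V S c F ep g b u v M h t₀
  have hR := h.R_pos
  refine ⟨V * (1 + |t₀|), fun q χ z => ep q χ (z + (t₀ : ℂ) * I), fun z => g (z + (t₀ : ℂ) * I),
    fun p r => b p r * ((R * ((p * r : ℕ) : ℝ) ^ m : ℝ) : ℂ) ^ (-((t₀ : ℂ) * I)), ?_⟩
  refine ⟨h.R_pos, by have := h.V_nn; positivity, h.S_nn, ?_, ?_, ?_, ?_, ?_, h.u_le,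
    gr_shift h.g_gr t₀⟩
  · have h1 := h.lin.twist (ψ := fun n : ℕ => (n : ℂ) ^ (-((t₀ : ℂ) * I)))
      (fun n => norm_cp_nat n t₀)
    have h2 : (fun n : ℕ => (n : ℂ) ^ (-((t₀ : ℂ) * I)) * c n) =
      fun n : ℕ => c n * (n : ℂ) ^ (-((t₀ : ℂ) * I)) := by
      funext n
      ring
    rwa [h2] at h1
  · intro σ h1 h2 N'
    refine le_trans (Finset.sum_le_sum fun n _ => ?_) (h.sq σ h1 h2 N')
    have h3 := norm_cp_nat n t₀
    have h4 : ‖c n * (n : ℂ) ^ (-((t₀ : ℂ) * I))‖ ≤ ‖c n‖ := by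
      rw [norm_mul]
      exact mul_le_of_le_one_right (norm_nonneg _) h3
    have h5 : (0 : ℝ) ≤ vonMangoldt n := ArithmeticFunction.vonMangoldt_nonneg
    have h6 : (0 : ℝ) ≤ (n : ℝ) ^ (-σ) := by positivity
    gcongr
  · intro q χ hq hc hχ
    exact mem_shift (by positivity) h.V_nn (h.mem q χ hq hc hχ) t₀
  · intro p r _ _ χ₁ χ₂ hr hp hpp hpr hN h1 h2 he
    obtain ⟨k1, k2⟩ := h.eps p r χ₁ χ₂ hr hp hpp hpr hN h1 h2 he
    refine ⟨eps_shift (by positivity) h.V_nn k1 t₀, fun z => ?_⟩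
    rw [k2]
    have hX : (0 : ℝ) < R * ((p * r : ℕ) : ℝ) ^ m := by
      have h3 : 0 < p * r := Nat.mul_pos hpp.pos (by omega)
      have h4 : (0 : ℝ) < ((p * r : ℕ) : ℝ) := by exact_mod_cast h3
      positivity
    have hXc : ((R * ((p * r : ℕ) : ℝ) ^ m : ℝ) : ℂ) ≠ 0 := Complex.ofReal_ne_zero.2 hX.ne'
    have e1 : ((R * ((p * r : ℕ) : ℝ) ^ m : ℝ) : ℂ) ^ (1 / 2 - (z + (t₀ : ℂ) * I)) =
        ((R * ((p * r : ℕ) : ℝ) ^ m : ℝ) : ℂ) ^ (1 / 2 - z) *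
          ((R * ((p * r : ℕ) : ℝ) ^ m : ℝ) : ℂ) ^ (-((t₀ : ℂ) * I)) := by
      rw [← Complex.cpow_add _ _ hXc]
      congr 1
      ring
    rw [e1]
    ring
  · intro p r
    rw [norm_mul]
    refine mul_le_one₀ (h.b_le p r) (norm_nonneg _) (norm_cp_le ?_ t₀)
    positivity

end Pool.Agent.NH12.GL
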