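import Pool.Agent.NH12.GL.Tw4

/-!
# The mean square of the coefficients; the Rankin-Selberg limit for Hecke characters

(jobs GL14, GL15, helper68)
-/

set_option autoImplicit false

namespace Pool.Agent.NH12.GL

open Finset Filter Topology Complex MeasureTheory NumberField
open ArithmeticFunction (vonMangoldt)
open Pool.Agent.R399.TW Pool.Agent.R399.TM Pool.Agent.NH12.NV
open Pool.Agent.Y767 (IsHecke)
open Pool.Agent.Y773 (LI cc)
open Pool.Agent.Y772.SL (av av_congr)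
open scoped ComplexConjugate

/-- the bound near `σ = 1`, with an additional constant -/
lemma fin_log68 {κ : ℕ → ℝ} (h : ∀ n, 0 ≤ κ n) {C B : ℝ} (hB : 0 ≤ B)
    (hS : ∀ σ : ℝ, 1 < σ → σ ≤ 2 → ∀ N : ℕ,
      ∑ n ∈ Icc 2 N, vonMangoldt n * κ n * (n : ℝ) ^ (-σ) ≤ C / (σ - 1) + B)
    (N : ℕ) {θ : ℝ} (hθ : 0 < θ) (hθ1 : θ ≤ 1) :
    ∑ n ∈ Icc 2 N, vonMangoldt n / Real.log n * κ n * (n : ℝ) ^ (-(1 + θ)) ≤
      C * Real.log (1 / θ) + (2 * C + 3 * B) := by
  set G : ℝ → ℝ := fun σ => ∑ n ∈ Icc 2 N, vonMangoldt n / Real.log n * κ n * (n : ℝ) ^ (-σ)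
    with hG
  set S : ℝ → ℝ := fun σ => ∑ n ∈ Icc 2 N, vonMangoldt n * κ n * (n : ℝ) ^ (-σ) with hSd
  have hG' : ∀ σ, HasDerivAt G (-S σ) σ := by
    intro σ
    rw [hG, hSd, ← Finset.sum_neg_distrib]
    refine HasDerivAt.fun_sum fun n hn => ?_
    rw [mem_Icc] at hn
    have hl : Real.log n ≠ 0 := (Real.log_pos (by exact_mod_cast (show 1 < n by omega))).ne'
    exact ((hasDerivAt_rp (n := n) (by omega) σ).const_mul
      (vonMangoldt n / Real.log n * κ n)).congr_deriv (by field_simp)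
  have hmono : MonotoneOn (fun σ => G σ + (C * Real.log (σ - 1) + B * σ)) (Set.Icc (1 + θ) 2) := by
    have hd : ∀ σ : ℝ, 1 < σ → HasDerivAt (fun σ => G σ + (C * Real.log (σ - 1) + B * σ))
        (-S σ + (C * (1 / (σ - 1)) + B * 1)) σ := by
      intro σ hσ
      refine (hG' σ).add ((HasDerivAt.const_mul C ?_).add (HasDerivAt.const_mul B ?_))
      · exact ((hasDerivAt_id σ).sub_const 1).log (by simp only [id]; linarith)
      · exact hasDerivAt_id σ
    refine monotoneOn_of_deriv_nonneg (convex_Icc _ _) ?_ ?_ ?_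
    · intro σ hσ
      exact (hd σ (by linarith [hσ.1])).continuousAt.continuousWithinAt
    · intro σ hσ
      rw [interior_Icc] at hσ
      exact (hd σ (by linarith [hσ.1])).differentiableAt.differentiableWithinAt
    · intro σ hσ
      rw [interior_Icc] at hσ
      rw [(hd σ (by linarith [hσ.1])).deriv]
      have := hS σ (by linarith [hσ.1]) hσ.2.le N
      have e : C * (1 / (σ - 1)) = C / (σ - 1) := by ring
      rw [e]
      linarith
  have h1 := hmono (Set.left_mem_Icc.2 (by linarith)) (Set.right_mem_Icc.2 (by linarith))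
    (by linarith)
  simp only [add_sub_cancel_left] at h1
  have h2 : (2 : ℝ) - 1 = 1 := by norm_num
  rw [h2, Real.log_one, mul_zero, zero_add] at h1
  have h3 : G 2 ≤ 2 * (C + B) := by
    have h4 : G 2 ≤ 2 * S 2 := by
      rw [hG, hSd]
      simp only
      rw [Finset.mul_sum]
      refine Finset.sum_le_sum fun n hn => ?_
      rw [mem_Icc] at hn
      have hl : Real.log 2 ≤ Real.log n := Real.log_le_log (by norm_num) (by exact_mod_cast hn.1)
      have hl2 := Real.log_two_gt_d9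
      have e1 : vonMangoldt n / Real.log n ≤ 2 * vonMangoldt n := by
        rw [div_le_iff₀ (by linarith)]
        nlinarith [vm_nn n]
      have e2 : 0 ≤ κ n * (n : ℝ) ^ (-(2 : ℝ)) := mul_nonneg (h n) (by positivity)
      nlinarith
    have h5 := hS 2 (by norm_num) le_rfl N
    have e : C / (2 - 1) = C := by norm_num
    rw [e] at h5
    linarith
  have h6 : Real.log (1 / θ) = -Real.log θ := by rw [one_div, Real.log_inv]
  rw [h6]
  have h7 : 0 ≤ B * θ := mul_nonneg hB hθ.le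
  linarith

/-- **module 14** -/
theorem t_sqa : S_sqa := by
  rintro c ⟨hS, hL⟩
  have h1 : ∀ᶠ σ in 𝓝[>] (1 : ℝ), (σ - 1) * ∑' n : ℕ, vonMangoldt n * ‖c n‖ ^ 2 *
      (n : ℝ) ^ (-σ) < 2 := hL.eventually (gt_mem_nhds (by norm_num))
  obtain ⟨u, hu, hu2⟩ := (mem_nhdsGT_iff_exists_Ioo_subset).1 h1
  have hu1 : (1 : ℝ) < u := hu
  set v : ℝ := (1 + u) / 2 with hv
  have hv1 : 1 < v := by rw [hv]; linarith
  have hvu : v < u := by rw [hv]; linarith
  set B : ℝ := ∑' n : ℕ, vonMangoldt n * ‖c n‖ ^ 2 * (n : ℝ) ^ (-v) with hB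
  have hB0 : 0 ≤ B := tsum_nonneg fun n => by
    have := vm_nn n
    positivity
  have hfin : ∀ (N : ℕ) (σ' : ℝ), 1 < σ' → ∑ n ∈ Icc 2 N, vonMangoldt n * ‖c n‖ ^ 2 *
      (n : ℝ) ^ (-σ') ≤ ∑' n : ℕ, vonMangoldt n * ‖c n‖ ^ 2 * (n : ℝ) ^ (-σ') := by
    intro N σ' h4
    exact (hS σ' h4).sum_le_tsum (Icc 2 N) (fun n _ => by
      have := vm_nn n
      positivity)
  have hSb : ∀ σ : ℝ, 1 < σ → σ ≤ 2 → ∀ N : ℕ,
      ∑ n ∈ Icc 2 N, vonMangoldt n * ‖c n‖ ^ 2 * (n : ℝ) ^ (-σ) ≤ 2 / (σ - 1) + B := by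
    intro σ h2 h3 N
    have hσ1 : 0 < σ - 1 := by linarith
    rcases lt_or_ge σ u with h | h
    · have h4 := hu2 ⟨h2, h⟩
      simp only [Set.mem_ofPred_eq] at h4
      have h5 := hfin N σ h2
      have h6 : ∑ n ∈ Icc 2 N, vonMangoldt n * ‖c n‖ ^ 2 * (n : ℝ) ^ (-σ) ≤ 2 / (σ - 1) := by
        rw [le_div_iff₀ hσ1]
        nlinarith
      linarith
    · have h5 : ∑ n ∈ Icc 2 N, vonMangoldt n * ‖c n‖ ^ 2 * (n : ℝ) ^ (-σ) ≤
          ∑ n ∈ Icc 2 N, vonMangoldt n * ‖c n‖ ^ 2 * (n : ℝ) ^ (-v) := by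
        refine Finset.sum_le_sum fun n hn => ?_
        rw [mem_Icc] at hn
        have h6 : (1 : ℝ) ≤ n := by exact_mod_cast (show 1 ≤ n by omega)
        have := vm_nn n
        exact mul_le_mul_of_nonneg_left (Real.rpow_le_rpow_of_exponent_le h6 (by linarith))
          (by positivity)
      have h6 := hfin N v hv1
      have h7 : 0 ≤ 2 / (σ - 1) := by positivity
      linarith
  refine ⟨Real.exp 1 * Real.exp (2 * 2 + 3 * B), by positivity, fun K hK => ?_⟩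
  have hK1 : (1 : ℝ) ≤ K := by exact_mod_cast hK
  have hK0 : (0 : ℝ) < K := by linarith
  have hlK : 0 ≤ Real.log K := Real.log_nonneg hK1
  set θ : ℝ := 1 / (1 + Real.log K) with hθ
  have hθ0 : 0 < θ := by rw [hθ]; positivity
  have hθ1 : θ ≤ 1 := by
    rw [hθ, div_le_one (by linarith)]
    linarith
  have hG := fin_log68 (κ := fun n => ‖c n‖ ^ 2) (fun n => by positivity) hB0 hSb K hθ0 hθ1
  have hE := fin_exp (κ := fun n => ‖c n‖ ^ 2) (fun n => by positivity) K (1 + θ)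
  have hterm : ∀ k ∈ Icc 1 K, E (fun n => ‖c n‖) k ^ 2 / k ≤
      Real.exp 1 * (E (fun n => ‖c n‖ ^ 2) k * (k : ℝ) ^ (-(1 + θ))) := by
    intro k hk
    rw [mem_Icc] at hk
    have hk0 : (0 : ℝ) < k := by exact_mod_cast (show 0 < k by omega)
    have hk1 : (1 : ℝ) ≤ k := by exact_mod_cast hk.1
    have hkK : (k : ℝ) ≤ K := by exact_mod_cast hk.2
    have h3 := norm_E_sq_le (𝕜 := ℝ) (fun n => ‖c n‖) k
    simp only [norm_norm] at h3
    rw [Real.norm_eq_abs, sq_abs] at h3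
    have h4 : (k : ℝ)⁻¹ = (k : ℝ) ^ θ * (k : ℝ) ^ (-(1 + θ)) := by
      rw [← Real.rpow_add hk0, ← Real.rpow_neg_one]
      congr 1
      ring
    have h5 : (k : ℝ) ^ θ ≤ Real.exp 1 := by
      calc (k : ℝ) ^ θ ≤ (K : ℝ) ^ θ := Real.rpow_le_rpow hk0.le hkK hθ0.le
        _ = Real.exp (Real.log K * θ) := by rw [Real.rpow_def_of_pos hK0]
        _ ≤ Real.exp 1 := by
          refine Real.exp_le_exp.2 ?_
          rw [hθ, mul_one_div, div_le_one (by linarith)]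
          linarith
    have h6 : 0 ≤ E (fun n => ‖c n‖ ^ 2) k := E_nonneg (fun n => by positivity) k
    rw [div_eq_mul_inv, h4]
    calc E (fun n => ‖c n‖) k ^ 2 * ((k : ℝ) ^ θ * (k : ℝ) ^ (-(1 + θ)))
        ≤ E (fun n => ‖c n‖ ^ 2) k * (Real.exp 1 * (k : ℝ) ^ (-(1 + θ))) := by gcongr
      _ = _ := by ring
  calc ∑ k ∈ Icc 1 K, E (fun n => ‖c n‖) k ^ 2 / k
      ≤ ∑ k ∈ Icc 1 K, Real.exp 1 * (E (fun n => ‖c n‖ ^ 2) k * (k : ℝ) ^ (-(1 + θ))) :=
        Finset.sum_le_sum hterm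
    _ = Real.exp 1 * ∑ k ∈ Icc 1 K, E (fun n => ‖c n‖ ^ 2) k * (k : ℝ) ^ (-(1 + θ)) := by
        rw [Finset.mul_sum]
    _ ≤ Real.exp 1 * Real.exp (2 * Real.log (1 / θ) + (2 * 2 + 3 * B)) := by
        refine mul_le_mul_of_nonneg_left ?_ (Real.exp_pos _).le
        exact hE.trans (Real.exp_le_exp.2 hG)
    _ = Real.exp 1 * Real.exp (2 * 2 + 3 * B) * (1 + Real.log K) ^ (2 * 1) := by
        have h8 : 1 / θ = 1 + Real.log K := by
          rw [hθ, one_div_one_div]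
        have h9 : Real.exp (2 * Real.log (1 + Real.log K)) = (1 + Real.log K) ^ (2 * 1) := by
          rw [mul_one, two_mul, Real.exp_add, Real.exp_log (by linarith)]
          ring
        rw [h8, Real.exp_add, h9]
        ring

/-- **module 15** -/
theorem t_rsh : S_rsh := by
  intro K _ _ _ hd 𝔣 ν ψ hψ hν p P P' hp hpf hP hP' hne
  obtain ⟨⟨u, A, S, hu, hS, hlim⟩, -⟩ :=
    Pool.Agent.Y772.HI.sel_tot hd hν hψ.toIsHM hp hpf hP hP' hne
  obtain ⟨A₀, hA₀, hD⟩ := Pool.Agent.Y772.DK.t_dirK K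
  obtain ⟨-, -, -, -, -, -, b1, -, -, -, -⟩ := hD ψ (Pool.Agent.Y772.HI.hm_norm_le hψ.toIsHM)
  have hc2 : ∀ n, |‖cc ψ n‖ ^ 2| ≤ (Module.finrank ℚ K : ℝ) ^ 2 := fun n => by
    rw [abs_of_nonneg (sq_nonneg _)]
    exact pow_le_pow_left₀ (norm_nonneg _) (b1 n) 2
  have hlim' := av_congr hc2 hu S hS hlim
  have hconv : ∀ (σ : ℝ) (n : ℕ), ‖cc ψ n‖ ^ 2 * vonMangoldt n * (n : ℝ) ^ (-(1 + (σ - 1))) =
      vonMangoldt n * ‖cc ψ n‖ ^ 2 * (n : ℝ) ^ (-σ) := by
    intro σ n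
    rw [show -(1 + (σ - 1)) = -σ by ring]
    ring
  refine ⟨fun σ hσ => ?_, ?_⟩
  · exact (Pool.Agent.Y772.NV.summable_bdd (by linarith : 0 < σ - 1) _ _ hc2).congr (hconv σ)
  · have h1 : Tendsto (fun σ : ℝ => σ - 1) (𝓝[>] 1) (𝓝[>] 0) := by
      refine tendsto_nhdsWithin_iff.2 ⟨?_, ?_⟩
      · have : Continuous fun σ : ℝ => σ - 1 := by fun_prop
        have h2 := this.tendsto 1
        rw [sub_self] at h2
        exact h2.mono_left nhdsWithin_le_nhds
      · filter_upwards [self_mem_nhdsWithin] with σ hσ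
        have : (1 : ℝ) < σ := hσ
        exact Set.mem_Ioi.2 (by linarith)
    refine (hlim'.comp h1).congr fun σ => ?_
    simp only [Function.comp]
    unfold av
    rw [tsum_congr (hconv σ)]

end Pool.Agent.NH12.GL
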