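import Pool.Agent.NH12.GL.Main3
import Pool.Agent.NH12.GL.Sqa
import Pool.Agent.NH12.GL.Shift
import Pool.Agent.NH12.GL.Dens

/-!
# Cuspidal data of degree three
-/

set_option autoImplicit false

namespace Pool.Agent.NH12.GL

open Finset Filter Topology Complex MeasureTheory NumberField
open Pool.Agent.R399.TW Pool.Agent.R399.TM Pool.Agent.NH12.NV
open Pool.Agent.Y767.CA (CD cf)
open scoped ComplexConjugate

theorem dens_univ : Dens Set.univ := by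
  have h := t_dens 1 le_rfl
  have e : {p : ℕ | p ≡ 1 [MOD 1]} = Set.univ := by
    ext p
    simp [Nat.modEq_one]
  rwa [e] at h

/-- **the theorem for cuspidal data of degree three** -/
theorem cusp3 (hcd : S_cd) (D : CD 3) (ω : DirichletCharacter ℂ D.N) (w₀ : ℂ → ℂ)
    (h1 : ‖w₀ 1‖ = 1) (h2 : ‖w₀ (-1)‖ = 1)
    (hfe : ∀ (q : ℕ) [NeZero q] (χ : DirichletCharacter ℂ q), 2 ≤ q → Nat.Coprime q D.N →
      χ.IsPrimitive → ∀ s : ℂ, D.Λ q χ (1 - s) =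
        (w₀ (χ (-1)) * ω (q : ZMod D.N) * χ ((D.N : ℕ) : ZMod q) *
          (gs χ ^ 3 / (((q : ℝ) ^ (3 / 2 : ℝ) : ℝ) : ℂ))) * conj (D.Λ q χ (conj s)))
    (e : ℂ) (he : e = 1 ∨ e = -1) (t₀ : ℝ) :
    ∃ (c₂ κ : ℝ) (Q₀ : ℕ), 0 < c₂ ∧ 0 < κ ∧ ∀ Q : ℕ, Q₀ ≤ Q → c₂ * (Q : ℝ) ^ 2 ≤
        (count D.N Q (fun q χ => χ (-1) = e ∧
          κ / Real.log Q ≤ ‖D.F q χ (1 / 2 + t₀ * I)‖ ∧
          ∀ s : ℂ, ‖s - (1 / 2 + t₀ * I)‖ ≤ κ / Real.log Q → D.F q χ s ≠ 0) : ℝ) := by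
  obtain ⟨CA, hCA, hA⟩ := t_sqa (cf D.α) ⟨D.rs_sum, D.rs_lim⟩
  obtain ⟨V, S, ep, g, b, u, v, M, hT⟩ := hcd 3 D ω w₀ h1 h2 (by
    push_cast
    exact hfe) e he D.N dvd_rfl
  obtain ⟨c₂, κ, Q₀, h1, h2, h3⟩ := pos3t t_shift (Nat.one_le_iff_ne_zero.1 D.N_pos) he
    dens_univ hT hCA hA t₀
  refine ⟨c₂, κ, Q₀, h1, h2, fun Q hQ => (h3 Q hQ).trans ?_⟩
  refine Pool.Agent.R399.TM.count_mono (dvd_refl _) ?_
  rintro q χ hq hqN hχ ⟨g1, g2, g3⟩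
  rw [pow_one] at g2
  exact ⟨g1, g2, g3⟩

end Pool.Agent.NH12.GL
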