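import Pool.Agent.NH12.GL.Tw
import Pool.Agent.H370R2.DirGood
import Pool.Agent.Helper112.MultLS

/-!
# Dirichlet `L`-functions as a family of twists with explicit root numbers
-/

set_option autoImplicit false

namespace Pool.Agent.NH12.GL

open Finset Filter Topology Complex MeasureTheory
open Pool.Agent.R399.TW Pool.Agent.R399.TM Pool.Agent.NH12.NV
open Pool.Agent.Y767.CA (GGc FEc cj Gd LX GGc_ne conj_GGc norm_LX inv_GGc_le)
open H370.DL (aa XX func_eq norm_sum_Icc_le L_integral J_bound)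
open scoped ComplexConjugate
open ArithmeticFunction (vonMangoldt)

lemma E_one_c {n : ℕ} (hn : n ≠ 0) : E (fun _ => (1 : ℂ)) n = 1 := by
  have h := E_unique (fun _ => (1 : ℂ)) (f := fun n : ℕ => if n = 0 then (0 : ℂ) else 1)
    (by simp) (by simp) (fun k => ?_) n
  · rw [← h, if_neg hn]
  · rcases eq_or_ne k 0 with rfl | hk
    · simp
    · simp only [if_neg hk, one_mul]
      have h2 : ∑ p ∈ k.divisorsAntidiagonal, ((vonMangoldt p.1 : ℝ) : ℂ) * 1 *
          (if p.2 = 0 then (0 : ℂ) else 1) =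
          ∑ p ∈ k.divisorsAntidiagonal, ((vonMangoldt p.1 : ℝ) : ℂ) := by
        refine Finset.sum_congr rfl fun p hp => ?_
        rw [Nat.mem_divisorsAntidiagonal] at hp
        have h5 : p.2 ≠ 0 := fun h5 => by rw [h5, mul_zero] at hp; exact hp.2 hp.1.symm
        rw [if_neg h5, mul_one, mul_one]
      have h3 := ArithmeticFunction.vonMangoldt_sum (n := k)
      rw [← Nat.sum_divisorsAntidiagonal (fun a _ => vonMangoldt a)] at h3
      rw [← h3]
      push_cast
      exact h2.symm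

lemma ne_one_of_prim {q : ℕ} {χ : DirichletCharacter ℂ q} (hq : 2 ≤ q) (hχ : χ.IsPrimitive) :
    χ ≠ 1 := by
  rintro rfl
  have : NeZero q := ⟨by omega⟩
  have h1 : (1 : DirichletCharacter ℂ q).conductor = q := hχ
  rw [DirichletCharacter.conductor_one] at h1
  omega

lemma norm_gs {q : ℕ} [NeZero q] {χ : DirichletCharacter ℂ q} (hχ : χ.IsPrimitive) :
    ‖gs χ‖ = Real.sqrt q := by
  have h1 := Pool.Agent.Helper112.MLS.norm_gauss q hχ
  rw [← h1, Real.sqrt_sq (norm_nonneg _)]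
  rfl

lemma sqrt_eq (n : ℕ) : (n : ℂ) ^ (1 / 2 : ℂ) = ((Real.sqrt n : ℝ) : ℂ) := by
  rw [Real.sqrt_eq_rpow, Complex.ofReal_cpow (Nat.cast_nonneg n)]
  push_cast
  rfl

/-- the factor `i^a` -/
noncomputable def ia (e : ℂ) : ℂ := by
  classical
  exact if e = 1 then 1 else I

lemma norm_ia (e : ℂ) : ‖ia e‖ = 1 := by
  unfold ia
  split_ifs <;> simp

/-- the shift -/
noncomputable def sh (e : ℂ) : ℂ := by
  classical
  exact if e = 1 then 0 else 1

lemma root_eq {q : ℕ} [NeZero q] (χ : DirichletCharacter ℂ q) :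
    DirichletCharacter.rootNumber χ = gs χ / ia (χ (-1)) / ((Real.sqrt q : ℝ) : ℂ) := by
  unfold DirichletCharacter.rootNumber ia gs
  rw [sqrt_eq]
  congr 2
  by_cases h : χ.Even
  · have h1 : χ (-1) = 1 := h
    simp [h, h1]
  · have h1 : ¬ χ (-1) = 1 := h
    simp [h, h1]

lemma aa_eq {q : ℕ} [NeZero q] (χ : DirichletCharacter ℂ q) : aa χ = sh (χ (-1)) := by
  unfold aa sh
  by_cases h : χ.Even
  · have h1 : χ (-1) = 1 := h
    simp [h, h1]
  · have h1 : ¬ χ (-1) = 1 := h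
    simp [h, h1]

lemma norm_root {q : ℕ} [NeZero q] {χ : DirichletCharacter ℂ q} (hχ : χ.IsPrimitive) :
    ‖DirichletCharacter.rootNumber χ‖ = 1 := by
  have hq : (0 : ℝ) < Real.sqrt q := Real.sqrt_pos.2 (by exact_mod_cast NeZero.pos q)
  rw [root_eq, norm_div, norm_div, norm_ia, norm_gs hχ, Complex.norm_real, Real.norm_of_nonneg
    hq.le, div_one, div_self hq.ne']

/-- the shifts -/
noncomputable def mu1 (e : ℂ) : Fin 1 → ℂ := fun _ => sh e

lemma sh_cases (e : ℂ) : sh e = 0 ∨ sh e = 1 := by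
  unfold sh
  split_ifs
  · exact Or.inl rfl
  · exact Or.inr rfl

lemma mu1_re (e : ℂ) (i : Fin 1) : -1 / 2 < (mu1 e i).re := by
  unfold mu1
  rcases sh_cases e with h | h <;> rw [h] <;> norm_num

lemma mu1_le (e : ℂ) (i : Fin 1) : ‖mu1 e i‖ + 3 ≤ 4 := by
  unfold mu1
  rcases sh_cases e with h | h <;> rw [h] <;> norm_num

lemma cj_mu1 (e : ℂ) : cj (mu1 e) = mu1 e := by
  funext i
  unfold cj mu1
  rcases sh_cases e with h | h <;> rw [h] <;> simp

lemma fe_LX {q : ℕ} [NeZero q] {χ : DirichletCharacter ℂ q} (hχ : χ.IsPrimitive) (z : ℂ)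
    (hz : Gd (mu1 (χ (-1))) z) : DirichletCharacter.LFunction χ z =
      LX (DirichletCharacter.rootNumber χ) (q : ℝ) (mu1 (χ (-1))) z *
        rfl1 (DirichletCharacter.LFunction χ) z := by
  have hq0 : (0 : ℝ) < q := by exact_mod_cast NeZero.pos q
  have him : z.im ≠ 0 := by
    have := hz 0
    unfold mu1 at this
    rcases sh_cases (χ (-1)) with h | h <;> rw [h] at this <;> simpa using this
  rw [func_eq hχ him, LX_eq hq0]
  unfold XX gq
  rw [cj_mu1, Fin.prod_univ_one, aa_eq]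
  unfold mu1 H370.DL.refl rfl1
  push_cast
  ring

lemma dir_growth {q : ℕ} [NeZero q] {χ : DirichletCharacter ℂ q} (hq : 2 ≤ q)
    (hχ : χ.IsPrimitive) {ε : ℂ → ℂ}
    (hε : ∃ A C : ℝ, ∀ z ∈ strip (-1 / 2) (1 / 2), ‖ε z‖ ≤ C * Real.exp (A * |z.im|))
    (hfe : ∀ z, Gd (mu1 (χ (-1))) z → DirichletCharacter.LFunction χ z =
      ε z * rfl1 (DirichletCharacter.LFunction χ) z) :
    ∃ A C : ℝ, ∀ z ∈ strip (-1 / 2) 2,
      ‖DirichletCharacter.LFunction χ z‖ ≤ C * Real.exp (A * |z.im|) := by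
  have h1 := ne_one_of_prim hq hχ
  have hd := DirichletCharacter.differentiable_LFunction h1
  have hright : ∀ z : ℂ, 1 / 2 ≤ z.re → z.re ≤ 2 →
      ‖DirichletCharacter.LFunction χ z‖ ≤ 4 * (q + 1) * Real.exp (1 * |z.im|) := by
    intro z hz1 hz2
    have hA : ∀ u : ℝ, ‖∑ k ∈ Finset.Icc 1 ⌊u⌋₊, χ (k : ZMod q)‖ ≤ (q + 1 : ℝ) :=
      fun u => norm_sum_Icc_le h1 _
    rw [L_integral h1 (by linarith), norm_mul]
    have h2 := J_bound hA (s := z) (by linarith)
    have h3 : ‖z‖ ≤ 2 * Real.exp (1 * |z.im|) := by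
      refine (norm_le_abs_re_add_abs_im z).trans ?_
      rw [abs_of_nonneg (by linarith : 0 ≤ z.re), one_mul]
      have := Real.add_one_le_exp |z.im|
      have h0 := abs_nonneg z.im
      linarith
    have h4 : ((q : ℝ) + 1) / z.re ≤ 2 * (q + 1) := by
      rw [div_le_iff₀ (by linarith)]
      have : (0 : ℝ) ≤ q := Nat.cast_nonneg q
      nlinarith
    calc _ ≤ (2 * Real.exp (1 * |z.im|)) * (2 * (q + 1)) :=
          mul_le_mul h3 (h2.trans h4) (norm_nonneg _) (by positivity)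
      _ = _ := by ring
  obtain ⟨A, C, hAC⟩ := hε
  refine gr_of_eventually (C := |C| * (4 * (q + 1)) + 4 * (q + 1)) (A := |A| + 1) (T₀ := 1)
    hd.continuous.continuousOn fun z hz hT => ?_
  have h5 : Real.exp (1 * |z.im|) ≤ Real.exp ((|A| + 1) * |z.im|) := by
    apply Real.exp_le_exp.2
    have h0 := abs_nonneg z.im
    have h6 := abs_nonneg A
    nlinarith
  rcases le_total (1 / 2) z.re with h | h
  · refine (hright z h hz.2).trans ?_
    calc 4 * ((q : ℝ) + 1) * Real.exp (1 * |z.im|)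
        ≤ (|C| * (4 * (q + 1)) + 4 * (q + 1)) * Real.exp (1 * |z.im|) := by
          have : 0 ≤ |C| * (4 * ((q : ℝ) + 1)) := by positivity
          gcongr
          linarith
      _ ≤ _ := by gcongr
  · have hG : Gd (mu1 (χ (-1))) z := by
      intro i h0
      have : (mu1 (χ (-1)) i).im = 0 := by
        unfold mu1
        rcases sh_cases (χ (-1)) with h | h <;> rw [h] <;> simp
      rw [this, add_zero] at h0
      rw [h0, abs_zero] at hT
      linarith
    rw [hfe z hG, norm_mul]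
    have h6 := hAC z ⟨hz.1, h⟩
    have h7 : ‖rfl1 (DirichletCharacter.LFunction χ) z‖ ≤
        4 * (q + 1) * Real.exp (1 * |z.im|) := by
      unfold rfl1
      rw [RCLike.norm_conj]
      have e1 : (1 - conj z).re = 1 - z.re := by simp
      have e2 : (1 - conj z).im = z.im := by simp
      have h8 := hright (1 - conj z) (by rw [e1]; linarith) (by rw [e1]; linarith [hz.1])
      rwa [e2] at h8
    have h9 : C * Real.exp (A * |z.im|) ≤ |C| * Real.exp (|A| * |z.im|) := by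
      have := le_abs_self C
      have := le_abs_self A
      gcongr
    calc ‖ε z‖ * ‖rfl1 (DirichletCharacter.LFunction χ) z‖
        ≤ (|C| * Real.exp (|A| * |z.im|)) * (4 * (q + 1) * Real.exp (1 * |z.im|)) :=
          mul_le_mul (h6.trans h9) h7 (norm_nonneg _) (by positivity)
      _ = |C| * (4 * (q + 1)) * Real.exp ((|A| + 1) * |z.im|) := by
          rw [add_mul, Real.exp_add]
          ring
      _ ≤ _ := by
          have : 0 ≤ 4 * ((q : ℝ) + 1) := by positivity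
          gcongr
          linarith

lemma prim_pr (hcrt : S_crt) {a b : ℕ} [NeZero a] [NeZero b] [NeZero (a * b)]
    (hab : Nat.Coprime a b) {χ : DirichletCharacter ℂ a} {ψ : DirichletCharacter ℂ b}
    (hχ : χ.IsPrimitive) (hψ : ψ.IsPrimitive) : (pr a b χ ψ).IsPrimitive := by
  classical
  have h := (hcrt a b hab).2.1 (fun θ => (((if θ = pr a b χ ψ then 1 else 0 : ℕ) : ℕ) : ℂ))
  by_contra hc
  have h1 : ∑ θ ∈ pc (a * b), (((if θ = pr a b χ ψ then 1 else 0 : ℕ) : ℕ) : ℂ) = 0 := by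
    refine Finset.sum_eq_zero fun θ hθ => ?_
    rw [if_neg]
    · simp
    · rintro rfl
      exact hc (mem_pc.1 hθ)
  rw [h1] at h
  have h2 : ∑ χ' ∈ pc a, ∑ ψ' ∈ pc b, (if pr a b χ' ψ' = pr a b χ ψ then 1 else 0 : ℕ) = 0 := by
    have h3 := h.symm
    push_cast at h3
    exact_mod_cast h3
  rw [Finset.sum_eq_zero_iff] at h2
  have h4 := h2 χ (mem_pc.2 hχ)
  rw [Finset.sum_eq_zero_iff] at h4
  have h5 := h4 ψ (mem_pc.2 hψ)
  simp at h5

lemma alg_root {a1 a2 s g1 g2 g3 r1 r2 i P R N X Y : ℂ} (hP : P ≠ 0) (hR : R ≠ 0) (hN : N ≠ 0)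
    (hi : i ≠ 0) : a1 * a2 * s * (r1 * r2 * g1 * g2) * g3 / i / (P * R * N) * X * Y =
      s * g3 / i / N * (g2 / R) * (a1 * r1) * (a2 * r2) * (g1 ^ 1 / P) * X * Y := by
  field_simp

/-- data for a single primitive character of the form `χ ψ` -/
lemma dir_eps {q : ℕ} [NeZero q] {χ : DirichletCharacter ℂ q} (hq : 2 ≤ q)
    (hχ : χ.IsPrimitive) : Eps (q : ℝ) (3 * (1 + 4)) 1 (DirichletCharacter.LFunction χ)
      (LX (DirichletCharacter.rootNumber χ) (q : ℝ) (mu1 (χ (-1)))) := by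
  have hq0 : (0 : ℝ) < q := by exact_mod_cast NeZero.pos q
  have h := eps_of_fe hq0 (mu1_re (χ (-1))) (mu1_le (χ (-1))) (by norm_num)
    (DirichletCharacter.differentiable_LFunction (ne_one_of_prim hq hχ)) (norm_root hχ)
    (fe_LX hχ)
  rwa [Fintype.card_fin] at h

theorem dir_core (hcrt : S_crt) (N₁ N : ℕ) [NeZero N₁] (ψ : DirichletCharacter ℂ N₁) (e : ℂ)
    (hψ : ψ.IsPrimitive) (hN : N₁ ∣ N) :
    ∃ (V S : ℝ) (c : ℕ → ℂ) (ep : (q : ℕ) → DirichletCharacter ℂ q → ℂ → ℂ) (g : ℂ → ℂ)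
      (b : ℕ → ℕ → ℂ) (u : (r : ℕ) → DirichletCharacter ℂ r → ℂ) (v : ℕ → ℤ) (M : ℤ),
      (∀ n, ‖c n‖ ≤ 1) ∧ TwM 1 Set.univ N e N₁ V S c
        (fun q χ s => if h : q = 0 then 0 else
          haveI : NeZero (q * N₁) := ⟨mul_ne_zero h (NeZero.ne N₁)⟩
          DirichletCharacter.LFunction (pr q N₁ χ ψ) s) ep g b u v M := by
  classical
  have hN₁0 : (0 : ℝ) < N₁ := by exact_mod_cast NeZero.pos N₁
  set c : ℕ → ℂ := fun n => ψ (n : ZMod N₁) with hc
  have hc1 : ∀ n, ‖c n‖ ≤ 1 := fun n => DirichletCharacter.norm_le_one ψ _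
  have hlin : Lin c := by
    have h1 : Lin (fun _ : ℕ => (1 : ℂ)) := by
      intro σ hσ
      have := ArithmeticFunction.LSeriesSummable_vonMangoldt (s := (σ : ℂ)) (by simpa using hσ)
      refine this.norm.congr fun n => ?_
      rw [LSeries.norm_term_eq]
      rcases eq_or_ne n 0 with rfl | hn
      · simp
      · rw [if_neg hn, Complex.norm_real, Real.norm_of_nonneg (vm_nn n), norm_one, mul_one,
          Complex.ofReal_re, Real.rpow_neg (Nat.cast_nonneg n), div_eq_mul_inv]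
    have h2 := h1.twist hc1
    simpa using h2
  have hsqb := sqb_of_bdd hc1
  set w : (q : ℕ) → DirichletCharacter ℂ q → ℂ := fun q χ =>
    if h : q = 0 then 0 else
      haveI : NeZero (q * N₁) := ⟨mul_ne_zero h (NeZero.ne N₁)⟩
      DirichletCharacter.rootNumber (pr q N₁ χ ψ) with hw
  set g : ℂ → ℂ := gq (mu1 (e * ψ (-1))) with hg
  set ep : (q : ℕ) → DirichletCharacter ℂ q → ℂ → ℂ := fun q χ z =>
    LX (w q χ) ((q * N₁ : ℕ) : ℝ) (mu1 (e * ψ (-1))) z with hep
  set b : ℕ → ℕ → ℂ := fun p r =>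
    ψ ((p * r : ℕ) : ZMod N₁) * gs ψ / ia (e * ψ (-1)) / ((Real.sqrt N₁ : ℝ) : ℂ) with hb
  set u : (r : ℕ) → DirichletCharacter ℂ r → ℂ := fun r χ =>
    if h : r = 0 then 0 else
      haveI : NeZero r := ⟨h⟩
      if χ.IsPrimitive then gs χ / ((Real.sqrt r : ℝ) : ℂ) else 0 with hu
  refine ⟨3 * (1 + 4), 96 * 1 ^ 2, c, ep, g, b, u, fun r => (N₁ * r : ℕ), (N₁ : ℤ), hc1, ?_⟩
  have hsN : (0 : ℝ) < Real.sqrt N₁ := Real.sqrt_pos.2 hN₁0
  -- values of the product character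
  have hval : ∀ (q : ℕ) [NeZero q] (χ : DirichletCharacter ℂ q) [NeZero (q * N₁)],
      Nat.Coprime q N₁ → ∀ n : ℤ, pr q N₁ χ ψ ((n : ℤ) : ZMod (q * N₁)) =
        χ ((n : ℤ) : ZMod q) * ψ ((n : ℤ) : ZMod N₁) := by
    intro q _ χ _ hco n
    exact (hcrt q N₁ hco).1 χ ψ n
  have hpar : ∀ (q : ℕ) [NeZero q] (χ : DirichletCharacter ℂ q) [NeZero (q * N₁)],
      Nat.Coprime q N₁ → pr q N₁ χ ψ (-1) = χ (-1) * ψ (-1) := by
    intro q _ χ _ hco
    have := hval q χ hco (-1)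
    push_cast at this
    exact this
  refine
    { R_pos := hN₁0
      V_nn := by norm_num
      S_nn := by norm_num
      lin := hlin
      sq := hsqb
      mem := ?_
      eps := ?_
      b_le := ?_
      u_le := ?_
      g_gr := gq_gr (mu1_re _) }
  · intro q χ hq hqN hχ
    have hq0 : q ≠ 0 := by omega
    have : NeZero q := ⟨hq0⟩
    have hne : NeZero (q * N₁) := ⟨mul_ne_zero hq0 (NeZero.ne N₁)⟩
    have hco : Nat.Coprime q N₁ := Nat.Coprime.coprime_dvd_right hN hqN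
    have hpr := prim_pr hcrt hco hχ hψ
    have hQ : 2 ≤ q * N₁ := by
      have := NeZero.pos N₁
      nlinarith
    have hE := dir_eps hQ hpr
    have hR : ((q * N₁ : ℕ) : ℝ) = (N₁ : ℝ) * (q : ℝ) ^ 1 := by
      push_cast
      ring
    have hF : (fun s => if h : q = 0 then (0 : ℂ) else
        haveI : NeZero (q * N₁) := ⟨mul_ne_zero h (NeZero.ne N₁)⟩
        DirichletCharacter.LFunction (pr q N₁ χ ψ) s) =
        DirichletCharacter.LFunction (pr q N₁ χ ψ) := by
      funext s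
      rw [dif_neg hq0]
    rw [hF]
    refine
      { mul := chs_mul χ
        one := chs_one χ
        le := chs_le χ
        diff := DirichletCharacter.differentiable_LFunction (ne_one_of_prim hQ hpr)
        ser := ?_
        gr := dir_growth hQ hpr hE.gr (fe_LX hpr)
        fe := ⟨_, by rw [← hR]; exact hE⟩ }
    intro s hs
    rw [DirichletCharacter.LFunction_eq_LSeries _ hs]
    refine LSeries_congr (fun {n} hn => ?_) s
    have h1 := hval q χ hco (n : ℤ)
    push_cast at h1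
    have h2 : E c n = ψ (n : ZMod N₁) := by
      have h3 := E_twist (fun _ => (1 : ℂ)) c (by simp [hc]) (fun a b => by simp [hc]) n
      simp only [mul_one] at h3
      rw [← h3, E_one_c hn, mul_one]
    unfold tw chs
    rw [h1, h2]
  · intro p r _ _ χ₁ χ₂ hr _ hp hpr hN' hχ₁ hχ₂ hpe
    have hp0 : p ≠ 0 := hp.ne_zero
    have hr0 : r ≠ 0 := by omega
    have hq' : NeZero (p * r) := ⟨mul_ne_zero hp0 hr0⟩
    have hne : NeZero (p * r * N₁) := ⟨mul_ne_zero (NeZero.ne _) (NeZero.ne N₁)⟩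
    have hco : Nat.Coprime (p * r) N₁ := Nat.Coprime.coprime_dvd_right hN hN'
    have hχ := prim_pr hcrt hpr hχ₁ hχ₂
    have hθ := prim_pr hcrt hco hχ hψ
    have hpos : 0 < N₁ := NeZero.pos N₁
    have h2p := hp.two_le
    have hQ : 2 ≤ p * r * N₁ := by
      have h4 : 2 ≤ p * r := by nlinarith
      nlinarith
    have hE := dir_eps hQ hθ
    have hR : ((p * r * N₁ : ℕ) : ℝ) = (N₁ : ℝ) * ((p * r : ℕ) : ℝ) ^ 1 := by
      push_cast
      ring
    have hw' : w (p * r) (pr p r χ₁ χ₂) =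
        DirichletCharacter.rootNumber (pr (p * r) N₁ (pr p r χ₁ χ₂) ψ) := by
      rw [hw]
      simp only
      rw [dif_neg (NeZero.ne (p * r))]
    have hpar' : pr (p * r) N₁ (pr p r χ₁ χ₂) ψ (-1) = e * ψ (-1) := by
      rw [hpar (p * r) (pr p r χ₁ χ₂) hco, hpe]
    have hF : (fun s => if h : p * r = 0 then (0 : ℂ) else
        haveI : NeZero (p * r * N₁) := ⟨mul_ne_zero h (NeZero.ne N₁)⟩
        DirichletCharacter.LFunction (pr (p * r) N₁ (pr p r χ₁ χ₂) ψ) s) =
        DirichletCharacter.LFunction (pr (p * r) N₁ (pr p r χ₁ χ₂) ψ) := by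
      funext s
      rw [dif_neg (NeZero.ne (p * r))]
    have hepe : ep (p * r) (pr p r χ₁ χ₂) =
        LX (DirichletCharacter.rootNumber (pr (p * r) N₁ (pr p r χ₁ χ₂) ψ))
          ((p * r * N₁ : ℕ) : ℝ) (mu1 (pr (p * r) N₁ (pr p r χ₁ χ₂) ψ (-1))) := by
      rw [hpar', ← hw']
    refine ⟨?_, fun z => ?_⟩
    · rw [hF, hepe, ← hR]
      exact hE
    · rw [hep]
      simp only
      rw [hw', LX_eq (by exact_mod_cast NeZero.pos (p * r * N₁)), hR]
      -- the root number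
      have hg1 := (hcrt (p * r) N₁ hco).2.2 (pr p r χ₁ χ₂) ψ
      have hg2 := (hcrt p r hpr).2.2 χ₁ χ₂
      have hv := (hcrt p r hpr).1 χ₁ χ₂ (N₁ : ℤ)
      have hub : u r χ₂ = gs χ₂ / ((Real.sqrt r : ℝ) : ℂ) := by
        rw [hu]
        simp only
        rw [dif_neg hr0, if_pos hχ₂]
      have hsq : Real.sqrt ((p * r * N₁ : ℕ) : ℝ) = Real.sqrt p * Real.sqrt r * Real.sqrt N₁ := by
        push_cast
        rw [Real.sqrt_mul (by positivity), Real.sqrt_mul (by positivity)]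
      have hsp : ((p : ℝ) ^ ((1 : ℕ) / 2 : ℝ)) = Real.sqrt p := by
        rw [Real.sqrt_eq_rpow]
        congr 1
        norm_num
      have hv1 : χ₁ (((N₁ * r : ℕ) : ℤ) : ZMod p) = χ₁ (((N₁ : ℤ)) : ZMod p) *
          χ₁ ((r : ℕ) : ZMod p) := by
        rw [← map_mul]
        congr 1
        push_cast
        rfl
      have hv2 : χ₂ (((N₁ : ℤ) * (p : ℤ) ^ 1 : ℤ) : ZMod r) = χ₂ (((N₁ : ℤ)) : ZMod r) *
          χ₂ ((p : ℕ) : ZMod r) := by
        rw [← map_mul]
        congr 1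
        push_cast
        ring
      have hsr : Real.sqrt r ≠ 0 := (Real.sqrt_pos.2 (by exact_mod_cast NeZero.pos r)).ne'
      have hsp0 : Real.sqrt p ≠ 0 := (Real.sqrt_pos.2 (by exact_mod_cast NeZero.pos p)).ne'
      have hia : ia (e * ψ (-1)) ≠ 0 := fun h => by
        have := norm_ia (e * ψ (-1))
        rw [h, norm_zero] at this
        exact zero_ne_one this
      have hv' : pr p r χ₁ χ₂ ((N₁ : ℕ) : ZMod (p * r)) =
          χ₁ (((N₁ : ℤ)) : ZMod p) * χ₂ (((N₁ : ℤ)) : ZMod r) := by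
        rw [← hv]
        congr 1
        push_cast
        rfl
      have h1 : ((Real.sqrt r : ℝ) : ℂ) ≠ 0 := ofReal_ne_zero.2 hsr
      have h2 : ((Real.sqrt p : ℝ) : ℂ) ≠ 0 := ofReal_ne_zero.2 hsp0
      have h3 : ((Real.sqrt N₁ : ℝ) : ℂ) ≠ 0 := ofReal_ne_zero.2 hsN.ne'
      rw [root_eq, hpar', hg1, hg2, hv', hub, hsq, hsp, hv1, hv2, hb, Complex.ofReal_mul,
        Complex.ofReal_mul]
      exact alg_root h2 h1 h3 hia
  · intro p r
    rw [hb]
    simp only
    rw [norm_div, norm_div, norm_mul, norm_ia, norm_gs hψ, Complex.norm_real,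
      Real.norm_of_nonneg hsN.le, div_one, mul_div_assoc, div_self hsN.ne', mul_one]
    exact DirichletCharacter.norm_le_one ψ _
  · intro r χ
    rw [hu]
    simp only
    split_ifs with h1 h2
    · simp
    · have : NeZero r := ⟨h1⟩
      have h3 : (0 : ℝ) < Real.sqrt r := Real.sqrt_pos.2 (by exact_mod_cast NeZero.pos r)
      rw [norm_div, norm_gs h2, Complex.norm_real, Real.norm_of_nonneg h3.le, div_self h3.ne']
    · simp

theorem t_dir (hcrt : S_crt) : S_dir := by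
  intro N₁ N _ ψ e hψ hN he
  obtain ⟨V, S, c, ep, g, b, u, v, M, -, h⟩ := dir_core hcrt N₁ N ψ e hψ hN
  exact ⟨V, S, c, ep, g, b, u, v, M, h⟩

end Pool.Agent.NH12.GL
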