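import Pool.Agent.NH12.GL.Dir
import Pool.Agent.NH12.GL.Tw3

/-!
# Dirichlet `L`-functions as a family of twists, with the bound for the coefficients
-/

set_option autoImplicit false

namespace Pool.Agent.NH12.GL

theorem t_dir' (hcrt : S_crt) : S_dir' := by
  intro N₁ N _ ψ e hψ hN he
  exact dir_core hcrt N₁ N ψ e hψ hN

end Pool.Agent.NH12.GL
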