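import Pool.Agent.NH12.GL.Tw2

/-!
# The functional equation of Hecke L-functions with the explicit root number
(adapted from `Pool.Agent.Y767.HC.FEkn`, `fe_primn`)
-/

set_option autoImplicit false

open NumberField Complex Filter Topology MeasureTheory Set
open NumberField.Units NumberField.Units.dirichletUnitTheorem

namespace Pool.Agent.NH12.GL

open Pool.Agent.Y773 Pool.Agent.Y767

/-- the functional equation with the explicit root number; the norm of the constant does not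
depend on the signature -/
theorem few_norm (K : Type) [Field K] [NumberField K] [IsTotallyReal K] : ∃ c₀ : ℝ,
    ∀ (e : InfinitePlace K → ℕ), (∀ w, e w ≤ 1) → ∃ C : ℂ, ‖C‖ = c₀ ∧ ∀ (𝔣 : Ideal (𝓞 K))
    (ψ : Ideal (𝓞 K) →*₀ ℂ) (ν : InfinitePlace K → ℝ) (τ : ℂ), ∑ w, ν w = 0 →
    PrimK 𝔣 (kk e ν) ψ → IsModK 𝔣 (kk e ν) ψ → GaussP 𝔣 (kk e ν) ψ τ →
    ‖C * τ / ((Real.sqrt (Ideal.absNorm 𝔣 : ℝ) : ℝ) : ℂ)‖ = 1 ∧
    ∃ F : ℂ → ℂ, FEn (((Ideal.absNorm 𝔣 * Ideal.absNorm (differentIdeal ℤ (𝓞 K)) : ℕ) : ℝ)) e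
      (fun w => -ν w) F ∧ (∀ s : ℂ, 1 < s.re → F s = LI ψ s) ∧
      ∀ s : ℂ, (∀ i, s.im + (-ν i) ≠ 0) →
        GGn (((Ideal.absNorm 𝔣 * Ideal.absNorm (differentIdeal ℤ (𝓞 K)) : ℕ) : ℝ)) e
          (fun w => -ν w) s * F s =
        (C * τ / ((Real.sqrt (Ideal.absNorm 𝔣 : ℝ) : ℝ) : ℂ)) * (starRingEnd ℂ)
          (GGn (((Ideal.absNorm 𝔣 * Ideal.absNorm (differentIdeal ℤ (𝓞 K)) : ℕ) : ℝ)) e
          (fun w => -ν w) (1 - (starRingEnd ℂ) s) * F (1 - (starRingEnd ℂ) s)) := by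
  classical
  have h𝔡 : differentIdeal ℤ (𝓞 K) ≠ ⊥ := differentIdeal_ne_bot
  obtain ⟨V, hV, hfe⟩ := fam_fen K
  obtain ⟨C, hC, hmel⟩ := mellin_Ftotn K
  refine ⟨‖((V⁻¹ : ℝ) : ℂ)‖ *
    ‖((Real.sqrt (Ideal.absNorm (differentIdeal ℤ (𝓞 K)) : ℝ) : ℝ) : ℂ)‖, fun e he => ?_⟩
  refine ⟨((V⁻¹ : ℝ) : ℂ) * (-I) ^ (∑ w, e w) *
    ((Real.sqrt (Ideal.absNorm (differentIdeal ℤ (𝓞 K)) : ℝ) : ℝ) : ℂ), ?_, ?_⟩
  · rw [norm_mul, norm_mul, norm_pow, norm_neg, Complex.norm_I, one_pow, mul_one]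
  intro 𝔣 ψ ν τ hν hp h hτ
  have hD0 : 0 < Dd K := Dd_pos
  -- the constant term
  have hz : ∀ 𝔟 : ClassGroup (𝓞 K) → Ideal (𝓞 K), Reps 𝔟 →
      ((G0 e (fun _ => 0) : ℝ) : ℂ) * Ph K (fun w => -ν w) *
        (∑ c, (Ideal.absNorm (𝔟 c) : ℂ) * FT (Dd K) (mm 𝔟 𝔣) (Pk ψ (kk e ν) (𝔟 c)) 0) = 0 := by
    intro 𝔟 h𝔟
    have : ∀ c, FT (Dd K) (mm 𝔟 𝔣) (Pk ψ (kk e ν) (𝔟 c)) 0 = 0 := by
      intro c
      obtain ⟨𝔟'', h𝔟''⟩ := exists_compl (𝔣 := 𝔣) (𝔟 := 𝔟 c) (m := mm 𝔟 𝔣) (D := Dd K)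
        (mm_mem _ _ c) Dd_mem
      rw [hτ (𝔟 c) 𝔟'' (mm 𝔟 𝔣) (Dd K) (mm_pos h𝔟.ne_bot h.ne_bot) hD0 h𝔟'' (mm_mem _ _ c) Dd_mem]
      have h5 : 𝔟'' ≠ ⊥ := by
        rintro rfl
        rw [Ideal.bot_mul] at h𝔟''
        exact span_m_ne_bot (Nat.mul_pos (mm_pos h𝔟.ne_bot h.ne_bot) hD0) h𝔟''.symm
      rw [Pk_zero h5, map_zero, mul_zero]
    simp_rw [this]
    simp
  set m := mm (rp K) 𝔣 with hm
  set D := Dd K with hD
  have hm0 : 0 < m := mm_pos rp_ne_bot h.ne_bot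
  have hN : ∀ c, Nicen e ν (Pk ψ (kk e ν) (rp K c)) := fun c => h.nice he (rp_ne_bot c)
  obtain ⟨h1, h2, h3⟩ := hfe (rp K) reps_rp e ν hν ψ hN m D hm0
    hD0 Dd_mem (fun c => h.per_m (rp_ne_bot c) (mm_mem _ _ c)) (hz _ reps_rp)
  choose 𝔟' h𝔟' using fun c => exists_compl (𝔣 := 𝔣) (𝔟 := rp K c) (m := m) (D := D)
    (mm_mem _ _ c) Dd_mem
  have hR' : Reps 𝔟' := reps_compl h.ne_bot reps_rp (Nat.mul_pos hm0 hD0) h𝔟'
  have hN' : ∀ c, Nicen e ν (Pk ψ (kk e ν) (𝔟' c)) := fun c => h.nice he (hR'.ne_bot c)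
  set R : ℝ := ((Ideal.absNorm 𝔣 * Ideal.absNorm (differentIdeal ℤ (𝓞 K)) : ℕ) : ℝ) with hRdef
  have hR1 : 1 ≤ R := by
    rw [hRdef]
    have h4 : Ideal.absNorm 𝔣 * Ideal.absNorm (differentIdeal ℤ (𝓞 K)) ≠ 0 :=
      mul_ne_zero (fun h1 => h.ne_bot (Ideal.absNorm_eq_zero_iff.mp h1))
        (fun h1 => h𝔡 (Ideal.absNorm_eq_zero_iff.mp h1))
    exact_mod_cast Nat.one_le_iff_ne_zero.mpr h4
  have hR0 : 0 < R := by linarith
  have hRc : (R : ℂ) ≠ 0 := by exact_mod_cast hR0.ne'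
  set M := mellin (Ftotn ψ e ν (rp K)) with hM
  -- the mellin transform for the complementary representatives
  have hdM' : Differentiable ℂ (mellin (Ftotn ψ e ν 𝔟')) :=
    (hfe 𝔟' hR' e ν hν ψ hN' (mm 𝔟' 𝔣) D (mm_pos hR'.ne_bot h.ne_bot) hD0 Dd_mem
      (fun c => h.per_m (hR'.ne_bot c) (mm_mem _ _ c)) (hz _ hR')).2.1
  have hMM : mellin (Ftotn ψ e ν 𝔟') = M := by
    refine entire_eq hdM' h2 fun s hs => ?_
    rw [hM, (hmel 𝔟' hR' e ν ψ h.norm_le_one hN' s hs).2,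
      (hmel (rp K) reps_rp e ν ψ h.norm_le_one hN s hs).2]
  -- the functional equation
  set κ : ℂ := ((V⁻¹ : ℝ) : ℂ) * ((m : ℂ) ^ (Module.finrank ℚ K))⁻¹ * (-I) ^ (∑ w, e w) with hκ
  set A : ℂ := τ * ((m : ℂ) ^ (Module.finrank ℚ K) / (Ideal.absNorm 𝔣 : ℂ)) with hA
  have hG : ∀ s, mellin (Gtotn ψ e ν (rp K) m D) s =
      A * ((R : ℂ) ^ s * (starRingEnd ℂ) (M ((starRingEnd ℂ) s))) := by
    intro s
    have h5 : Gtotn ψ e ν (rp K) m D = fun t => A • (starRingEnd ℂ) (Ftotn ψ e ν 𝔟' (R⁻¹ * t)) := by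
      funext t
      rw [smul_eq_mul]
      exact Gtotn_eq h reps_rp hR' h𝔟' (fun c x => hτ (rp K c) (𝔟' c) m D hm0 hD0 (h𝔟' c)
        (mm_mem _ _ c) Dd_mem x) t
    rw [h5, mellin_const_smul, smul_eq_mul, mellin_conj (fun t => Ftotn ψ e ν 𝔟' (R⁻¹ * t)),
      mellin_comp_mul_left _ _ (inv_pos.mpr hR0), hMM, smul_eq_mul, map_mul]
    congr 2
    have h6 : (((R⁻¹ : ℝ) : ℂ)) ^ (-(starRingEnd ℂ) s) = (R : ℂ) ^ ((starRingEnd ℂ) s) := by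
      rw [Complex.cpow_def_of_ne_zero (by exact_mod_cast (inv_pos.mpr hR0).ne'),
        ← Complex.ofReal_log (inv_pos.mpr hR0).le, Real.log_inv,
        Complex.cpow_def_of_ne_zero hRc, ← Complex.ofReal_log hR0.le]
      congr 1
      push_cast
      ring
    rw [h6]
    have h7 : ((R : ℝ) : ℂ).arg ≠ Real.pi := by
      rw [Complex.arg_ofReal_of_nonneg hR0.le]
      exact Real.pi_ne_zero.symm
    have h8 := Complex.conj_cpow (R : ℂ) s h7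
    rw [Complex.conj_ofReal] at h8
    exact h8.symm
  set L : ℂ → ℂ := fun s => (R : ℂ) ^ (s / 2) * M s with hL
  set w : ℂ := κ * A * (R : ℂ) ^ (1 / 2 : ℂ) with hw
  have hconjR : ∀ z : ℂ, (starRingEnd ℂ) ((R : ℂ) ^ z) = (R : ℂ) ^ ((starRingEnd ℂ) z) := by
    intro z
    have h7 : ((R : ℝ) : ℂ).arg ≠ Real.pi := by
      rw [Complex.arg_ofReal_of_nonneg hR0.le]
      exact Real.pi_ne_zero.symm
    have h8 := Complex.conj_cpow (R : ℂ) ((starRingEnd ℂ) z) h7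
    rw [Complex.conj_ofReal, Complex.conj_conj] at h8
    exact h8.symm
  have hLfe : ∀ s, L s = w * (starRingEnd ℂ) (L (1 - (starRingEnd ℂ) s)) := by
    intro s
    have h5 := h3 (1 - s)
    rw [sub_sub_cancel, hG, map_sub, map_one] at h5
    rw [hL]
    simp only
    rw [h5, map_mul, hconjR, hw]
    have h6 : (starRingEnd ℂ) ((1 - (starRingEnd ℂ) s) / 2) = (1 - s) / 2 := by
      have h20 : (starRingEnd ℂ) (2 : ℂ) = 2 := map_ofNat (starRingEnd ℂ) 2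
      rw [map_div₀, map_sub, map_one, Complex.conj_conj, h20]
    rw [h6]
    have h7 : (R : ℂ) ^ (s / 2) * (R : ℂ) ^ (1 - s) = (R : ℂ) ^ (1 / 2 : ℂ) * (R : ℂ) ^ ((1 - s) / 2) := by
      rw [← Complex.cpow_add _ _ hRc, ← Complex.cpow_add _ _ hRc]
      congr 1
      ring
    linear_combination (κ * A * (starRingEnd ℂ) (M (1 - (starRingEnd ℂ) s))) * h7
  have hL2 : L 2 ≠ 0 := by
    rw [hL]
    simp only
    have h5 : (1 : ℝ) < (2 : ℂ).re := by norm_num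
    rw [hM, (hmel (rp K) reps_rp e ν ψ h.norm_le_one hN 2 h5).2]
    obtain ⟨A', -, hd⟩ := Pool.Agent.Y772.DK.t_dirK K
    have h6 := (hd ψ h.norm_le_one).2.2.1 2 h5
    refine mul_ne_zero ?_ (mul_ne_zero (by exact_mod_cast hC.ne')
      (mul_ne_zero (gamn_ne_zero e ν (by norm_num)) h6))
    rw [Ne, Complex.cpow_eq_zero_iff]
    exact fun h => hRc h.1
  have hw1 : ‖w‖ = 1 := by
    have h5 := hLfe 2
    have h6 := hLfe (1 - (starRingEnd ℂ) 2)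
    rw [h6, map_mul] at h5
    have h7 : 1 - (starRingEnd ℂ) (1 - (starRingEnd ℂ) (2 : ℂ)) = 2 := by
      rw [map_sub, map_one, Complex.conj_conj]
      ring
    rw [h7, Complex.conj_conj] at h5
    have h8 : w * (starRingEnd ℂ) w = 1 := by
      have : (w * (starRingEnd ℂ) w) * L 2 = 1 * L 2 := by linear_combination -h5
      exact mul_right_cancel₀ hL2 this
    rw [Complex.mul_conj, Complex.normSq_eq_norm_sq] at h8
    have h9 : ‖w‖ ^ 2 = 1 := by exact_mod_cast h8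
    have := norm_nonneg w
    nlinarith
  have hC' : (C : ℂ) ≠ 0 := by exact_mod_cast hC.ne'
  have hGG : ∀ s : ℂ, (∀ w, s.im + -ν w ≠ 0) → GGn R e (fun w => -ν w) s *
      ((C : ℂ)⁻¹ * (M s * ∏ w, (Complex.Gammaℝ (s - I * ν w + e w))⁻¹)) = (C : ℂ)⁻¹ * L s := by
    intro s hs
    unfold GGn
    rw [hL, Finset.prod_inv_distrib]
    simp only
    have h5 := gamn_ne_zero' e (K := K) ν (s := s) (fun w => by
      rw [sub_eq_add_neg]; exact hs w)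
    have h6 : ∏ w, Complex.Gammaℝ (s + e w + I * ((-ν w : ℝ) : ℂ)) =
        ∏ w, Complex.Gammaℝ (s - I * ν w + e w) := by
      refine Finset.prod_congr rfl fun w _ => ?_
      congr 1
      push_cast
      ring
    rw [h6]
    field_simp
  have hfin : ∀ s : ℂ, (∀ i, s.im + (-ν i) ≠ 0) → GGn R e (fun w => -ν w) s *
      ((C : ℂ)⁻¹ * (M s * ∏ w, (Complex.Gammaℝ (s - I * ν w + e w))⁻¹)) =
      w * (starRingEnd ℂ) (GGn R e (fun w => -ν w) (1 - (starRingEnd ℂ) s) *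
      ((C : ℂ)⁻¹ * (M (1 - (starRingEnd ℂ) s) *
        ∏ w, (Complex.Gammaℝ ((1 - (starRingEnd ℂ) s) - I * ν w + e w))⁻¹))) := by
    intro s hs
    have hs' : ∀ w, (1 - (starRingEnd ℂ) s).im + -ν w ≠ 0 := by simpa using hs
    rw [hGG s hs, hGG _ hs', map_mul, hLfe s]
    have h5 : (starRingEnd ℂ) ((C : ℂ)⁻¹) = (C : ℂ)⁻¹ := by
      rw [map_inv₀, Complex.conj_ofReal]
    rw [h5]
    ring
  -- the root number
  have hNfn : Ideal.absNorm 𝔣 ≠ 0 := fun h1 => h.ne_bot (Ideal.absNorm_eq_zero_iff.mp h1)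
  have hNf : (0 : ℝ) < (Ideal.absNorm 𝔣 : ℝ) := by exact_mod_cast Nat.pos_of_ne_zero hNfn
  have hww : w = ((V⁻¹ : ℝ) : ℂ) * (-I) ^ (∑ w, e w) *
      ((Real.sqrt (Ideal.absNorm (differentIdeal ℤ (𝓞 K)) : ℝ) : ℝ) : ℂ) * τ /
      ((Real.sqrt (Ideal.absNorm 𝔣 : ℝ) : ℝ) : ℂ) := by
    have h5 : (R : ℂ) ^ (1 / 2 : ℂ) = ((Real.sqrt (Ideal.absNorm 𝔣 : ℝ) : ℝ) : ℂ) *
        ((Real.sqrt (Ideal.absNorm (differentIdeal ℤ (𝓞 K)) : ℝ) : ℝ) : ℂ) := by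
      have h6 : (R : ℂ) ^ (1 / 2 : ℂ) = ((Real.sqrt R : ℝ) : ℂ) := by
        rw [Real.sqrt_eq_rpow, Complex.ofReal_cpow hR0.le]
        norm_num
      rw [h6, hRdef, Nat.cast_mul, Real.sqrt_mul hNf.le, Complex.ofReal_mul]
    have h7 : ((Ideal.absNorm 𝔣 : ℕ) : ℂ) = ((Real.sqrt (Ideal.absNorm 𝔣 : ℝ) : ℝ) : ℂ) *
        ((Real.sqrt (Ideal.absNorm 𝔣 : ℝ) : ℝ) : ℂ) := by
      rw [← Complex.ofReal_mul, Real.mul_self_sqrt hNf.le, Complex.ofReal_natCast]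
    have h8 : ((Real.sqrt (Ideal.absNorm 𝔣 : ℝ) : ℝ) : ℂ) ≠ 0 := by
      exact_mod_cast (Real.sqrt_pos.2 hNf).ne'
    have h9 : (m : ℂ) ≠ 0 := by exact_mod_cast hm0.ne'
    rw [hw, hκ, hA, h5, h7]
    field_simp
  rw [← hww]
  refine ⟨hw1, fun s => (C : ℂ)⁻¹ * (M s * ∏ w, (Complex.Gammaℝ (s - I * ν w + e w))⁻¹), ⟨he,
    (h2.mul (differentiable_gamn e ν)).const_mul _, ⟨w, hw1, fun s hs => hfin s hs⟩, ?_⟩, ?_,
    fun s hs => hfin s hs⟩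
  · intro a b
    obtain ⟨C', hC'⟩ := mellin_strip_bound h1 a b
    refine ⟨‖(C : ℂ)⁻¹‖ * (R ^ (b / 2) * C'), fun s hsa hsb him => ?_⟩
    have him' : ∀ w, s.im + -ν w ≠ 0 := by
      intro w h0
      have h9 := him w
      rw [h0, abs_zero] at h9
      linarith
    rw [hGG s him', norm_mul, hL]
    simp only
    rw [norm_mul]
    have h5 : ‖(R : ℂ) ^ (s / 2)‖ ≤ R ^ (b / 2) := by
      rw [Complex.norm_cpow_eq_rpow_re_of_pos hR0]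
      refine Real.rpow_le_rpow_of_exponent_le hR1 ?_
      have : (s / 2).re = s.re / 2 := by simp
      rw [this]
      linarith
    have h6 := hC' s hsa hsb
    gcongr
  · intro s hs
    simp only
    rw [hM, (hmel (rp K) reps_rp e ν ψ h.norm_le_one hN s hs).2, Finset.prod_inv_distrib]
    have h3 := gamn_ne_zero e (K := K) ν (s := s) (by linarith)
    field_simp

/-- **module 10** -/
theorem t_few : S_few := by
  intro K _ _ _ e he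
  obtain ⟨_, h⟩ := few_norm K
  obtain ⟨C, _, hC⟩ := h e he
  exact ⟨C, hC⟩

end Pool.Agent.NH12.GL
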