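import Pool.Agent.NH12.GL.Pos3
import Pool.Agent.NH12.NV.Mol2

/-!
# Monotonicity; the mean square of bounded coefficients
-/

set_option autoImplicit false

namespace Pool.Agent.NH12.GL

open Complex Filter Topology Finset
open Pool.Agent.R399.TW Pool.Agent.R399.TM Pool.Agent.NH12.BA Pool.Agent.NH12.NV
open scoped ComplexConjugate

variable {m : ℕ} {Pr : Set ℕ} {N : ℕ} {e : ℂ} {R V S : ℝ} {c : ℕ → ℂ}
  {F ep : (q : ℕ) → DirichletCharacter ℂ q → ℂ → ℂ} {g : ℂ → ℂ} {b : ℕ → ℕ → ℂ}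
  {u : (r : ℕ) → DirichletCharacter ℂ r → ℂ} {v : ℕ → ℤ} {M : ℤ}

/-- monotonicity in the set of the primes and in the level -/
lemma TwM.mono (h : TwM m Pr N e R V S c F ep g b u v M) {Pr' : Set ℕ} {N' : ℕ} (hP : Pr' ⊆ Pr)
    (hN : N ∣ N') : TwM m Pr' N' e R V S c F ep g b u v M where
  R_pos := h.R_pos
  V_nn := h.V_nn
  S_nn := h.S_nn
  lin := h.lin
  sq := h.sq
  mem := fun q χ hq hqN hχ => h.mem q χ hq (Nat.Coprime.coprime_dvd_right hN hqN) hχ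
  eps := fun p r _ _ χ₁ χ₂ hr hp hpp hpr hprN h1 h2 he =>
    h.eps p r χ₁ χ₂ hr (hP hp) hpp hpr (Nat.Coprime.coprime_dvd_right hN hprN) h1 h2 he
  b_le := h.b_le
  u_le := h.u_le
  g_gr := h.g_gr

lemma sum_Ed {K : ℕ} (hK : 1 ≤ K) (d : ℕ) :
    ∑ n ∈ Icc 1 K, E (fun _ => (d : ℝ)) n / n ≤ (1 + Real.log K) ^ d := by
  have hl : 0 ≤ Real.log K := Real.log_nonneg (by exact_mod_cast hK)
  induction d with
  | zero =>
    rw [pow_zero, ← Finset.sum_erase_add _ _ (show 1 ∈ Icc 1 K by rw [mem_Icc]; omega), E_one]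
    have h1 : ∑ n ∈ (Icc 1 K).erase 1, E (fun _ => ((0 : ℕ) : ℝ)) n / n = 0 := by
      refine Finset.sum_eq_zero fun n hn => ?_
      rw [mem_erase, mem_Icc] at hn
      have h2 : E (fun _ => ((0 : ℕ) : ℝ)) n = 0 := by
        rw [Nat.cast_zero]
        rw [E_zero_fun, if_neg hn.1]
      rw [h2, zero_div]
    rw [h1]
    simp
  | succ d ih =>
    have e2 : (fun _ : ℕ => ((d + 1 : ℕ) : ℝ)) = fun k : ℕ => (fun _ : ℕ => (d : ℝ)) k +
        (fun _ => (1 : ℝ)) k := by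
      funext k
      push_cast
      ring
    rw [e2, pow_succ]
    refine (sum_E_add (fun _ => Nat.cast_nonneg d) (fun _ => zero_le_one) K).trans ?_
    have h1 := sum_E1 K
    have h10 : 0 ≤ ∑ n ∈ Icc 1 K, E (fun _ => (1 : ℝ)) n / n :=
      Finset.sum_nonneg fun n _ => div_nonneg (E_nonneg (fun _ => zero_le_one) n)
        (Nat.cast_nonneg n)
    gcongr

/-- bounded coefficients -/
theorem sqA_of_bdd {d : ℕ} (hd : ∀ n, ‖c n‖ ≤ d) {A : ℕ} (hA : d ^ 2 ≤ 2 * A) : SqA c 1 A := by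
  intro K hK
  have hl : 0 ≤ Real.log K := Real.log_nonneg (by exact_mod_cast hK)
  rw [one_mul]
  have h4 : (fun _ : ℕ => ‖(d : ℝ)‖ ^ 2) = fun _ => ((d ^ 2 : ℕ) : ℝ) := by
    funext _
    rw [Real.norm_of_nonneg (Nat.cast_nonneg d)]
    push_cast
    rfl
  have h1 : ∀ k ∈ Icc 1 K, E (fun n => ‖c n‖) k ^ 2 / k ≤
      E (fun _ => ((d ^ 2 : ℕ) : ℝ)) k / k := by
    intro k _
    refine div_le_div_of_nonneg_right ?_ (Nat.cast_nonneg k)
    have h2 : E (fun n => ‖c n‖) k ≤ E (fun _ => (d : ℝ)) k :=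
      E_mono (fun n => norm_nonneg _) hd k
    have h3 := norm_E_sq_le (𝕜 := ℝ) (fun _ => (d : ℝ)) k
    rw [h4] at h3
    have h0 : 0 ≤ E (fun _ => (d : ℝ)) k := E_nonneg (fun _ => Nat.cast_nonneg d) k
    rw [Real.norm_of_nonneg h0] at h3
    exact (pow_le_pow_left₀ (E_nonneg (fun _ => norm_nonneg _) k) h2 2).trans h3
  refine (Finset.sum_le_sum h1).trans ((sum_Ed hK (d ^ 2)).trans ?_)
  exact pow_le_pow_right₀ (by linarith) hA

end Pool.Agent.NH12.GL
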