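import Pool.Agent.R399.TM.Val

/-!
# The approximate functional equation at the central point
-/

set_option autoImplicit false

namespace Pool.Agent.NH12.GL

open Finset Filter Topology Complex MeasureTheory
open Pool.Agent.R399.TW Pool.Agent.R399.TM
open scoped ComplexConjugate

lemma KN_bd' (L A : ℝ) {ρ : ℂ} (h1 : 1 / 2 ≤ ρ.re) (h2 : ρ.re ≤ 1) : ∃ C : ℝ, 0 ≤ C ∧
    ∀ z ∈ strip (-1 / 2) 2, Real.exp (A * |z.im|) * ‖KN L ρ z‖ ≤ C * Real.exp (-|z.im|) := by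
  obtain ⟨C, hC0, hC⟩ := gdec A ρ.im
  refine ⟨C * Real.exp (9 + 3 * |L|), by positivity, fun z hz => ?_⟩
  have h3 := norm_KN L ρ z.re z.im
  rw [← eq_pt] at h3
  rw [h3]
  have h4 := hC z.im
  have h5 : Real.exp ((z.re - ρ.re) ^ 2 + L * (z.re - ρ.re)) ≤ Real.exp (9 + 3 * |L|) := by
    apply Real.exp_le_exp.2
    have h6 : |z.re - ρ.re| ≤ 3 := by
      rw [abs_le]
      constructor <;> linarith [hz.1, hz.2]
    have h7 : (z.re - ρ.re) ^ 2 ≤ 9 := by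
      rw [← sq_abs]
      nlinarith [abs_nonneg (z.re - ρ.re)]
    have h8 : L * (z.re - ρ.re) ≤ 3 * |L| := by
      have := le_abs_self (L * (z.re - ρ.re))
      rw [abs_mul] at this
      nlinarith [abs_nonneg L]
    linarith
  calc Real.exp (A * |z.im|) * (Real.exp ((z.re - ρ.re) ^ 2 + L * (z.re - ρ.re)) *
        Real.exp (-(z.im - ρ.im) ^ 2))
      = (Real.exp (A * |z.im|) * Real.exp (-(z.im - ρ.im) ^ 2)) *
        Real.exp ((z.re - ρ.re) ^ 2 + L * (z.re - ρ.re)) := by ring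
    _ ≤ (C * Real.exp (-|z.im|)) * Real.exp (9 + 3 * |L|) := by gcongr
    _ = _ := by ring

/-- the kernel without shift, right and left -/
lemma Kr0_sides' {ρ : ℂ} (h1 : 1 / 2 ≤ ρ.re) (h2 : ρ.re ≤ 1) :
    (Integrable (fun t : ℝ => Kr 0 ρ (pt 2 t)) ∧ Integrable (fun t : ℝ => Kr 0 ρ (pt (-1 / 2) t))) ∧
    (∫ t : ℝ, Kr 0 ρ (pt 2 t)) - (∫ t : ℝ, Kr 0 ρ (pt (-1 / 2) t)) = 2 * Real.pi := by
  obtain ⟨i1, e1⟩ := Kr_two 0 (ρ := ρ) h2
  have hc : 0 < 1 / 2 + ρ.re := by linarith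
  set g : ℝ → ℂ := fun s => cexp (pt (1 / 2 + ρ.re) s ^ 2 + ((0 : ℝ) : ℂ) * pt (1 / 2 + ρ.re) s) /
    pt (1 / 2 + ρ.re) s with hg
  have hne : ∀ s : ℝ, pt (1 / 2 + ρ.re) s ≠ 0 := by
    intro s h
    have := congrArg Complex.re h
    simp at this
    linarith
  have hcl : ∀ s : ℝ, (1 : ℝ) / 2 + ρ.re ≤ ‖pt (1 / 2 + ρ.re) s‖ := fun s => by
    have h3 := (le_abs_self _).trans (Complex.abs_re_le_norm (pt (1 / 2 + ρ.re) s))
    rwa [pt_re] at h3
  have hint : Integrable g := by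
    refine (gauss_int (1 / 2 + ρ.re) 0).norm.mono' ?_ (Eventually.of_forall fun s => ?_)
    · have h3 : Continuous g := by
        refine Continuous.div ?_ (pt_cont _) hne
        have := pt_cont (1 / 2 + ρ.re)
        fun_prop
      exact h3.aestronglyMeasurable
    · simp only [hg]
      rw [norm_div]
      refine div_le_self (norm_nonneg _) ?_
      linarith [hcl s]
  have e2 : (fun t : ℝ => Kr 0 ρ (pt (-1 / 2) t)) = fun t : ℝ => -(g (ρ.im - t)) := by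
    funext t
    have e3 : pt (-1 / 2) t - ρ = -pt (1 / 2 + ρ.re) (ρ.im - t) := by
      apply Complex.ext
      · simp; ring
      · simp
    unfold Kr KN
    rw [e3, hg]
    simp only [neg_sq, Complex.ofReal_zero, zero_mul, add_zero]
    rw [div_neg]
  have i2 : Integrable (fun t : ℝ => Kr 0 ρ (pt (-1 / 2) t)) := by
    rw [e2]
    exact (hint.comp_sub_left ρ.im).neg
  refine ⟨⟨i1, i2⟩, ?_⟩
  rw [e1, e2, integral_neg, integral_sub_left_eq_self g volume ρ.im, hg, kernel_id hc 0, Ph_zero]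
  push_cast
  ring

/-- the integral on the line `Re z = 2` -/
theorem right_line0 {b ψ : ℕ → ℂ} (hψ : ∀ n, ‖ψ n‖ ≤ 1) (hb : LSeriesSummable b 2) (L : ℝ) {ρ : ℂ}
    (h2 : ρ.re ≤ 1) :
    LSeriesSummable (tw ψ fun n => b n * ((Ph (L - Real.log n) : ℝ) : ℂ)) ρ ∧
    ∫ t : ℝ, LSeries (tw ψ b) (pt 2 t) * Kr L ρ (pt 2 t) =
      2 * Real.pi * LSeries (tw ψ fun n => b n * ((Ph (L - Real.log n) : ℝ) : ℂ)) ρ := by
  have hbs : LSeriesSummable (tw ψ b) 2 := ls_tw hψ hb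
  have hnorm : ∀ (t : ℝ) (n : ℕ), ‖LSeries.term (tw ψ b) (pt 2 t) n‖ =
      ‖LSeries.term (tw ψ b) 2 n‖ := by
    intro t n
    rw [LSeries.norm_term_eq, LSeries.norm_term_eq, pt_re]
    norm_num
  have hterm : ∀ (t : ℝ) (n : ℕ), n ≠ 0 → LSeries.term (tw ψ b) (pt 2 t) n * Kr L ρ (pt 2 t) =
      tw ψ b n / (n : ℂ) ^ ρ * Kr (L - Real.log n) ρ (pt 2 t) := by
    intro t n hn
    rw [LSeries.term_of_ne_zero hn]
    have := Kr_shift L ρ (pt 2 t) hn
    calc tw ψ b n / (n : ℂ) ^ (pt 2 t) * Kr L ρ (pt 2 t) =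
          tw ψ b n * (Kr L ρ (pt 2 t) / (n : ℂ) ^ (pt 2 t)) := by ring
      _ = _ := by rw [this]; ring
  have hi : ∀ n : ℕ, Integrable fun t : ℝ => LSeries.term (tw ψ b) (pt 2 t) n * Kr L ρ (pt 2 t) := by
    intro n
    rcases eq_or_ne n 0 with rfl | hn
    · simp
    · simp only [hterm _ n hn]
      exact (Kr_two _ h2).1.const_mul _
  have hs : Summable fun n : ℕ => ∫ t : ℝ, ‖LSeries.term (tw ψ b) (pt 2 t) n * Kr L ρ (pt 2 t)‖ := by
    have : (fun n : ℕ => ∫ t : ℝ, ‖LSeries.term (tw ψ b) (pt 2 t) n * Kr L ρ (pt 2 t)‖) =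
        fun n : ℕ => ‖LSeries.term (tw ψ b) 2 n‖ * ∫ t : ℝ, ‖Kr L ρ (pt 2 t)‖ := by
      funext n
      rw [← integral_const_mul]
      congr 1
      funext t
      rw [norm_mul, hnorm]
    rw [this]
    exact hbs.norm.mul_right _
  have key := hasSum_integral_of_summable_integral_norm hi hs
  have e1 : ∀ t : ℝ, ∑' n : ℕ, LSeries.term (tw ψ b) (pt 2 t) n * Kr L ρ (pt 2 t) =
      LSeries (tw ψ b) (pt 2 t) * Kr L ρ (pt 2 t) := fun t => by
    rw [tsum_mul_right]; rfl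
  simp only [e1] at key
  have e2 : ∀ n : ℕ, ∫ t : ℝ, LSeries.term (tw ψ b) (pt 2 t) n * Kr L ρ (pt 2 t) =
      2 * Real.pi * LSeries.term (tw ψ fun n => b n * ((Ph (L - Real.log n) : ℝ) : ℂ)) ρ n := by
    intro n
    rcases eq_or_ne n 0 with rfl | hn
    · simp
    · simp only [hterm _ n hn]
      rw [integral_const_mul, (Kr_two _ h2).2, LSeries.term_of_ne_zero hn]
      unfold tw
      ring
  simp only [e2] at key
  have hpi : (2 * (Real.pi : ℂ)) ≠ 0 := by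
    have := Real.pi_pos.ne'
    have h5 : (Real.pi : ℂ) ≠ 0 := by exact_mod_cast this
    simpa using h5
  have k2 := key.mul_left (2 * (Real.pi : ℂ))⁻¹
  have e3 : ∀ n : ℕ, (2 * (Real.pi : ℂ))⁻¹ * (2 * Real.pi *
      LSeries.term (tw ψ fun n => b n * ((Ph (L - Real.log n) : ℝ) : ℂ)) ρ n) =
      LSeries.term (tw ψ fun n => b n * ((Ph (L - Real.log n) : ℝ) : ℂ)) ρ n := by
    intro n
    rw [← mul_assoc, inv_mul_cancel₀ hpi, one_mul]
  simp only [e3] at k2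
  refine ⟨k2.summable, ?_⟩
  have k5 : LSeries (tw ψ fun n => b n * ((Ph (L - Real.log n) : ℝ) : ℂ)) ρ = _ := k2.tsum_eq
  rw [k5]
  field_simp

/-- **the identity at the central point** -/
theorem half_id {c : ℕ → ℂ} {R V : ℝ} {m : ℕ} {ψ : ℕ → ℂ} {F ε : ℂ → ℂ} (hL : Lin c)
    (hM : Mem c R V m ψ F) (hε : Eps R V m F ε) (N : ℕ) (L : ℝ) {δ : ℝ} (hδ0 : 0 < δ)
    (hδ1 : δ ≤ 1) :
    Integrable (fun t : ℝ => ε (pt (1 / 2 - δ) t) * Dz c ψ N (pt (1 / 2 - δ) t) *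
        Kr L (1 / 2) (pt (1 / 2 - δ) t)) ∧
    Integrable (fun t : ℝ => ε (pt (-1 / 2) t) * Dt c ψ N (pt (-1 / 2) t) *
        Kr L (1 / 2) (pt (-1 / 2) t)) ∧
    2 * Real.pi * LSeries (tw ψ fun n => E c n * ((Ph (L - Real.log n) : ℝ) : ℂ)) (1 / 2) =
      2 * Real.pi * F (1 / 2) +
      ((∫ t : ℝ, ε (pt (1 / 2 - δ) t) * Dz c ψ N (pt (1 / 2 - δ) t) *
        Kr L (1 / 2) (pt (1 / 2 - δ) t)) +
      ∫ t : ℝ, ε (pt (-1 / 2) t) * Dt c ψ N (pt (-1 / 2) t) *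
        Kr L (1 / 2) (pt (-1 / 2) t)) := by
  set ρ : ℂ := 1 / 2 with hρ
  have hρre : ρ.re = 1 / 2 := by rw [hρ]; norm_num
  have hρim : ρ.im = 0 := by rw [hρ]; norm_num
  have h1 : 1 / 2 ≤ ρ.re := by rw [hρre]
  have h2 : ρ.re ≤ 1 := by rw [hρre]; norm_num
  have hDd : Differentiable ℂ (Dz c ψ N) := rfl1_diff (cut_diff N _)
  set v : ℂ := F ρ with hv
  set G : ℂ → ℂ := fun z => F z * KN L ρ z - v * KN 0 ρ z with hG
  set f₀ : ℂ → ℂ := dslope G ρ with hf₀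
  set f₁ : ℂ → ℂ := fun z => ε z * Dz c ψ N z * Kr L ρ z with hf₁
  have hGd : Differentiable ℂ G :=
    (hM.diff.mul (KN_diff L ρ)).sub ((KN_diff 0 ρ).const_mul v)
  have hf₀d : Differentiable ℂ f₀ := by
    rw [← differentiableOn_univ]
    exact (Complex.differentiableOn_dslope Filter.univ_mem).2 hGd.differentiableOn
  have hGρ : G ρ = 0 := by
    simp only [hG, hv]
    unfold KN
    simp
  have hds3 : ∀ z : ℂ, z ≠ ρ → f₀ z = G z / (z - ρ) := by
    intro z hz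
    rw [hf₀, dslope_of_ne _ hz, slope_def_field, hGρ, sub_zero]
  have hds2 : ∀ z : ℂ, z ≠ ρ → f₀ z = F z * Kr L ρ z - v * Kr 0 ρ z := by
    intro z hz
    rw [hds3 z hz]
    unfold Kr
    simp only [hG]
    ring
  have hne : ∀ z : ℂ, z.re ≤ 1 / 2 - δ → z - ρ ≠ 0 := by
    intro z hz h
    rw [sub_eq_zero] at h
    rw [h, hρre] at hz
    linarith
  -- first bound
  obtain ⟨A, C, hgr⟩ := hM.gr
  obtain ⟨CK, hCK0, hCK⟩ := KN_bd' L A h1 h2
  obtain ⟨CK₂, hCK₂0, hCK₂⟩ := KN_bd' 0 0 h1 h2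
  have hC0 : 0 ≤ C := by
    have := (norm_nonneg _).trans (hgr (pt 0 0) ⟨by simp; norm_num, by simp⟩)
    simpa using this
  have b₀ : ∃ C' : ℝ, ∀ z ∈ strip (-1 / 2) 2, ‖f₀ z‖ ≤ C' * Real.exp (-|z.im|) := by
    refine bd_of_eventually (C := C * CK + ‖v‖ * CK₂) (T₀ := |ρ.im| + 1)
      hf₀d.continuous.continuousOn fun z hz hT => ?_
    have hz1 : 1 ≤ ‖z - ρ‖ := by
      have h3 := Complex.abs_im_le_norm (z - ρ)
      rw [sub_im] at h3
      have h4 := abs_sub_abs_le_abs_sub z.im ρ.im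
      linarith
    have hz2 : z ≠ ρ := by
      intro h
      rw [h, sub_self, norm_zero] at hz1
      linarith
    rw [hds3 z hz2, norm_div]
    refine (div_le_self (norm_nonneg _) hz1).trans ?_
    have h7 := hCK z hz
    have h8 := hCK₂ z hz
    rw [zero_mul, Real.exp_zero, one_mul] at h8
    simp only [hG]
    refine (norm_sub_le _ _).trans ?_
    rw [norm_mul, norm_mul v]
    have h9 := hgr z hz
    calc ‖F z‖ * ‖KN L ρ z‖ + ‖v‖ * ‖KN 0 ρ z‖
        ≤ (C * Real.exp (A * |z.im|)) * ‖KN L ρ z‖ + ‖v‖ * (CK₂ * Real.exp (-|z.im|)) := by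
          gcongr
      _ = C * (Real.exp (A * |z.im|) * ‖KN L ρ z‖) + ‖v‖ * (CK₂ * Real.exp (-|z.im|)) := by
          ring
      _ ≤ C * (CK * Real.exp (-|z.im|)) + ‖v‖ * (CK₂ * Real.exp (-|z.im|)) := by gcongr
      _ = _ := by ring
  obtain ⟨C₀, hC₀⟩ := b₀
  -- second bound
  obtain ⟨A', C', hgr'⟩ := hε.gr
  obtain ⟨CD, hCD0, hCD⟩ := cut_bd N (tw ψ (E c)) (1 / 2)
  obtain ⟨CK', hCK0', hCK'⟩ := KN_bd' L A' h1 h2
  have hC0' : 0 ≤ C' := by
    have := (norm_nonneg _).trans (hgr' (pt 0 0) ⟨by simp; norm_num, by simp⟩)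
    simpa using this
  have hsub : strip (-1 / 2) (1 / 2 - δ) ⊆ strip (-1 / 2) 2 :=
    fun z hz => ⟨hz.1, hz.2.trans (by linarith)⟩
  have hsub' : strip (-1 / 2) (1 / 2 - δ) ⊆ strip (-1 / 2) (1 / 2) :=
    fun z hz => ⟨hz.1, hz.2.trans (by linarith)⟩
  have hKr : DifferentiableOn ℂ (Kr L ρ) {z | z.re ≤ 1 / 2 - δ} := by
    intro z hz
    exact ((KN_diff L ρ z).div (by fun_prop) (hne z hz)).differentiableWithinAt
  have hf₁c : ContinuousOn f₁ (strip (-1 / 2) (1 / 2 - δ)) :=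
    ((hε.cont.mono hsub').mul (hDd.continuous.continuousOn)).mul
      (hKr.continuousOn.mono fun z hz => hz.2)
  have hf₁d : DifferentiableOn ℂ f₁ {z | -1 / 2 < z.re ∧ z.re < 1 / 2 - δ} :=
    ((hε.diff.mono fun z hz => ⟨hz.1, by linarith [hz.2]⟩).mul hDd.differentiableOn).mul
      (hKr.mono fun z hz => hz.2.le)
  have b₁ : ∃ C'' : ℝ, ∀ z ∈ strip (-1 / 2) (1 / 2 - δ), ‖f₁ z‖ ≤ C'' * Real.exp (-|z.im|) := by
    refine bd_of_eventually (C := C' * CD * CK') (T₀ := |ρ.im| + 1) hf₁c fun z hz hT => ?_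
    have hz1 : 1 ≤ ‖z - ρ‖ := by
      have h3 := Complex.abs_im_le_norm (z - ρ)
      rw [sub_im] at h3
      have h4 := abs_sub_abs_le_abs_sub z.im ρ.im
      linarith
    have h5 : ‖Kr L ρ z‖ ≤ ‖KN L ρ z‖ := by
      unfold Kr
      rw [norm_div]
      exact div_le_self (norm_nonneg _) hz1
    have h7 : ‖Dz c ψ N z‖ ≤ CD := by
      unfold Dz rfl1
      rw [RCLike.norm_conj]
      refine hCD _ ?_
      rw [sub_re, one_re, conj_re]
      linarith [hz.2]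
    have h8 := hCK' z (hsub hz)
    simp only [hf₁]
    rw [norm_mul, norm_mul]
    calc ‖ε z‖ * ‖Dz c ψ N z‖ * ‖Kr L ρ z‖
        ≤ (C' * Real.exp (A' * |z.im|)) * CD * ‖KN L ρ z‖ := by
          gcongr
          exact hgr' z (hsub' hz)
      _ = C' * CD * (Real.exp (A' * |z.im|) * ‖KN L ρ z‖) := by ring
      _ ≤ C' * CD * (CK' * Real.exp (-|z.im|)) := by gcongr
      _ = _ := by ring
  obtain ⟨C₁, hC₁⟩ := b₁
  obtain ⟨⟨k1, k2⟩, k3⟩ := Kr0_sides' h1 h2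
  have hδs : (-1 / 2 : ℝ) ≤ 1 / 2 - δ := by linarith
  have i0 : Integrable fun t : ℝ => f₀ (pt (-1 / 2) t) :=
    vert_int le_rfl (by norm_num) hf₀d.continuous.continuousOn hC₀
  have i2 : Integrable fun t : ℝ => f₀ (pt 2 t) :=
    vert_int (by norm_num) le_rfl hf₀d.continuous.continuousOn hC₀
  have i1 : Integrable fun t : ℝ => f₁ (pt (-1 / 2) t) :=
    vert_int le_rfl hδs hf₁c hC₁
  -- the line `Re z = 2`
  have hp2 : ∀ t : ℝ, pt 2 t ≠ ρ := by
    intro t h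
    have := congrArg Complex.re h
    rw [pt_re, hρre] at this
    norm_num at this
  have hpm : ∀ t : ℝ, pt (-1 / 2) t ≠ ρ := by
    intro t h
    have := congrArg Complex.re h
    rw [pt_re, hρre] at this
    norm_num at this
  have hb2 : LSeriesSummable (E c) 2 := ls_E hL (by norm_num)
  have s1 : (∫ t : ℝ, f₀ (pt 2 t)) + v * ∫ t : ℝ, Kr 0 ρ (pt 2 t) =
      2 * Real.pi * LSeries (tw ψ fun n => E c n * ((Ph (L - Real.log n) : ℝ) : ℂ)) ρ := by
    rw [← (right_line0 hM.le hb2 L h2).2, ← integral_const_mul,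
      ← integral_add i2 (k1.const_mul v)]
    congr 1
    funext t
    have hre : 1 < (pt 2 t).re := by rw [pt_re]; norm_num
    rw [hds2 _ (hp2 t), hM.ser _ hre]
    ring
  -- shift
  have s2 : ∫ t : ℝ, f₀ (pt (-1 / 2) t) = ∫ t : ℝ, f₀ (pt 2 t) :=
    vshift (by norm_num) hf₀d.continuous.continuousOn hf₀d.differentiableOn hC₀
  have s3 : ∫ t : ℝ, f₁ (pt (-1 / 2) t) = ∫ t : ℝ, f₁ (pt (1 / 2 - δ) t) :=
    vshift hδs hf₁c hf₁d hC₁
  have e4 : ∀ t : ℝ, ε (pt (-1 / 2) t) * Dt c ψ N (pt (-1 / 2) t) *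
        Kr L ρ (pt (-1 / 2) t) = f₀ (pt (-1 / 2) t) + v * Kr 0 ρ (pt (-1 / 2) t) -
          f₁ (pt (-1 / 2) t) := by
    intro t
    have hre : 1 < (1 - conj (pt (-1 / 2) t)).re := by
      rw [sub_re, one_re, conj_re, pt_re]; norm_num
    have h5 : rfl1 F (pt (-1 / 2) t) = Dz c ψ N (pt (-1 / 2) t) + Dt c ψ N (pt (-1 / 2) t) := by
      unfold Dz Dt rfl1
      rw [hM.ser _ hre, ← map_add]
      congr 1
      have h6 : LSeriesSummable (tl N (tw ψ (E c))) (1 - conj (pt (-1 / 2) t)) := by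
        rw [← tw_tl]
        exact ls_tw hM.le (ls_of_le hL (K := 1) (fun n => by
          rw [one_mul]
          refine (norm_tl_le _ _ _).trans ((norm_E_le c n).trans ?_)
          exact E_mono (fun k => norm_nonneg _) (fun k => by
            have := norm_nonneg (c k); linarith) n) hre)
      rw [← LSeries_add (cut_summable N _ _) h6]
      congr 1
      funext n
      exact (cut_add_tl N _ n).symm
    rw [hds2 _ (hpm t), hε.fe t, h5]
    simp only [hf₁]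
    ring
  simp only [e4]
  have i3 : Integrable fun t : ℝ => f₀ (pt (-1 / 2) t) + v * Kr 0 ρ (pt (-1 / 2) t) :=
    i0.add (k2.const_mul v)
  have i4 : Integrable fun t : ℝ => f₁ (pt (1 / 2 - δ) t) :=
    vert_int hδs le_rfl hf₁c hC₁
  refine ⟨i4, i3.sub i1, ?_⟩
  rw [integral_sub i3 i1, integral_add i0 (k2.const_mul v), integral_const_mul, ← s1, s3, s2]
  linear_combination v * k3

end Pool.Agent.NH12.GL
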