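import Pool.Agent.NH12.GL.Tw
import Pool.Agent.R399.TW.LSI
import Pool.Agent.R399.TW.Bnd
import Pool.Agent.NH12.GL.Half

/-!
# The tail of the dual sum; sums over the pairs
-/

set_option autoImplicit false

namespace Pool.Agent.NH12.GL

open Finset Filter Topology Complex MeasureTheory
open Pool.Agent.R399.TW Pool.Agent.R399.TM Pool.Agent.NH12.NV
open scoped ComplexConjugate

/-- the index set -/
noncomputable def DI (Pr : Set ℕ) (N Q : ℕ) : Finset (Σ q : ℕ, DirichletCharacter ℂ q) := by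
  classical
  exact ((DD Pr N Q).image (fun x => x.1 * x.2)).sigma (fun q => pc q)

lemma sum_DI {Pr : Set ℕ} {N Q : ℕ} {α : Type} [AddCommMonoid α]
    (f : (q : ℕ) → DirichletCharacter ℂ q → α) :
    ∑ i ∈ DI Pr N Q, f i.1 i.2 = ∑ x ∈ DD Pr N Q, ∑ χ ∈ pc (x.1 * x.2), f (x.1 * x.2) χ := by
  classical
  unfold DI
  rw [Finset.sum_sigma, Finset.sum_image]
  intro x hx y hy h
  exact DD_inj hx hy h

lemma mem_DI {Pr : Set ℕ} {N Q : ℕ} {i : Σ q : ℕ, DirichletCharacter ℂ q} : i ∈ DI Pr N Q ↔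
    (∃ x ∈ DD Pr N Q, x.1 * x.2 = i.1) ∧ i.2.IsPrimitive := by
  classical
  unfold DI
  rw [Finset.mem_sigma, Finset.mem_image, mem_pc]

lemma DI_sub (Pr : Set ℕ) (N Q : ℕ) : DI Pr N Q ⊆ idx N Q := by
  intro i hi
  rw [mem_DI] at hi
  rw [mem_idx]
  obtain ⟨⟨x, hx, hxi⟩, h2⟩ := hi
  have h3 := mem_DD.1 hx
  have h5 : 2 ≤ x.1 * x.2 := by
    have := h3.2.1.2.two_le
    have h4 := h3.1.2.1
    nlinarith
  exact ⟨⟨hxi ▸ h5, hxi ▸ h3.2.2.2.2.1⟩, hxi ▸ h3.2.2.2.2.2, h2⟩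

lemma one_add_log_leN {L : ℕ} (hL : 1 ≤ L) {η : ℝ} (hη : 0 < η) (hη1 : η ≤ 1) :
    1 + Real.log L ≤ (L : ℝ) ^ η / η := by
  have hL1 : (1 : ℝ) ≤ L := by exact_mod_cast hL
  have h4 : Real.log ((L : ℝ) ^ η) ≤ (L : ℝ) ^ η - 1 :=
    Real.log_le_sub_one_of_pos (by positivity)
  rw [Real.log_rpow (by linarith)] at h4
  rw [le_div_iff₀ hη]
  linarith

/-- the mean square of the tail of the dual sum -/
lemma tail_sq {c : ℕ → ℂ} {S : ℝ} (hL : Lin c) (hS : Sqb c S) (N : ℕ) : ∃ C : ℝ,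
    0 ≤ C ∧ ∀ (Q : ℕ) (t : ℝ), 1 ≤ Q →
      ∑ i ∈ idx N Q, ‖Dt c (chs i.2) ⌊(Q : ℝ) ^ (6 / 5 : ℝ)⌋₊ (pt (-1 / 2) t)‖ ^ 2 ≤
        C * (Q : ℝ) ^ (-(99 / 250) : ℝ) := by
  set θ : ℝ := 1 / 1000 with hθ
  have hθ0 : 0 < θ := by norm_num
  set Sθ : ℝ := Real.exp (2 * S) * θ ^ (-S) with hSθ
  have hSθ0 : 0 ≤ Sθ := by positivity
  refine ⟨60 * (16 * 3 * (1000 ^ 2 * 2) * Sθ), by positivity, ?_⟩
  intro Q t hQ
  have hX1 : (1 : ℝ) ≤ Q := by exact_mod_cast hQ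
  have hX0 : (0 : ℝ) < Q := by linarith
  set X : ℝ := (Q : ℝ) with hX
  set L : ℕ := ⌊X ^ (6 / 5 : ℝ)⌋₊ with hLdef
  have hXL : 1 ≤ X ^ (6 / 5 : ℝ) := Real.one_le_rpow hX1 (by norm_num)
  have hL1 : 1 ≤ L := Nat.le_floor (by simpa using hXL)
  have hLr1 : (1 : ℝ) ≤ L := by exact_mod_cast hL1
  have hLle : (L : ℝ) ≤ X ^ (6 / 5 : ℝ) := Nat.floor_le (by positivity)
  have hLge : X ^ (6 / 5 : ℝ) / 2 ≤ L := by
    have h1 := Nat.lt_floor_add_one (X ^ (6 / 5 : ℝ))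
    rw [← hLdef] at h1
    linarith
  have hL0 : (0 : ℝ) < L := by linarith
  have h1 := bound_C (ls_idx N hQ) (fun i _ => chs_mul i.2) hL (θ := θ) (S := Sθ) (N := L)
    (X := 1) (SB_of hS hθ0 (by norm_num)) (by norm_num [hθ]) hL1 t
  have h2 : ∀ i : (Σ q : ℕ, DirichletCharacter ℂ q), Ml c (chs i.2) 1 (pt (-1 / 2) t) = 1 := by
    intro i
    unfold Ml
    rw [LSeries_cut]
    simp [tw, chs_one, E_one]
  simp only [h2, mul_one, Real.rpow_zero, Nat.cast_one, one_pow, one_mul, zero_add] at h1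
  refine h1.trans ?_
  have h3 : 1 + X ^ 2 / L ≤ 3 * X ^ (4 / 5 : ℝ) := by
    have h4 : X ^ 2 / L ≤ 2 * X ^ (4 / 5 : ℝ) := by
      rw [div_le_iff₀ hL0]
      calc X ^ 2 = 2 * X ^ (4 / 5 : ℝ) * (X ^ (6 / 5 : ℝ) / 2) := by
            have : X ^ (4 / 5 : ℝ) * X ^ (6 / 5 : ℝ) = X ^ 2 := by
              rw [← Real.rpow_add hX0, ← Real.rpow_natCast]
              norm_num
            rw [← this]
            ring
        _ ≤ 2 * X ^ (4 / 5 : ℝ) * L := by gcongr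
    have h5 : (1 : ℝ) ≤ X ^ (4 / 5 : ℝ) := Real.one_le_rpow hX1 (by norm_num)
    linarith
  have h4 : (1 + Real.log L) ^ 2 ≤ 1000 ^ 2 * X ^ (12 * θ / 5) := by
    have h5 := one_add_log_leN hL1 hθ0 (by norm_num)
    have h6 : (L : ℝ) ^ θ / θ ≤ 1000 * X ^ (6 * θ / 5) := by
      have h7 : (L : ℝ) ^ θ ≤ X ^ (6 * θ / 5) := by
        refine (Real.rpow_le_rpow hL0.le hLle hθ0.le).trans (le_of_eq ?_)
        rw [← Real.rpow_mul hX0.le]
        congr 1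
        ring
      rw [div_le_iff₀ hθ0]
      calc (L : ℝ) ^ θ ≤ X ^ (6 * θ / 5) := h7
        _ = 1000 * X ^ (6 * θ / 5) * θ := by rw [hθ]; ring
    have h8 : 0 ≤ 1 + Real.log L := by
      have := Real.log_nonneg hLr1
      linarith
    calc (1 + Real.log L) ^ 2 ≤ (1000 * X ^ (6 * θ / 5)) ^ 2 :=
          pow_le_pow_left₀ h8 (h5.trans h6) 2
      _ = _ := by
          rw [mul_pow, ← Real.rpow_natCast (X ^ (6 * θ / 5)), ← Real.rpow_mul hX0.le]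
          congr 2
          push_cast
          ring
  have h5 : (L : ℝ) ^ (θ - 1) ≤ 2 * X ^ (6 * (θ - 1) / 5) := by
    have h6 : (L : ℝ) ^ (θ - 1) ≤ (X ^ (6 / 5 : ℝ) / 2) ^ (θ - 1) :=
      Real.rpow_le_rpow_of_nonpos (by positivity) hLge (by norm_num [hθ])
    refine h6.trans ?_
    rw [Real.div_rpow (by positivity) (by norm_num), ← Real.rpow_mul hX0.le, div_eq_mul_inv,
      ← Real.rpow_neg (by norm_num), mul_comm]
    have h7 : (2 : ℝ) ^ (-(θ - 1)) ≤ 2 := by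
      have := Real.rpow_le_rpow_of_exponent_le (show (1 : ℝ) ≤ 2 by norm_num)
        (show -(θ - 1) ≤ 1 by linarith)
      rwa [Real.rpow_one] at this
    have h8 : (6 / 5 * (θ - 1) : ℝ) = 6 * (θ - 1) / 5 := by ring
    rw [h8]
    gcongr
  have h6 : X ^ (4 / 5 : ℝ) * X ^ (12 * θ / 5) * X ^ (6 * (θ - 1) / 5) ≤ X ^ (-(99 / 250) : ℝ) := by
    rw [← Real.rpow_add hX0, ← Real.rpow_add hX0]
    exact Real.rpow_le_rpow_of_exponent_le hX1 (by norm_num [hθ])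
  calc 10 * 6 * (16 * (1 + X ^ 2 / L) * ((1 + Real.log L) ^ 2 * (L : ℝ) ^ (θ - 1)) * Sθ)
      ≤ 10 * 6 * (16 * (3 * X ^ (4 / 5 : ℝ)) * ((1000 ^ 2 * X ^ (12 * θ / 5)) *
        (2 * X ^ (6 * (θ - 1) / 5))) * Sθ) := by gcongr
    _ = 60 * (16 * 3 * (1000 ^ 2 * 2) * Sθ) * (X ^ (4 / 5 : ℝ) * X ^ (12 * θ / 5) *
        X ^ (6 * (θ - 1) / 5)) := by ring
    _ ≤ _ := by gcongr

/-- sums of integrals -/
lemma int_sum_le {ι : Type} (I : Finset ι) (w : ι → ℂ) (f : ι → ℝ → ℂ) {B : ℝ}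
    (hi : ∀ i ∈ I, w i ≠ 0 → Integrable (f i))
    (hb : ∀ t : ℝ, ‖∑ i ∈ I, w i * f i t‖ ≤ B * Real.exp (-1 * |t|)) :
    ‖∑ i ∈ I, w i * ∫ t, f i t‖ ≤ B * ∫ t : ℝ, Real.exp (-1 * |t|) := by
  have h1 : ∀ i ∈ I, Integrable (fun t => w i * f i t) := by
    intro i hiI
    by_cases h : w i = 0
    · simp [h]
    · exact (hi i hiI h).const_mul _
  have h2 : ∑ i ∈ I, w i * ∫ t, f i t = ∫ t, ∑ i ∈ I, w i * f i t := by
    rw [integral_finsetSum _ h1]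
    exact Finset.sum_congr rfl fun i _ => (integral_const_mul _ _).symm
  rw [h2, ← integral_const_mul]
  exact norm_integral_le_of_norm_le ((exp_abs_int one_pos).const_mul B)
    (Eventually.of_forall hb)

end Pool.Agent.NH12.GL
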