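import Pool.Agent.NH12.GL.Short
import Pool.Agent.NH12.GL.Tail

/-!
# The first moment
-/

set_option autoImplicit false

namespace Pool.Agent.NH12.GL

open Finset Filter Topology Complex MeasureTheory
open Pool.Agent.R399.TW Pool.Agent.R399.TM Pool.Agent.NH12.NV
open scoped ComplexConjugate

/-- the coefficients of the direct sum -/
noncomputable def vv (c : ℕ → ℂ) (Λ : ℝ) (n : ℕ) : ℂ :=
  E c n * ((Ph (Λ - Real.log n) : ℝ) : ℂ) * (n : ℂ) ^ (-(1 / 2) : ℂ)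

lemma vv_zero (c : ℕ → ℂ) (Λ : ℝ) : vv c Λ 0 = 0 := by unfold vv; simp [E_zero]

lemma vv_one (c : ℕ → ℂ) (Λ : ℝ) : vv c Λ 1 = ((Ph Λ : ℝ) : ℂ) := by unfold vv; simp [E_one]

lemma ls_vv (c : ℕ → ℂ) (Λ : ℝ) {q : ℕ} (χ : DirichletCharacter ℂ q) :
    LSeries (tw (chs χ) fun n => E c n * ((Ph (Λ - Real.log n) : ℝ) : ℂ)) (1 / 2) =
      ∑' n : ℕ, χ (n : ZMod q) * vv c Λ n := by
  unfold LSeries
  refine tsum_congr fun n => ?_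
  rcases eq_or_ne n 0 with rfl | hn
  · rw [vv_zero, LSeries.term_zero, mul_zero]
  · rw [LSeries.term_of_ne_zero hn]
    unfold tw chs vv
    rw [Complex.cpow_neg, div_eq_mul_inv]
    ring

/-- decay of the smoothing -/
lemma Ph_le_exp {x θ : ℝ} (h0 : 0 ≤ θ) (h3 : θ ≤ 3) : Ph x ≤ Real.exp 9 * Real.exp (θ * x) := by
  rcases le_total 0 x with h | h
  · have h1 := Ph_le_one x
    have h2 : 1 ≤ Real.exp 9 := Real.one_le_exp (by norm_num)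
    have h4 : 1 ≤ Real.exp (θ * x) := Real.one_le_exp (by positivity)
    nlinarith
  · refine (Ph_decay x).trans (mul_le_mul_of_nonneg_left (Real.exp_le_exp.2 ?_) (by positivity))
    nlinarith

lemma vv_sum {c : ℕ → ℂ} (hL : Lin c) : ∃ C : ℝ, 0 ≤ C ∧ ∀ Q : ℕ, 1 ≤ Q →
    Summable (fun n : ℕ => ‖vv c (183 / 100 * Real.log Q) n‖ * (n : ℝ) ^ (1 / 1000 : ℝ)) ∧
    ∑' n : ℕ, ‖vv c (183 / 100 * Real.log Q) n‖ * (n : ℝ) ^ (1 / 1000 : ℝ) ≤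
      C * (Q : ℝ) ^ (919 / 1000 : ℝ) := by
  have hs := hL.summ (σ := 1001 / 1000) (by norm_num)
  refine ⟨Real.exp 9 * ∑' n : ℕ, E (fun k => ‖c k‖) n * (n : ℝ) ^ (-(1001 / 1000) : ℝ),
    mul_nonneg (by positivity) (tsum_nonneg fun n => mul_nonneg
      (E_nonneg (fun k => norm_nonneg _) n) (by positivity)), ?_⟩
  intro Q hQ
  have hX1 : (1 : ℝ) ≤ Q := by exact_mod_cast hQ
  have hX0 : (0 : ℝ) < Q := by linarith
  have hle : ∀ n : ℕ, ‖vv c (183 / 100 * Real.log Q) n‖ * (n : ℝ) ^ (1 / 1000 : ℝ) ≤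
      (Real.exp 9 * (Q : ℝ) ^ (919 / 1000 : ℝ)) *
        (E (fun k => ‖c k‖) n * (n : ℝ) ^ (-(1001 / 1000) : ℝ)) := by
    intro n
    have h0 := E_nonneg (κ := fun k => ‖c k‖) (fun k => norm_nonneg _) n
    rcases eq_or_ne n 0 with rfl | hn
    · rw [vv_zero, norm_zero, zero_mul]
      positivity
    · have hn0 : (0 : ℝ) < n := by exact_mod_cast Nat.pos_of_ne_zero hn
      unfold vv
      rw [norm_mul, norm_mul, Complex.norm_real, Real.norm_of_nonneg (Ph_nn _),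
        Complex.norm_natCast_cpow_of_pos (Nat.pos_of_ne_zero hn)]
      have h1 := norm_E_le c n
      have h2 := Ph_le_exp (x := 183 / 100 * Real.log Q - Real.log n) (θ := 502 / 1000)
        (by norm_num) (by norm_num)
      have h3 : Real.exp (502 / 1000 * (183 / 100 * Real.log Q - Real.log n)) ≤
          (Q : ℝ) ^ (919 / 1000 : ℝ) * (n : ℝ) ^ (-(502 / 1000) : ℝ) := by
        rw [Real.rpow_def_of_pos hX0, Real.rpow_def_of_pos hn0, ← Real.exp_add]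
        apply Real.exp_le_exp.2
        have := Real.log_nonneg hX1
        linarith
      have h4 : ((-(1 / 2) : ℂ)).re = -(1 / 2) := by norm_num
      rw [h4]
      have h5 : (n : ℝ) ^ (-(502 / 1000) : ℝ) * (n : ℝ) ^ (-(1 / 2) : ℝ) *
          (n : ℝ) ^ (1 / 1000 : ℝ) = (n : ℝ) ^ (-(1001 / 1000) : ℝ) := by
        rw [← Real.rpow_add hn0, ← Real.rpow_add hn0]
        norm_num
      calc ‖E c n‖ * Ph (183 / 100 * Real.log Q - Real.log n) * (n : ℝ) ^ (-(1 / 2) : ℝ) *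
            (n : ℝ) ^ (1 / 1000 : ℝ)
          ≤ E (fun k => ‖c k‖) n * (Real.exp 9 * ((Q : ℝ) ^ (919 / 1000 : ℝ) *
            (n : ℝ) ^ (-(502 / 1000) : ℝ))) * (n : ℝ) ^ (-(1 / 2) : ℝ) *
            (n : ℝ) ^ (1 / 1000 : ℝ) := by
            have h6 : Ph (183 / 100 * Real.log Q - Real.log n) ≤ Real.exp 9 *
                ((Q : ℝ) ^ (919 / 1000 : ℝ) * (n : ℝ) ^ (-(502 / 1000) : ℝ)) :=
              h2.trans (mul_le_mul_of_nonneg_left h3 (by positivity))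
            have h7 := Ph_nn (183 / 100 * Real.log Q - Real.log n)
            gcongr
        _ = (Real.exp 9 * (Q : ℝ) ^ (919 / 1000 : ℝ)) * (E (fun k => ‖c k‖) n *
            ((n : ℝ) ^ (-(502 / 1000) : ℝ) * (n : ℝ) ^ (-(1 / 2) : ℝ) *
            (n : ℝ) ^ (1 / 1000 : ℝ))) := by ring
        _ = _ := by rw [h5]
  have hs2 := hs.mul_left (Real.exp 9 * (Q : ℝ) ^ (919 / 1000 : ℝ))
  have hs1 : Summable (fun n : ℕ => ‖vv c (183 / 100 * Real.log Q) n‖ *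
      (n : ℝ) ^ (1 / 1000 : ℝ)) :=
    Summable.of_nonneg_of_le (fun n => by positivity) hle hs2
  refine ⟨hs1, (hs1.tsum_le_tsum hle hs2).trans (le_of_eq ?_)⟩
  rw [tsum_mul_left]
  ring

/-- the kernel on the two lines -/
lemma Kr_short {Λ : ℝ} (hΛ : 0 ≤ Λ) (t : ℝ) :
    ‖Kr Λ (1 / 2) (pt (249 / 500) t)‖ ≤ 500 * Real.exp 1 * Real.exp (-t ^ 2) := by
  have hre : ((1 / 2 : ℂ)).re = 1 / 2 := by norm_num
  have him : ((1 / 2 : ℂ)).im = 0 := by norm_num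
  unfold Kr
  rw [norm_div, norm_KN, hre, him, sub_zero]
  have h1 : 1 / 500 ≤ ‖pt (249 / 500) t - 1 / 2‖ := by
    have h2 := Complex.abs_re_le_norm (pt (249 / 500) t - 1 / 2)
    rw [sub_re, pt_re, hre] at h2
    refine le_trans ?_ h2
    norm_num [abs_of_nonpos]
  rw [div_le_iff₀ (by linarith)]
  have h3 : Real.exp ((249 / 500 - 1 / 2 : ℝ) ^ 2 + Λ * (249 / 500 - 1 / 2)) ≤ Real.exp 1 := by
    apply Real.exp_le_exp.2
    nlinarith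
  calc Real.exp ((249 / 500 - 1 / 2 : ℝ) ^ 2 + Λ * (249 / 500 - 1 / 2)) * Real.exp (-t ^ 2)
      ≤ Real.exp 1 * Real.exp (-t ^ 2) := by gcongr
    _ = 500 * Real.exp 1 * Real.exp (-t ^ 2) * (1 / 500) := by ring
    _ ≤ _ := by gcongr

lemma Kr_left (Λ t : ℝ) :
    ‖Kr Λ (1 / 2) (pt (-1 / 2) t)‖ ≤ Real.exp 1 * Real.exp (-Λ) * Real.exp (-t ^ 2) := by
  have hre : ((1 / 2 : ℂ)).re = 1 / 2 := by norm_num
  have him : ((1 / 2 : ℂ)).im = 0 := by norm_num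
  unfold Kr
  rw [norm_div, norm_KN, hre, him, sub_zero]
  have h1 : 1 ≤ ‖pt (-1 / 2) t - 1 / 2‖ := by
    have h2 := Complex.abs_re_le_norm (pt (-1 / 2) t - 1 / 2)
    rw [sub_re, pt_re, hre] at h2
    refine le_trans ?_ h2
    norm_num
  refine (div_le_self (by positivity) h1).trans (le_of_eq ?_)
  rw [← Real.exp_add, ← Real.exp_add, ← Real.exp_add]
  congr 1
  ring

lemma cube_exp (t : ℝ) : (1 + |t|) ^ 3 * Real.exp (-t ^ 2) ≤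
    6 * Real.exp 1 * (Real.exp (1 * |t|) * Real.exp (-(t - 0) ^ 2)) := by
  have h1 : (1 + |t|) ^ 3 ≤ 6 * Real.exp (1 + |t|) := by
    have h2 := Real.pow_div_factorial_le_exp (1 + |t|) (by positivity) 3
    have h3 : ((Nat.factorial 3 : ℕ) : ℝ) = 6 := by norm_num [Nat.factorial]
    rw [h3, div_le_iff₀ (by norm_num)] at h2
    linarith
  rw [sub_zero, one_mul]
  calc (1 + |t|) ^ 3 * Real.exp (-t ^ 2) ≤ 6 * Real.exp (1 + |t|) * Real.exp (-t ^ 2) := by gcongr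
    _ = _ := by
      rw [Real.exp_add]
      ring

variable {Pr : Set ℕ} {N : ℕ} {e : ℂ} {R V S : ℝ} {c : ℕ → ℂ}
  {F ep : (q : ℕ) → DirichletCharacter ℂ q → ℂ → ℂ} {g : ℂ → ℂ} {b : ℕ → ℕ → ℂ}
  {u : (r : ℕ) → DirichletCharacter ℂ r → ℂ} {v : ℕ → ℤ} {M : ℤ}

/-- the functional equations for the characters in the index set -/
lemma eps_of_mem (hcrt : S_crt) (he : e = 1 ∨ e = -1)
    (hT : TwM 3 Pr N e R V S c F ep g b u v M) {Q : ℕ} :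
    ∀ i ∈ DI Pr N Q, par e i.2 ≠ 0 →
      Eps (R * (i.1 : ℝ) ^ 3) V 3 (F i.1 i.2) (ep i.1 i.2) ∧ (i.1 : ℝ) ≤ Q := by
  rintro ⟨q, χ⟩ hi hpar
  rw [mem_DI] at hi
  obtain ⟨⟨x, hx, hxq⟩, hχ⟩ := hi
  simp only at hxq hχ hpar ⊢
  subst hxq
  have hx' := mem_DD.1 hx
  have : NeZero x.1 := ⟨by omega⟩
  have : NeZero x.2 := ⟨by omega⟩
  have : NeZero (x.1 * x.2) := ⟨mul_ne_zero (NeZero.ne _) (NeZero.ne _)⟩
  have hco : Nat.Coprime x.1 x.2 := DD_cop hx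
  obtain ⟨-, c2, -⟩ := hcrt x.1 x.2 hco
  -- every primitive character is a product
  have hex : ∃ χ₁ ∈ pc x.1, ∃ χ₂ ∈ pc x.2, pr x.1 x.2 χ₁ χ₂ = χ := by
    classical
    by_contra hcon
    push Not at hcon
    have h1 := c2 (fun ψ => if ψ = χ then 1 else 0)
    have h2 : ∑ ψ ∈ pc (x.1 * x.2), (if ψ = χ then (1 : ℂ) else 0) = 1 := by
      rw [Finset.sum_eq_single χ]
      · simp
      · intro ψ _ hψ
        rw [if_neg hψ]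
      · intro h
        exact absurd (mem_pc.2 hχ) h
    have h3 : ∑ χ₁ ∈ pc x.1, ∑ χ₂ ∈ pc x.2,
        (if pr x.1 x.2 χ₁ χ₂ = χ then (1 : ℂ) else 0) = 0 := by
      refine Finset.sum_eq_zero fun χ₁ h₁ => Finset.sum_eq_zero fun χ₂ h₂ => ?_
      rw [if_neg (hcon χ₁ h₁ χ₂ h₂)]
    rw [h2, h3] at h1
    exact one_ne_zero h1
  obtain ⟨χ₁, h₁, χ₂, h₂, rfl⟩ := hex
  have hpe : pr x.1 x.2 χ₁ χ₂ (-1) = e := by
    by_contra hne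
    rw [par_eq he, if_neg hne] at hpar
    exact hpar rfl
  refine ⟨(hT.eps x.1 x.2 χ₁ χ₂ (DD_two hx) hx'.2.1.1 hx'.2.1.2 hco hx'.2.2.2.2.2
    (mem_pc.1 h₁) (mem_pc.1 h₂) hpe).1, ?_⟩
  exact_mod_cast hx'.2.2.2.2.1

/-- **the first moment** -/
theorem first3 (hcrt : S_crt) (hbil : S_bil) (hA : S_Af) (hG : S_Gf)
    (hdiv : Pool.Agent.W192.CY.S_DIV) (he : e = 1 ∨ e = -1)
    (hT : TwM 3 Pr N e R V S c F ep g b u v M) {B : ℝ} (hB : 0 ≤ B) : ∃ C : ℝ, 0 ≤ C ∧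
    ∀ (Q K : ℕ) (a : ℕ → ℂ), 1 ≤ Q → 1 ≤ K → (K : ℝ) ≤ 2 * (Q : ℝ) ^ (1 / 8 : ℝ) → a 1 = 1 →
      ∑ k ∈ Icc 1 K, ‖a k‖ ^ 2 ≤ B * (Q : ℝ) ^ (1 / 1000 : ℝ) →
      ‖∑ i ∈ DI Pr N Q, par e i.2 * (F i.1 i.2 (1 / 2) *
          ∑ k ∈ Icc 1 K, a k * i.2 (k : ZMod i.1)) -
        ((Ph (183 / 100 * Real.log Q) : ℝ) : ℂ) * ∑ i ∈ DI Pr N Q, par e i.2‖ ≤
      C * (Q : ℝ) ^ (199 / 100 : ℝ) := by
  obtain ⟨Cd, hCd0, hCd, -⟩ := hdiv (1 / 1000) (by norm_num)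
  obtain ⟨C₁, hC₁0, hC₁⟩ := vv_sum hT.lin
  obtain ⟨C₂, hC₂0, hC₂⟩ := short_t hcrt hbil hA hG he hT
  obtain ⟨C₃, hC₃0, hC₃⟩ := tail_sq hT.lin hT.sq N
  obtain ⟨Ag, Cg, hg⟩ := hT.g_gr
  obtain ⟨C₄, hC₄0, hC₄⟩ := gdec Ag 0
  obtain ⟨C₅, hC₅0, hC₅⟩ := gdec 1 0
  have hR := hT.R_pos
  have hV := hT.V_nn
  set CI : ℝ := ∫ t : ℝ, Real.exp (-1 * |t|) with hCI
  have hCI0 : 0 ≤ CI := integral_nonneg fun _ => (Real.exp_pos _).le
  set D₁ : ℝ := 3 * Cd * (2 * Real.sqrt (2 * B) * C₁) with hD₁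
  set D₂ : ℝ := C₂ * (500 * Real.exp 1 * (|Cg| * C₄)) * Real.sqrt (2 * B) with hD₂
  set D₃ : ℝ := R * V ^ 3 * Real.exp 1 * (6 * Real.exp 1 * C₅) * Real.sqrt (18 * B) *
    Real.sqrt C₃ with hD₃
  have hD₁0 : 0 ≤ D₁ := by positivity
  have hD₂0 : 0 ≤ D₂ := by positivity
  have hD₃0 : 0 ≤ D₃ := by positivity
  refine ⟨D₁ + (D₂ + D₃) * CI, by positivity, ?_⟩
  intro Q K a hQ hK hKQ ha1 ha
  have hX1 : (1 : ℝ) ≤ Q := by exact_mod_cast hQ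
  have hX0 : (0 : ℝ) < Q := by linarith
  have hlog : 0 ≤ Real.log Q := Real.log_nonneg hX1
  have hK0 : (0 : ℝ) < K := by exact_mod_cast hK
  set Λ : ℝ := 183 / 100 * Real.log Q with hΛ
  have hΛ0 : 0 ≤ Λ := by positivity
  set L : ℕ := ⌊(Q : ℝ) ^ (6 / 5 : ℝ)⌋₊ with hLdef
  have hL1 : 1 ≤ L := Nat.le_floor (by
    have : 1 ≤ (Q : ℝ) ^ (6 / 5 : ℝ) := Real.one_le_rpow hX1 (by norm_num)
    simpa using this)
  have hLle : (L : ℝ) ≤ (Q : ℝ) ^ (6 / 5 : ℝ) := Nat.floor_le (by positivity)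
  -- the sum of the coefficients
  have hasum : ∑ k ∈ Icc 1 K, ‖a k‖ ≤ Real.sqrt (2 * B) * (Q : ℝ) ^ (63 / 1000 : ℝ) := by
    have h1 : (∑ k ∈ Icc 1 K, ‖a k‖) ^ 2 ≤ K * ∑ k ∈ Icc 1 K, ‖a k‖ ^ 2 := by
      have := sq_sum_le_card_mul_sum_sq (s := Icc 1 K) (f := fun k => ‖a k‖)
      rwa [Nat.card_Icc, Nat.add_sub_cancel] at this
    have h2 : (∑ k ∈ Icc 1 K, ‖a k‖) ^ 2 ≤ (Real.sqrt (2 * B) * (Q : ℝ) ^ (63 / 1000 : ℝ)) ^ 2 := by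
      rw [mul_pow, Real.sq_sqrt (by positivity)]
      refine h1.trans ?_
      calc (K : ℝ) * ∑ k ∈ Icc 1 K, ‖a k‖ ^ 2
          ≤ (2 * (Q : ℝ) ^ (1 / 8 : ℝ)) * (B * (Q : ℝ) ^ (1 / 1000 : ℝ)) := by gcongr
        _ = 2 * B * ((Q : ℝ) ^ (1 / 8 : ℝ) * (Q : ℝ) ^ (1 / 1000 : ℝ)) := by ring
        _ = 2 * B * ((Q : ℝ) ^ (63 / 1000 : ℝ)) ^ 2 := by
            rw [← Real.rpow_add hX0, ← Real.rpow_natCast, ← Real.rpow_mul hX0.le]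
            norm_num
    exact (pow_le_pow_iff_left₀ (Finset.sum_nonneg fun _ _ => norm_nonneg _) (by positivity)
      (by norm_num)).1 h2
  have hasum0 : 0 ≤ ∑ k ∈ Icc 1 K, ‖a k‖ := Finset.sum_nonneg fun _ _ => norm_nonneg _
  set Mi : (Σ q : ℕ, DirichletCharacter ℂ q) → ℂ := fun i =>
    ∑ k ∈ Icc 1 K, a k * i.2 (k : ZMod i.1) with hMi
  -- the identity
  set I₁ : (Σ q : ℕ, DirichletCharacter ℂ q) → ℝ → ℂ := fun i t =>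
    ep i.1 i.2 (pt (1 / 2 - 1 / 500) t) * Dz c (chs i.2) L (pt (1 / 2 - 1 / 500) t) *
      Kr Λ (1 / 2) (pt (1 / 2 - 1 / 500) t) with hI₁
  set I₂ : (Σ q : ℕ, DirichletCharacter ℂ q) → ℝ → ℂ := fun i t =>
    ep i.1 i.2 (pt (-1 / 2) t) * Dt c (chs i.2) L (pt (-1 / 2) t) *
      Kr Λ (1 / 2) (pt (-1 / 2) t) with hI₂
  have hid : ∀ i ∈ DI Pr N Q, par e i.2 ≠ 0 → Integrable (I₁ i) ∧ Integrable (I₂ i) ∧
      2 * Real.pi * ∑' n : ℕ, i.2 (n : ZMod i.1) * vv c Λ n =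
        2 * Real.pi * F i.1 i.2 (1 / 2) + ((∫ t, I₁ i t) + ∫ t, I₂ i t) := by
    intro i hi hpar
    have h1 := DI_sub Pr N Q hi
    rw [mem_idx] at h1
    have h2 := hT.mem i.1 i.2 h1.1.1 h1.2.1 h1.2.2
    have h3 := (eps_of_mem hcrt he hT i hi hpar).1
    have h4 := half_id hT.lin h2 h3 L Λ (δ := 1 / 500) (by norm_num) (by norm_num)
    rw [ls_vv] at h4
    exact h4
  have hpi : (2 * (Real.pi : ℂ)) ≠ 0 := by
    have h5 : (Real.pi : ℂ) ≠ 0 := by exact_mod_cast Real.pi_pos.ne'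
    simpa using h5
  have hF : ∀ i ∈ DI Pr N Q, par e i.2 * (F i.1 i.2 (1 / 2) * Mi i) =
      par e i.2 * ((∑' n : ℕ, i.2 (n : ZMod i.1) * vv c Λ n) * Mi i) -
      (2 * (Real.pi : ℂ))⁻¹ * ((par e i.2 * Mi i) * ∫ t, I₁ i t) -
      (2 * (Real.pi : ℂ))⁻¹ * ((par e i.2 * Mi i) * ∫ t, I₂ i t) := by
    intro i hi
    by_cases hpar : par e i.2 = 0
    · rw [hpar]
      ring
    · obtain ⟨-, -, h3⟩ := hid i hi hpar
      have h4 : F i.1 i.2 (1 / 2) = (∑' n : ℕ, i.2 (n : ZMod i.1) * vv c Λ n) -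
          (2 * (Real.pi : ℂ))⁻¹ * ((∫ t, I₁ i t) + ∫ t, I₂ i t) := by
        have h5 : (2 * (Real.pi : ℂ))⁻¹ * ((∫ t, I₁ i t) + ∫ t, I₂ i t) =
            (∑' n : ℕ, i.2 (n : ZMod i.1) * vv c Λ n) - F i.1 i.2 (1 / 2) := by
          rw [inv_mul_eq_iff_eq_mul₀ hpi]
          linear_combination -h3
        rw [h5]
        ring
      rw [h4]
      ring
  rw [Finset.sum_congr rfl hF, Finset.sum_sub_distrib, Finset.sum_sub_distrib, ← Finset.mul_sum,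
    ← Finset.mul_sum]
  -- the direct part
  obtain ⟨v1, v2⟩ := hC₁ Q hQ
  rw [← hΛ] at v1 v2
  have d1 : ‖∑ i ∈ DI Pr N Q, par e i.2 * ((∑' n : ℕ, i.2 (n : ZMod i.1) * vv c Λ n) * Mi i) -
      ((Ph Λ : ℝ) : ℂ) * ∑ i ∈ DI Pr N Q, par e i.2‖ ≤ D₁ * (Q : ℝ) ^ (199 / 100 : ℝ) := by
    have h1 := direct (e := e) (by rcases he with rfl | rfl <;> simp) (η := 1 / 1000)
      (by norm_num) (by norm_num) hCd hCd0.le (vv_zero c Λ) v1 (Pr := Pr) (N := N) (Q := Q) hK ha1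
    rw [vv_one] at h1
    have e1 : ∑ i ∈ DI Pr N Q, par e i.2 * ((∑' n : ℕ, i.2 (n : ZMod i.1) * vv c Λ n) * Mi i) =
        ∑ x ∈ DD Pr N Q, ∑ χ ∈ pc (x.1 * x.2), par e χ *
        ((∑' n : ℕ, χ (n : ZMod (x.1 * x.2)) * vv c Λ n) *
          ∑ k ∈ Icc 1 K, a k * χ (k : ZMod (x.1 * x.2))) :=
      sum_DI (fun q χ => par e χ * ((∑' n : ℕ, χ (n : ZMod q) * vv c Λ n) *
          ∑ k ∈ Icc 1 K, a k * χ (k : ZMod q)))
    have e2 : ∑ i ∈ DI Pr N Q, par e i.2 = ∑ x ∈ DD Pr N Q, ∑ χ ∈ pc (x.1 * x.2), par e χ :=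
      sum_DI (fun q χ => par e χ)
    rw [e1, e2]
    refine h1.trans ?_
    have h2 : ∑ k ∈ Icc 1 K, ‖a k‖ * (k : ℝ) ^ (1 / 1000 : ℝ) ≤
        2 * Real.sqrt (2 * B) * (Q : ℝ) ^ (64 / 1000 : ℝ) := by
      have h3 : (K : ℝ) ^ (1 / 1000 : ℝ) ≤ 2 * (Q : ℝ) ^ (1 / 1000 : ℝ) := by
        calc (K : ℝ) ^ (1 / 1000 : ℝ) ≤ (2 * (Q : ℝ) ^ (1 / 8 : ℝ)) ^ (1 / 1000 : ℝ) :=
              Real.rpow_le_rpow hK0.le hKQ (by norm_num)
          _ = 2 ^ (1 / 1000 : ℝ) * (Q : ℝ) ^ (1 / 8000 : ℝ) := by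
              rw [Real.mul_rpow (by norm_num) (by positivity), ← Real.rpow_mul hX0.le]
              norm_num
          _ ≤ 2 ^ (1 : ℝ) * (Q : ℝ) ^ (1 / 1000 : ℝ) := by
              have h4 := Real.rpow_le_rpow_of_exponent_le (show (1 : ℝ) ≤ 2 by norm_num)
                (show (1 / 1000 : ℝ) ≤ 1 by norm_num)
              have h5 := Real.rpow_le_rpow_of_exponent_le hX1
                (show (1 / 8000 : ℝ) ≤ 1 / 1000 by norm_num)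
              gcongr
          _ = _ := by rw [Real.rpow_one]
      have h4 : ∀ k ∈ Icc 1 K, ‖a k‖ * (k : ℝ) ^ (1 / 1000 : ℝ) ≤
          ‖a k‖ * (2 * (Q : ℝ) ^ (1 / 1000 : ℝ)) := by
        intro k hk
        rw [mem_Icc] at hk
        have h5 : (k : ℝ) ≤ K := by exact_mod_cast hk.2
        have h6 := Real.rpow_le_rpow (Nat.cast_nonneg k) h5 (show (0 : ℝ) ≤ 1 / 1000 by norm_num)
        exact mul_le_mul_of_nonneg_left (h6.trans h3) (norm_nonneg _)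
      refine (Finset.sum_le_sum h4).trans ?_
      rw [← Finset.sum_mul]
      calc (∑ k ∈ Icc 1 K, ‖a k‖) * (2 * (Q : ℝ) ^ (1 / 1000 : ℝ))
          ≤ (Real.sqrt (2 * B) * (Q : ℝ) ^ (63 / 1000 : ℝ)) * (2 * (Q : ℝ) ^ (1 / 1000 : ℝ)) := by
            gcongr
        _ = 2 * Real.sqrt (2 * B) * ((Q : ℝ) ^ (63 / 1000 : ℝ) * (Q : ℝ) ^ (1 / 1000 : ℝ)) := by
            ring
        _ = _ := by
            rw [← Real.rpow_add hX0]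
            norm_num
    have h3 : (Q : ℝ) * ((Q : ℝ) ^ (64 / 1000 : ℝ) * (Q : ℝ) ^ (919 / 1000 : ℝ)) ≤
        (Q : ℝ) ^ (199 / 100 : ℝ) := by
      have h4 : (Q : ℝ) * ((Q : ℝ) ^ (64 / 1000 : ℝ) * (Q : ℝ) ^ (919 / 1000 : ℝ)) =
          (Q : ℝ) ^ (1983 / 1000 : ℝ) := by
        rw [← Real.rpow_add hX0]
        nth_rewrite 1 [← Real.rpow_one (Q : ℝ)]
        rw [← Real.rpow_add hX0]
        norm_num
      rw [h4]
      exact Real.rpow_le_rpow_of_exponent_le hX1 (by norm_num)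
    have h5 : 0 ≤ ∑' n : ℕ, ‖vv c Λ n‖ * (n : ℝ) ^ (1 / 1000 : ℝ) :=
      tsum_nonneg fun n => by positivity
    calc (Q : ℝ) * (3 * Cd * ((∑ k ∈ Icc 1 K, ‖a k‖ * (k : ℝ) ^ (1 / 1000 : ℝ)) *
          ∑' n : ℕ, ‖vv c Λ n‖ * (n : ℝ) ^ (1 / 1000 : ℝ)))
        ≤ (Q : ℝ) * (3 * Cd * ((2 * Real.sqrt (2 * B) * (Q : ℝ) ^ (64 / 1000 : ℝ)) *
          (C₁ * (Q : ℝ) ^ (919 / 1000 : ℝ)))) := by gcongr
      _ = D₁ * ((Q : ℝ) * ((Q : ℝ) ^ (64 / 1000 : ℝ) * (Q : ℝ) ^ (919 / 1000 : ℝ))) := by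
          rw [hD₁]
          ring
      _ ≤ _ := by gcongr
  -- the short part
  have d2 : ‖∑ i ∈ DI Pr N Q, (par e i.2 * Mi i) * ∫ t, I₁ i t‖ ≤
      D₂ * (Q : ℝ) ^ (199 / 100 : ℝ) * CI := by
    refine int_sum_le _ _ _ (fun i hi hw => (hid i hi (left_ne_zero_of_mul hw)).1) fun t => ?_
    have hzz : (1 / 2 - 1 / 500 : ℝ) = 249 / 500 := by norm_num
    have h1 : ∑ i ∈ DI Pr N Q, (par e i.2 * Mi i) * I₁ i t =
        (∑ x ∈ DD Pr N Q, ∑ χ ∈ pc (x.1 * x.2), par e χ *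
        ((∑ k ∈ Icc 1 K, a k * χ (k : ZMod (x.1 * x.2))) *
        (ep (x.1 * x.2) χ (pt (249 / 500) t) * Dz c (chs χ) L (pt (249 / 500) t)))) *
          Kr Λ (1 / 2) (pt (249 / 500) t) := by
      rw [← sum_DI (fun q χ => par e χ * ((∑ k ∈ Icc 1 K, a k * χ (k : ZMod q)) *
        (ep q χ (pt (249 / 500) t) * Dz c (chs χ) L (pt (249 / 500) t)))), Finset.sum_mul]
      refine Finset.sum_congr rfl fun i _ => ?_
      rw [hI₁]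
      simp only
      rw [hzz, hMi]
      simp only
      ring
    rw [h1, norm_mul]
    have h2 := hC₂ Q L K a t hQ hL1 hLle
    have h3 := Kr_short hΛ0 t
    have h4 : ‖g (pt (249 / 500) t)‖ ≤ |Cg| * Real.exp (Ag * |t|) := by
      refine (hg _ ⟨by rw [pt_re]; norm_num, by rw [pt_re]; norm_num⟩).trans ?_
      rw [pt_im]
      gcongr
      exact le_abs_self _
    have h5 := hC₄ t
    rw [sub_zero] at h5
    have h6 : (Q : ℝ) ^ (63 / 1000 : ℝ) * (Q : ℝ) ^ (1919 / 1000 : ℝ) ≤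
        (Q : ℝ) ^ (199 / 100 : ℝ) := by
      rw [← Real.rpow_add hX0]
      exact Real.rpow_le_rpow_of_exponent_le hX1 (by norm_num)
    have h7 : -1 * |t| = -|t| := by ring
    rw [h7]
    calc _ ≤ (C₂ * ‖g (pt (249 / 500) t)‖ * (∑ k ∈ Icc 1 K, ‖a k‖) *
          (Q : ℝ) ^ (1919 / 1000 : ℝ)) * (500 * Real.exp 1 * Real.exp (-t ^ 2)) := by gcongr
      _ ≤ (C₂ * (|Cg| * Real.exp (Ag * |t|)) * (Real.sqrt (2 * B) * (Q : ℝ) ^ (63 / 1000 : ℝ)) *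
          (Q : ℝ) ^ (1919 / 1000 : ℝ)) * (500 * Real.exp 1 * Real.exp (-t ^ 2)) := by gcongr
      _ = C₂ * (500 * Real.exp 1 * |Cg|) * Real.sqrt (2 * B) *
          (Real.exp (Ag * |t|) * Real.exp (-t ^ 2)) *
          ((Q : ℝ) ^ (63 / 1000 : ℝ) * (Q : ℝ) ^ (1919 / 1000 : ℝ)) := by ring
      _ ≤ C₂ * (500 * Real.exp 1 * |Cg|) * Real.sqrt (2 * B) * (C₄ * Real.exp (-|t|)) *
          (Q : ℝ) ^ (199 / 100 : ℝ) := by gcongr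
      _ = _ := by rw [hD₂]; ring
  -- the tail
  have d3 : ‖∑ i ∈ DI Pr N Q, (par e i.2 * Mi i) * ∫ t, I₂ i t‖ ≤
      D₃ * (Q : ℝ) ^ (199 / 100 : ℝ) * CI := by
    refine int_sum_le _ _ _ (fun i hi hw => (hid i hi (left_ne_zero_of_mul hw)).2.1) fun t => ?_
    have hM2 : ∑ i ∈ DI Pr N Q, ‖Mi i‖ ^ 2 ≤ 18 * B * (Q : ℝ) ^ (2001 / 1000 : ℝ) := by
      refine (Finset.sum_le_sum_of_subset_of_nonneg (DI_sub Pr N Q)
        fun _ _ _ => by positivity).trans ?_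
      have h1 := (ls_idx N hQ).ls K a
      rw [Real.rpow_zero, mul_one] at h1
      refine h1.trans ?_
      have h2 : (K : ℝ) ≤ 2 * (Q : ℝ) ^ 2 := by
        refine hKQ.trans ?_
        have h3 : (Q : ℝ) ^ (1 / 8 : ℝ) ≤ (Q : ℝ) ^ 2 := by
          rw [← Real.rpow_natCast]
          exact Real.rpow_le_rpow_of_exponent_le hX1 (by norm_num)
        gcongr
      have h3 : (Q : ℝ) ^ 2 * (Q : ℝ) ^ (1 / 1000 : ℝ) = (Q : ℝ) ^ (2001 / 1000 : ℝ) := by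
        rw [← Real.rpow_natCast, ← Real.rpow_add hX0]
        norm_num
      have h4 : 0 ≤ ∑ k ∈ Icc 1 K, ‖a k‖ ^ 2 := Finset.sum_nonneg fun _ _ => by positivity
      calc 6 * ((Q : ℝ) ^ 2 + K) * ∑ k ∈ Icc 1 K, ‖a k‖ ^ 2
          ≤ 6 * ((Q : ℝ) ^ 2 + 2 * (Q : ℝ) ^ 2) * (B * (Q : ℝ) ^ (1 / 1000 : ℝ)) := by gcongr
        _ = 18 * B * ((Q : ℝ) ^ 2 * (Q : ℝ) ^ (1 / 1000 : ℝ)) := by ring
        _ = _ := by rw [h3]
    have hD2 : ∑ i ∈ DI Pr N Q, ‖Dt c (chs i.2) L (pt (-1 / 2) t)‖ ^ 2 ≤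
        C₃ * (Q : ℝ) ^ (-(99 / 250) : ℝ) :=
      (Finset.sum_le_sum_of_subset_of_nonneg (DI_sub Pr N Q)
        fun _ _ _ => by positivity).trans (hC₃ Q t hQ)
    set Z : ℝ := R * (Q : ℝ) ^ 3 * (V * (1 + |t|)) ^ 3 *
      (Real.exp 1 * Real.exp (-Λ) * Real.exp (-t ^ 2)) with hZ
    have hZ0 : 0 ≤ Z := by positivity
    have h1 : ∀ i ∈ DI Pr N Q, ‖(par e i.2 * Mi i) * I₂ i t‖ ≤
        Z * (‖Mi i‖ * ‖Dt c (chs i.2) L (pt (-1 / 2) t)‖) := by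
      intro i hi
      by_cases hpar : par e i.2 = 0
      · rw [hpar, zero_mul, zero_mul, norm_zero]
        positivity
      · obtain ⟨h2, h3⟩ := eps_of_mem hcrt he hT i hi hpar
        have h4 := h2.left t
        have h5 := Kr_left Λ t
        have h6 : ‖par e i.2‖ ≤ 1 := par_le (by rcases he with rfl | rfl <;> simp) i.2
        rw [hI₂]
        simp only
        rw [norm_mul, norm_mul, norm_mul, norm_mul]
        calc ‖par e i.2‖ * ‖Mi i‖ * (‖ep i.1 i.2 (pt (-1 / 2) t)‖ *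
              ‖Dt c (chs i.2) L (pt (-1 / 2) t)‖ * ‖Kr Λ (1 / 2) (pt (-1 / 2) t)‖)
            ≤ 1 * ‖Mi i‖ * ((R * (Q : ℝ) ^ 3 * (V * (1 + |t|)) ^ 3) *
              ‖Dt c (chs i.2) L (pt (-1 / 2) t)‖ *
              (Real.exp 1 * Real.exp (-Λ) * Real.exp (-t ^ 2))) := by
              have h7 : ‖ep i.1 i.2 (pt (-1 / 2) t)‖ ≤
                  R * (Q : ℝ) ^ 3 * (V * (1 + |t|)) ^ 3 := by
                refine h4.trans ?_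
                gcongr
              gcongr
          _ = _ := by rw [hZ]; ring
    have h2 : ‖∑ i ∈ DI Pr N Q, (par e i.2 * Mi i) * I₂ i t‖ ≤
        Z * (Real.sqrt (18 * B * (Q : ℝ) ^ (2001 / 1000 : ℝ)) *
          Real.sqrt (C₃ * (Q : ℝ) ^ (-(99 / 250) : ℝ))) := by
      refine (norm_sum_le _ _).trans ((Finset.sum_le_sum h1).trans ?_)
      rw [← Finset.mul_sum]
      refine mul_le_mul_of_nonneg_left ?_ hZ0
      refine (Real.sum_mul_le_sqrt_mul_sqrt _ _ _).trans ?_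
      gcongr
    refine h2.trans ?_
    have h3 : Real.sqrt (18 * B * (Q : ℝ) ^ (2001 / 1000 : ℝ)) =
        Real.sqrt (18 * B) * (Q : ℝ) ^ (2001 / 2000 : ℝ) := by
      rw [Real.sqrt_mul (by positivity), Real.sqrt_eq_rpow ((Q : ℝ) ^ (2001 / 1000 : ℝ)),
        ← Real.rpow_mul hX0.le]
      norm_num
    have h4 : Real.sqrt (C₃ * (Q : ℝ) ^ (-(99 / 250) : ℝ)) =
        Real.sqrt C₃ * (Q : ℝ) ^ (-(99 / 500) : ℝ) := by
      rw [Real.sqrt_mul hC₃0, Real.sqrt_eq_rpow ((Q : ℝ) ^ (-(99 / 250) : ℝ)),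
        ← Real.rpow_mul hX0.le]
      norm_num
    have h5 : Real.exp (-Λ) = (Q : ℝ) ^ (-(183 / 100) : ℝ) := by
      rw [Real.rpow_def_of_pos hX0, hΛ]
      congr 1
      ring
    have h6 : (Q : ℝ) ^ 3 * (Q : ℝ) ^ (-(183 / 100) : ℝ) * (Q : ℝ) ^ (2001 / 2000 : ℝ) *
        (Q : ℝ) ^ (-(99 / 500) : ℝ) ≤ (Q : ℝ) ^ (199 / 100 : ℝ) := by
      rw [← Real.rpow_natCast, ← Real.rpow_add hX0, ← Real.rpow_add hX0, ← Real.rpow_add hX0]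
      exact Real.rpow_le_rpow_of_exponent_le hX1 (by norm_num)
    have h7 : (1 + |t|) ^ 3 * Real.exp (-t ^ 2) ≤ 6 * Real.exp 1 * (C₅ * Real.exp (-|t|)) :=
      (cube_exp t).trans (mul_le_mul_of_nonneg_left (hC₅ t) (by positivity))
    have h8 : -1 * |t| = -|t| := by ring
    rw [h3, h4, hZ, h5, h8]
    calc R * (Q : ℝ) ^ 3 * (V * (1 + |t|)) ^ 3 *
          (Real.exp 1 * (Q : ℝ) ^ (-(183 / 100) : ℝ) * Real.exp (-t ^ 2)) *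
          (Real.sqrt (18 * B) * (Q : ℝ) ^ (2001 / 2000 : ℝ) *
            (Real.sqrt C₃ * (Q : ℝ) ^ (-(99 / 500) : ℝ)))
        = R * V ^ 3 * Real.exp 1 * Real.sqrt (18 * B) * Real.sqrt C₃ *
          ((1 + |t|) ^ 3 * Real.exp (-t ^ 2)) *
          ((Q : ℝ) ^ 3 * (Q : ℝ) ^ (-(183 / 100) : ℝ) * (Q : ℝ) ^ (2001 / 2000 : ℝ) *
            (Q : ℝ) ^ (-(99 / 500) : ℝ)) := by
          rw [mul_pow]
          ring
      _ ≤ R * V ^ 3 * Real.exp 1 * Real.sqrt (18 * B) * Real.sqrt C₃ *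
          (6 * Real.exp 1 * (C₅ * Real.exp (-|t|))) * (Q : ℝ) ^ (199 / 100 : ℝ) := by gcongr
      _ = _ := by rw [hD₃]; ring
  -- conclusion
  have hinv : ‖(2 * (Real.pi : ℂ))⁻¹‖ ≤ 1 := by
    rw [norm_inv, norm_mul, Complex.norm_real, Real.norm_of_nonneg Real.pi_pos.le]
    have h2 : ‖(2 : ℂ)‖ = 2 := by simp
    rw [h2]
    refine inv_le_one_of_one_le₀ ?_
    linarith [Real.pi_gt_three]
  set A₁ := ∑ i ∈ DI Pr N Q, par e i.2 * ((∑' n : ℕ, i.2 (n : ZMod i.1) * vv c Λ n) * Mi i)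
  set A₂ := ∑ i ∈ DI Pr N Q, (par e i.2 * Mi i) * ∫ t, I₁ i t
  set A₃ := ∑ i ∈ DI Pr N Q, (par e i.2 * Mi i) * ∫ t, I₂ i t
  have hfin : A₁ - (2 * (Real.pi : ℂ))⁻¹ * A₂ - (2 * (Real.pi : ℂ))⁻¹ * A₃ -
      ((Ph Λ : ℝ) : ℂ) * ∑ i ∈ DI Pr N Q, par e i.2 =
      (A₁ - ((Ph Λ : ℝ) : ℂ) * ∑ i ∈ DI Pr N Q, par e i.2) - (2 * (Real.pi : ℂ))⁻¹ * A₂ -
        (2 * (Real.pi : ℂ))⁻¹ * A₃ := by ring
  rw [hfin]
  refine (norm_sub_le _ _).trans ?_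
  have n1 := norm_sub_le (A₁ - ((Ph Λ : ℝ) : ℂ) * ∑ i ∈ DI Pr N Q, par e i.2)
    ((2 * (Real.pi : ℂ))⁻¹ * A₂)
  have n2 : ‖(2 * (Real.pi : ℂ))⁻¹ * A₂‖ ≤ ‖A₂‖ := by
    rw [norm_mul]
    exact mul_le_of_le_one_left (norm_nonneg _) hinv
  have n3 : ‖(2 * (Real.pi : ℂ))⁻¹ * A₃‖ ≤ ‖A₃‖ := by
    rw [norm_mul]
    exact mul_le_of_le_one_left (norm_nonneg _) hinv
  have : (D₁ + (D₂ + D₃) * CI) * (Q : ℝ) ^ (199 / 100 : ℝ) = D₁ * (Q : ℝ) ^ (199 / 100 : ℝ) +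
      D₂ * (Q : ℝ) ^ (199 / 100 : ℝ) * CI + D₃ * (Q : ℝ) ^ (199 / 100 : ℝ) * CI := by ring
  rw [this]
  linarith

end Pool.Agent.NH12.GL
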