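import Pool.Agent.NH12.GL.Few
import Pool.Agent.NH12.GL.Tw3
import Pool.Agent.R399.TW.InstH

/-!
# Hecke characters of totally real fields as a family of twists with explicit root numbers
-/

set_option autoImplicit false
set_option linter.unusedSectionVars false

namespace Pool.Agent.NH12.GL

open Finset Filter Topology Complex MeasureTheory NumberField
open ArithmeticFunction (vonMangoldt)
open Pool.Agent.R399.TW Pool.Agent.R399.TM Pool.Agent.NH12.NV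
open Pool.Agent.Y767.CA (GGc FEc cj Gd LX GGc_ne conj_GGc norm_LX inv_GGc_le)
open Pool.Agent.Y767 (IsHecke IsHM IsModK PrimK Pk kk FEn GGn eq_of_LI card_places ax kap_kk)
open Pool.Agent.Y773 (LI FT cc absNorm_span_nat mul_span_ne_top sg rl)
open scoped ComplexConjugate

variable {K : Type} [Field K] [NumberField K] [IsTotallyReal K]

/-! ### signs -/

/-- the sign of an integer -/
noncomputable def sn68 (N : ℤ) : ℂ := (((SignType.sign N : SignType) : ℤ) : ℂ)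

lemma sn68_sq {N : ℤ} (hN : N ≠ 0) : sn68 N * sn68 N = 1 := by
  unfold sn68
  rcases lt_or_gt_of_ne hN with h | h
  · rw [sign_neg h]; norm_num
  · rw [sign_pos h]; norm_num

lemma sn68_or {N : ℤ} (hN : N ≠ 0) : sn68 N = 1 ∨ sn68 N = -1 :=
  mul_self_eq_one_iff.1 (sn68_sq hN)

lemma chi_natAbs68 {q : ℕ} (χ : DirichletCharacter ℂ q) {a : ℕ} (h : χ (-1) = (-1) ^ a) {N : ℤ}
    (hN : N ≠ 0) : χ ((N.natAbs : ℕ) : ZMod q) = sn68 N ^ a * χ ((N : ℤ) : ZMod q) := by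
  unfold sn68
  rcases lt_or_gt_of_ne hN with h1 | h1
  · have h2 : ((N.natAbs : ℕ) : ZMod q) = -1 * ((N : ℤ) : ZMod q) := by
      have h3 : ((N.natAbs : ℕ) : ℤ) = -N := by omega
      have h4 : (((N.natAbs : ℕ) : ℤ) : ZMod q) = ((-N : ℤ) : ZMod q) := by rw [h3]
      rw [Int.cast_natCast] at h4
      rw [h4]
      push_cast
      ring
    rw [h2, map_mul, h, sign_neg h1]
    norm_num
  · have h2 : ((N.natAbs : ℕ) : ZMod q) = ((N : ℤ) : ZMod q) := by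
      have h3 : ((N.natAbs : ℕ) : ℤ) = N := by omega
      have h4 : (((N.natAbs : ℕ) : ℤ) : ZMod q) = ((N : ℤ) : ZMod q) := by rw [h3]
      rwa [Int.cast_natCast] at h4
    rw [h2, sign_pos h1]
    simp

lemma sg_one68 (x : 𝓞 K) : sg (fun _ : InfinitePlace K => 1) (x : K) =
    sn68 (Algebra.norm ℤ x) := by
  have h1 := Pool.Agent.Y773.norm_eq_prod (K := K) (x : K)
  have h2 : (Algebra.norm ℚ (x : K) : ℚ) = ((Algebra.norm ℤ x : ℤ) : ℚ) :=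
    (Algebra.coe_norm_int x).symm
  rw [h2] at h1
  have h3 : (((Algebra.norm ℤ x : ℤ) : ℚ) : ℝ) = ((Algebra.norm ℤ x : ℤ) : ℝ) := by push_cast; rfl
  rw [h3] at h1
  have h4 : SignType.sign ((Algebra.norm ℤ x : ℤ) : ℝ) = SignType.sign (Algebra.norm ℤ x) := by
    rcases lt_trichotomy (Algebra.norm ℤ x) 0 with h | h | h
    · rw [sign_neg h, sign_neg (by exact_mod_cast h)]
    · rw [h]; simp
    · rw [sign_pos h, sign_pos (by exact_mod_cast h)]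
  have h5 : SignType.sign (∏ w : InfinitePlace K, rl w (x : K)) =
      ∏ w : InfinitePlace K, SignType.sign (rl w (x : K)) := by
    have := map_prod (signHom (α := ℝ)) (fun w : InfinitePlace K => rl w (x : K)) Finset.univ
    exact this
  unfold sn68 sg
  rw [← h4, h1, h5]
  simp only [pow_one]
  have h6 : ∀ s : Finset (InfinitePlace K), (((∏ w ∈ s, SignType.sign (rl w (x : K)) : SignType) :
      ℤ) : ℂ) = ∏ w ∈ s, (((SignType.sign (rl w (x : K)) : SignType) : ℤ) : ℂ) := by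
    classical
    intro s
    induction s using Finset.induction_on with
    | empty => simp
    | insert a s ha ih =>
      rw [Finset.prod_insert ha, Finset.prod_insert ha, ← ih]
      push_cast
      rfl
  exact (h6 Finset.univ).symm

/-- the signature of the twist -/
def ea68 (e₀ : InfinitePlace K → ℕ) (a : ℕ) (w : InfinitePlace K) : ℕ := (e₀ w + a) % 2

lemma ea68_le (e₀ : InfinitePlace K → ℕ) (a : ℕ) (w : InfinitePlace K) : ea68 e₀ a w ≤ 1 := by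
  unfold ea68
  omega

lemma sg_ea68 (e₀ : InfinitePlace K → ℕ) (a : ℕ) {x : 𝓞 K} (hx : x ≠ 0) :
    sg (ea68 e₀ a) (x : K) = sg e₀ (x : K) * sn68 (Algebra.norm ℤ x) ^ a := by
  rw [← sg_one68]
  unfold sg
  rw [← Finset.prod_pow, ← Finset.prod_mul_distrib]
  refine Finset.prod_congr rfl fun w _ => ?_
  set t : ℂ := (((SignType.sign (rl w (x : K)) : SignType) : ℤ) : ℂ) with ht
  have hx' : rl w (x : K) ≠ 0 := (map_ne_zero (rl w)).mpr (by exact_mod_cast hx)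
  have ht2 : t ^ 2 = 1 := by
    rw [ht]
    rcases lt_or_gt_of_ne hx' with h | h
    · rw [sign_neg h]; norm_num
    · rw [sign_pos h]; norm_num
  rw [pow_one, ← pow_add]
  unfold ea68
  conv_rhs => rw [← Nat.div_add_mod (e₀ w + a) 2, pow_add, pow_mul, ht2, one_pow, one_mul]

/-- the exponent of the parity -/
noncomputable def ap68 {q : ℕ} (χ : DirichletCharacter ℂ q) : ℕ :=
  open Classical in if χ (-1) = 1 then 0 else 1

lemma ap68_eq {q : ℕ} (χ : DirichletCharacter ℂ q) : χ (-1) = (-1) ^ (ap68 χ) := by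
  unfold ap68
  split_ifs with h
  · rw [pow_zero, h]
  · rw [pow_one]
    exact (chi_neg_one χ).resolve_left h

/-! ### the twists -/

lemma norm_ne68 {x : 𝓞 K} (hx : x ≠ 0) : Algebra.norm ℤ x ≠ 0 := by
  rwa [Ne, Algebra.norm_eq_zero_iff]

/-- the data of the twist -/
theorem tw_data68 {𝔣 : Ideal (𝓞 K)} {ν : InfinitePlace K → ℝ} {ψ : Ideal (𝓞 K) →*₀ ℂ}
    (hψ : IsHecke K 𝔣 ν ψ) (hν : ∑ w, ν w = 0) {e₀ : InfinitePlace K → ℕ}
    (hray : ∀ x : 𝓞 K, x ≠ 0 → x - 1 ∈ 𝔣 →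
      ψ (Ideal.span {x}) * ax (fun w => -ν w) (x : K) = sg e₀ (x : K))
    {q : ℕ} (hq : 2 ≤ q) (hqN : Nat.Coprime q (Ideal.absNorm 𝔣 * (discr K).natAbs))
    {χ : DirichletCharacter ℂ q} (hχ : χ.IsPrimitive) {a : ℕ} (ha : χ (-1) = (-1) ^ a) :
    IsHecke K (𝔣 * Ideal.span {(q : 𝓞 K)}) ν (Pool.Agent.Y773.tw ψ χ) ∧
    IsModK (𝔣 * Ideal.span {(q : 𝓞 K)}) (kk (ea68 e₀ a) ν) (Pool.Agent.Y773.tw ψ χ) ∧
    PrimK (𝔣 * Ideal.span {(q : 𝓞 K)}) (kk (ea68 e₀ a) ν) (Pool.Agent.Y773.tw ψ χ) := by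
  have htw : IsHecke K (𝔣 * Ideal.span {(q : 𝓞 K)}) ν (Pool.Agent.Y773.tw ψ χ) := by
    refine Pool.Agent.Y772.HI.tw_hecke hψ χ (by omega) hχ ?_ ?_
    · exact Nat.Coprime.coprime_dvd_right (dvd_mul_right _ _) hqN
    · have h1 : Nat.Coprime q (discr K).natAbs :=
        Nat.Coprime.coprime_dvd_right (dvd_mul_left _ _) hqN
      rw [Int.isCoprime_iff_gcd_eq_one]
      simpa [Int.gcd] using h1
  have htop : 𝔣 * Ideal.span {(q : 𝓞 K)} ≠ ⊤ := mul_span_ne_top hq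
  refine ⟨htw, ⟨kap_kk _ hν, htw.ne_bot, htop, fun 𝔞 => ?_, fun x hx hx1 => ?_⟩, htw.primK _⟩
  · by_cases h𝔞 : 𝔞 = ⊥
    · rw [h𝔞]
      constructor
      · intro h2
        exact absurd (by rw [← Ideal.zero_eq_bot, map_zero]) h2
      · intro h2
        rw [Ideal.isCoprime_iff_sup_eq, bot_sup_eq] at h2
        exact absurd h2 htop
    · exact htw.supp 𝔞 h𝔞
  · have h1 := hray x hx (Ideal.mul_le_right hx1 |> fun _ => Ideal.mul_le_left hx1)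
    have h2 : ((Algebra.norm ℤ x : ℤ) : ZMod q) = 1 := by
      have := Pool.Agent.Y772.TW.norm_eq_of_sub (M := q) (x := x) (y := 1)
        (Ideal.mul_le_right hx1)
      rw [this, map_one, Int.cast_one]
    have h3 : Pool.Agent.Y773.tw ψ χ (Ideal.span {x}) = ψ (Ideal.span {x}) *
        χ ((Ideal.absNorm (Ideal.span {x}) : ℕ) : ZMod q) := rfl
    rw [h3, Ideal.absNorm_span_singleton, chi_natAbs68 χ ha (norm_ne68 hx), h2, map_one, mul_one]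
    unfold kk
    rw [sg_ea68 e₀ a hx]
    set s := sn68 (Algebra.norm ℤ x) with hs
    have h4 : s ^ a * s ^ a = 1 := by
      rw [← mul_pow, hs, sn68_sq (norm_ne68 hx), one_pow]
    have h5 : sg e₀ (x : K) * sg e₀ (x : K) = 1 :=
      Pool.Agent.Y773.sg_sq e₀ (by exact_mod_cast hx)
    calc ψ (Ideal.span {x}) * s ^ a * (sg e₀ (x : K) * s ^ a * ax (fun w => -ν w) (x : K))
        = (ψ (Ideal.span {x}) * ax (fun w => -ν w) (x : K)) * sg e₀ (x : K) * (s ^ a * s ^ a) := by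
          ring
      _ = 1 := by rw [h1, h4, h5, one_mul]

/-- the Gauss sum of the twist -/
theorem tau_ex68 {𝔣 : Ideal (𝓞 K)} {ν : InfinitePlace K → ℝ} {ψ : Ideal (𝓞 K) →*₀ ℂ}
    (hψ : IsHecke K 𝔣 ν ψ) (hν : ∑ w, ν w = 0) {e₀ : InfinitePlace K → ℕ}
    (hray : ∀ x : 𝓞 K, x ≠ 0 → x - 1 ∈ 𝔣 →
      ψ (Ideal.span {x}) * ax (fun w => -ν w) (x : K) = sg e₀ (x : K))
    {q : ℕ} (hq : 2 ≤ q) (hqN : Nat.Coprime q (Ideal.absNorm 𝔣 * (discr K).natAbs))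
    {χ : DirichletCharacter ℂ q} (hχ : χ.IsPrimitive) {a : ℕ} (ha : χ (-1) = (-1) ^ a) :
    ∃ τ : ℂ, GaussP (𝔣 * Ideal.span {(q : 𝓞 K)}) (kk (ea68 e₀ a) ν)
      (Pool.Agent.Y773.tw ψ χ) τ := by
  obtain ⟨-, h1, h2⟩ := tw_data68 hψ hν hray hq hqN hχ ha
  exact Pool.Agent.Y767.gauss_maink _ _ _ h2 h1

/-- the relation between the archimedean parts -/
theorem kk_rel68 {ν : InfinitePlace K → ℝ} {e₀ : InfinitePlace K → ℕ} {p : ℕ}
    (χ₁ : DirichletCharacter ℂ p) {a a₁ a₂ : ℕ} (h1 : χ₁ (-1) = (-1) ^ a₁)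
    (h : (-1 : ℂ) ^ a = (-1) ^ a₁ * (-1) ^ a₂) (x : 𝓞 K) (hx : x ≠ 0) :
    kk (ea68 e₀ a) ν (x : K) * χ₁ (((Algebra.norm ℤ x).natAbs : ℕ) : ZMod p) =
      kk (ea68 e₀ a₂) ν (x : K) * χ₁ ((Algebra.norm ℤ x : ℤ) : ZMod p) := by
  rw [chi_natAbs68 χ₁ h1 (norm_ne68 hx)]
  unfold kk
  rw [sg_ea68 e₀ a hx, sg_ea68 e₀ a₂ hx]
  have h2 : sn68 (Algebra.norm ℤ x) ^ a * sn68 (Algebra.norm ℤ x) ^ a₁ =
      sn68 (Algebra.norm ℤ x) ^ a₂ := by
    rcases sn68_or (norm_ne68 hx) with h3 | h3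
    · rw [h3]; simp
    · rw [h3, h]
      have h4 : (-1 : ℂ) ^ a₁ * (-1) ^ a₁ = 1 := by
        rw [← mul_pow]; norm_num
      linear_combination ((-1 : ℂ) ^ a₂) * h4
  linear_combination (sg e₀ (x : K) * ax (fun w => -ν w) (x : K) *
    χ₁ ((Algebra.norm ℤ x : ℤ) : ZMod p)) * h2

/-! ### the members of the family -/

/-- the conductor -/
noncomputable def Rc68 (𝔣 : Ideal (𝓞 K)) : ℝ :=
  ((Ideal.absNorm 𝔣 * Ideal.absNorm (differentIdeal ℤ (𝓞 K)) : ℕ) : ℝ)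

lemma Rc68_pos {𝔣 : Ideal (𝓞 K)} (h : 𝔣 ≠ ⊥) : 0 < Rc68 𝔣 := by
  have h1 : 0 < Ideal.absNorm 𝔣 := Nat.pos_of_ne_zero fun h1 =>
    h (Ideal.absNorm_eq_zero_iff.1 h1)
  have h2 : 0 < Ideal.absNorm (differentIdeal ℤ (𝓞 K)) := Nat.pos_of_ne_zero fun h =>
    differentIdeal_ne_bot (Ideal.absNorm_eq_zero_iff.1 h)
  unfold Rc68
  exact_mod_cast Nat.mul_pos h1 h2

lemma Rc68_mul (𝔣 : Ideal (𝓞 K)) (q : ℕ) :
    ((Ideal.absNorm (𝔣 * Ideal.span {(q : 𝓞 K)}) *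
      Ideal.absNorm (differentIdeal ℤ (𝓞 K)) : ℕ) : ℝ) =
      Rc68 𝔣 * (q : ℝ) ^ (Module.finrank ℚ K) := by
  rw [map_mul, absNorm_span_nat]
  unfold Rc68
  push_cast
  ring

/-- the parameters of the gamma factors -/
noncomputable def mu68 (e : InfinitePlace K → ℕ) (ν : InfinitePlace K → ℝ) (w : InfinitePlace K) :
    ℂ := ((e w : ℕ) : ℂ) + I * ((-ν w : ℝ) : ℂ)

lemma mu68_re (e : InfinitePlace K → ℕ) (ν : InfinitePlace K → ℝ) (w : InfinitePlace K) :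
    (mu68 e ν w).re = e w := by
  unfold mu68
  simp

lemma mu68_gt (e : InfinitePlace K → ℕ) (ν : InfinitePlace K → ℝ) (w : InfinitePlace K) :
    -1 / 2 < (mu68 e ν w).re := by
  rw [mu68_re]
  have : (0 : ℝ) ≤ e w := Nat.cast_nonneg _
  linarith

lemma mu68_le {e : InfinitePlace K → ℕ} (he : ∀ w, e w ≤ 1) (ν : InfinitePlace K → ℝ)
    (w : InfinitePlace K) : ‖mu68 e ν w‖ + 3 ≤ 4 + ∑ w, |ν w| := by
  have h1 : ‖mu68 e ν w‖ ≤ 1 + |ν w| := by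
    unfold mu68
    refine (norm_add_le _ _).trans ?_
    rw [Complex.norm_natCast, norm_mul, Complex.norm_I, one_mul, Complex.norm_real,
      Real.norm_eq_abs, abs_neg]
    have : (e w : ℝ) ≤ 1 := by exact_mod_cast he w
    linarith
  have h2 : |ν w| ≤ ∑ w, |ν w| :=
    Finset.single_le_sum (f := fun w => |ν w|) (fun _ _ => abs_nonneg _) (Finset.mem_univ w)
  linarith

/-- a member of the family -/
theorem mem_hecke68 {𝔣 : Ideal (𝓞 K)} {ν : InfinitePlace K → ℝ} {ψ : Ideal (𝓞 K) →*₀ ℂ}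
    (hψ : IsHecke K 𝔣 ν ψ) (hν : ∑ w, ν w = 0) (hLin : Lin (cc ψ)) {q : ℕ} (hq : 2 ≤ q)
    {χ : DirichletCharacter ℂ q}
    (htw : IsHecke K (𝔣 * Ideal.span {(q : 𝓞 K)}) ν (Pool.Agent.Y773.tw ψ χ))
    {L : ℂ → ℂ} (hd : Differentiable ℂ L)
    (hs : ∀ s : ℂ, 1 < s.re → L s = LI (Pool.Agent.Y773.tw ψ χ) s) :
    Mem (cc ψ) (Rc68 𝔣 * (q : ℝ) ^ (Module.finrank ℚ K)) (3 * (1 + (4 + ∑ w, |ν w|)))
      (Module.finrank ℚ K) (chs χ) L := by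
  obtain ⟨A₀, hA₀, hD⟩ := Pool.Agent.Y772.DK.t_dirK K
  have hψ1 := Pool.Agent.Y772.HI.hm_norm_le htw.toIsHM
  obtain ⟨-, d2, d3, d4, -, -, -, -, -, -, -⟩ := hD (Pool.Agent.Y773.tw ψ χ) hψ1
  obtain ⟨-, -, -, -, -, -, -, -, -, -, d11⟩ := hD ψ (Pool.Agent.Y772.HI.hm_norm_le hψ.toIsHM)
  obtain ⟨e, G, hG, hGL⟩ := htw.fe hν (mul_span_ne_top hq)
  have hFG : L = G := eq_of_LI hd hG.diff (fun s h => by rw [hs s h, hGL s h])
  rw [← hFG, Rc68_mul] at hG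
  have hFE := fec_of_fen hG
  have hR : (0 : ℝ) < Rc68 𝔣 * (q : ℝ) ^ (Module.finrank ℚ K) := by
    have h3 := Rc68_pos hψ.ne_bot
    have h4 : (0 : ℝ) < q := by exact_mod_cast (show 0 < q by omega)
    positivity
  have hS0 : (0 : ℝ) ≤ ∑ w, |ν w| := Finset.sum_nonneg fun _ _ => abs_nonneg _
  have hmem : Mem (cc ψ) (Rc68 𝔣 * (q : ℝ) ^ (Module.finrank ℚ K))
      (3 * (1 + (4 + ∑ w, |ν w|))) (Fintype.card (InfinitePlace K)) (chs χ) L := by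
    refine mem_of_fec hR (μ := mu68 e ν) (mu68_gt e ν) (mu68_le hG.he ν) (by linarith) hFE hLin
      (chs_mul χ) (chs_one χ) (chs_le χ) ?_
    refine ser_of_ld hLin (chs_one χ) (chs_mul χ) (chs_le χ) (fun s _ => hd s)
        (fun s h => by rw [hs s h]; exact d3 s h) (fun s h => ?_) ?_
    · have h5 : deriv L s = deriv (LI (Pool.Agent.Y773.tw ψ χ)) s := by
        refine Filter.EventuallyEq.deriv_eq ?_
        have h6 : {z : ℂ | 1 < z.re} ∈ 𝓝 s :=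
          (isOpen_lt continuous_const Complex.continuous_re).mem_nhds h
        filter_upwards [h6] with z hz
        exact hs z hz
      rw [h5, hs s h, d4 s h]
      congr 1
      refine tsum_congr fun n => ?_
      rw [d11 q χ n]
      rfl
    · have h7 := Pool.Agent.Y772.DK.LA_tendsto (K := K)
        (a := fun 𝔞 => (Pool.Agent.Y773.tw ψ χ) 𝔞) (map_zero _) hψ1
      simp only [map_one] at h7
      refine h7.congr' ?_
      filter_upwards [eventually_gt_atTop 1] with x hx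
      rw [hs _ (by simpa using hx)]
      rfl
  rwa [card_places] at hmem

/-- the factor of the functional equation -/
theorem eps_hecke68 {𝔣 : Ideal (𝓞 K)} {ν : InfinitePlace K → ℝ} {ψ : Ideal (𝓞 K) →*₀ ℂ}
    (hne : 𝔣 ≠ ⊥) {q : ℕ} (hq : 2 ≤ q) {χ : DirichletCharacter ℂ q}
    {e : InfinitePlace K → ℕ} (he : ∀ w, e w ≤ 1) {w : ℂ} (hw : ‖w‖ = 1) {F : ℂ → ℂ}
    (hF : FEn (((Ideal.absNorm (𝔣 * Ideal.span {(q : 𝓞 K)}) *
      Ideal.absNorm (differentIdeal ℤ (𝓞 K)) : ℕ) : ℝ)) e (fun w => -ν w) F)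
    (hFL : ∀ s : ℂ, 1 < s.re → F s = LI (Pool.Agent.Y773.tw ψ χ) s)
    (hfe : ∀ s : ℂ, (∀ i, s.im + (-ν i) ≠ 0) →
        GGn (((Ideal.absNorm (𝔣 * Ideal.span {(q : 𝓞 K)}) *
          Ideal.absNorm (differentIdeal ℤ (𝓞 K)) : ℕ) : ℝ)) e (fun w => -ν w) s * F s =
        w * (starRingEnd ℂ)
          (GGn (((Ideal.absNorm (𝔣 * Ideal.span {(q : 𝓞 K)}) *
            Ideal.absNorm (differentIdeal ℤ (𝓞 K)) : ℕ) : ℝ)) e
          (fun w => -ν w) (1 - (starRingEnd ℂ) s) * F (1 - (starRingEnd ℂ) s)))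
    {L : ℂ → ℂ} (hd : Differentiable ℂ L)
    (hs : ∀ s : ℂ, 1 < s.re → L s = LI (Pool.Agent.Y773.tw ψ χ) s) :
    Eps (Rc68 𝔣 * (q : ℝ) ^ (Module.finrank ℚ K)) (3 * (1 + (4 + ∑ w, |ν w|)))
      (Module.finrank ℚ K) L (LX w (Rc68 𝔣 * (q : ℝ) ^ (Module.finrank ℚ K)) (mu68 e ν)) := by
  have hFG : L = F := eq_of_LI hd hF.diff (fun s h => by rw [hs s h, hFL s h])
  rw [← hFG] at hF hfe
  rw [Rc68_mul] at hF hfe
  have hR : (0 : ℝ) < Rc68 𝔣 * (q : ℝ) ^ (Module.finrank ℚ K) := by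
    have h3 := Rc68_pos hne
    have h4 : (0 : ℝ) < q := by exact_mod_cast (show 0 < q by omega)
    positivity
  have hS0 : (0 : ℝ) ≤ ∑ w, |ν w| := Finset.sum_nonneg fun _ _ => abs_nonneg _
  have hG : ∀ s : ℂ, GGc (Rc68 𝔣 * (q : ℝ) ^ (Module.finrank ℚ K)) (mu68 e ν) s =
      GGn (Rc68 𝔣 * (q : ℝ) ^ (Module.finrank ℚ K)) e (fun w => -ν w) s := by
    intro s
    unfold GGc GGn mu68
    congr 1
    refine Finset.prod_congr rfl fun i _ => ?_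
    congr 1
    ring
  have him : ∀ i, (mu68 e ν i).im = -ν i := fun i => by
    unfold mu68
    simp
  have h1 := eps_of_fe hR (mu68_gt e ν) (mu68_le he ν) (by linarith) hd hw (fun z hz => by
    have hz' : ∀ i, z.im + (-ν i) ≠ 0 := fun i => by
      rw [← him i]
      exact hz i
    have h2 := hfe z hz'
    rw [← hG, ← hG, map_mul, conj_GGc hR] at h2
    have e1 : (starRingEnd ℂ) (1 - (starRingEnd ℂ) z) = 1 - z := by simp
    rw [e1] at h2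
    have hg := GGc_ne hR hz
    unfold LX rfl1
    field_simp
    linear_combination h2)
  rwa [card_places] at h1

/-! ### the family -/

lemma pr_prim68 (hcrt : S_crt) {a b : ℕ} [NeZero a] [NeZero b] (hab : Nat.Coprime a b)
    {χ₁ : DirichletCharacter ℂ a} {χ₂ : DirichletCharacter ℂ b} (h1 : χ₁.IsPrimitive)
    (h2 : χ₂.IsPrimitive) : (pr a b χ₁ χ₂).IsPrimitive := by
  classical
  have : NeZero (a * b) := ⟨mul_ne_zero (NeZero.ne a) (NeZero.ne b)⟩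
  obtain ⟨-, h, -⟩ := hcrt a b hab
  have h3 := h fun χ => if χ = pr a b χ₁ χ₂ then 1 else 0
  by_contra h4
  rw [← mem_pc] at h4 h1 h2
  have h5 : ∑ χ ∈ pc (a * b), (if χ = pr a b χ₁ χ₂ then (1 : ℂ) else 0) = 0 :=
    Finset.sum_eq_zero fun χ hχ => if_neg fun h5 => h4 (by rw [← h5]; exact hχ)
  rw [h5] at h3
  have h6 : ∑ χ ∈ pc a, ∑ ψ ∈ pc b, (if pr a b χ ψ = pr a b χ₁ χ₂ then (1 : ℂ) else 0) =
      ((∑ χ ∈ pc a, ∑ ψ ∈ pc b, (if pr a b χ ψ = pr a b χ₁ χ₂ then 1 else 0) : ℕ) : ℂ) := by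
    push_cast
    rfl
  rw [h6] at h3
  have h7 : (∑ χ ∈ pc a, ∑ ψ ∈ pc b, (if pr a b χ ψ = pr a b χ₁ χ₂ then 1 else 0) : ℕ) = 0 := by
    exact_mod_cast h3.symm
  rw [Finset.sum_eq_zero_iff] at h7
  have h8 := h7 χ₁ h1
  rw [Finset.sum_eq_zero_iff] at h8
  have h9 := h8 χ₂ h2
  simp at h9

theorem t_hecke' (hcrt : S_crt) (_hfew : S_few) (htau : S_tau) : S_hecke' := by
  intro K _ _ _ 𝔣 ν ψ N' e hψ hν hNN he
  classical
  obtain ⟨c₀, hc⟩ := few_norm K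
  obtain ⟨e₀, -, hray⟩ := Pool.Agent.Y767.ray_gen hψ.ne_bot hψ.ray
  obtain ⟨A₀, hA₀, hD⟩ := Pool.Agent.Y772.DK.t_dirK K
  obtain ⟨-, -, -, -, -, -, b1, -, -, -, -⟩ := hD ψ (Pool.Agent.Y772.HI.hm_norm_le hψ.toIsHM)
  have hLin : Lin (cc ψ) := by
    intro σ hσ
    refine Summable.of_nonneg_of_le (fun n => ?_) (fun n => ?_)
      ((Pool.Agent.Y767.CA.summable_vm hσ).mul_left (Module.finrank ℚ K : ℝ))
    · have := vm_nn n
      positivity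
    · have h1 := vm_nn n
      have h2 := b1 n
      calc vonMangoldt n * ‖cc ψ n‖ * (n : ℝ) ^ (-σ)
          ≤ vonMangoldt n * (Module.finrank ℚ K : ℝ) * (n : ℝ) ^ (-σ) := by gcongr
        _ = _ := by ring
  choose Cc hCn hCp using fun a : ℕ => hc (ea68 e₀ a) (ea68_le e₀ a)
  set N : ℕ := Ideal.absNorm 𝔣 * (discr K).natAbs with hN
  obtain ⟨a, ha⟩ : ∃ a : ℕ, e = (-1) ^ a := by
    rcases he with rfl | rfl
    · exact ⟨0, by simp⟩
    · exact ⟨1, by simp⟩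
  -- the L-functions
  have hFex : ∀ (q : ℕ) (χ : DirichletCharacter ℂ q), 2 ≤ q → Nat.Coprime q N → χ.IsPrimitive →
      ∃ L : ℂ → ℂ, Differentiable ℂ L ∧
        ∀ s : ℂ, 1 < s.re → L s = LI (Pool.Agent.Y773.tw ψ χ) s := by
    intro q χ hq hqN hχ
    obtain ⟨htw, -, -⟩ := tw_data68 hψ hν hray hq hqN hχ (ap68_eq χ)
    obtain ⟨_, G, hG, hGL⟩ := htw.fe hν (mul_span_ne_top hq)
    exact ⟨G, hG.diff, hGL⟩
  let F : (q : ℕ) → DirichletCharacter ℂ q → ℂ → ℂ := fun q χ =>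
    if h : 2 ≤ q ∧ Nat.Coprime q N ∧ χ.IsPrimitive then (hFex q χ h.1 h.2.1 h.2.2).choose else 0
  have hFs : ∀ (q : ℕ) (χ : DirichletCharacter ℂ q), 2 ≤ q → Nat.Coprime q N → χ.IsPrimitive →
      Differentiable ℂ (F q χ) ∧
        ∀ s : ℂ, 1 < s.re → F q χ s = LI (Pool.Agent.Y773.tw ψ χ) s := by
    intro q χ hq hqN hχ
    have h1 : F q χ = (hFex q χ hq hqN hχ).choose := dif_pos ⟨hq, hqN, hχ⟩
    rw [h1]
    exact (hFex q χ hq hqN hχ).choose_spec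
  -- the Gauss sums
  let T : (a : ℕ) → (q : ℕ) → DirichletCharacter ℂ q → ℂ := fun a q χ =>
    if h : ∃ τ : ℂ, GaussP (𝔣 * Ideal.span {(q : 𝓞 K)}) (kk (ea68 e₀ a) ν)
      (Pool.Agent.Y773.tw ψ χ) τ then h.choose else 0
  have hT : ∀ (a q : ℕ) (χ : DirichletCharacter ℂ q), 2 ≤ q → Nat.Coprime q N → χ.IsPrimitive →
      χ (-1) = (-1) ^ a → GaussP (𝔣 * Ideal.span {(q : 𝓞 K)}) (kk (ea68 e₀ a) ν)
        (Pool.Agent.Y773.tw ψ χ) (T a q χ) := by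
    intro a q χ hq hqN hχ hχa
    have h0 := tau_ex68 hψ hν hray hq hqN hχ hχa
    have h1 : T a q χ = h0.choose := dif_pos h0
    rw [h1]
    exact h0.choose_spec
  set n := Module.finrank ℚ K with hn
  -- the sums
  let W : (q : ℕ) → DirichletCharacter ℂ q → ℂ := fun q χ => Cc a * T a q χ /
    ((Real.sqrt (Ideal.absNorm (𝔣 * Ideal.span {(q : 𝓞 K)}) : ℝ) : ℝ) : ℂ)
  let u : (r : ℕ) → DirichletCharacter ℂ r → ℂ := fun r χ =>
    if 2 ≤ r ∧ Nat.Coprime r N ∧ χ.IsPrimitive then Cc a * T (ap68 χ) r χ /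
      ((Real.sqrt (Ideal.absNorm (𝔣 * Ideal.span {(r : 𝓞 K)}) : ℝ) : ℝ) : ℂ) else 0
  have hRpos : 0 < Rc68 𝔣 := Rc68_pos hψ.ne_bot
  have hS0 : (0 : ℝ) ≤ ∑ w, |ν w| := Finset.sum_nonneg fun _ _ => abs_nonneg _
  have hNc : ∀ {q : ℕ}, Nat.Coprime q N' → Nat.Coprime q N := fun h =>
    Nat.Coprime.coprime_dvd_right hNN h
  refine ⟨Rc68 𝔣, 3 * (1 + (4 + ∑ w, |ν w|)), 96 * (n : ℝ) ^ 2, cc ψ, F,
    fun q χ => LX (W q χ) (Rc68 𝔣 * (q : ℝ) ^ n) (mu68 (ea68 e₀ a) ν),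
    gq (mu68 (ea68 e₀ a) ν), fun p _ => ψ (Ideal.span {(p : 𝓞 K)}), u,
    fun r => ((Ideal.absNorm 𝔣 * Ideal.absNorm (differentIdeal ℤ (𝓞 K)) * r ^ n : ℕ) : ℤ), 1, b1,
    ⟨hRpos, by linarith, by positivity, hLin, sqb_of_bdd b1, ?_, ?_, ?_, ?_, ?_⟩,
    fun q χ hq hqN hχ => hFs q χ hq (hNc hqN) hχ⟩
  · intro q χ hq hqN' hχ
    have hqN := hNc hqN'
    obtain ⟨h1, h2⟩ := hFs q χ hq hqN hχ
    obtain ⟨htw, -, -⟩ := tw_data68 hψ hν hray hq hqN hχ (ap68_eq χ)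
    exact mem_hecke68 hψ hν hLin hq htw h1 h2
  · intro p r _ _ χ₁ χ₂ hr hpS hp hcop hcopN' hχ₁ hχ₂ hpar
    have hcopN := hNc hcopN'
    have hq : 2 ≤ p * r := by
      have := hp.two_le
      nlinarith
    have hrN : Nat.Coprime r N := Nat.Coprime.coprime_dvd_left (dvd_mul_left r p) hcopN
    have hχ := pr_prim68 hcrt hcop hχ₁ hχ₂
    set χ := pr p r χ₁ χ₂ with hχdef
    have hχa : χ (-1) = (-1) ^ a := by rw [hpar, ha]
    have hprod : (-1 : ℂ) ^ a = (-1) ^ (ap68 χ₁) * (-1) ^ (ap68 χ₂) := by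
      have : NeZero (p * r) := ⟨mul_ne_zero (NeZero.ne p) (NeZero.ne r)⟩
      obtain ⟨h1, -, -⟩ := hcrt p r hcop
      have h2 := h1 χ₁ χ₂ (-1)
      push_cast at h2
      rw [← hχa, ← ap68_eq, ← ap68_eq]
      exact h2
    obtain ⟨-, hM, hP⟩ := tw_data68 hψ hν hray hq hcopN hχ hχa
    obtain ⟨-, hM2, hP2⟩ := tw_data68 hψ hν hray hr hrN hχ₂ (ap68_eq χ₂)
    have hG := hT a (p * r) χ hq hcopN hχ hχa
    have hG2 := hT (ap68 χ₂) r χ₂ hr hrN hχ₂ (ap68_eq χ₂)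
    obtain ⟨hw1, F', hF', hFL', hfe'⟩ := hCp a (𝔣 * Ideal.span {((p * r : ℕ) : 𝓞 K)})
      (Pool.Agent.Y773.tw ψ χ) ν (T a (p * r) χ) hν hP hM hG
    obtain ⟨hd, hs⟩ := hFs (p * r) χ hq hcopN hχ
    refine ⟨eps_hecke68 hψ.ne_bot hq (ea68_le e₀ a) hw1 hF' hFL' hfe' hd hs, fun z => ?_⟩
    have hRpr : 0 < Rc68 𝔣 * (((p * r : ℕ) : ℕ) : ℝ) ^ n := by
      have h4 : (0 : ℝ) < ((p * r : ℕ) : ℝ) := by exact_mod_cast (show 0 < p * r by omega)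
      positivity
    rw [LX_eq hRpr]
    -- the root number
    have hτ := htau K 𝔣 (kk (ea68 e₀ (ap68 χ₂)) ν) (kk (ea68 e₀ a) ν) ψ p r χ₁ χ₂
      (T (ap68 χ₂) r χ₂) (T a (p * r) χ) hp hpS hcop hcopN hχ₁ hχ₂ hM2 hM
      (fun x hx => kk_rel68 χ₁ (ap68_eq χ₁) hprod x hx) hG2 hG
    have hu : u r χ₂ = Cc a * T (ap68 χ₂) r χ₂ /
        ((Real.sqrt (Ideal.absNorm (𝔣 * Ideal.span {(r : 𝓞 K)}) : ℝ) : ℝ) : ℂ) :=
      if_pos ⟨hr, hrN, hχ₂⟩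
    have hp0 : (0 : ℝ) < p := by exact_mod_cast hp.pos
    have hsq : Real.sqrt (Ideal.absNorm (𝔣 * Ideal.span {((p * r : ℕ) : 𝓞 K)}) : ℝ) =
        Real.sqrt (Ideal.absNorm (𝔣 * Ideal.span {(r : 𝓞 K)}) : ℝ) * (p : ℝ) ^ ((n : ℝ) / 2) := by
      have h1 : (Ideal.absNorm (𝔣 * Ideal.span {((p * r : ℕ) : 𝓞 K)}) : ℝ) =
          (Ideal.absNorm (𝔣 * Ideal.span {(r : 𝓞 K)}) : ℝ) * (p : ℝ) ^ n := by
        rw [map_mul, map_mul, absNorm_span_nat, absNorm_span_nat]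
        push_cast
        ring
      rw [h1, Real.sqrt_mul (Nat.cast_nonneg _)]
      congr 1
      rw [Real.sqrt_eq_rpow, ← Real.rpow_natCast, ← Real.rpow_mul hp0.le]
      congr 1
      ring
    have hW : W (p * r) χ = ψ (Ideal.span {(p : 𝓞 K)}) * u r χ₂ *
        χ₁ ((((Ideal.absNorm 𝔣 * Ideal.absNorm (differentIdeal ℤ (𝓞 K)) * r ^ n : ℕ) : ℤ) : ℤ) :
          ZMod p) *
        χ₂ ((1 * (p : ℤ) ^ n : ℤ) : ZMod r) *
        (gs χ₁ ^ n / (((p : ℝ) ^ ((n : ℝ) / 2) : ℝ) : ℂ)) := by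
      have h2 : ((1 * (p : ℤ) ^ n : ℤ) : ZMod r) = ((p ^ n : ℕ) : ZMod r) := by push_cast; ring
      rw [h2, Int.cast_natCast, hu]
      show Cc a * T a (p * r) χ /
        ((Real.sqrt (Ideal.absNorm (𝔣 * Ideal.span {((p * r : ℕ) : 𝓞 K)}) : ℝ) : ℝ) : ℂ) = _
      rw [← hn] at hτ
      rw [hsq, hτ, Complex.ofReal_mul]
      ring
    rw [hW]
  · intro p r
    exact Pool.Agent.Y772.HI.hm_norm_le hψ.toIsHM _
  · intro r χ
    simp only [u]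
    split_ifs with h
    · obtain ⟨-, hM2, hP2⟩ := tw_data68 hψ hν hray h.1 h.2.1 h.2.2 (ap68_eq χ)
      have hG2 := hT (ap68 χ) r χ h.1 h.2.1 h.2.2 (ap68_eq χ)
      obtain ⟨hw1, -⟩ := hCp (ap68 χ) (𝔣 * Ideal.span {(r : 𝓞 K)})
        (Pool.Agent.Y773.tw ψ χ) ν (T (ap68 χ) r χ) hν hP2 hM2 hG2
      rw [norm_div, norm_mul, hCn a, ← hCn (ap68 χ), ← norm_mul, ← norm_div, hw1]
    · rw [norm_zero]
      exact zero_le_one
  · exact gq_gr (mu68_gt _ ν)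

theorem t_hecke (hcrt : S_crt) (hfew : S_few) (htau : S_tau) : S_hecke := by
  intro K _ _ _ 𝔣 ν ψ e hψ hν he
  obtain ⟨R, V, S, c, F, ep, g, b, u, v, M, -, h1, h2⟩ :=
    t_hecke' hcrt hfew htau K 𝔣 ν ψ _ e hψ hν dvd_rfl he
  exact ⟨R, V, S, c, F, ep, g, b, u, v, M, h1, h2⟩

end Pool.Agent.NH12.GL
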