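import Pool.Agent.NH12.GL.Tw2
import Pool.Agent.NH12.GL.Crt

/-!
# Gauss sums of Hecke characters twisted by a character of split prime conductor
-/

set_option autoImplicit false
set_option linter.unusedSectionVars false

namespace Pool.Agent.NH12.GL

open NumberField Complex Filter Topology
open Pool.Agent.Y767 (IsModK PrimK Pk Pk_zero Pk_of_eq Pk_of_notMem)
open Pool.Agent.Y773 (LI FT SQ PerI ee_sub_eq trace_dvd FT_eq_SQ SQ_congr absNorm_span_nat mk_out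
  mem_iff_exists_mul span_m_ne_bot)
open scoped ComplexConjugate

section

variable {K : Type} [Field K] [NumberField K]

section homs

variable {p : ℕ} [Fact p.Prime] {φ : Fin (Module.finrank ℚ K) → (𝓞 K →+* ZMod p)}

/-- the matrix of the values at a basis -/
noncomputable def Vm (φ : Fin (Module.finrank ℚ K) → (𝓞 K →+* ZMod p))
    (b : Module.Basis (Fin (Module.finrank ℚ K)) ℤ (𝓞 K)) :
    Matrix (Fin (Module.finrank ℚ K)) (Fin (Module.finrank ℚ K)) (ZMod p) :=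
  Matrix.of fun i j => φ i (b j)

lemma hom_repr (φ : Fin (Module.finrank ℚ K) → (𝓞 K →+* ZMod p))
    (b : Module.Basis (Fin (Module.finrank ℚ K)) ℤ (𝓞 K)) (i : Fin (Module.finrank ℚ K))
    (s : 𝓞 K) : φ i s = ∑ j, ((b.repr s j : ℤ) : ZMod p) * φ i (b j) := by
  conv_lhs => rw [← b.sum_repr s]
  rw [map_sum]
  refine Finset.sum_congr rfl fun j _ => ?_
  rw [zsmul_eq_mul, map_mul, map_intCast]

lemma Vm_det (hφ : Function.Injective φ)
    (b : Module.Basis (Fin (Module.finrank ℚ K)) ℤ (𝓞 K)) : (Vm φ b).det ≠ 0 := by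
  intro h0
  rw [← Matrix.exists_vecMul_eq_zero_iff] at h0
  obtain ⟨v, hv, hv0⟩ := h0
  apply hv
  have h1 : ∀ s : 𝓞 K, ∑ i, v i * φ i s = 0 := by
    intro s
    have h2 : ∀ j, ∑ i, v i * φ i (b j) = 0 := by
      intro j
      have := congrFun hv0 j
      simpa [Matrix.vecMul, dotProduct, Vm] using this
    calc ∑ i, v i * φ i s = ∑ i, v i * ∑ j, ((b.repr s j : ℤ) : ZMod p) * φ i (b j) := by
          refine Finset.sum_congr rfl fun i _ => ?_
          rw [hom_repr φ b i s]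
      _ = ∑ j, ((b.repr s j : ℤ) : ZMod p) * ∑ i, v i * φ i (b j) := by
          simp only [Finset.mul_sum]
          rw [Finset.sum_comm]
          refine Finset.sum_congr rfl fun j _ => Finset.sum_congr rfl fun i _ => ?_
          ring
      _ = 0 := by simp [h2]
  have hli := linearIndependent_monoidHom (𝓞 K) (ZMod p)
  have hinj : Function.Injective (fun i => ((φ i : 𝓞 K →+* ZMod p) : 𝓞 K →* ZMod p)) := by
    intro i j hij
    apply hφ
    ext s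
    exact DFunLike.congr_fun hij s
  have hli2 := hli.comp _ hinj
  rw [Fintype.linearIndependent_iff] at hli2
  funext i
  refine hli2 v ?_ i
  funext s
  simpa using h1 s

lemma Vm_mul (φ : Fin (Module.finrank ℚ K) → (𝓞 K →+* ZMod p))
    (b : Module.Basis (Fin (Module.finrank ℚ K)) ℤ (𝓞 K)) (s : 𝓞 K) :
    Vm φ b * (Algebra.leftMulMatrix b s).map (Int.castRingHom (ZMod p)) =
      Matrix.diagonal (fun i => φ i s) * Vm φ b := by
  ext i j
  rw [Matrix.diagonal_mul, Matrix.mul_apply]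
  simp only [Vm, Matrix.of_apply, Matrix.map_apply]
  rw [← map_mul, hom_repr φ b i (s * b j)]
  refine Finset.sum_congr rfl fun k _ => ?_
  rw [Algebra.leftMulMatrix_eq_repr_mul, mul_comm]
  rfl

/-- the norm modulo a prime splitting completely -/
lemma norm_hom (hφ : Function.Injective φ) (s : 𝓞 K) :
    ((Algebra.norm ℤ s : ℤ) : ZMod p) = ∏ i, φ i s := by
  set b := Module.finBasisOfFinrankEq ℤ (𝓞 K) (RingOfIntegers.rank K)
  have h1 := congrArg Matrix.det (Vm_mul φ b s)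
  rw [Matrix.det_mul, Matrix.det_mul, Matrix.det_diagonal, mul_comm] at h1
  have h2 := mul_right_cancel₀ (Vm_det hφ b) h1
  rw [← h2, Algebra.norm_eq_matrix_det b, ← RingHom.mapMatrix_apply, ← RingHom.map_det]
  rfl

/-- the trace modulo a prime splitting completely -/
lemma trace_hom (hφ : Function.Injective φ) (s : 𝓞 K) :
    ((Algebra.trace ℤ (𝓞 K) s : ℤ) : ZMod p) = ∑ i, φ i s := by
  set b := Module.finBasisOfFinrankEq ℤ (𝓞 K) (RingOfIntegers.rank K)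
  have hu : IsUnit (Vm φ b).det := (Vm_det hφ b).isUnit
  have h1 := Vm_mul φ b s
  have h2 : (Algebra.leftMulMatrix b s).map (Int.castRingHom (ZMod p)) =
      (Vm φ b)⁻¹ * (Matrix.diagonal (fun i => φ i s) * Vm φ b) := by
    rw [← h1, Matrix.nonsing_inv_mul_cancel_left _ _ hu]
  have h3 : Matrix.trace ((Algebra.leftMulMatrix b s).map (Int.castRingHom (ZMod p))) =
      ∑ i, φ i s := by
    rw [h2, Matrix.trace_mul_comm, mul_assoc, Matrix.mul_nonsing_inv _ hu, mul_one,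
      Matrix.trace_diagonal]
  rw [← h3, Algebra.trace_eq_matrix_trace b]
  simp [Matrix.trace]

/-- the values can be prescribed -/
lemma hom_surj (hφ : Function.Injective φ) (t : Fin (Module.finrank ℚ K) → ZMod p) :
    ∃ s : 𝓞 K, ∀ i, φ i s = t i := by
  set b := Module.finBasisOfFinrankEq ℤ (𝓞 K) (RingOfIntegers.rank K)
  have hu : IsUnit (Vm φ b).det := (Vm_det hφ b).isUnit
  set a : Fin (Module.finrank ℚ K) → ZMod p := (Vm φ b)⁻¹.mulVec t with ha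
  have h1 : (Vm φ b).mulVec a = t := by
    rw [ha, Matrix.mulVec_mulVec, Matrix.mul_nonsing_inv _ hu, Matrix.one_mulVec]
  have : NeZero p := ⟨(Fact.out : p.Prime).ne_zero⟩
  refine ⟨∑ j, ((a j).val : ℤ) • b j, fun i => ?_⟩
  rw [map_sum, ← h1]
  simp only [Matrix.mulVec, dotProduct, Vm, Matrix.of_apply]
  refine Finset.sum_congr rfl fun j _ => ?_
  rw [zsmul_eq_mul, map_mul, map_intCast, Int.cast_natCast, ZMod.natCast_zmod_val, mul_comm]

end homs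

end


section

variable {K : Type} [Field K] [NumberField K]

/-- the Chinese remainder theorem for sums over residue classes -/
lemma SQ_crt {I J L : Ideal (𝓞 K)} (hI : I ≠ ⊥) (hJ : J ≠ ⊥) (hIJ : IsCoprime I J) (hL : L = I * J)
    {G H : 𝓞 K → ℂ} (hG : PerI I G) (hH : PerI J H) :
    SQ L (fun s => G s * H s) = SQ I G * SQ J H := by
  classical
  subst hL
  have : Finite (𝓞 K ⧸ I) := Ideal.finiteQuotientOfFreeOfNeBot _ hI
  have : Finite (𝓞 K ⧸ J) := Ideal.finiteQuotientOfFreeOfNeBot _ hJ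
  have : Finite (𝓞 K ⧸ (I * J)) := Ideal.finiteQuotientOfFreeOfNeBot _ (mul_ne_zero hI hJ)
  have := Fintype.ofFinite (𝓞 K ⧸ I)
  have := Fintype.ofFinite (𝓞 K ⧸ J)
  have := Fintype.ofFinite (𝓞 K ⧸ (I * J))
  unfold SQ
  rw [finsum_eq_sum_of_fintype, finsum_eq_sum_of_fintype, finsum_eq_sum_of_fintype,
    Fintype.sum_mul_sum, ← Fintype.sum_prod_type']
  refine Fintype.sum_equiv (Ideal.quotientMulEquivQuotientProd I J hIJ).toEquiv _ _ ?_
  intro s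
  obtain ⟨s, rfl⟩ := Ideal.Quotient.mk_surjective s
  have e1 : ((Ideal.quotientMulEquivQuotientProd I J hIJ).toEquiv (Ideal.Quotient.mk (I * J) s)) =
    (Ideal.Quotient.mk I s, Ideal.Quotient.mk J s) := rfl
  rw [e1]
  have h1 : PerI (I * J) (fun s => G s * H s) := by
    intro x y hxy
    change G x * H x = G y * H y
    rw [hG x y (Ideal.mul_le_left hxy), hH x y (Ideal.mul_le_right hxy)]
  have h2 : G (Quotient.out (Ideal.Quotient.mk (I * J) s)) *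
      H (Quotient.out (Ideal.Quotient.mk (I * J) s)) = G s * H s := h1.out s
  change G (Quotient.out (Ideal.Quotient.mk (I * J) s)) *
      H (Quotient.out (Ideal.Quotient.mk (I * J) s)) =
    G (Quotient.out (Ideal.Quotient.mk I s)) * H (Quotient.out (Ideal.Quotient.mk J s))
  rw [h2, hG.out, hH.out]

variable {p : ℕ} [Fact p.Prime] {φ : Fin (Module.finrank ℚ K) → (𝓞 K →+* ZMod p)}

/-- sums over the residue classes modulo a prime splitting completely -/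
lemma SQ_split (hsurj : ∀ t : Fin (Module.finrank ℚ K) → ZMod p, ∃ s : 𝓞 K, ∀ i, φ i s = t i)
    (g : Fin (Module.finrank ℚ K) → ZMod p → ℂ) :
    SQ (Ideal.span {(p : 𝓞 K)}) (fun s => ∏ i, g i (φ i s)) = ∏ i, ∑ t, g i t := by
  classical
  have hp0 : 0 < p := (Fact.out : p.Prime).pos
  have hne : Ideal.span {(p : 𝓞 K)} ≠ ⊥ := by
    rw [Ne, Ideal.span_singleton_eq_bot]
    exact_mod_cast hp0.ne'
  have hfin : Finite (𝓞 K ⧸ Ideal.span {(p : 𝓞 K)}) := Ideal.finiteQuotientOfFreeOfNeBot _ hne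
  have := Fintype.ofFinite (𝓞 K ⧸ Ideal.span {(p : 𝓞 K)})
  have hker : ∀ i, ∀ a ∈ Ideal.span {(p : 𝓞 K)}, φ i a = 0 := by
    intro i a ha
    obtain ⟨t, rfl⟩ := Ideal.mem_span_singleton'.mp ha
    rw [map_mul, map_natCast, ZMod.natCast_self, mul_zero]
  let Φ : 𝓞 K ⧸ Ideal.span {(p : 𝓞 K)} → (Fin (Module.finrank ℚ K) → ZMod p) :=
    fun r i => Ideal.Quotient.lift _ (φ i) (hker i) r
  have hΦ : ∀ s, Φ (Ideal.Quotient.mk _ s) = fun i => φ i s := fun s => rfl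
  have hΦs : Function.Surjective Φ := by
    intro t
    obtain ⟨s, hs⟩ := hsurj t
    exact ⟨Ideal.Quotient.mk _ s, by rw [hΦ]; funext i; exact hs i⟩
  have hcard : Fintype.card (𝓞 K ⧸ Ideal.span {(p : 𝓞 K)}) =
      Fintype.card (Fin (Module.finrank ℚ K) → ZMod p) := by
    rw [← Nat.card_eq_fintype_card, ← Submodule.cardQuot_apply, ← Ideal.absNorm_apply,
      absNorm_span_nat, Fintype.card_fun, ZMod.card, Fintype.card_fin]
  have hbij : Function.Bijective Φ :=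
    (Fintype.bijective_iff_surjective_and_card Φ).mpr ⟨hΦs, hcard⟩
  unfold SQ
  rw [finsum_eq_sum_of_fintype]
  have h1 : ∀ r : 𝓞 K ⧸ Ideal.span {(p : 𝓞 K)}, ∏ i, g i (φ i (Quotient.out r)) =
      ∏ i, g i (Φ r i) := by
    intro r
    conv_rhs => rw [← mk_out r]
    rw [hΦ]
  rw [Finset.sum_congr rfl fun r _ => h1 r,
    Fintype.sum_bijective Φ hbij (fun r => ∏ i, g i (Φ r i)) (fun t => ∏ i, g i (t i))
      (fun r => rfl)]
  rw [Fintype.prod_sum]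

end


section main

variable {K : Type} [Field K] [NumberField K]

lemma chi_norm {p : ℕ} (χ : DirichletCharacter ℂ p) {a : ZMod p} (ha : IsUnit a) :
    ‖χ a‖ = 1 := by
  obtain ⟨u, rfl⟩ := ha
  exact DirichletCharacter.unit_norm_eq_one χ u

lemma conj_eq_inv {z : ℂ} (h : ‖z‖ = 1) : (starRingEnd ℂ) z = z⁻¹ := by
  refine eq_inv_of_mul_eq_one_left ?_
  rw [mul_comm, Complex.mul_conj, Complex.normSq_eq_norm_sq, h]
  simp

lemma sum_chi {p : ℕ} [Fact p.Prime] (χ : DirichletCharacter ℂ p) {c : ZMod p} (hc : IsUnit c) :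
    ∑ t : ZMod p, χ t * ZMod.stdAddChar (c * t) = (χ c)⁻¹ *
      gaussSum χ (ZMod.stdAddChar (N := p)) := by
  obtain ⟨u, rfl⟩ := hc
  have h1 := gaussSum_mulShift χ (ZMod.stdAddChar (N := p)) u
  have h0 : χ (u : ZMod p) ≠ 0 := by
    rw [← norm_ne_zero_iff, DirichletCharacter.unit_norm_eq_one]
    exact one_ne_zero
  rw [← h1, inv_mul_cancel_left₀ h0]
  unfold gaussSum
  rfl

lemma addchar_sum {p : ℕ} {ι : Type} [Fintype ι] (ψ : AddChar (ZMod p) ℂ) (f : ι → ZMod p) :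
    ψ (∑ i, f i) = ∏ i, ψ (f i) := by
  classical
  have h : ∀ s : Finset ι, ψ (∑ i ∈ s, f i) = ∏ i ∈ s, ψ (f i) := by
    intro s
    induction s using Finset.induction_on with
    | empty => simp
    | insert a s ha ih => rw [Finset.sum_insert ha, Finset.prod_insert ha, AddChar.map_add_eq_mul, ih]
  exact h _

/-- Bezout with a positive coefficient -/
lemma bezout_pos {p m : ℕ} (hm : 0 < m) (h : Nat.Coprime p m) :
    ∃ (a : ℕ) (b : ℤ), 0 < a ∧ (a : ℤ) * p + b * m = 1 := by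
  obtain ⟨u, v, huv⟩ := Nat.isCoprime_iff_coprime.mpr h
  have h1 : 0 < u + (|u| + 1) * (m : ℤ) := by
    have h2 : (1 : ℤ) ≤ m := by exact_mod_cast hm
    have h3 : -|u| ≤ u := neg_abs_le u
    nlinarith [abs_nonneg u]
  refine ⟨(u + (|u| + 1) * (m : ℤ)).toNat, v - (|u| + 1) * p, ?_, ?_⟩
  · exact Int.lt_toNat.mpr (by simpa using h1)
  · rw [Int.toNat_of_nonneg h1.le]
    linear_combination huv

variable [IsTotallyReal K]

/-- the comparison of the Gauss sums -/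
theorem tau_main (𝔪 : Ideal (𝓞 K)) (κ₂ κ : K → ℂ) (η₂ η : Ideal (𝓞 K) →*₀ ℂ) (p : ℕ)
    [hpf : Fact p.Prime] (χ : DirichletCharacter ℂ p) (τ₂ τ : ℂ)
    (φ : Fin (Module.finrank ℚ K) → (𝓞 K →+* ZMod p)) (hφ : Function.Injective φ)
    (hcopm : Nat.Coprime p (Ideal.absNorm 𝔪))
    (hcopD : Nat.Coprime p (Ideal.absNorm (differentIdeal ℤ (𝓞 K))))
    (h₂ : IsModK 𝔪 κ₂ η₂) (h : IsModK (𝔪 * Ideal.span {(p : 𝓞 K)}) κ η)
    (hη : ∀ 𝔞, η 𝔞 = η₂ 𝔞 * χ ((Ideal.absNorm 𝔞 : ℕ) : ZMod p))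
    (hκ : ∀ x : 𝓞 K, x ≠ 0 → κ (x : K) * χ (((Algebra.norm ℤ x).natAbs : ℕ) : ZMod p) =
      κ₂ (x : K) * χ ((Algebra.norm ℤ x : ℤ) : ZMod p))
    (hg₂ : GaussP 𝔪 κ₂ η₂ τ₂) (hg : GaussP (𝔪 * Ideal.span {(p : 𝓞 K)}) κ η τ) :
    τ = τ₂ * η₂ (Ideal.span {(p : 𝓞 K)}) *
      χ ((Ideal.absNorm 𝔪 * Ideal.absNorm (differentIdeal ℤ (𝓞 K)) : ℕ) : ZMod p) *
      gaussSum χ (ZMod.stdAddChar (N := p)) ^ Module.finrank ℚ K := by
  have hp : p.Prime := hpf.out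
  have hp0 : 0 < p := hp.pos
  have h𝔡 : differentIdeal ℤ (𝓞 K) ≠ ⊥ := differentIdeal_ne_bot
  set 𝔡 := differentIdeal ℤ (𝓞 K) with h𝔡def
  set D : ℕ := Ideal.absNorm 𝔡 with hD
  set m : ℕ := Ideal.absNorm 𝔪 with hm
  have hD0 : 0 < D := Nat.pos_of_ne_zero (fun h1 => h𝔡 (Ideal.absNorm_eq_zero_iff.mp h1))
  have hm0 : 0 < m := Nat.pos_of_ne_zero (fun h1 => h₂.ne_bot (Ideal.absNorm_eq_zero_iff.mp h1))
  have hDmem : (D : 𝓞 K) ∈ 𝔡 := Ideal.absNorm_mem _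
  have hmmem : (m : 𝓞 K) ∈ 𝔪 := Ideal.absNorm_mem _
  have hmne : Ideal.span {(m : 𝓞 K)} ≠ ⊥ := span_m_ne_bot hm0
  have hpne : Ideal.span {(p : 𝓞 K)} ≠ ⊥ := span_m_ne_bot hp0
  have hmD : ((m * D : ℕ) : 𝓞 K) ∈ 𝔪 * 𝔡 := by
    push_cast
    exact Ideal.mul_mem_mul hmmem hDmem
  obtain ⟨𝔟, h𝔟⟩ := mem_iff_exists_mul.mp hmD
  have h𝔟ne : 𝔟 ≠ ⊥ := by
    rintro rfl
    rw [Ideal.bot_mul] at h𝔟
    exact span_m_ne_bot (K := K) (Nat.mul_pos hm0 hD0) h𝔟.symm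
  -- the element `x`
  have hIne : 𝔟 * (𝔪 * Ideal.span {(p : 𝓞 K)}) ≠ 0 := mul_ne_zero h𝔟ne h.ne_bot
  obtain ⟨x, hx⟩ := IsDedekindDomain.exists_sup_span_eq
    (I := 𝔟 * (𝔪 * Ideal.span {(p : 𝓞 K)})) (J := 𝔟) Ideal.mul_le_left hIne
  have hx𝔟 : x ∈ 𝔟 := by
    rw [← hx]
    exact Ideal.mem_sup_right (Ideal.mem_span_singleton_self x)
  obtain ⟨𝔠, h𝔠⟩ := mem_iff_exists_mul.mp hx𝔟
  have hcop : IsCoprime 𝔠 (𝔪 * Ideal.span {(p : 𝓞 K)}) := by
    rw [Ideal.isCoprime_iff_sup_eq]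
    have h1 : 𝔟 * (𝔠 ⊔ 𝔪 * Ideal.span {(p : 𝓞 K)}) = 𝔟 * ⊤ := by
      rw [Ideal.mul_sup, mul_comm 𝔟 𝔠, h𝔠, sup_comm, hx, Ideal.mul_top]
    exact mul_left_cancel₀ h𝔟ne h1
  have hηc : η 𝔠 ≠ 0 := (h.supp 𝔠).mpr hcop
  have hηc' := hη 𝔠
  have hη₂c : η₂ 𝔠 ≠ 0 := fun h1 => hηc (by rw [hηc', h1, zero_mul])
  have hχc : χ ((Ideal.absNorm 𝔠 : ℕ) : ZMod p) ≠ 0 := fun h1 => hηc (by rw [hηc', h1, mul_zero])
  have h𝔠ne : 𝔠 ≠ ⊥ := h.ne_bot_of_coprime hcop
  have hx0 : x ≠ 0 := by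
    rintro rfl
    rw [Ideal.span_singleton_eq_bot.mpr rfl] at h𝔠
    exact mul_ne_zero h𝔠ne h𝔟ne h𝔠
  have hxK : (x : K) ≠ 0 := by exact_mod_cast hx0
  -- units modulo `p`
  have humm : IsUnit ((m : ℕ) : ZMod p) := (ZMod.isUnit_iff_coprime m p).mpr hcopm.symm
  have huD : IsUnit ((D : ℕ) : ZMod p) := (ZMod.isUnit_iff_coprime D p).mpr hcopD.symm
  have huc : IsUnit ((Ideal.absNorm 𝔠 : ℕ) : ZMod p) := by
    by_contra h1
    exact hχc (MulChar.map_nonunit χ h1)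
  have hNb : Ideal.absNorm 𝔟 * (m * D) = (m * D) ^ Module.finrank ℚ K := by
    have h1 := congrArg Ideal.absNorm h𝔟
    rw [map_mul, map_mul, absNorm_span_nat] at h1
    exact h1
  have hNbZ : ((Ideal.absNorm 𝔟 : ℕ) : ZMod p) * ((m : ℕ) * (D : ℕ) : ZMod p) =
      ((m : ℕ) * (D : ℕ) : ZMod p) ^ Module.finrank ℚ K := by
    have := congrArg (fun k : ℕ => (k : ZMod p)) hNb
    push_cast at this
    exact this
  have hub : IsUnit ((Ideal.absNorm 𝔟 : ℕ) : ZMod p) := by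
    have h1 : IsUnit (((m : ℕ) * (D : ℕ) : ZMod p) ^ Module.finrank ℚ K) :=
      (humm.mul huD).pow _
    rw [← hNbZ] at h1
    exact isUnit_of_mul_isUnit_left h1
  have hNx : (Algebra.norm ℤ x).natAbs = Ideal.absNorm 𝔠 * Ideal.absNorm 𝔟 := by
    have h1 := congrArg Ideal.absNorm h𝔠
    rw [map_mul, Ideal.absNorm_span_singleton] at h1
    exact h1.symm
  have huNx : IsUnit ((Algebra.norm ℤ x : ℤ) : ZMod p) := by
    have h1 : IsUnit (((Algebra.norm ℤ x).natAbs : ℕ) : ZMod p) := by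
      rw [hNx]
      push_cast
      exact huc.mul hub
    rcases Int.natAbs_eq (Algebra.norm ℤ x) with h2 | h2
    · rw [h2, Int.cast_natCast]
      exact h1
    · rw [h2, Int.cast_neg, Int.cast_natCast]
      exact h1.neg
  have huφ : ∀ i, IsUnit (φ i x) := by
    intro i
    rw [norm_hom hφ x] at huNx
    exact isUnit_of_dvd_unit (Finset.dvd_prod_of_mem (fun j => φ j x) (Finset.mem_univ i)) huNx
  -- Bezout
  obtain ⟨a, b, ha0, hab⟩ := bezout_pos hm0 hcopm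
  have hubm : ((b : ℤ) : ZMod p) * ((m : ℕ) : ZMod p) = 1 := by
    have := congrArg (fun k : ℤ => (k : ZMod p)) hab
    push_cast at this
    rw [ZMod.natCast_self, mul_zero, zero_add] at this
    exact this
  have hub' : IsUnit ((b : ℤ) : ZMod p) := IsUnit.of_mul_eq_one _ hubm
  -- the divisibility condition
  have hcond : ∀ s : 𝓞 K, (D : ℤ) ∣ Algebra.trace ℤ (𝓞 K) (x * s) := by
    intro s
    refine trace_dvd fun δ hδ => ?_
    have h1 : x * s * δ * m ∈ Ideal.span {((m * D : ℕ) : 𝓞 K)} := by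
      rw [← h𝔟]
      have : x * s * δ * m = x * ((m * s) * δ) := by ring
      rw [this]
      exact Ideal.mul_mem_mul hx𝔟 (Ideal.mul_mem_mul (Ideal.mul_mem_right _ _ hmmem) hδ)
    obtain ⟨t, ht⟩ := Ideal.mem_span_singleton'.mp h1
    rw [Ideal.mem_span_singleton']
    refine ⟨t, ?_⟩
    have hm1 : (m : 𝓞 K) ≠ 0 := by exact_mod_cast hm0.ne'
    apply mul_right_cancel₀ hm1
    rw [← ht]
    push_cast
    ring
  have hcond2 : ∀ s : 𝓞 K, (D : ℤ) ∣ Algebra.trace ℤ (𝓞 K) ((a : 𝓞 K) * x * s) := by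
    intro s
    have : (a : 𝓞 K) * x * s = x * (a * s) := by ring
    rw [this]
    exact hcond _
  -- the two Gauss sums
  have e1 := hg ⊤ 𝔟 (p * m) D (Nat.mul_pos hp0 hm0) hD0 (by
    have h1 : ((p * m * D : ℕ) : 𝓞 K) = ((m * D : ℕ) : 𝓞 K) * ((p : ℕ) : 𝓞 K) := by
      push_cast
      ring
    rw [h1, ← Ideal.span_singleton_mul_span_singleton, ← h𝔟, Ideal.top_mul]
    ring) (by
    rw [Ideal.top_mul]
    push_cast
    rw [mul_comm (p : 𝓞 K)]
    exact Ideal.mul_mem_mul hmmem (Ideal.mem_span_singleton_self _)) hDmem x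
  have e2 := hg₂ ⊤ 𝔟 m D hm0 hD0 (by rw [Ideal.top_mul]; exact h𝔟)
    (by rw [Ideal.top_mul]; exact hmmem) hDmem (a * x)
  rw [FT_eq_SQ hcond] at e1
  rw [FT_eq_SQ hcond2] at e2
  -- the trace divided by `D`
  choose lam hlam using hcond
  have hDZ : ((D : ℕ) : ZMod p) ≠ 0 := huD.ne_zero
  set c : Fin (Module.finrank ℚ K) → ZMod p := fun i => ((b : ℤ) : ZMod p) * ((D : ℕ) : ZMod p)⁻¹ * φ i x with hc
  have hlamZ : ∀ s, ((b * lam s : ℤ) : ZMod p) = ∑ i, c i * φ i s := by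
    intro s
    have h1 := trace_hom hφ (x * s)
    rw [hlam s] at h1
    push_cast at h1
    have h2 : ((lam s : ℤ) : ZMod p) = ((D : ℕ) : ZMod p)⁻¹ * ∑ i, φ i (x * s) := by
      rw [← h1, inv_mul_cancel_left₀ hDZ]
    push_cast
    rw [h2, Finset.mul_sum, Finset.mul_sum]
    refine Finset.sum_congr rfl fun i _ => ?_
    rw [hc, map_mul]
    ring
  set G : 𝓞 K → ℂ := fun s => Pk η₂ κ₂ ⊤ s * Pool.Agent.Y773.ee (m * D) ((a : 𝓞 K) * x * s) with hG
  set H : 𝓞 K → ℂ := fun s => ∏ i, (χ (φ i s) * ZMod.stdAddChar (c i * φ i s)) with hH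
  have hHs : ∀ s, H s = χ ((Algebra.norm ℤ s : ℤ) : ZMod p) *
      ZMod.stdAddChar (((b * lam s : ℤ) : ZMod p)) := by
    intro s
    rw [hlamZ, norm_hom hφ s, map_prod, addchar_sum]
    rw [hH]
    simp only
    rw [Finset.prod_mul_distrib]
  have hPk : ∀ s, Pk η κ ⊤ s = Pk η₂ κ₂ ⊤ s * χ ((Algebra.norm ℤ s : ℤ) : ZMod p) := by
    intro s
    by_cases hs : s = 0
    · rw [hs, Pk_zero (by exact top_ne_bot), Pk_zero (by exact top_ne_bot), zero_mul]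
    have h1 : Ideal.span {s} * ⊤ = Ideal.span {s} := Ideal.mul_top _
    rw [Pk_of_eq (by exact top_ne_bot) h1, Pk_of_eq (by exact top_ne_bot) h1, hη,
      Ideal.absNorm_span_singleton]
    linear_combination η₂ (Ideal.span {s}) * hκ s hs
  have hee : ∀ s, Pool.Agent.Y773.ee (p * m * D) (x * s) = Pool.Agent.Y773.ee (m * D) ((a : 𝓞 K) * x * s) *
      ZMod.stdAddChar (((b * lam s : ℤ) : ZMod p)) := by
    intro s
    have h1 : Algebra.trace ℤ (𝓞 K) ((a : 𝓞 K) * x * s) = a * (D * lam s) := by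
      have : (a : 𝓞 K) * x * s = (a : ℤ) • (x * s) := by
        rw [zsmul_eq_mul]
        push_cast
        ring
      rw [this, map_smul, hlam, smul_eq_mul]
    unfold Pool.Agent.Y773.ee
    rw [ZMod.stdAddChar_coe, ← Complex.exp_add, hlam, h1]
    congr 1
    have hpC : (p : ℂ) ≠ 0 := by exact_mod_cast hp0.ne'
    have hmC : (m : ℂ) ≠ 0 := by exact_mod_cast hm0.ne'
    have hDC : (D : ℂ) ≠ 0 := by exact_mod_cast hD0.ne'
    have habC : (a : ℂ) * p + b * m = 1 := by exact_mod_cast hab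
    push_cast
    field_simp
    linear_combination (-(lam s : ℂ)) * habC
  have hper2 : PerI (Ideal.span {(m : 𝓞 K)}) G := by
    intro s s' hss
    have h1 : Pk η₂ κ₂ ⊤ s = Pk η₂ κ₂ ⊤ s' := by
      refine h₂.perI (by exact top_ne_bot) s s' ?_
      rw [Ideal.top_mul]
      exact (Ideal.span_singleton_le_iff_mem _).mpr hmmem hss
    have h2 : Pool.Agent.Y773.ee (m * D) ((a : 𝓞 K) * x * s) = Pool.Agent.Y773.ee (m * D) ((a : 𝓞 K) * x * s') := by
      refine ee_sub_eq (Nat.mul_pos hm0 hD0) ?_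
      obtain ⟨t, ht⟩ := Ideal.mem_span_singleton'.mp hss
      have e3 : (a : 𝓞 K) * x * s - a * x * s' = (m : ℤ) • (a * x * t) := by
        rw [← mul_sub, ← ht, zsmul_eq_mul]
        push_cast
        ring
      rw [e3, map_smul, smul_eq_mul]
      push_cast
      exact mul_dvd_mul_left _ (hcond2 t)
    rw [hG]
    simp only
    rw [h1, h2]
  have hperp : PerI (Ideal.span {(p : 𝓞 K)}) H := by
    intro s s' hss
    have h1 : ∀ i, φ i s = φ i s' := by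
      intro i
      obtain ⟨t, ht⟩ := Ideal.mem_span_singleton'.mp hss
      rw [← sub_eq_zero, ← map_sub, ← ht, map_mul, map_natCast, ZMod.natCast_self, mul_zero]
    rw [hH]
    simp only [h1]
  have hmp : IsCoprime (Ideal.span {(m : 𝓞 K)}) (Ideal.span {(p : 𝓞 K)}) := by
    rw [Ideal.isCoprime_span_singleton_iff]
    have h1 : IsCoprime (m : ℤ) (p : ℤ) := Nat.isCoprime_iff_coprime.mpr hcopm.symm
    have h2 := h1.map (Int.castRingHom (𝓞 K))
    simpa using h2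
  have hL : Ideal.span {((p * m : ℕ) : 𝓞 K)} = Ideal.span {(m : 𝓞 K)} * Ideal.span {(p : 𝓞 K)} := by
    rw [Ideal.span_singleton_mul_span_singleton]
    push_cast
    rw [mul_comm]
  have e3 := SQ_crt hmne hpne hmp hL hper2 hperp
  have e4 : SQ (Ideal.span {((p * m : ℕ) : 𝓞 K)}) (fun r => Pk η κ ⊤ r * Pool.Agent.Y773.ee (p * m * D) (x * r)) =
      SQ (Ideal.span {((p * m : ℕ) : 𝓞 K)}) (fun s => G s * H s) := by
    refine SQ_congr fun s => ?_
    rw [hPk, hee, hHs, hG]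
    ring
  have e5 : SQ (Ideal.span {(p : 𝓞 K)}) H = ∏ i, ((χ (c i))⁻¹ *
      gaussSum χ (ZMod.stdAddChar (N := p))) := by
    have h1 := SQ_split (φ := φ) (hom_surj hφ) (fun i t => χ t * ZMod.stdAddChar (c i * t))
    rw [hH]
    refine h1.trans (Finset.prod_congr rfl fun i _ => ?_)
    refine sum_chi χ ?_
    rw [hc]
    exact (hub'.mul (IsUnit.mk0 _ (inv_ne_zero hDZ))).mul (huφ i)
  rw [e4, e3, e2, e5] at e1
  -- the final computation
  have hPk1 : Pk η κ 𝔟 x = η 𝔠 * κ (x : K) := Pk_of_eq h𝔟ne h𝔠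
  have hPk2 : Pk η₂ κ₂ 𝔟 ((a : 𝓞 K) * x) = η₂ (Ideal.span {(a : 𝓞 K)}) * (η₂ 𝔠 * κ₂ (x : K)) := by
    have h1 : (Ideal.span {(a : 𝓞 K)} * 𝔠) * 𝔟 = Ideal.span {(a : 𝓞 K) * x} := by
      rw [mul_assoc, h𝔠, Ideal.span_singleton_mul_span_singleton]
    rw [Pk_of_eq h𝔟ne h1, map_mul]
    have h2 : κ₂ (((a : 𝓞 K) * x : 𝓞 K) : K) = κ₂ (x : K) := by
      have e3 : (((a : 𝓞 K) * x : 𝓞 K) : K) = (a : K) * (x : K) := by
        refine (map_mul (algebraMap (𝓞 K) K) _ _).trans ?_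
        rw [map_natCast]
      rw [e3, h₂.kap.mul _ _ (by exact_mod_cast ha0.ne') hxK, h₂.kap.nat a ha0, one_mul]
    rw [h2]
    ring
  have hap : η₂ (Ideal.span {(a : 𝓞 K)}) * η₂ (Ideal.span {(p : 𝓞 K)}) = 1 := by
    have hne : ((a * p : ℕ) : 𝓞 K) ≠ 0 := by exact_mod_cast (Nat.mul_pos ha0 hp0).ne'
    have h1 := h₂.sig ((a * p : ℕ) : 𝓞 K) hne (by
      have h2 : ((a * p : ℕ) : 𝓞 K) - 1 = (m : 𝓞 K) * (-b) := by
        have := congrArg (fun k : ℤ => (k : 𝓞 K)) hab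
        push_cast at this ⊢
        linear_combination this
      rw [h2]
      exact Ideal.mul_mem_right _ _ hmmem)
    have h3 : κ₂ ((((a * p : ℕ) : 𝓞 K)) : K) = 1 := by
      have : ((((a * p : ℕ) : 𝓞 K)) : K) = ((a * p : ℕ) : K) := map_natCast (algebraMap (𝓞 K) K) _
      rw [this, h₂.kap.nat _ (Nat.mul_pos ha0 hp0)]
    rw [h3, mul_one] at h1
    rw [← map_mul, Ideal.span_singleton_mul_span_singleton, ← h1]
    push_cast
    rfl
  have hηa : ‖η₂ (Ideal.span {(a : 𝓞 K)})‖ = 1 := by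
    refine h₂.norm_eq_one ((h₂.supp _).mp ?_)
    intro h1
    rw [h1, zero_mul] at hap
    exact zero_ne_one hap
  have hconja : (starRingEnd ℂ) (η₂ (Ideal.span {(a : 𝓞 K)})) = η₂ (Ideal.span {(p : 𝓞 K)}) := by
    rw [conj_eq_inv hηa]
    exact (eq_inv_of_mul_eq_one_right hap).symm
  -- values of `χ`
  set A := χ ((m : ℕ) : ZMod p) with hA
  set B := χ ((D : ℕ) : ZMod p) with hB
  set C := χ ((Ideal.absNorm 𝔟 : ℕ) : ZMod p) with hC
  set E := χ ((Ideal.absNorm 𝔠 : ℕ) : ZMod p) with hE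
  set P := χ ((Algebra.norm ℤ x : ℤ) : ZMod p) with hP
  set W := gaussSum χ (ZMod.stdAddChar (N := p)) with hW
  have nA : ‖A‖ = 1 := chi_norm χ humm
  have nB : ‖B‖ = 1 := chi_norm χ huD
  have nC : ‖C‖ = 1 := chi_norm χ hub
  have nE : ‖E‖ = 1 := chi_norm χ huc
  have nP : ‖P‖ = 1 := chi_norm χ huNx
  have nz : ∀ {z : ℂ}, ‖z‖ = 1 → z ≠ 0 := by
    rintro z hz rfl
    rw [norm_zero] at hz
    exact zero_ne_one hz
  have hCAB : C * (A * B) = (A * B) ^ Module.finrank ℚ K := by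
    have := congrArg χ hNbZ
    rw [map_mul, map_pow, map_mul] at this
    exact this
  have hkap : κ (x : K) * (E * C) = κ₂ (x : K) * P := by
    have := hκ x hx0
    rw [hNx] at this
    push_cast at this
    rw [map_mul] at this
    exact this
  have hχb : χ ((b : ℤ) : ZMod p) = A⁻¹ := by
    have := congrArg χ hubm
    rw [map_mul, map_one] at this
    exact eq_inv_of_mul_eq_one_left this
  have hχD : χ (((D : ℕ) : ZMod p)⁻¹) = B⁻¹ := by
    have h1 : χ (((D : ℕ) : ZMod p)⁻¹) * B = 1 := by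
      rw [hB, ← map_mul, inv_mul_cancel₀ hDZ, map_one]
    exact eq_inv_of_mul_eq_one_left h1
  have hprod : ∏ i, ((χ (c i))⁻¹ * W) =
      (A * B) ^ Module.finrank ℚ K * P⁻¹ * W ^ Module.finrank ℚ K := by
    have h1 : ∀ i, (χ (c i))⁻¹ * W = A * B * (χ (φ i x))⁻¹ * W := by
      intro i
      rw [hc]
      simp only
      rw [map_mul, map_mul, hχb, hχD, mul_inv, mul_inv, inv_inv, inv_inv]
    rw [Finset.prod_congr rfl fun i _ => h1 i, Finset.prod_mul_distrib, Finset.prod_mul_distrib,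
      Finset.prod_inv_distrib, Finset.prod_const, Finset.prod_const, Finset.card_univ,
      Fintype.card_fin, ← map_prod, ← norm_hom hφ x]
  rw [hprod, hPk1, hPk2, hηc'] at e1
  have hNtop : Ideal.absNorm (⊤ : Ideal (𝓞 K)) = 1 := Ideal.absNorm_top
  have hNmp : Ideal.absNorm (𝔪 * Ideal.span {(p : 𝓞 K)}) = m * p ^ Module.finrank ℚ K := by
    rw [map_mul, absNorm_span_nat]
  rw [hNtop, hNmp] at e1
  have hconj1 : (starRingEnd ℂ) (η₂ 𝔠 * E * κ (x : K)) =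
      (starRingEnd ℂ) (η₂ 𝔠 * κ₂ (x : K)) * P⁻¹ * C := by
    have h1 : η₂ 𝔠 * E * κ (x : K) = η₂ 𝔠 * κ₂ (x : K) * P * C⁻¹ := by
      have hC0 := nz nC
      field_simp
      linear_combination hkap
    rw [h1, map_mul, map_mul, map_inv₀, conj_eq_inv nP, conj_eq_inv nC, inv_inv]
  have hconj2 : (starRingEnd ℂ) (η₂ (Ideal.span {(a : 𝓞 K)}) * (η₂ 𝔠 * κ₂ (x : K))) =
      η₂ (Ideal.span {(p : 𝓞 K)}) * (starRingEnd ℂ) (η₂ 𝔠 * κ₂ (x : K)) := by
    rw [map_mul, hconja]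
  rw [hconj1, hconj2] at e1
  have hz0 : (starRingEnd ℂ) (η₂ 𝔠 * κ₂ (x : K)) ≠ 0 := by
    rw [Ne, map_eq_zero]
    exact mul_ne_zero hη₂c (h₂.kap.ne_zero hxK)
  have hpC : (p : ℂ) ≠ 0 := by exact_mod_cast hp0.ne'
  have hmC : (m : ℂ) ≠ 0 := by exact_mod_cast hm0.ne'
  have hA0 := nz nA
  have hB0 := nz nB
  have hC0 := nz nC
  have hP0 := nz nP
  have hfin : χ ((m * D : ℕ) : ZMod p) = A * B := by
    push_cast
    rw [map_mul]
  rw [hfin]
  generalize (starRingEnd ℂ) (η₂ 𝔠 * κ₂ (x : K)) = z at e1 hz0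
  generalize η₂ (Ideal.span {(p : 𝓞 K)}) = y at e1 ⊢
  rw [← hCAB] at e1
  push_cast at e1
  rw [mul_pow] at e1
  generalize Module.finrank ℚ K = n at e1 ⊢
  have hpn : (p : ℂ) ^ n ≠ 0 := pow_ne_zero _ hpC
  have hmn : (m : ℂ) ^ n ≠ 0 := pow_ne_zero _ hmC
  have e6 : (z * P⁻¹ * C * ((m : ℂ) ^ n / m)) * (τ₂ * y * (A * B) * W ^ n) =
      (z * P⁻¹ * C * ((m : ℂ) ^ n / m)) * τ := by
    have h1 : (p : ℂ) ^ n * (m : ℂ) ^ n / (1 * (↑m * ↑p ^ n)) = (m : ℂ) ^ n / m := by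
      field_simp
    rw [h1] at e1
    rw [one_mul] at e1
    linear_combination e1
  have hne : z * P⁻¹ * C * ((m : ℂ) ^ n / m) ≠ 0 :=
    mul_ne_zero (mul_ne_zero (mul_ne_zero hz0 (inv_ne_zero hP0)) hC0) (div_ne_zero hmn hmC)
  exact (mul_left_cancel₀ hne e6).symm

end main

/-- **module 11** -/
theorem t_tau : S_tau := by
  intro K _ _ _ 𝔣 κ₂ κ ψ p r _ _ χ₁ χ₂ τ₂ τ hp hspl hpr hcop _ _ h₂ h hκ hg₂ hg
  have : Fact p.Prime := ⟨hp⟩
  obtain ⟨φ, hφ⟩ := hspl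
  have hmul : 𝔣 * Ideal.span {(r : 𝓞 K)} * Ideal.span {(p : 𝓞 K)} =
      𝔣 * Ideal.span {((p * r : ℕ) : 𝓞 K)} := by
    rw [mul_assoc, Ideal.span_singleton_mul_span_singleton]
    push_cast
    rw [mul_comm (r : 𝓞 K)]
  have hp1 : Nat.Coprime p (Ideal.absNorm 𝔣 * (discr K).natAbs) := Nat.Coprime.coprime_mul_right hcop
  have hN : Ideal.absNorm (𝔣 * Ideal.span {(r : 𝓞 K)}) =
      Ideal.absNorm 𝔣 * r ^ Module.finrank ℚ K := by
    rw [map_mul, absNorm_span_nat]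
  have hD : Ideal.absNorm (differentIdeal ℤ (𝓞 K)) = (discr K).natAbs :=
    NumberField.absNorm_differentIdeal (K := K) (𝒪 := 𝓞 K)
  have hη : ∀ 𝔞 : Ideal (𝓞 K), Pool.Agent.Y773.tw ψ (pr p r χ₁ χ₂) 𝔞 =
      Pool.Agent.Y773.tw ψ χ₂ 𝔞 * χ₁ ((Ideal.absNorm 𝔞 : ℕ) : ZMod p) := by
    intro 𝔞
    have h1 := Crt.pr_apply χ₁ χ₂ ((Ideal.absNorm 𝔞 : ℕ) : ℤ)
    simp only [Int.cast_natCast] at h1
    change ψ 𝔞 * pr p r χ₁ χ₂ ((Ideal.absNorm 𝔞 : ℕ) : ZMod (p * r)) =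
      ψ 𝔞 * χ₂ ((Ideal.absNorm 𝔞 : ℕ) : ZMod r) * χ₁ ((Ideal.absNorm 𝔞 : ℕ) : ZMod p)
    rw [h1]
    ring
  have hm := tau_main (𝔣 * Ideal.span {(r : 𝓞 K)}) κ₂ κ (Pool.Agent.Y773.tw ψ χ₂)
    (Pool.Agent.Y773.tw ψ (pr p r χ₁ χ₂)) p χ₁ τ₂ τ φ hφ
    (by
      rw [hN]
      exact Nat.Coprime.mul_right (Nat.Coprime.coprime_mul_right_right hp1) (hpr.pow_right _))
    (by
      rw [hD]
      exact Nat.Coprime.coprime_mul_left_right hp1)
    h₂ (by rw [hmul]; exact h) hη hκ hg₂ (by rw [hmul]; exact hg)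
  rw [hm, hN]
  have h1 : Pool.Agent.Y773.tw ψ χ₂ (Ideal.span {(p : 𝓞 K)}) =
      ψ (Ideal.span {(p : 𝓞 K)}) * χ₂ ((p ^ Module.finrank ℚ K : ℕ) : ZMod r) := by
    change ψ (Ideal.span {(p : 𝓞 K)}) *
      χ₂ ((Ideal.absNorm (Ideal.span {(p : 𝓞 K)}) : ℕ) : ZMod r) = _
    rw [absNorm_span_nat]
  rw [h1]
  have h2 : Ideal.absNorm 𝔣 * r ^ Module.finrank ℚ K * Ideal.absNorm (differentIdeal ℤ (𝓞 K)) =
      Ideal.absNorm 𝔣 * Ideal.absNorm (differentIdeal ℤ (𝓞 K)) * r ^ Module.finrank ℚ K := by ring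
  rw [h2]
  unfold gs
  ring

end Pool.Agent.NH12.GL
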