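import Pool.Agent.NH12.GL.Hecke
import Pool.Agent.NH12.GL.Crt
import Pool.Agent.NH12.GL.Tau

/-!
# Hecke characters as a family of twists, with the coefficients `cc ψ`
(the proof of `t_hecke'` of `Hecke.lean`)
-/

set_option autoImplicit false
set_option linter.unusedSectionVars false

namespace Pool.Agent.NH12.GL

open Finset Filter Topology Complex MeasureTheory NumberField
open ArithmeticFunction (vonMangoldt)
open Pool.Agent.R399.TW Pool.Agent.R399.TM Pool.Agent.NH12.NV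
open Pool.Agent.Y767.CA (GGc FEc cj Gd LX GGc_ne conj_GGc norm_LX inv_GGc_le)
open Pool.Agent.Y767 (IsHecke IsHM IsModK PrimK Pk kk FEn GGn eq_of_LI card_places ax kap_kk)
open Pool.Agent.Y773 (LI FT cc absNorm_span_nat mul_span_ne_top sg rl)
open scoped ComplexConjugate

theorem hecke_cc (K : Type) [Field K] [NumberField K] [IsTotallyReal K]
    (𝔣 : Ideal (𝓞 K)) (ν : InfinitePlace K → ℝ) (ψ : Ideal (𝓞 K) →*₀ ℂ) (N' : ℕ) (e : ℂ)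
    (hψ : IsHecke K 𝔣 ν ψ) (hν : ∑ w, ν w = 0)
    (hNN : Ideal.absNorm 𝔣 * (discr K).natAbs ∣ N') (he : e = 1 ∨ e = -1) :
    ∃ (R V S : ℝ) (F ep : (q : ℕ) → DirichletCharacter ℂ q → ℂ → ℂ) (g : ℂ → ℂ)
      (b : ℕ → ℕ → ℂ) (u : (r : ℕ) → DirichletCharacter ℂ r → ℂ) (v : ℕ → ℤ) (M : ℤ),
      (∀ n, ‖cc ψ n‖ ≤ (Module.finrank ℚ K : ℝ)) ∧
      TwM (Module.finrank ℚ K) (Spl K) N' e R V S (cc ψ) F ep g b u v M ∧
      ∀ (q : ℕ) (χ : DirichletCharacter ℂ q), 2 ≤ q →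
        Nat.Coprime q N' → χ.IsPrimitive →
        Differentiable ℂ (F q χ) ∧
        ∀ s : ℂ, 1 < s.re → F q χ s = LI (Pool.Agent.Y773.tw ψ χ) s := by
  have hcrt := t_crt
  have htau := t_tau
  classical
  obtain ⟨c₀, hc⟩ := few_norm K
  obtain ⟨e₀, -, hray⟩ := Pool.Agent.Y767.ray_gen hψ.ne_bot hψ.ray
  obtain ⟨A₀, hA₀, hD⟩ := Pool.Agent.Y772.DK.t_dirK K
  obtain ⟨-, -, -, -, -, -, b1, -, -, -, -⟩ := hD ψ (Pool.Agent.Y772.HI.hm_norm_le hψ.toIsHM)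
  have hLin : Lin (cc ψ) := by
    intro σ hσ
    refine Summable.of_nonneg_of_le (fun n => ?_) (fun n => ?_)
      ((Pool.Agent.Y767.CA.summable_vm hσ).mul_left (Module.finrank ℚ K : ℝ))
    · have := vm_nn n
      positivity
    · have h1 := vm_nn n
      have h2 := b1 n
      calc vonMangoldt n * ‖cc ψ n‖ * (n : ℝ) ^ (-σ)
          ≤ vonMangoldt n * (Module.finrank ℚ K : ℝ) * (n : ℝ) ^ (-σ) := by gcongr
        _ = _ := by ring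
  choose Cc hCn hCp using fun a : ℕ => hc (ea68 e₀ a) (ea68_le e₀ a)
  set N : ℕ := Ideal.absNorm 𝔣 * (discr K).natAbs with hN
  obtain ⟨a, ha⟩ : ∃ a : ℕ, e = (-1) ^ a := by
    rcases he with rfl | rfl
    · exact ⟨0, by simp⟩
    · exact ⟨1, by simp⟩
  -- the L-functions
  have hFex : ∀ (q : ℕ) (χ : DirichletCharacter ℂ q), 2 ≤ q → Nat.Coprime q N → χ.IsPrimitive →
      ∃ L : ℂ → ℂ, Differentiable ℂ L ∧
        ∀ s : ℂ, 1 < s.re → L s = LI (Pool.Agent.Y773.tw ψ χ) s := by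
    intro q χ hq hqN hχ
    obtain ⟨htw, -, -⟩ := tw_data68 hψ hν hray hq hqN hχ (ap68_eq χ)
    obtain ⟨_, G, hG, hGL⟩ := htw.fe hν (mul_span_ne_top hq)
    exact ⟨G, hG.diff, hGL⟩
  let F : (q : ℕ) → DirichletCharacter ℂ q → ℂ → ℂ := fun q χ =>
    if h : 2 ≤ q ∧ Nat.Coprime q N ∧ χ.IsPrimitive then (hFex q χ h.1 h.2.1 h.2.2).choose else 0
  have hFs : ∀ (q : ℕ) (χ : DirichletCharacter ℂ q), 2 ≤ q → Nat.Coprime q N → χ.IsPrimitive →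
      Differentiable ℂ (F q χ) ∧
        ∀ s : ℂ, 1 < s.re → F q χ s = LI (Pool.Agent.Y773.tw ψ χ) s := by
    intro q χ hq hqN hχ
    have h1 : F q χ = (hFex q χ hq hqN hχ).choose := dif_pos ⟨hq, hqN, hχ⟩
    rw [h1]
    exact (hFex q χ hq hqN hχ).choose_spec
  -- the Gauss sums
  let T : (a : ℕ) → (q : ℕ) → DirichletCharacter ℂ q → ℂ := fun a q χ =>
    if h : ∃ τ : ℂ, GaussP (𝔣 * Ideal.span {(q : 𝓞 K)}) (kk (ea68 e₀ a) ν)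
      (Pool.Agent.Y773.tw ψ χ) τ then h.choose else 0
  have hT : ∀ (a q : ℕ) (χ : DirichletCharacter ℂ q), 2 ≤ q → Nat.Coprime q N → χ.IsPrimitive →
      χ (-1) = (-1) ^ a → GaussP (𝔣 * Ideal.span {(q : 𝓞 K)}) (kk (ea68 e₀ a) ν)
        (Pool.Agent.Y773.tw ψ χ) (T a q χ) := by
    intro a q χ hq hqN hχ hχa
    have h0 := tau_ex68 hψ hν hray hq hqN hχ hχa
    have h1 : T a q χ = h0.choose := dif_pos h0
    rw [h1]
    exact h0.choose_spec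
  set n := Module.finrank ℚ K with hn
  -- the sums
  let W : (q : ℕ) → DirichletCharacter ℂ q → ℂ := fun q χ => Cc a * T a q χ /
    ((Real.sqrt (Ideal.absNorm (𝔣 * Ideal.span {(q : 𝓞 K)}) : ℝ) : ℝ) : ℂ)
  let u : (r : ℕ) → DirichletCharacter ℂ r → ℂ := fun r χ =>
    if 2 ≤ r ∧ Nat.Coprime r N ∧ χ.IsPrimitive then Cc a * T (ap68 χ) r χ /
      ((Real.sqrt (Ideal.absNorm (𝔣 * Ideal.span {(r : 𝓞 K)}) : ℝ) : ℝ) : ℂ) else 0
  have hRpos : 0 < Rc68 𝔣 := Rc68_pos hψ.ne_bot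
  have hS0 : (0 : ℝ) ≤ ∑ w, |ν w| := Finset.sum_nonneg fun _ _ => abs_nonneg _
  have hNc : ∀ {q : ℕ}, Nat.Coprime q N' → Nat.Coprime q N := fun h =>
    Nat.Coprime.coprime_dvd_right hNN h
  refine ⟨Rc68 𝔣, 3 * (1 + (4 + ∑ w, |ν w|)), 96 * (n : ℝ) ^ 2, F,
    fun q χ => LX (W q χ) (Rc68 𝔣 * (q : ℝ) ^ n) (mu68 (ea68 e₀ a) ν),
    gq (mu68 (ea68 e₀ a) ν), fun p _ => ψ (Ideal.span {(p : 𝓞 K)}), u,
    fun r => ((Ideal.absNorm 𝔣 * Ideal.absNorm (differentIdeal ℤ (𝓞 K)) * r ^ n : ℕ) : ℤ), 1, b1,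
    ⟨hRpos, by linarith, by positivity, hLin, sqb_of_bdd b1, ?_, ?_, ?_, ?_, ?_⟩,
    fun q χ hq hqN hχ => hFs q χ hq (hNc hqN) hχ⟩
  · intro q χ hq hqN' hχ
    have hqN := hNc hqN'
    obtain ⟨h1, h2⟩ := hFs q χ hq hqN hχ
    obtain ⟨htw, -, -⟩ := tw_data68 hψ hν hray hq hqN hχ (ap68_eq χ)
    exact mem_hecke68 hψ hν hLin hq htw h1 h2
  · intro p r _ _ χ₁ χ₂ hr hpS hp hcop hcopN' hχ₁ hχ₂ hpar
    have hcopN := hNc hcopN'
    have hq : 2 ≤ p * r := by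
      have := hp.two_le
      nlinarith
    have hrN : Nat.Coprime r N := Nat.Coprime.coprime_dvd_left (dvd_mul_left r p) hcopN
    have hχ := pr_prim68 hcrt hcop hχ₁ hχ₂
    set χ := pr p r χ₁ χ₂ with hχdef
    have hχa : χ (-1) = (-1) ^ a := by rw [hpar, ha]
    have hprod : (-1 : ℂ) ^ a = (-1) ^ (ap68 χ₁) * (-1) ^ (ap68 χ₂) := by
      have : NeZero (p * r) := ⟨mul_ne_zero (NeZero.ne p) (NeZero.ne r)⟩
      obtain ⟨h1, -, -⟩ := hcrt p r hcop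
      have h2 := h1 χ₁ χ₂ (-1)
      push_cast at h2
      rw [← hχa, ← ap68_eq, ← ap68_eq]
      exact h2
    obtain ⟨-, hM, hP⟩ := tw_data68 hψ hν hray hq hcopN hχ hχa
    obtain ⟨-, hM2, hP2⟩ := tw_data68 hψ hν hray hr hrN hχ₂ (ap68_eq χ₂)
    have hG := hT a (p * r) χ hq hcopN hχ hχa
    have hG2 := hT (ap68 χ₂) r χ₂ hr hrN hχ₂ (ap68_eq χ₂)
    obtain ⟨hw1, F', hF', hFL', hfe'⟩ := hCp a (𝔣 * Ideal.span {((p * r : ℕ) : 𝓞 K)})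
      (Pool.Agent.Y773.tw ψ χ) ν (T a (p * r) χ) hν hP hM hG
    obtain ⟨hd, hs⟩ := hFs (p * r) χ hq hcopN hχ
    refine ⟨eps_hecke68 hψ.ne_bot hq (ea68_le e₀ a) hw1 hF' hFL' hfe' hd hs, fun z => ?_⟩
    have hRpr : 0 < Rc68 𝔣 * (((p * r : ℕ) : ℕ) : ℝ) ^ n := by
      have h4 : (0 : ℝ) < ((p * r : ℕ) : ℝ) := by exact_mod_cast (show 0 < p * r by omega)
      positivity
    rw [LX_eq hRpr]
    -- the root number
    have hτ := htau K 𝔣 (kk (ea68 e₀ (ap68 χ₂)) ν) (kk (ea68 e₀ a) ν) ψ p r χ₁ χ₂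
      (T (ap68 χ₂) r χ₂) (T a (p * r) χ) hp hpS hcop hcopN hχ₁ hχ₂ hM2 hM
      (fun x hx => kk_rel68 χ₁ (ap68_eq χ₁) hprod x hx) hG2 hG
    have hu : u r χ₂ = Cc a * T (ap68 χ₂) r χ₂ /
        ((Real.sqrt (Ideal.absNorm (𝔣 * Ideal.span {(r : 𝓞 K)}) : ℝ) : ℝ) : ℂ) :=
      if_pos ⟨hr, hrN, hχ₂⟩
    have hp0 : (0 : ℝ) < p := by exact_mod_cast hp.pos
    have hsq : Real.sqrt (Ideal.absNorm (𝔣 * Ideal.span {((p * r : ℕ) : 𝓞 K)}) : ℝ) =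
        Real.sqrt (Ideal.absNorm (𝔣 * Ideal.span {(r : 𝓞 K)}) : ℝ) * (p : ℝ) ^ ((n : ℝ) / 2) := by
      have h1 : (Ideal.absNorm (𝔣 * Ideal.span {((p * r : ℕ) : 𝓞 K)}) : ℝ) =
          (Ideal.absNorm (𝔣 * Ideal.span {(r : 𝓞 K)}) : ℝ) * (p : ℝ) ^ n := by
        rw [map_mul, map_mul, absNorm_span_nat, absNorm_span_nat]
        push_cast
        ring
      rw [h1, Real.sqrt_mul (Nat.cast_nonneg _)]
      congr 1
      rw [Real.sqrt_eq_rpow, ← Real.rpow_natCast, ← Real.rpow_mul hp0.le]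
      congr 1
      ring
    have hW : W (p * r) χ = ψ (Ideal.span {(p : 𝓞 K)}) * u r χ₂ *
        χ₁ ((((Ideal.absNorm 𝔣 * Ideal.absNorm (differentIdeal ℤ (𝓞 K)) * r ^ n : ℕ) : ℤ) : ℤ) :
          ZMod p) *
        χ₂ ((1 * (p : ℤ) ^ n : ℤ) : ZMod r) *
        (gs χ₁ ^ n / (((p : ℝ) ^ ((n : ℝ) / 2) : ℝ) : ℂ)) := by
      have h2 : ((1 * (p : ℤ) ^ n : ℤ) : ZMod r) = ((p ^ n : ℕ) : ZMod r) := by push_cast; ring
      rw [h2, Int.cast_natCast, hu]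
      show Cc a * T a (p * r) χ /
        ((Real.sqrt (Ideal.absNorm (𝔣 * Ideal.span {((p * r : ℕ) : 𝓞 K)}) : ℝ) : ℝ) : ℂ) = _
      rw [← hn] at hτ
      rw [hsq, hτ, Complex.ofReal_mul]
      ring
    rw [hW]
  · intro p r
    exact Pool.Agent.Y772.HI.hm_norm_le hψ.toIsHM _
  · intro r χ
    simp only [u]
    split_ifs with h
    · obtain ⟨-, hM2, hP2⟩ := tw_data68 hψ hν hray h.1 h.2.1 h.2.2 (ap68_eq χ)
      have hG2 := hT (ap68 χ) r χ h.1 h.2.1 h.2.2 (ap68_eq χ)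
      obtain ⟨hw1, -⟩ := hCp (ap68 χ) (𝔣 * Ideal.span {(r : 𝓞 K)})
        (Pool.Agent.Y773.tw ψ χ) ν (T (ap68 χ) r χ) hν hP2 hM2 hG2
      rw [norm_div, norm_mul, hCn a, ← hCn (ap68 χ), ← norm_mul, ← norm_div, hw1]
    · rw [norm_zero]
      exact zero_le_one
  · exact gq_gr (mu68_gt _ ν)


end Pool.Agent.NH12.GL
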