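import Pool.Agent.NH12.GL.Tw

/-!
# Products of families of twists
-/

set_option autoImplicit false

namespace Pool.Agent.NH12.GL

open Finset Filter Topology Complex MeasureTheory
open Pool.Agent.R399.TW Pool.Agent.R399.TM Pool.Agent.NH12.NV
open scoped ComplexConjugate
open ArithmeticFunction (vonMangoldt)

lemma gr_mul {S : Set ℂ} {f g : ℂ → ℂ}
    (hf : ∃ A C : ℝ, ∀ z ∈ S, ‖f z‖ ≤ C * Real.exp (A * |z.im|))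
    (hg : ∃ A C : ℝ, ∀ z ∈ S, ‖g z‖ ≤ C * Real.exp (A * |z.im|)) :
    ∃ A C : ℝ, ∀ z ∈ S, ‖f z * g z‖ ≤ C * Real.exp (A * |z.im|) := by
  obtain ⟨A, C, hA⟩ := hf
  obtain ⟨B, D, hB⟩ := hg
  refine ⟨A + B, C * D, fun z hz => ?_⟩
  rw [norm_mul]
  calc ‖f z‖ * ‖g z‖ ≤ (C * Real.exp (A * |z.im|)) * (D * Real.exp (B * |z.im|)) :=
        mul_le_mul (hA z hz) (hB z hz) (norm_nonneg _) ((norm_nonneg _).trans (hA z hz))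
    _ = C * D * Real.exp ((A + B) * |z.im|) := by
        rw [add_mul, Real.exp_add]
        ring

lemma rfl1_mul (f g : ℂ → ℂ) (z : ℂ) : rfl1 (fun s => f s * g s) z = rfl1 f z * rfl1 g z := by
  unfold rfl1
  rw [map_mul]

lemma lin_add {c c' : ℕ → ℂ} (h : Lin c) (h' : Lin c') : Lin (fun n => c n + c' n) := by
  intro σ hσ
  have h1 := h σ hσ
  have h2 := h' σ hσ
  refine Summable.of_nonneg_of_le (fun n => ?_) (fun n => ?_) (h1.add h2)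
  · have := vm_nn n
    positivity
  · have := vm_nn n
    have h3 := norm_add_le (c n) (c' n)
    calc vonMangoldt n * ‖c n + c' n‖ * (n : ℝ) ^ (-σ)
        ≤ vonMangoldt n * (‖c n‖ + ‖c' n‖) * (n : ℝ) ^ (-σ) := by gcongr
      _ = _ := by ring

lemma sqb_add {c c' : ℕ → ℂ} {S S' : ℝ} (h : Sqb c S) (h' : Sqb c' S') :
    Sqb (fun n => c n + c' n) (2 * S + 2 * S') := by
  intro σ h1 h2 N
  have h3 := h σ h1 h2 N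
  have h4 := h' σ h1 h2 N
  calc ∑ n ∈ Icc 2 N, vonMangoldt n * (4 * ‖c n + c' n‖ ^ 2) * (n : ℝ) ^ (-σ)
      ≤ ∑ n ∈ Icc 2 N, (2 * (vonMangoldt n * (4 * ‖c n‖ ^ 2) * (n : ℝ) ^ (-σ)) +
          2 * (vonMangoldt n * (4 * ‖c' n‖ ^ 2) * (n : ℝ) ^ (-σ))) := by
        refine Finset.sum_le_sum fun n _ => ?_
        have h5 := vm_nn n
        have h6 : ‖c n + c' n‖ ^ 2 ≤ 2 * ‖c n‖ ^ 2 + 2 * ‖c' n‖ ^ 2 := by
          have h7 := pow_le_pow_left₀ (norm_nonneg _) (norm_add_le (c n) (c' n)) 2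
          nlinarith [sq_nonneg (‖c n‖ - ‖c' n‖)]
        have h8 : (0 : ℝ) ≤ (n : ℝ) ^ (-σ) := by positivity
        calc vonMangoldt n * (4 * ‖c n + c' n‖ ^ 2) * (n : ℝ) ^ (-σ)
            ≤ vonMangoldt n * (4 * (2 * ‖c n‖ ^ 2 + 2 * ‖c' n‖ ^ 2)) * (n : ℝ) ^ (-σ) := by
              gcongr
          _ = _ := by ring
    _ = 2 * (∑ n ∈ Icc 2 N, vonMangoldt n * (4 * ‖c n‖ ^ 2) * (n : ℝ) ^ (-σ)) +
        2 * ∑ n ∈ Icc 2 N, vonMangoldt n * (4 * ‖c' n‖ ^ 2) * (n : ℝ) ^ (-σ) := by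
        rw [Finset.sum_add_distrib, ← Finset.mul_sum, ← Finset.mul_sum]
    _ ≤ 2 * (S / (σ - 1)) + 2 * (S' / (σ - 1)) := by gcongr
    _ = _ := by ring

lemma eps_mul {R₁ V₁ R₂ V₂ : ℝ} {m₁ m₂ : ℕ} {F₁ F₂ e₁ e₂ : ℂ → ℂ} (hR₁ : 0 ≤ R₁) (hR₂ : 0 ≤ R₂)
    (hV₁ : 0 ≤ V₁) (hV₂ : 0 ≤ V₂) (h₁ : Eps R₁ V₁ m₁ F₁ e₁) (h₂ : Eps R₂ V₂ m₂ F₂ e₂) :
    Eps (R₁ * R₂) (max V₁ V₂) (m₁ + m₂) (fun s => F₁ s * F₂ s) (fun s => e₁ s * e₂ s) where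
  cont := h₁.cont.mul h₂.cont
  diff := h₁.diff.mul h₂.diff
  gr := gr_mul h₁.gr h₂.gr
  mid t := by
    rw [norm_mul]
    exact mul_le_one₀ (h₁.mid t) (norm_nonneg _) (h₂.mid t)
  left t := by
    rw [norm_mul]
    have h3 := h₁.left t
    have h4 := h₂.left t
    have h5 : 0 ≤ |t| := abs_nonneg t
    have h6 : V₁ * (1 + |t|) ≤ max V₁ V₂ * (1 + |t|) := by
      have := le_max_left V₁ V₂
      gcongr
    have h7 : V₂ * (1 + |t|) ≤ max V₁ V₂ * (1 + |t|) := by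
      have := le_max_right V₁ V₂
      gcongr
    calc ‖e₁ (pt (-1 / 2) t)‖ * ‖e₂ (pt (-1 / 2) t)‖
        ≤ (R₁ * (V₁ * (1 + |t|)) ^ m₁) * (R₂ * (V₂ * (1 + |t|)) ^ m₂) :=
          mul_le_mul h3 h4 (norm_nonneg _) (by positivity)
      _ ≤ (R₁ * (max V₁ V₂ * (1 + |t|)) ^ m₁) * (R₂ * (max V₁ V₂ * (1 + |t|)) ^ m₂) := by
          gcongr
      _ = _ := by rw [pow_add]; ring
  fe t := by
    rw [rfl1_mul, h₁.fe t, h₂.fe t]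
    ring

lemma mem_mul {c₁ c₂ ψ : ℕ → ℂ} {R₁ V₁ R₂ V₂ : ℝ} {m₁ m₂ : ℕ} {F₁ F₂ : ℂ → ℂ} (hR₁ : 0 ≤ R₁)
    (hR₂ : 0 ≤ R₂) (hV₁ : 0 ≤ V₁) (hV₂ : 0 ≤ V₂) (hl₁ : Lin c₁) (hl₂ : Lin c₂)
    (h₁ : Mem c₁ R₁ V₁ m₁ ψ F₁) (h₂ : Mem c₂ R₂ V₂ m₂ ψ F₂) :
    Mem (fun n => c₁ n + c₂ n) (R₁ * R₂) (max V₁ V₂) (m₁ + m₂) ψ (fun s => F₁ s * F₂ s) where
  mul := h₁.mul
  one := h₁.one
  le := h₁.le
  diff := h₁.diff.mul h₂.diff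
  ser s hs := by
    rw [h₁.ser s hs, h₂.ser s hs, LS_mul_tw h₁.mul (ls_tw h₁.le (ls_E hl₁ hs))
      (ls_tw h₁.le (ls_E hl₂ hs))]
    congr 1
    funext n
    unfold tw
    rw [E_add]
  gr := gr_mul h₁.gr h₂.gr
  fe := by
    obtain ⟨e₁, h3⟩ := h₁.fe
    obtain ⟨e₂, h4⟩ := h₂.fe
    exact ⟨_, eps_mul hR₁ hR₂ hV₁ hV₂ h3 h4⟩

lemma R_mul (R₁ R₂ x : ℝ) (m₁ m₂ : ℕ) :
    R₁ * R₂ * x ^ (m₁ + m₂) = (R₁ * x ^ m₁) * (R₂ * x ^ m₂) := by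
  rw [pow_add]
  ring

theorem t_mul : S_mul := by
  intro m₁ m₂ Pr N e R₁ V₁ S₁ c₁ F₁ ep₁ g₁ b₁ u₁ v₁ M₁ R₂ V₂ S₂ c₂ F₂ ep₂ g₂ b₂ u₂ v₂ M₂ h₁ h₂
  have hR₁ := h₁.R_pos
  have hR₂ := h₂.R_pos
  have hV₁ := h₁.V_nn
  have hV₂ := h₂.V_nn
  have hS₁ := h₁.S_nn
  have hS₂ := h₂.S_nn
  refine ⟨by positivity, le_max_of_le_left hV₁, by positivity, lin_add h₁.lin h₂.lin,
    sqb_add h₁.sq h₂.sq, fun q χ hq hqN hχ => ?_, ?_, fun p r => ?_, fun r χ => ?_,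
    gr_mul h₁.g_gr h₂.g_gr⟩
  · rw [R_mul]
    exact mem_mul (by positivity) (by positivity) hV₁ hV₂ h₁.lin h₂.lin (h₁.mem q χ hq hqN hχ)
      (h₂.mem q χ hq hqN hχ)
  · intro p r _ _ χ₁ χ₂ hr hpP hp hpr hN hχ₁ hχ₂ hpar
    obtain ⟨h3, h4⟩ := h₁.eps p r χ₁ χ₂ hr hpP hp hpr hN hχ₁ hχ₂ hpar
    obtain ⟨h5, h6⟩ := h₂.eps p r χ₁ χ₂ hr hpP hp hpr hN hχ₁ hχ₂ hpar
    refine ⟨?_, fun z => ?_⟩
    · rw [R_mul]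
      exact eps_mul (by positivity) (by positivity) hV₁ hV₂ h3 h5
    · have hp0 : (0 : ℝ) < p := by exact_mod_cast hp.pos
      have e1 : ((R₁ * R₂ * ((p * r : ℕ) : ℝ) ^ (m₁ + m₂) : ℝ) : ℂ) ^ (1 / 2 - z) =
          ((R₁ * ((p * r : ℕ) : ℝ) ^ m₁ : ℝ) : ℂ) ^ (1 / 2 - z) *
          ((R₂ * ((p * r : ℕ) : ℝ) ^ m₂ : ℝ) : ℂ) ^ (1 / 2 - z) := by
        rw [R_mul, Complex.ofReal_mul (R₁ * _), Complex.mul_cpow_ofReal_nonneg (by positivity)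
          (by positivity)]
      have e2 : (((p : ℝ) ^ ((m₁ + m₂ : ℕ) / 2 : ℝ) : ℝ) : ℂ) =
          (((p : ℝ) ^ (m₁ / 2 : ℝ) : ℝ) : ℂ) * (((p : ℝ) ^ (m₂ / 2 : ℝ) : ℝ) : ℂ) := by
        rw [← Complex.ofReal_mul, ← Real.rpow_add hp0]
        congr 2
        push_cast
        ring
      have e3 : χ₁ ((v₁ r * v₂ r : ℤ) : ZMod p) =
          χ₁ ((v₁ r : ℤ) : ZMod p) * χ₁ ((v₂ r : ℤ) : ZMod p) := by
        rw [← map_mul]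
        push_cast
        rfl
      have e4 : χ₂ ((M₁ * M₂ * (p : ℤ) ^ (m₁ + m₂) : ℤ) : ZMod r) =
          χ₂ ((M₁ * (p : ℤ) ^ m₁ : ℤ) : ZMod r) * χ₂ ((M₂ * (p : ℤ) ^ m₂ : ℤ) : ZMod r) := by
        rw [← map_mul]
        congr 1
        push_cast
        rw [pow_add]
        ring
      rw [h4 z, h6 z, e1, e2, e3, e4, pow_add (gs χ₁), mul_div_mul_comm]
      ring
  · simp only [norm_mul]
    exact mul_le_one₀ (h₁.b_le p r) (norm_nonneg _) (h₂.b_le p r)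
  · simp only [norm_mul]
    exact mul_le_one₀ (h₁.u_le r χ) (norm_nonneg _) (h₂.u_le r χ)

end Pool.Agent.NH12.GL
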