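import Pool.Agent.NH12.GL.Sum
import Pool.Agent.R399.TM.Val
import Pool.Agent.R399.TW.InstC
import Pool.Agent.R399.TW.InstE
import Pool.Agent.R399.TW.Vm

/-!
# Families of twists with explicit root numbers
-/

set_option autoImplicit false

namespace Pool.Agent.NH12.GL

open Finset Filter Topology Complex MeasureTheory
open Pool.Agent.R399.TW Pool.Agent.R399.TM Pool.Agent.NH12.NV
open Pool.Agent.Y767.CA (GGc FEc cj Gd LX GGc_ne conj_GGc norm_LX inv_GGc_le)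
open scoped ComplexConjugate

/-- a family of twists of degree `m`: `F q χ s = ∑ χ(n) E c (n) n^(-s)`, with explicit factors
`ep` of the functional equations for the characters `χ = χ₁ χ₂` of the moduli `p r`, `p ∈ Pr`
prime, with `χ(-1) = e` -/
structure TwM (m : ℕ) (Pr : Set ℕ) (N : ℕ) (e : ℂ) (R V S : ℝ) (c : ℕ → ℂ)
    (F ep : (q : ℕ) → DirichletCharacter ℂ q → ℂ → ℂ) (g : ℂ → ℂ) (b : ℕ → ℕ → ℂ)
    (u : (r : ℕ) → DirichletCharacter ℂ r → ℂ) (v : ℕ → ℤ) (M : ℤ) : Prop where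
  R_pos : 0 < R
  V_nn : 0 ≤ V
  S_nn : 0 ≤ S
  lin : Lin c
  sq : Sqb c S
  mem : ∀ (q : ℕ) (χ : DirichletCharacter ℂ q), 2 ≤ q → Nat.Coprime q N → χ.IsPrimitive →
    Mem c (R * (q : ℝ) ^ m) V m (chs χ) (F q χ)
  eps : ∀ (p r : ℕ) [NeZero p] [NeZero r] (χ₁ : DirichletCharacter ℂ p)
    (χ₂ : DirichletCharacter ℂ r), 2 ≤ r → p ∈ Pr → p.Prime → Nat.Coprime p r →
    Nat.Coprime (p * r) N →
    χ₁.IsPrimitive → χ₂.IsPrimitive → pr p r χ₁ χ₂ (-1) = e →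
    Eps (R * ((p * r : ℕ) : ℝ) ^ m) V m (F (p * r) (pr p r χ₁ χ₂))
      (ep (p * r) (pr p r χ₁ χ₂)) ∧
    ∀ z : ℂ, ep (p * r) (pr p r χ₁ χ₂) z =
      b p r * u r χ₂ * χ₁ ((v r : ℤ) : ZMod p) * χ₂ ((M * (p : ℤ) ^ m : ℤ) : ZMod r) *
        (gs χ₁ ^ m / (((p : ℝ) ^ (m / 2 : ℝ) : ℝ) : ℂ)) *
        ((R * ((p * r : ℕ) : ℝ) ^ m : ℝ) : ℂ) ^ (1 / 2 - z) * g z
  b_le : ∀ p r, ‖b p r‖ ≤ 1
  u_le : ∀ r χ, ‖u r χ‖ ≤ 1
  g_gr : ∃ A C : ℝ, ∀ z ∈ strip (-1 / 2) (1 / 2), ‖g z‖ ≤ C * Real.exp (A * |z.im|)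

/-- the primes in `Pr` have positive density in a short range -/
def Dens (Pr : Set ℕ) : Prop := ∃ (c : ℝ) (Q₀ : ℕ), 0 < c ∧ ∀ Q : ℕ, Q₀ ≤ Q →
  ∀ P : Finset ℕ, (∀ p : ℕ, p ∈ P ↔ p ∈ Pr ∧ p.Prime ∧ (Q : ℝ) ^ (3 / 5 : ℝ) < p ∧
    (p : ℝ) ≤ (Q : ℝ) ^ (31 / 50 : ℝ)) → c ≤ ∑ p ∈ P, (1 : ℝ) / p

/-- **module 5**: the number of the characters -/
def S_cnt : Prop := ∀ (Pr : Set ℕ) (N : ℕ) (e : ℂ), N ≠ 0 → (e = 1 ∨ e = -1) → Dens Pr →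
  ∃ (c₁ : ℝ) (Q₁ : ℕ), 0 < c₁ ∧ ∀ Q : ℕ, Q₁ ≤ Q →
    c₁ * (Q : ℝ) ^ 2 ≤ ‖∑ x ∈ DD Pr N Q, ∑ χ ∈ pc (x.1 * x.2), par e χ‖

/-- **module 6**: primes in an arithmetic progression -/
def S_dens : Prop := ∀ f : ℕ, 1 ≤ f → Dens {p : ℕ | p ≡ 1 [MOD f]}

/-- **module 7**: products of families -/
def S_mul : Prop := ∀ (m₁ m₂ : ℕ) (Pr : Set ℕ) (N : ℕ) (e : ℂ) (R₁ V₁ S₁ : ℝ) (c₁ : ℕ → ℂ)
    (F₁ ep₁ : (q : ℕ) → DirichletCharacter ℂ q → ℂ → ℂ) (g₁ : ℂ → ℂ) (b₁ : ℕ → ℕ → ℂ)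
    (u₁ : (r : ℕ) → DirichletCharacter ℂ r → ℂ) (v₁ : ℕ → ℤ) (M₁ : ℤ) (R₂ V₂ S₂ : ℝ) (c₂ : ℕ → ℂ)
    (F₂ ep₂ : (q : ℕ) → DirichletCharacter ℂ q → ℂ → ℂ) (g₂ : ℂ → ℂ) (b₂ : ℕ → ℕ → ℂ)
    (u₂ : (r : ℕ) → DirichletCharacter ℂ r → ℂ) (v₂ : ℕ → ℤ) (M₂ : ℤ),
    TwM m₁ Pr N e R₁ V₁ S₁ c₁ F₁ ep₁ g₁ b₁ u₁ v₁ M₁ →
    TwM m₂ Pr N e R₂ V₂ S₂ c₂ F₂ ep₂ g₂ b₂ u₂ v₂ M₂ →
    TwM (m₁ + m₂) Pr N e (R₁ * R₂) (max V₁ V₂) (2 * S₁ + 2 * S₂) (fun n => c₁ n + c₂ n)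
      (fun q χ s => F₁ q χ s * F₂ q χ s) (fun q χ s => ep₁ q χ s * ep₂ q χ s)
      (fun z => g₁ z * g₂ z) (fun p r => b₁ p r * b₂ p r) (fun r χ => u₁ r χ * u₂ r χ)
      (fun r => v₁ r * v₂ r) (M₁ * M₂)

/-- **module 8**: Dirichlet characters -/
def S_dir : Prop := ∀ (N₁ N : ℕ) [NeZero N₁] (ψ : DirichletCharacter ℂ N₁) (e : ℂ),
    ψ.IsPrimitive → N₁ ∣ N → (e = 1 ∨ e = -1) →
    ∃ (V S : ℝ) (c : ℕ → ℂ) (ep : (q : ℕ) → DirichletCharacter ℂ q → ℂ → ℂ) (g : ℂ → ℂ)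
      (b : ℕ → ℕ → ℂ) (u : (r : ℕ) → DirichletCharacter ℂ r → ℂ) (v : ℕ → ℤ) (M : ℤ),
      TwM 1 Set.univ N e N₁ V S c
        (fun q χ s => if h : q = 0 then 0 else
          haveI : NeZero (q * N₁) := ⟨mul_ne_zero h (NeZero.ne N₁)⟩
          DirichletCharacter.LFunction (pr q N₁ χ ψ) s) ep g b u v M

variable {κ : Type} [Fintype κ]

/-- the gamma quotient -/
noncomputable def gq (μ : κ → ℂ) (z : ℂ) : ℂ :=
  ∏ i, (Gammaℝ (1 - z + cj μ i) * (Gammaℝ (z + μ i))⁻¹)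

lemma LX_eq {R : ℝ} (hR : 0 < R) (w : ℂ) (μ : κ → ℂ) (z : ℂ) :
    LX w R μ z = w * (R : ℂ) ^ (1 / 2 - z) * gq μ z := by
  have hRc : (R : ℂ) ≠ 0 := ofReal_ne_zero.mpr hR.ne'
  unfold LX GGc gq
  rw [Finset.prod_mul_distrib, Finset.prod_inv_distrib]
  have h1 : (R : ℂ) ^ ((1 - z) / 2) = (R : ℂ) ^ (1 / 2 - z) * (R : ℂ) ^ (z / 2) := by
    rw [← Complex.cpow_add _ _ hRc]
    congr 1
    ring
  have h2 : (R : ℂ) ^ (z / 2) ≠ 0 := Complex.cpow_ne_zero_iff.2 (Or.inl hRc)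
  rw [h1, div_eq_mul_inv, mul_inv]
  field_simp

lemma gq_gr {μ : κ → ℂ} (hμ : ∀ i, -1 / 2 < (μ i).re) :
    ∃ A C : ℝ, ∀ z ∈ strip (-1 / 2) (1 / 2), ‖gq μ z‖ ≤ C * Real.exp (A * |z.im|) := by
  set V : ℝ := ∑ i, ‖μ i‖ with hV
  have hle : ∀ i, ‖μ i‖ ≤ V := fun i =>
    Finset.single_le_sum (f := fun i => ‖μ i‖) (fun _ _ => norm_nonneg _) (Finset.mem_univ i)
  have hrel : ∀ i, -1 / 2 ≤ (μ i).re ∧ (μ i).re ≤ V ∧ |(μ i).im| ≤ V := by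
    intro i
    have h1 := (le_abs_self _).trans (abs_re_le_norm (μ i))
    have h2 := abs_im_le_norm (μ i)
    have h3 := hle i
    exact ⟨(hμ i).le, by linarith, by linarith⟩
  obtain ⟨M, hM0, hM⟩ := inv_GGc_le (R := 1) one_pos hrel
  obtain ⟨C, hC0, hC⟩ := GG1_bd (R := 1) one_pos hμ
  have hLX : ∀ z : ℂ, gq μ z = GGc 1 (cj μ) (1 - z) * (GGc 1 μ z)⁻¹ := fun z => by
    have h1 := LX_eq (R := 1) one_pos 1 μ z
    rw [one_mul, Complex.ofReal_one, Complex.one_cpow, one_mul] at h1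
    rw [← h1]
    unfold LX
    rw [one_mul, div_eq_mul_inv]
  have hcs : ContinuousOn (gq μ) (strip (-1 / 2) (1 / 2)) := by
    have : gq μ = fun z => GGc 1 (cj μ) (1 - z) * (GGc 1 μ z)⁻¹ := funext hLX
    rw [this]
    intro z hz
    exact (((GG1_diff one_pos hμ hz.2)).mul (GGi_diff one_pos μ z)).continuousAt.continuousWithinAt
  refine gr_of_eventually (C := C * M) (A := Fintype.card κ * 5) (T₀ := V + 2) hcs
    fun z hz hT => ?_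
  have h1 := hM z hz.1 (by linarith [hz.2]) hT
  rw [hLX, norm_mul]
  calc ‖GGc 1 (cj μ) (1 - z)‖ * ‖(GGc 1 μ z)⁻¹‖
      ≤ C * (M * Real.exp (Fintype.card κ * 5 * |z.im|)) := by
        gcongr
        exact hC z hz
    _ = _ := by ring

/-- the factor of a functional equation with explicit root number -/
theorem eps_of_fe {R V : ℝ} (hR : 0 < R) {μ : κ → ℂ} (hμ : ∀ i, -1 / 2 < (μ i).re)
    (hμV : ∀ i, ‖μ i‖ + 3 ≤ V) (hV : 0 ≤ V) {F : ℂ → ℂ} (hFd : Differentiable ℂ F) {w : ℂ}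
    (hw : ‖w‖ = 1) (hfe : ∀ z, Gd μ z → F z = LX w R μ z * rfl1 F z) :
    Eps R (3 * (1 + V)) (Fintype.card κ) F (LX w R μ) := by
  have hrel : ∀ i, -1 / 2 ≤ (μ i).re ∧ (μ i).re ≤ V ∧ |(μ i).im| ≤ V := by
    intro i
    have h1 := (le_abs_self _).trans (abs_re_le_norm (μ i))
    have h2 := abs_im_le_norm (μ i)
    have h3 := hμV i
    exact ⟨(hμ i).le, by linarith, by linarith⟩
  obtain ⟨M, hM0, hM⟩ := inv_GGc_le hR hrel
  have hLX : ∀ z : ℂ, LX w R μ z = w * GGc R (cj μ) (1 - z) * (GGc R μ z)⁻¹ := fun z => by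
    unfold LX
    rw [div_eq_mul_inv]
  have hLXd : ∀ z : ℂ, z.re ≤ 1 / 2 → DifferentiableAt ℂ (LX w R μ) z := by
    intro z hz
    have : LX w R μ = fun z => w * GGc R (cj μ) (1 - z) * (GGc R μ z)⁻¹ := funext hLX
    rw [this]
    exact ((GG1_diff hR hμ hz).const_mul w).mul (GGi_diff hR μ z)
  have hcs : ContinuousOn (LX w R μ) (strip (-1 / 2) (1 / 2)) := fun z hz =>
    (hLXd z hz.2).continuousAt.continuousWithinAt
  have hcl : Continuous fun t : ℝ => LX w R μ (pt (-1 / 2) t) :=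
    continuous_iff_continuousAt.2 fun t =>
      ContinuousAt.comp (g := LX w R μ) (f := pt (-1 / 2))
        (hLXd (pt (-1 / 2) t) (by rw [pt_re]; norm_num)).continuousAt (pt_cont _).continuousAt
  have hGdt : ∀ (x t : ℝ), t ∈ ((Set.range fun i => -(μ i).im)ᶜ : Set ℝ) → Gd μ (pt x t) := by
    intro x t ht i h
    rw [pt_im] at h
    exact ht ⟨i, by simp only; linarith⟩
  refine ⟨hcs, fun z hz => (hLXd z hz.2.le).differentiableWithinAt, ?_, ?_, ?_, ?_⟩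
  · obtain ⟨C, hC0, hC⟩ := GG1_bd hR hμ
    refine gr_of_eventually (C := C * M) (A := Fintype.card κ * 5) (T₀ := V + 2) hcs
      fun z hz hT => ?_
    have h1 := hM z hz.1 (by linarith [hz.2]) hT
    rw [hLX, norm_mul, norm_mul, hw, one_mul]
    calc ‖GGc R (cj μ) (1 - z)‖ * ‖(GGc R μ z)⁻¹‖
        ≤ C * (M * Real.exp (Fintype.card κ * 5 * |z.im|)) := by
          gcongr
          exact hC z hz
      _ = _ := by ring
  · intro t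
    have hz : 1 - pt (1 / 2) t = conj (pt (1 / 2) t) := by
      apply Complex.ext
      · simp; norm_num
      · simp
    rw [hLX, norm_mul, norm_mul, hw, one_mul, hz, ← conj_GGc hR, RCLike.norm_conj, norm_inv]
    rcases eq_or_ne ‖GGc R μ (pt (1 / 2) t)‖ 0 with h | h
    · rw [h]; simp
    · rw [mul_inv_cancel₀ h]
  · intro t
    have key : ∀ t ∈ ((Set.range fun i => -(μ i).im)ᶜ : Set ℝ),
        ‖LX w R μ (pt (-1 / 2) t)‖ ≤ R * (3 * (1 + V) * (1 + |t|)) ^ Fintype.card κ := by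
      intro t ht
      refine (norm_LX hw hR hμV (by rw [pt_re]) (hGdt _ t ht)).trans ?_
      have h1 : ‖pt (-1 / 2) t + 3‖ ≤ 3 * (1 + |t|) := by
        refine (norm_le_abs_re_add_abs_im _).trans ?_
        rw [add_re, add_im, pt_re, pt_im]
        have h2 : (3 : ℂ).re = 3 := by norm_num
        have h3 : (3 : ℂ).im = 0 := by simp
        rw [h2, h3, add_zero, abs_of_pos (by norm_num : (0 : ℝ) < -1 / 2 + 3)]
        have := abs_nonneg t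
        linarith
      have h4 : (1 + V) * ‖pt (-1 / 2) t + 3‖ ≤ 3 * (1 + V) * (1 + |t|) := by
        calc (1 + V) * ‖pt (-1 / 2) t + 3‖ ≤ (1 + V) * (3 * (1 + |t|)) := by gcongr
          _ = _ := by ring
      exact mul_le_mul_of_nonneg_left (pow_le_pow_left₀ (by positivity) h4 _) hR.le
    have hcl2 : IsClosed {t : ℝ | ‖LX w R μ (pt (-1 / 2) t)‖ ≤
        R * (3 * (1 + V) * (1 + |t|)) ^ Fintype.card κ} :=
      isClosed_le hcl.norm (by fun_prop)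
    have h5 : closure ((Set.range fun i => -(μ i).im)ᶜ : Set ℝ) ⊆ _ :=
      closure_minimal (fun t ht => key t ht) hcl2
    rw [(dense_im μ).closure_eq] at h5
    exact h5 (Set.mem_univ t)
  · intro t
    have hrf : Continuous fun t : ℝ => rfl1 F (pt (-1 / 2) t) :=
      (rfl1_diff hFd).continuous.comp (pt_cont _)
    have h1 : Continuous fun t : ℝ => F (pt (-1 / 2) t) := hFd.continuous.comp (pt_cont _)
    have h2 := (dense_im μ)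
    have h3 := Continuous.ext_on h2 h1 (hcl.mul hrf) (fun t ht => ?_)
    · exact congrFun h3 t
    · exact hfe _ (hGdt _ t ht)

end Pool.Agent.NH12.GL
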