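import Pool.Agent.NH12.GL.Bilr
import Pool.Agent.NH12.GL.Tw

/-!
# The short part of the dual sum
-/

set_option autoImplicit false

namespace Pool.Agent.NH12.GL

open Finset Filter Topology Complex MeasureTheory
open Pool.Agent.R399.TW Pool.Agent.R399.TM Pool.Agent.NH12.NV
open scoped ComplexConjugate

/-- the coefficients of the dual sum -/
noncomputable def al (c : ℕ → ℂ) (z : ℂ) (n : ℕ) : ℂ := conj (E c n * (n : ℂ) ^ (-(1 - conj z)))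

lemma Dz_eq (c : ℕ → ℂ) {q : ℕ} (χ : DirichletCharacter ℂ q) (L : ℕ) (z : ℂ) :
    Dz c (chs χ) L z = ∑ n ∈ Icc 1 L, al c z n * conj (χ (n : ZMod q)) := by
  unfold Dz rfl1
  rw [LSeries_cut, map_sum]
  refine Finset.sum_congr rfl fun n _ => ?_
  unfold tw chs al
  simp only [map_mul]
  ring

lemma al_sq {c : ℕ → ℂ} {S : ℝ} (hS : Sqb c S) (t : ℝ) (L : ℕ) :
    ∑ n ∈ Icc 1 L, ‖al c (pt (249 / 500) t) n‖ ^ 2 ≤ Real.exp (2 * S) * (1 / 250 : ℝ) ^ (-S) := by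
  refine le_trans (Finset.sum_le_sum fun n hn => ?_)
    (SB_of hS (θ := 1 / 250) (by norm_num) (by norm_num) L)
  rw [mem_Icc] at hn
  have hn0 : (0 : ℝ) < n := by exact_mod_cast hn.1
  unfold al
  rw [RCLike.norm_conj, norm_mul, mul_pow]
  have h1 : ‖(n : ℂ) ^ (-(1 - conj (pt (249 / 500) t)))‖ ^ 2 = (n : ℝ) ^ (-(1 + 1 / 250) : ℝ) := by
    rw [Complex.norm_natCast_cpow_of_pos (by omega), ← Real.rpow_natCast, ← Real.rpow_mul hn0.le]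
    congr 1
    rw [neg_re, sub_re, one_re, conj_re, pt_re]
    push_cast
    norm_num
  rw [h1]
  refine mul_le_mul_of_nonneg_right ?_ (by positivity)
  have h2 : ‖E c n‖ ^ 2 ≤ ab2 c n ^ 2 := by
    refine pow_le_pow_left₀ (norm_nonneg _) ((norm_E_le c n).trans ?_) 2
    exact E_mono (fun k => norm_nonneg _) (fun k => by
      have := norm_nonneg (c k)
      linarith) n
  exact h2.trans (ab2_sq c n)

/-- the double sum for one pair -/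
noncomputable def Tt (c : ℕ → ℂ) (z : ℂ) (L p r : ℕ) (u : DirichletCharacter ℂ r → ℂ) (v m : ℤ) :
    ℂ := ∑ n ∈ Icc 1 L, al c z n * (Af p v n * Gf r u (m * (p : ℤ) ^ 3) n)

lemma Tt_eq (c : ℕ → ℂ) (z : ℂ) (L p r : ℕ) [NeZero p] [NeZero r]
    (u : DirichletCharacter ℂ r → ℂ) (v M : ℤ) (s k : ℤ) :
    Tt c z L p r u (s * v * k) (s * M * k) =
      ∑ χ₁ ∈ pc p, ∑ χ₂ ∈ pc r, (χ₁ ((s : ℤ) : ZMod p) * χ₂ ((s : ℤ) : ZMod r)) *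
        (χ₁ ((k : ℤ) : ZMod p) * χ₂ ((k : ℤ) : ZMod r)) *
        ((gs χ₁ ^ 3 / (((p : ℝ) ^ (3 / 2 : ℝ) : ℝ) : ℂ)) * u χ₂ * χ₁ ((v : ℤ) : ZMod p) *
          χ₂ ((M * (p : ℤ) ^ 3 : ℤ) : ZMod r)) *
        ∑ n ∈ Icc 1 L, al c z n * (conj (χ₁ (n : ZMod p)) * conj (χ₂ (n : ZMod r))) := by
  have hp : p ≠ 0 := NeZero.ne p
  have h1 : ∀ n : ℕ, Af p (s * v * k) n * Gf r u (s * M * k * (p : ℤ) ^ 3) n =
      ∑ χ₁ ∈ pc p, ∑ χ₂ ∈ pc r, ((χ₁ ((s : ℤ) : ZMod p) * χ₂ ((s : ℤ) : ZMod r)) *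
        (χ₁ ((k : ℤ) : ZMod p) * χ₂ ((k : ℤ) : ZMod r)) *
        ((gs χ₁ ^ 3 / (((p : ℝ) ^ (3 / 2 : ℝ) : ℝ) : ℂ)) * u χ₂ * χ₁ ((v : ℤ) : ZMod p) *
          χ₂ ((M * (p : ℤ) ^ 3 : ℤ) : ZMod r))) *
        (conj (χ₁ (n : ZMod p)) * conj (χ₂ (n : ZMod r))) := by
    intro n
    unfold Af Gf
    rw [dif_neg hp, Finset.sum_mul_sum]
    refine Finset.sum_congr rfl fun χ₁ _ => Finset.sum_congr rfl fun χ₂ _ => ?_
    push_cast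
    simp only [map_mul, map_pow]
    ring
  unfold Tt
  rw [Finset.sum_congr rfl fun n _ => by rw [h1 n]]
  simp only [Finset.mul_sum]
  rw [Finset.sum_comm]
  refine Finset.sum_congr rfl fun χ₁ _ => ?_
  rw [Finset.sum_comm]
  refine Finset.sum_congr rfl fun χ₂ _ => Finset.sum_congr rfl fun n _ => ?_
  ring

variable {Pr : Set ℕ} {N : ℕ} {e : ℂ} {R V S : ℝ} {c : ℕ → ℂ}
  {F ep : (q : ℕ) → DirichletCharacter ℂ q → ℂ → ℂ} {g : ℂ → ℂ} {b : ℕ → ℕ → ℂ}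
  {u : (r : ℕ) → DirichletCharacter ℂ r → ℂ} {v : ℕ → ℤ} {M : ℤ}

lemma DD_two {Q : ℕ} {x : ℕ × ℕ} (hx : x ∈ DD Pr N Q) : 2 ≤ x.2 := by
  have h := mem_DD.1 hx
  have hQ1 : (1 : ℝ) ≤ Q := by exact_mod_cast h.1.1.1.trans h.1.1.2
  have h1 : (1 : ℝ) ≤ (Q : ℝ) ^ (9 / 25 : ℝ) := Real.one_le_rpow hQ1 (by norm_num)
  have h2 : (1 : ℝ) < x.2 := lt_of_le_of_lt h1 h.2.2.2.1
  exact_mod_cast h2

/-- the identity for one pair -/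
lemma pair_eq (hcrt : S_crt) (he : e = 1 ∨ e = -1)
    (hT : TwM 3 Pr N e R V S c F ep g b u v M) {Q L K p r : ℕ} (hx : (p, r) ∈ DD Pr N Q)
    (a : ℕ → ℂ) (z : ℂ) :
    ∑ χ ∈ pc (p * r), par e χ * ((∑ k ∈ Icc 1 K, a k * χ (k : ZMod (p * r))) *
      (ep (p * r) χ z * Dz c (chs χ) L z)) =
    g z * ∑ k ∈ Icc 1 K, a k * (1 / 2) * (
      (b p r * ((R * ((p * r : ℕ) : ℝ) ^ 3 : ℝ) : ℂ) ^ (1 / 2 - z)) *
          Tt c z L p r (u r) (1 * v r * k) (1 * M * k) +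
      e * ((b p r * ((R * ((p * r : ℕ) : ℝ) ^ 3 : ℝ) : ℂ) ^ (1 / 2 - z)) *
          Tt c z L p r (u r) (-1 * v r * k) (-1 * M * k))) := by
  have hx' := mem_DD.1 hx
  simp only at hx'
  have : NeZero p := ⟨by omega⟩
  have : NeZero r := ⟨by omega⟩
  have : NeZero (p * r) := ⟨mul_ne_zero (NeZero.ne p) (NeZero.ne r)⟩
  have hco : Nat.Coprime p r := DD_cop hx
  obtain ⟨c1, c2, -⟩ := hcrt p r hco
  obtain ⟨β, hβ⟩ : ∃ β : ℂ, β = b p r * ((R * ((p * r : ℕ) : ℝ) ^ 3 : ℝ) : ℂ) ^ (1 / 2 - z) :=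
    ⟨_, rfl⟩
  obtain ⟨G, hG⟩ : ∃ G : DirichletCharacter ℂ p → DirichletCharacter ℂ r → ℂ, G = fun χ₁ χ₂ =>
    (gs χ₁ ^ 3 / (((p : ℝ) ^ (3 / 2 : ℝ) : ℝ) : ℂ)) * u r χ₂ * χ₁ ((v r : ℤ) : ZMod p) *
          χ₂ ((M * (p : ℤ) ^ 3 : ℤ) : ZMod r) := ⟨_, rfl⟩
  obtain ⟨D, hD⟩ : ∃ D : DirichletCharacter ℂ p → DirichletCharacter ℂ r → ℂ, D = fun χ₁ χ₂ =>
    ∑ n ∈ Icc 1 L, al c z n * (conj (χ₁ (n : ZMod p)) * conj (χ₂ (n : ZMod r))) := ⟨_, rfl⟩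
  rw [← hβ]
  have cn : ∀ (χ₁ : DirichletCharacter ℂ p) (χ₂ : DirichletCharacter ℂ r) (n : ℕ),
      pr p r χ₁ χ₂ (n : ZMod (p * r)) = χ₁ (n : ZMod p) * χ₂ (n : ZMod r) := by
    intro χ₁ χ₂ n
    have h := c1 χ₁ χ₂ (n : ℤ)
    simpa using h
  have cm : ∀ (χ₁ : DirichletCharacter ℂ p) (χ₂ : DirichletCharacter ℂ r),
      pr p r χ₁ χ₂ (-1) = χ₁ (-1) * χ₂ (-1) := by
    intro χ₁ χ₂
    have h := c1 χ₁ χ₂ (-1)
    simpa using h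
  rw [c2]
  -- each pair of characters
  have h1 : ∀ χ₁ ∈ pc p, ∀ χ₂ ∈ pc r, par e (pr p r χ₁ χ₂) *
      ((∑ k ∈ Icc 1 K, a k * pr p r χ₁ χ₂ (k : ZMod (p * r))) *
      (ep (p * r) (pr p r χ₁ χ₂) z * Dz c (chs (pr p r χ₁ χ₂)) L z)) =
      g z * ∑ k ∈ Icc 1 K, a k * (1 / 2) * (
        β * ((χ₁ (k : ZMod p) * χ₂ (k : ZMod r)) * G χ₁ χ₂ * D χ₁ χ₂) +
        e * (β * ((χ₁ (-1) * χ₂ (-1)) * (χ₁ (k : ZMod p) * χ₂ (k : ZMod r)) *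
          G χ₁ χ₂ * D χ₁ χ₂))) := by
    intro χ₁ h₁ χ₂ h₂
    have hDz : Dz c (chs (pr p r χ₁ χ₂)) L z = D χ₁ χ₂ := by
      rw [Dz_eq, hD]
      refine Finset.sum_congr rfl fun n _ => ?_
      rw [cn, map_mul]
    have hep : par e (pr p r χ₁ χ₂) * ep (p * r) (pr p r χ₁ χ₂) z =
        par e (pr p r χ₁ χ₂) * (β * G χ₁ χ₂ * g z) := by
      rw [par_eq he]
      split_ifs with hpe
      · obtain ⟨-, h3⟩ := hT.eps p r χ₁ χ₂ (DD_two hx) hx'.2.1.1 hx'.2.1.2 hco hx'.2.2.2.2.2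
          (mem_pc.1 h₁) (mem_pc.1 h₂) hpe
        rw [h3 z, hβ, hG]
        push_cast
        ring
      · rw [zero_mul, zero_mul]
    have e1 : par e (pr p r χ₁ χ₂) *
      ((∑ k ∈ Icc 1 K, a k * pr p r χ₁ χ₂ (k : ZMod (p * r))) *
      (ep (p * r) (pr p r χ₁ χ₂) z * Dz c (chs (pr p r χ₁ χ₂)) L z)) =
      (par e (pr p r χ₁ χ₂) * ep (p * r) (pr p r χ₁ χ₂) z) *
      ((∑ k ∈ Icc 1 K, a k * pr p r χ₁ χ₂ (k : ZMod (p * r))) *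
        Dz c (chs (pr p r χ₁ χ₂)) L z) := by ring
    rw [e1, hep, hDz]
    unfold par
    rw [cm, Finset.mul_sum, Finset.sum_mul, Finset.mul_sum]
    refine Finset.sum_congr rfl fun k _ => ?_
    rw [cn]
    ring
  rw [Finset.sum_congr rfl fun χ₁ h₁ => Finset.sum_congr rfl fun χ₂ h₂ => h1 χ₁ h₁ χ₂ h₂]
  -- the right side
  have h2 : ∀ k : ℕ, Tt c z L p r (u r) (1 * v r * k) (1 * M * k) =
      ∑ χ₁ ∈ pc p, ∑ χ₂ ∈ pc r, (χ₁ (k : ZMod p) * χ₂ (k : ZMod r)) * G χ₁ χ₂ * D χ₁ χ₂ := by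
    intro k
    rw [Tt_eq]
    refine Finset.sum_congr rfl fun χ₁ _ => Finset.sum_congr rfl fun χ₂ _ => ?_
    simp [hG, hD]
  have h3 : ∀ k : ℕ, Tt c z L p r (u r) (-1 * v r * k) (-1 * M * k) =
      ∑ χ₁ ∈ pc p, ∑ χ₂ ∈ pc r, (χ₁ (-1) * χ₂ (-1)) * (χ₁ (k : ZMod p) * χ₂ (k : ZMod r)) *
        G χ₁ χ₂ * D χ₁ χ₂ := by
    intro k
    rw [Tt_eq]
    refine Finset.sum_congr rfl fun χ₁ _ => Finset.sum_congr rfl fun χ₂ _ => ?_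
    simp [hG, hD]
  simp only [h2, h3]
  have r1 : ∀ k : ℕ, a k * (1 / 2) * (β * ∑ χ₁ ∈ pc p, ∑ χ₂ ∈ pc r,
        (χ₁ (k : ZMod p) * χ₂ (k : ZMod r)) * G χ₁ χ₂ * D χ₁ χ₂ +
      e * (β * ∑ χ₁ ∈ pc p, ∑ χ₂ ∈ pc r, (χ₁ (-1) * χ₂ (-1)) *
        (χ₁ (k : ZMod p) * χ₂ (k : ZMod r)) * G χ₁ χ₂ * D χ₁ χ₂)) =
      ∑ χ₁ ∈ pc p, ∑ χ₂ ∈ pc r, a k * (1 / 2) * (
        β * ((χ₁ (k : ZMod p) * χ₂ (k : ZMod r)) * G χ₁ χ₂ * D χ₁ χ₂) +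
        e * (β * ((χ₁ (-1) * χ₂ (-1)) * (χ₁ (k : ZMod p) * χ₂ (k : ZMod r)) *
          G χ₁ χ₂ * D χ₁ χ₂))) := by
    intro k
    simp only [mul_add, Finset.mul_sum, Finset.sum_add_distrib]
  simp only [r1]
  simp only [Finset.mul_sum]
  symm
  rw [Finset.sum_comm]
  refine Finset.sum_congr rfl fun χ₁ _ => ?_
  rw [Finset.sum_comm]

/-- **the short part** -/
theorem short_t (hcrt : S_crt) (hbil : S_bil) (hA : S_Af) (hG : S_Gf) (he : e = 1 ∨ e = -1)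
    (hT : TwM 3 Pr N e R V S c F ep g b u v M) : ∃ C : ℝ, 0 ≤ C ∧
    ∀ (Q L K : ℕ) (a : ℕ → ℂ) (t : ℝ), 1 ≤ Q → 1 ≤ L → (L : ℝ) ≤ (Q : ℝ) ^ (6 / 5 : ℝ) →
      ‖∑ x ∈ DD Pr N Q, ∑ χ ∈ pc (x.1 * x.2), par e χ *
        ((∑ k ∈ Icc 1 K, a k * χ (k : ZMod (x.1 * x.2))) *
        (ep (x.1 * x.2) χ (pt (249 / 500) t) * Dz c (chs χ) L (pt (249 / 500) t)))‖ ≤
      C * ‖g (pt (249 / 500) t)‖ * (∑ k ∈ Icc 1 K, ‖a k‖) * (Q : ℝ) ^ (1919 / 1000 : ℝ) := by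
  obtain ⟨C, hC0, hC⟩ := bil_sum hbil hA hG (η := 1 / 1000) (by norm_num) (by norm_num)
  set Sα : ℝ := Real.exp (2 * S) * (1 / 250 : ℝ) ^ (-S) with hSα
  have hR := hT.R_pos
  refine ⟨R ^ (1 / 500 : ℝ) * (C * Real.sqrt Sα), by positivity, ?_⟩
  intro Q L K a t hQ hL hLQ
  set z := pt (249 / 500) t with hz
  have hX1 : (1 : ℝ) ≤ Q := by exact_mod_cast hQ
  have hX0 : (0 : ℝ) < Q := by linarith
  set W : ℝ := (R * (Q : ℝ) ^ 3) ^ (1 / 500 : ℝ) with hW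
  have hW0 : 0 < W := by positivity
  set β : ℕ → ℕ → ℂ := fun p r => b p r *
    ((R * ((p * r : ℕ) : ℝ) ^ 3 : ℝ) : ℂ) ^ (1 / 2 - z) with hβ
  have hβle : ∀ x ∈ DD Pr N Q, ‖β x.1 x.2‖ ≤ W := by
    intro x hx
    have hx' := mem_DD.1 hx
    have h1 : (0 : ℝ) < ((x.1 * x.2 : ℕ) : ℝ) := by
      have : 0 < x.1 * x.2 := Nat.mul_pos (by omega) (by omega)
      exact_mod_cast this
    have h2 : ((x.1 * x.2 : ℕ) : ℝ) ≤ Q := by exact_mod_cast hx'.2.2.2.2.1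
    rw [hβ]
    simp only
    rw [norm_mul, Complex.norm_cpow_eq_rpow_re_of_pos (by positivity)]
    have h3 : (1 / 2 - z).re = 1 / 500 := by
      rw [hz, sub_re, pt_re]
      norm_num
    rw [h3, hW]
    calc ‖b x.1 x.2‖ * (R * ((x.1 * x.2 : ℕ) : ℝ) ^ 3) ^ (1 / 500 : ℝ)
        ≤ 1 * (R * (Q : ℝ) ^ 3) ^ (1 / 500 : ℝ) := by
          have := hT.b_le x.1 x.2
          gcongr
      _ = _ := one_mul _
  -- the bound for one `k` and one sign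
  have hone : ∀ (s : ℤ) (k : ℕ), ‖∑ x ∈ DD Pr N Q, β x.1 x.2 *
      Tt c z L x.1 x.2 (u x.2) (s * v x.2 * k) (s * M * k)‖ ≤
      W * (C * (Real.sqrt Sα * (Q : ℝ) ^ (191 / 100 + 5 * (1 / 1000) / 2 : ℝ))) := by
    intro s k
    have h1 := hC Pr N Q L u (fun r => s * v r * k) (s * M * k) (al c z)
      (fun p r => β p r / (W : ℂ)) Sα hT.u_le hQ hL hLQ (al_sq hT.sq t L) (fun x hx => by
        rw [norm_div, Complex.norm_real, Real.norm_of_nonneg hW0.le, div_le_one hW0]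
        exact hβle x hx)
    have h2 : ∑ x ∈ DD Pr N Q, β x.1 x.2 *
        Tt c z L x.1 x.2 (u x.2) (s * v x.2 * k) (s * M * k) =
        (W : ℂ) * ∑ x ∈ DD Pr N Q, β x.1 x.2 / (W : ℂ) * ∑ n ∈ Icc 1 L, al c z n *
        (Af x.1 (s * v x.2 * k) n * Gf x.2 (u x.2) (s * M * k * (x.1 : ℤ) ^ 3) n) := by
      rw [Finset.mul_sum]
      refine Finset.sum_congr rfl fun x _ => ?_
      unfold Tt
      have hWc : (W : ℂ) ≠ 0 := by exact_mod_cast hW0.ne'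
      field_simp
    rw [h2, norm_mul, Complex.norm_real, Real.norm_of_nonneg hW0.le]
    exact mul_le_mul_of_nonneg_left h1 hW0.le
  have e1 : ∑ x ∈ DD Pr N Q, ∑ χ ∈ pc (x.1 * x.2), par e χ *
        ((∑ k ∈ Icc 1 K, a k * χ (k : ZMod (x.1 * x.2))) *
        (ep (x.1 * x.2) χ z * Dz c (chs χ) L z)) =
      g z * ∑ k ∈ Icc 1 K, a k * (1 / 2) * (
        ∑ x ∈ DD Pr N Q, β x.1 x.2 * Tt c z L x.1 x.2 (u x.2) (1 * v x.2 * k) (1 * M * k) +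
        e * ∑ x ∈ DD Pr N Q, β x.1 x.2 *
          Tt c z L x.1 x.2 (u x.2) (-1 * v x.2 * k) (-1 * M * k)) := by
    rw [Finset.sum_congr rfl fun x hx => pair_eq hcrt he hT (L := L) (K := K) hx a z,
      ← Finset.mul_sum, Finset.sum_comm]
    congr 1
    refine Finset.sum_congr rfl fun k _ => ?_
    rw [← Finset.mul_sum, Finset.sum_add_distrib, ← Finset.mul_sum]
  have hen : ‖e‖ = 1 := by rcases he with rfl | rfl <;> simp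
  rw [e1, norm_mul]
  have e2 : ‖∑ k ∈ Icc 1 K, a k * (1 / 2) * (
        ∑ x ∈ DD Pr N Q, β x.1 x.2 * Tt c z L x.1 x.2 (u x.2) (1 * v x.2 * k) (1 * M * k) +
        e * ∑ x ∈ DD Pr N Q, β x.1 x.2 *
          Tt c z L x.1 x.2 (u x.2) (-1 * v x.2 * k) (-1 * M * k))‖ ≤
      (∑ k ∈ Icc 1 K, ‖a k‖) *
        (W * (C * (Real.sqrt Sα * (Q : ℝ) ^ (191 / 100 + 5 * (1 / 1000) / 2 : ℝ)))) := by
    rw [Finset.sum_mul]
    refine norm_sum_le_of_le _ fun k _ => ?_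
    have h1 := hone 1 k
    have h2 := hone (-1) k
    rw [norm_mul, norm_mul]
    have h3 : ‖(1 / 2 : ℂ)‖ = 1 / 2 := by norm_num
    rw [h3]
    have h4 : ‖∑ x ∈ DD Pr N Q, β x.1 x.2 *
        Tt c z L x.1 x.2 (u x.2) (1 * v x.2 * k) (1 * M * k) +
        e * ∑ x ∈ DD Pr N Q, β x.1 x.2 *
          Tt c z L x.1 x.2 (u x.2) (-1 * v x.2 * k) (-1 * M * k)‖ ≤
        2 * (W * (C * (Real.sqrt Sα * (Q : ℝ) ^ (191 / 100 + 5 * (1 / 1000) / 2 : ℝ)))) := by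
      refine (norm_add_le _ _).trans ?_
      rw [norm_mul, hen]
      linarith
    have h5 := norm_nonneg (a k)
    calc ‖a k‖ * (1 / 2) * _ ≤ ‖a k‖ * (1 / 2) *
          (2 * (W * (C * (Real.sqrt Sα * (Q : ℝ) ^ (191 / 100 + 5 * (1 / 1000) / 2 : ℝ))))) := by
          gcongr
      _ = _ := by ring
  have e3 : W * (Q : ℝ) ^ (191 / 100 + 5 * (1 / 1000) / 2 : ℝ) ≤
      R ^ (1 / 500 : ℝ) * (Q : ℝ) ^ (1919 / 1000 : ℝ) := by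
    rw [hW, Real.mul_rpow hR.le (by positivity), ← Real.rpow_natCast (Q : ℝ) 3,
      ← Real.rpow_mul hX0.le, mul_assoc, ← Real.rpow_add hX0]
    refine mul_le_mul_of_nonneg_left ?_ (by positivity)
    exact Real.rpow_le_rpow_of_exponent_le hX1 (by norm_num)
  have e4 : 0 ≤ ∑ k ∈ Icc 1 K, ‖a k‖ := Finset.sum_nonneg fun _ _ => norm_nonneg _
  calc ‖g z‖ * _ ≤ ‖g z‖ * ((∑ k ∈ Icc 1 K, ‖a k‖) *
        (W * (C * (Real.sqrt Sα * (Q : ℝ) ^ (191 / 100 + 5 * (1 / 1000) / 2 : ℝ))))) := by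
        gcongr
    _ = C * Real.sqrt Sα * ‖g z‖ * (∑ k ∈ Icc 1 K, ‖a k‖) *
        (W * (Q : ℝ) ^ (191 / 100 + 5 * (1 / 1000) / 2 : ℝ)) := by ring
    _ ≤ C * Real.sqrt Sα * ‖g z‖ * (∑ k ∈ Icc 1 K, ‖a k‖) *
        (R ^ (1 / 500 : ℝ) * (Q : ℝ) ^ (1919 / 1000 : ℝ)) := by gcongr
    _ = _ := by ring

end Pool.Agent.NH12.GL
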