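import Pool.Agent.NH12.GL.Sqa
import Pool.Agent.NH12.GL.Fin

/-!
# Mean squares of sums
-/

set_option autoImplicit false

namespace Pool.Agent.NH12.GL

open Finset Filter Topology Complex MeasureTheory NumberField
open ArithmeticFunction (vonMangoldt)
open Pool.Agent.R399.TW Pool.Agent.R399.TM Pool.Agent.NH12.NV
open scoped ComplexConjugate

/-- the sums of the coefficients of the Rankin-Selberg type -/
theorem sqE {c : ℕ → ℂ} (h : RSl c) : ∃ CA : ℝ, 0 ≤ CA ∧ ∀ K : ℕ, 1 ≤ K →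
    ∑ k ∈ Icc 1 K, E (fun n => ‖c n‖ ^ 2) k / k ≤ CA * (1 + Real.log K) ^ 2 := by
  obtain ⟨hS, hL⟩ := h
  have h1 : ∀ᶠ σ in 𝓝[>] (1 : ℝ), (σ - 1) * ∑' n : ℕ, vonMangoldt n * ‖c n‖ ^ 2 *
      (n : ℝ) ^ (-σ) < 2 := hL.eventually (gt_mem_nhds (by norm_num))
  obtain ⟨u, hu, hu2⟩ := (mem_nhdsGT_iff_exists_Ioo_subset).1 h1
  have hu1 : (1 : ℝ) < u := hu
  set v : ℝ := (1 + u) / 2 with hv
  have hv1 : 1 < v := by rw [hv]; linarith
  have hvu : v < u := by rw [hv]; linarith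
  set B : ℝ := ∑' n : ℕ, vonMangoldt n * ‖c n‖ ^ 2 * (n : ℝ) ^ (-v) with hB
  have hB0 : 0 ≤ B := tsum_nonneg fun n => by
    have := vm_nn n
    positivity
  have hfin : ∀ (N : ℕ) (σ' : ℝ), 1 < σ' → ∑ n ∈ Icc 2 N, vonMangoldt n * ‖c n‖ ^ 2 *
      (n : ℝ) ^ (-σ') ≤ ∑' n : ℕ, vonMangoldt n * ‖c n‖ ^ 2 * (n : ℝ) ^ (-σ') := by
    intro N σ' h4
    exact (hS σ' h4).sum_le_tsum (Icc 2 N) (fun n _ => by
      have := vm_nn n
      positivity)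
  have hSb : ∀ σ : ℝ, 1 < σ → σ ≤ 2 → ∀ N : ℕ,
      ∑ n ∈ Icc 2 N, vonMangoldt n * ‖c n‖ ^ 2 * (n : ℝ) ^ (-σ) ≤ 2 / (σ - 1) + B := by
    intro σ h2 h3 N
    have hσ1 : 0 < σ - 1 := by linarith
    rcases lt_or_ge σ u with h | h
    · have h4 := hu2 ⟨h2, h⟩
      simp only [Set.mem_ofPred_eq] at h4
      have h5 := hfin N σ h2
      have h6 : ∑ n ∈ Icc 2 N, vonMangoldt n * ‖c n‖ ^ 2 * (n : ℝ) ^ (-σ) ≤ 2 / (σ - 1) := by
        rw [le_div_iff₀ hσ1]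
        nlinarith
      linarith
    · have h5 : ∑ n ∈ Icc 2 N, vonMangoldt n * ‖c n‖ ^ 2 * (n : ℝ) ^ (-σ) ≤
          ∑ n ∈ Icc 2 N, vonMangoldt n * ‖c n‖ ^ 2 * (n : ℝ) ^ (-v) := by
        refine Finset.sum_le_sum fun n hn => ?_
        rw [mem_Icc] at hn
        have h6 : (1 : ℝ) ≤ n := by exact_mod_cast (show 1 ≤ n by omega)
        have := vm_nn n
        exact mul_le_mul_of_nonneg_left (Real.rpow_le_rpow_of_exponent_le h6 (by linarith))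
          (by positivity)
      have h6 := hfin N v hv1
      have h7 : 0 ≤ 2 / (σ - 1) := by positivity
      linarith
  refine ⟨Real.exp 1 * Real.exp (2 * 2 + 3 * B), by positivity, fun K hK => ?_⟩
  have hK1 : (1 : ℝ) ≤ K := by exact_mod_cast hK
  have hK0 : (0 : ℝ) < K := by linarith
  have hlK : 0 ≤ Real.log K := Real.log_nonneg hK1
  set θ : ℝ := 1 / (1 + Real.log K) with hθ
  have hθ0 : 0 < θ := by rw [hθ]; positivity
  have hθ1 : θ ≤ 1 := by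
    rw [hθ, div_le_one (by linarith)]
    linarith
  have hG := fin_log68 (κ := fun n => ‖c n‖ ^ 2) (fun n => by positivity) hB0 hSb K hθ0 hθ1
  have hE := fin_exp (κ := fun n => ‖c n‖ ^ 2) (fun n => by positivity) K (1 + θ)
  have hterm : ∀ k ∈ Icc 1 K, E (fun n => ‖c n‖ ^ 2) k / k ≤
      Real.exp 1 * (E (fun n => ‖c n‖ ^ 2) k * (k : ℝ) ^ (-(1 + θ))) := by
    intro k hk
    rw [mem_Icc] at hk
    have hk0 : (0 : ℝ) < k := by exact_mod_cast (show 0 < k by omega)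
    have hk1 : (1 : ℝ) ≤ k := by exact_mod_cast hk.1
    have hkK : (k : ℝ) ≤ K := by exact_mod_cast hk.2
    have h4 : (k : ℝ)⁻¹ = (k : ℝ) ^ θ * (k : ℝ) ^ (-(1 + θ)) := by
      rw [← Real.rpow_add hk0, ← Real.rpow_neg_one]
      congr 1
      ring
    have h5 : (k : ℝ) ^ θ ≤ Real.exp 1 := by
      calc (k : ℝ) ^ θ ≤ (K : ℝ) ^ θ := Real.rpow_le_rpow hk0.le hkK hθ0.le
        _ = Real.exp (Real.log K * θ) := by rw [Real.rpow_def_of_pos hK0]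
        _ ≤ Real.exp 1 := by
          refine Real.exp_le_exp.2 ?_
          rw [hθ, mul_one_div, div_le_one (by linarith)]
          linarith
    have h6 : 0 ≤ E (fun n => ‖c n‖ ^ 2) k := E_nonneg (fun n => by positivity) k
    rw [div_eq_mul_inv, h4]
    calc E (fun n => ‖c n‖ ^ 2) k * ((k : ℝ) ^ θ * (k : ℝ) ^ (-(1 + θ)))
        ≤ E (fun n => ‖c n‖ ^ 2) k * (Real.exp 1 * (k : ℝ) ^ (-(1 + θ))) := by gcongr
      _ = _ := by ring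
  calc ∑ k ∈ Icc 1 K, E (fun n => ‖c n‖ ^ 2) k / k
      ≤ ∑ k ∈ Icc 1 K, Real.exp 1 * (E (fun n => ‖c n‖ ^ 2) k * (k : ℝ) ^ (-(1 + θ))) :=
        Finset.sum_le_sum hterm
    _ = Real.exp 1 * ∑ k ∈ Icc 1 K, E (fun n => ‖c n‖ ^ 2) k * (k : ℝ) ^ (-(1 + θ)) := by
        rw [Finset.mul_sum]
    _ ≤ Real.exp 1 * Real.exp (2 * Real.log (1 / θ) + (2 * 2 + 3 * B)) := by
        refine mul_le_mul_of_nonneg_left ?_ (Real.exp_pos _).le
        exact hE.trans (Real.exp_le_exp.2 hG)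
    _ = Real.exp 1 * Real.exp (2 * 2 + 3 * B) * (1 + Real.log K) ^ 2 := by
        have h8 : 1 / θ = 1 + Real.log K := by
          rw [hθ, one_div_one_div]
        have h9 : Real.exp (2 * Real.log (1 + Real.log K)) = (1 + Real.log K) ^ 2 := by
          rw [two_mul, Real.exp_add, Real.exp_log (by linarith)]
          ring
        rw [h8, Real.exp_add, h9]
        ring


/-- a cuspidal family of degree two and a Dirichlet character -/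
theorem sqA_add {c₁ c₂ : ℕ → ℂ} (h : RSl c₁) (h2 : ∀ n, ‖c₂ n‖ ≤ 1) :
    ∃ CA : ℝ, 0 ≤ CA ∧ SqA (fun n => c₁ n + c₂ n) CA 5 := by
  obtain ⟨C, hC, hE⟩ := sqE h
  refine ⟨C ^ 2, by positivity, fun K hK => ?_⟩
  have hl : 0 ≤ Real.log K := Real.log_nonneg (by exact_mod_cast hK)
  have hnn : ∀ n, 0 ≤ ‖c₁ n‖ ^ 2 := fun n => by positivity
  -- first step
  have h3 : ∀ k ∈ Icc 1 K, E (fun n => ‖c₁ n + c₂ n‖) k ^ 2 / k ≤
      E (fun n => (‖c₁ n‖ ^ 2 + ‖c₁ n‖ ^ 2) + ((2 : ℕ) : ℝ)) k / k := by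
    intro k _
    refine div_le_div_of_nonneg_right ?_ (Nat.cast_nonneg k)
    have h4 := norm_E_sq_le (𝕜 := ℝ) (fun n => ‖c₁ n + c₂ n‖) k
    simp only [norm_norm] at h4
    rw [Real.norm_eq_abs, sq_abs] at h4
    refine h4.trans (E_mono (fun n => by positivity) (fun n => ?_) k)
    have h5 := norm_add_le (c₁ n) (c₂ n)
    have h6 := h2 n
    have h7 : ‖c₁ n + c₂ n‖ ^ 2 ≤ (‖c₁ n‖ + 1) ^ 2 :=
      pow_le_pow_left₀ (norm_nonneg _) (h5.trans (by linarith)) 2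
    push_cast
    nlinarith [sq_nonneg (‖c₁ n‖ - 1)]
  refine (Finset.sum_le_sum h3).trans ?_
  have h8 := sum_E_add (κ := fun n => ‖c₁ n‖ ^ 2 + ‖c₁ n‖ ^ 2) (κ' := fun _ => ((2 : ℕ) : ℝ))
    (fun n => by positivity) (fun _ => Nat.cast_nonneg 2) K
  have h9 := sum_E_add (κ := fun n => ‖c₁ n‖ ^ 2) (κ' := fun n => ‖c₁ n‖ ^ 2) hnn hnn K
  have h10 := sum_Ed hK 2
  have h11 := hE K hK
  have h12 : 0 ≤ ∑ k ∈ Icc 1 K, E (fun n => ‖c₁ n‖ ^ 2) k / k :=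
    Finset.sum_nonneg fun k _ => div_nonneg (E_nonneg hnn k) (Nat.cast_nonneg k)
  have h13 : 0 ≤ ∑ k ∈ Icc 1 K, E (fun _ => ((2 : ℕ) : ℝ)) k / k :=
    Finset.sum_nonneg fun k _ => div_nonneg (E_nonneg (fun _ => Nat.cast_nonneg 2) k)
      (Nat.cast_nonneg k)
  have h14 : 0 ≤ ∑ k ∈ Icc 1 K, E (fun n => ‖c₁ n‖ ^ 2 + ‖c₁ n‖ ^ 2) k / k :=
    Finset.sum_nonneg fun k _ => div_nonneg (E_nonneg (fun n => by positivity) k)
      (Nat.cast_nonneg k)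
  calc ∑ k ∈ Icc 1 K, E (fun n => (‖c₁ n‖ ^ 2 + ‖c₁ n‖ ^ 2) + ((2 : ℕ) : ℝ)) k / k
      ≤ (∑ k ∈ Icc 1 K, E (fun n => ‖c₁ n‖ ^ 2 + ‖c₁ n‖ ^ 2) k / k) *
        ∑ k ∈ Icc 1 K, E (fun _ => ((2 : ℕ) : ℝ)) k / k := h8
    _ ≤ ((∑ k ∈ Icc 1 K, E (fun n => ‖c₁ n‖ ^ 2) k / k) *
        ∑ k ∈ Icc 1 K, E (fun n => ‖c₁ n‖ ^ 2) k / k) * (1 + Real.log K) ^ 2 := by gcongr
    _ ≤ ((C * (1 + Real.log K) ^ 2) * (C * (1 + Real.log K) ^ 2)) * (1 + Real.log K) ^ 2 := by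
        gcongr
    _ = C ^ 2 * (1 + Real.log K) ^ 6 := by ring
    _ ≤ C ^ 2 * (1 + Real.log K) ^ (2 * 5) := by
        refine mul_le_mul_of_nonneg_left ?_ (by positivity)
        exact pow_le_pow_right₀ (by linarith) (by norm_num)

end Pool.Agent.NH12.GL
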