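import Pool.Agent.NH12.GL.Tw4
import Pool.Agent.NH12.GL.Dens

/-!
# Primes splitting completely in a number field which need not be Galois

At most `[L : K]` homomorphisms `𝓞 L → ZMod p` have the same restriction to `𝓞 K`.
-/

set_option autoImplicit false

namespace Pool.Agent.NH12.GL.SplgAux

open Finset NumberField

/-- Distinct homomorphisms to `ZMod p` with the same restriction: at most `[L : K]`. -/
theorem fibre_bound (K L : Type) [Field K] [NumberField K] [Field L] [NumberField L] [Algebra K L]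
    {p : ℕ} (hp : p.Prime) (φ : 𝓞 K →+* ZMod p) (S : Finset (𝓞 L →+* ZMod p))
    (hS : ∀ Φ ∈ S, Φ.comp (algebraMap (𝓞 K) (𝓞 L)) = φ) : S.card ≤ Module.finrank K L := by
  classical
  have : Fact p.Prime := ⟨hp⟩
  by_contra hlt
  push Not at hlt
  -- separating elements
  have hsep : ∀ Φ Ψ : 𝓞 L →+* ZMod p, Φ ≠ Ψ → ∃ y, Φ y = 0 ∧ Ψ y ≠ 0 := by
    intro Φ Ψ hne
    obtain ⟨z, hz⟩ : ∃ z, Φ z ≠ Ψ z := by
      by_contra h
      push Not at h
      exact hne (RingHom.ext h)
    refine ⟨z - (((Φ z).val : ℕ) : 𝓞 L), ?_, ?_⟩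
    · rw [map_sub, map_natCast, ZMod.natCast_zmod_val, sub_self]
    · rw [map_sub, map_natCast, ZMod.natCast_zmod_val]
      intro h
      exact hz (sub_eq_zero.mp h).symm
  choose! y hy0 hy1 using hsep
  -- dual family
  let x : S → 𝓞 L := fun Ψ => ∏ Φ ∈ S.attach.erase Ψ, y Φ.1 Ψ.1
  have hx0 : ∀ Φ Ψ : S, Φ ≠ Ψ → Φ.1 (x Ψ) = 0 := by
    intro Φ Ψ hne
    simp only [x, map_prod]
    apply Finset.prod_eq_zero (i := Φ)
    · rw [Finset.mem_erase]
      exact ⟨hne, Finset.mem_attach _ _⟩
    · exact hy0 _ _ (fun h => hne (Subtype.ext h))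
  have hx1 : ∀ Ψ : S, Ψ.1 (x Ψ) ≠ 0 := by
    intro Ψ
    simp only [x, map_prod]
    rw [Finset.prod_ne_zero_iff]
    intro Φ hΦ
    rw [Finset.mem_erase] at hΦ
    exact hy1 _ _ (fun h => hΦ.1 (Subtype.ext h))
  -- linear dependence
  have hdep : ¬ LinearIndependent K (fun Ψ : S => ((x Ψ : 𝓞 L) : L)) := by
    intro h
    have h1 := h.fintype_card_le_finrank
    rw [Fintype.card_coe] at h1
    omega
  rw [Fintype.not_linearIndependent_iff] at hdep
  obtain ⟨g, hg, i, hi⟩ := hdep
  have hker : RingHom.ker φ ≠ ⊤ := RingHom.ker_ne_top φ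
  obtain ⟨a, ha, j, -, hj⟩ := Ideal.exist_integer_multiples_notMem (K := K) hker Finset.univ g
    (Finset.mem_univ i) hi
  choose b hb using fun k => ha k (Finset.mem_univ k)
  have hrel : ∑ k : S, algebraMap (𝓞 K) (𝓞 L) (b k) * x k = 0 := by
    have hinj : Function.Injective (algebraMap (𝓞 L) L) := FaithfulSMul.algebraMap_injective _ _
    apply hinj
    rw [map_zero, map_sum]
    have h2 : ∀ k : S, algebraMap (𝓞 L) L (algebraMap (𝓞 K) (𝓞 L) (b k) * x k) =
        algebraMap K L a * (g k • ((x k : 𝓞 L) : L)) := by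
      intro k
      rw [map_mul, ← IsScalarTower.algebraMap_apply (𝓞 K) (𝓞 L) L,
        IsScalarTower.algebraMap_apply (𝓞 K) K L, hb k, map_mul, Algebra.smul_def]
      ring
    rw [Finset.sum_congr rfl fun k _ => h2 k, ← Finset.mul_sum, hg, mul_zero]
  have h3 := congrArg j.1 hrel
  rw [map_zero, map_sum, Finset.sum_eq_single j] at h3
  · rw [map_mul] at h3
    have h4 : j.1 (algebraMap (𝓞 K) (𝓞 L) (b j)) = φ (b j) := by
      rw [← hS j.1 j.2]
      rfl
    rw [h4] at h3
    rcases mul_eq_zero.mp h3 with h5 | h5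
    · apply hj
      rw [← hb j]
      exact (FractionalIdeal.mem_coeIdeal _).mpr ⟨b j, h5, rfl⟩
    · exact hx1 j h5
  · intro k _ hk
    rw [map_mul, hx0 j k hk.symm, mul_zero]
  · intro h
    exact absurd (Finset.mem_univ _) h

/-- the restrictions -/
theorem restr (K L : Type) [Field K] [NumberField K] [Field L] [NumberField L] [Algebra K L]
    {p : ℕ} (hp : p.Prime) (φ : Fin (Module.finrank ℚ L) → (𝓞 L →+* ZMod p))
    (hφ : Function.Injective φ) :
    ∃ ψ : Fin (Module.finrank ℚ K) → (𝓞 K →+* ZMod p), Function.Injective ψ := by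
  classical
  let r : Fin (Module.finrank ℚ L) → (𝓞 K →+* ZMod p) :=
    fun i => (φ i).comp (algebraMap (𝓞 K) (𝓞 L))
  have h1 : (Finset.univ : Finset (Fin (Module.finrank ℚ L))).card ≤
      Module.finrank K L * (Finset.univ.image r).card := by
    apply Finset.card_le_mul_card_image
    intro c _
    have h2 := fibre_bound K L hp c ((Finset.univ.filter fun i => r i = c).image φ) (by
      intro Φ hΦ
      rw [Finset.mem_image] at hΦ
      obtain ⟨i, hi, rfl⟩ := hΦ
      rw [Finset.mem_filter] at hi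
      exact hi.2)
    rwa [Finset.card_image_of_injective _ hφ] at h2
  rw [Finset.card_univ, Fintype.card_fin] at h1
  have hpos : 0 < Module.finrank K L := Module.finrank_pos
  have h1' : Module.finrank K L * Module.finrank ℚ K ≤
      Module.finrank K L * (Finset.univ.image r).card := by
    rw [mul_comm (Module.finrank K L) (Module.finrank ℚ K)]
    exact (Module.finrank_mul_finrank ℚ K L).trans_le h1
  have h3 : Module.finrank ℚ K ≤ (Finset.univ.image r).card := Nat.le_of_mul_le_mul_left h1' hpos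
  obtain ⟨e⟩ : Nonempty (Fin (Module.finrank ℚ K) ↪ (Finset.univ.image r : Finset _)) := by
    apply Function.Embedding.nonempty_of_card_le
    rw [Fintype.card_fin, Fintype.card_coe]
    exact h3
  exact ⟨fun i => (e i).1, fun i j hij => e.injective (Subtype.ext hij)⟩

theorem closure_aux (K A : Type) [Field K] [NumberField K] [Field A] [CharZero A] [Algebra K A]
    [Normal ℚ A] :
    ∃ (L : Type) (_ : Field L) (_ : NumberField L) (_ : Algebra K L), IsGalois ℚ L := by
  have h1 : FiniteDimensional ℚ (IntermediateField.normalClosure ℚ K A) := inferInstance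
  have h2 : NumberField (IntermediateField.normalClosure ℚ K A) := ⟨⟩
  have h3 : Normal ℚ (IntermediateField.normalClosure ℚ K A) := by
    convert! normalClosure.normal ℚ K A
  exact ⟨IntermediateField.normalClosure ℚ K A, inferInstance, h2, inferInstance, ⟨⟩⟩

/-- Galois closure -/
theorem closure (K : Type) [Field K] [NumberField K] :
    ∃ (L : Type) (_ : Field L) (_ : NumberField L) (_ : Algebra K L), IsGalois ℚ L := by
  have h0 : Algebra.IsAlgebraic ℚ (AlgebraicClosure K) := Algebra.IsAlgebraic.trans ℚ K _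
  have h0' : IsAlgClosure ℚ (AlgebraicClosure K) := ⟨inferInstance, h0⟩
  have h00 : Normal ℚ (AlgebraicClosure K) := IsAlgClosure.normal ℚ _
  exact closure_aux K (AlgebraicClosure K)

end Pool.Agent.NH12.GL.SplgAux

namespace Pool.Agent.NH12.GL

/-- **module 13** -/
theorem t_splg : S_splg := by
  intro K _ _
  obtain ⟨L, _, _, _, hG⟩ := SplgAux.closure K
  obtain ⟨c, Q₀, hc, hQ⟩ := t_split L
  have hT : Dens {p : ℕ | p ∈ Spl L ∧ p.Prime} := by
    refine ⟨c, Q₀, hc, fun Q hQ0 P hP => hQ Q hQ0 P fun p => ?_⟩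
    rw [hP]
    constructor
    · rintro ⟨⟨h1, h2⟩, h3⟩
      exact ⟨h1, h3⟩
    · rintro ⟨h1, h2, h3⟩
      exact ⟨⟨h1, h2⟩, h2, h3⟩
  refine dens_mono68 ?_ hT
  rintro p ⟨⟨φ, hφ⟩, hp⟩
  exact SplgAux.restr K L hp φ hφ

end Pool.Agent.NH12.GL
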