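import Pool.Agent.NH12.GL.Tw
import Pool.Agent.NH12.NV.Mem2
import Pool.Agent.Y767.HC.Good
import Pool.Agent.Y772.HI.Tw

/-!
# Newforms of weight one and Hecke characters of totally real fields: statements of the modules
-/

set_option autoImplicit false

namespace Pool.Agent.NH12.GL

open Finset Filter Topology Complex MeasureTheory NumberField
open Pool.Agent.R399.TW Pool.Agent.R399.TM Pool.Agent.NH12.NV
open Pool.Agent.Y767 (IsHecke IsModK PrimK Pk kk FEn GGn)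
open Pool.Agent.Y773 (LI FT)
open scoped ComplexConjugate

/-- **module 9**: newforms of weight one -/
def S_newf : Prop := ∀ {N₂ : ℕ} [NeZero N₂] {η : DirichletCharacter ℂ N₂}
    {f : CuspForm (CongruenceSubgroup.Gamma1 N₂ : Subgroup (Matrix.GeneralLinearGroup (Fin 2) ℝ)) 1}
    {w : ℂ}, Pool.Agent.W192.WO.Newf1 N₂ η f w → ∀ (N : ℕ) (e : ℂ), N₂ ∣ N → (e = 1 ∨ e = -1) →
    ∃ (V S : ℝ) (c : ℕ → ℂ) (F ep : (q : ℕ) → DirichletCharacter ℂ q → ℂ → ℂ) (g : ℂ → ℂ)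
      (b : ℕ → ℕ → ℂ) (u : (r : ℕ) → DirichletCharacter ℂ r → ℂ) (v : ℕ → ℤ) (M : ℤ),
      TwM 2 Set.univ N e N₂ V S c F ep g b u v M ∧
      ∀ (q : ℕ) (χ : DirichletCharacter ℂ q), 1 ≤ q → Nat.Coprime q N₂ → χ.IsPrimitive →
        Differentiable ℂ (F q χ) ∧ ∀ s : ℂ, 1 < s.re → HasProd (fun p : Nat.Primes =>
        (1 - χ ((p : ℕ) : ZMod q) * Pool.Agent.W192.CY.cf f p * ((p : ℕ) : ℂ) ^ (-s) +
          χ ((p : ℕ) : ZMod q) ^ 2 * η ((p : ℕ) : ZMod N₂) *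
            ((p : ℕ) : ℂ) ^ (-2 * s))⁻¹) (F q χ s)

/-- the primes (and one) splitting completely -/
def Spl (K : Type) [Field K] [NumberField K] : Set ℕ :=
  {p | ∃ φ : Fin (Module.finrank ℚ K) → (𝓞 K →+* ZMod p), Function.Injective φ}

/-- **module 6'**: primes splitting completely in a Galois extension -/
def S_split : Prop := ∀ (K : Type) [Field K] [NumberField K] [IsGalois ℚ K], Dens (Spl K)

/-- `τ` is the Gauss sum of the Hecke character `ψ` modulo `𝔣` -/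
def GaussP {K : Type} [Field K] [NumberField K] [IsTotallyReal K] (𝔣 : Ideal (𝓞 K)) (κ : K → ℂ)
    (ψ : Ideal (𝓞 K) →*₀ ℂ) (τ : ℂ) : Prop :=
  ∀ (𝔟 𝔟' : Ideal (𝓞 K)) (m D : ℕ), 0 < m → 0 < D →
      𝔟' * (𝔟 * 𝔣 * differentIdeal ℤ (𝓞 K)) = Ideal.span {((m * D : ℕ) : 𝓞 K)} →
      (m : 𝓞 K) ∈ 𝔟 * 𝔣 → (D : 𝓞 K) ∈ differentIdeal ℤ (𝓞 K) → ∀ x : 𝓞 K,
        FT D m (Pk ψ κ 𝔟) x = τ * ((m : ℂ) ^ (Module.finrank ℚ K) /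
          ((Ideal.absNorm 𝔟 : ℂ) * (Ideal.absNorm 𝔣 : ℂ))) * (starRingEnd ℂ) (Pk ψ κ 𝔟' x)

/-- **module 10**: the functional equation with the explicit root number -/
def S_few : Prop := ∀ (K : Type) [Field K] [NumberField K] [IsTotallyReal K]
    (e : InfinitePlace K → ℕ), (∀ w, e w ≤ 1) → ∃ C : ℂ, ∀ (𝔣 : Ideal (𝓞 K))
    (ψ : Ideal (𝓞 K) →*₀ ℂ) (ν : InfinitePlace K → ℝ) (τ : ℂ), ∑ w, ν w = 0 →
    PrimK 𝔣 (kk e ν) ψ → IsModK 𝔣 (kk e ν) ψ → GaussP 𝔣 (kk e ν) ψ τ →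
    ‖C * τ / ((Real.sqrt (Ideal.absNorm 𝔣 : ℝ) : ℝ) : ℂ)‖ = 1 ∧
    ∃ F : ℂ → ℂ, FEn (((Ideal.absNorm 𝔣 * Ideal.absNorm (differentIdeal ℤ (𝓞 K)) : ℕ) : ℝ)) e
      (fun w => -ν w) F ∧ (∀ s : ℂ, 1 < s.re → F s = LI ψ s) ∧
      ∀ s : ℂ, (∀ i, s.im + (-ν i) ≠ 0) →
        GGn (((Ideal.absNorm 𝔣 * Ideal.absNorm (differentIdeal ℤ (𝓞 K)) : ℕ) : ℝ)) e
          (fun w => -ν w) s * F s =
        (C * τ / ((Real.sqrt (Ideal.absNorm 𝔣 : ℝ) : ℝ) : ℂ)) * (starRingEnd ℂ)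
          (GGn (((Ideal.absNorm 𝔣 * Ideal.absNorm (differentIdeal ℤ (𝓞 K)) : ℕ) : ℝ)) e
          (fun w => -ν w) (1 - (starRingEnd ℂ) s) * F (1 - (starRingEnd ℂ) s))

/-- **module 11**: the Gauss sums of the twists by characters of prime conductor -/
def S_tau : Prop := ∀ (K : Type) [Field K] [NumberField K] [IsTotallyReal K]
    (𝔣 : Ideal (𝓞 K)) (κ₂ κ : K → ℂ) (ψ : Ideal (𝓞 K) →*₀ ℂ) (p r : ℕ) [NeZero p] [NeZero r]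
    (χ₁ : DirichletCharacter ℂ p) (χ₂ : DirichletCharacter ℂ r) (τ₂ τ : ℂ),
    p.Prime → p ∈ Spl K → Nat.Coprime p r →
    Nat.Coprime (p * r) (Ideal.absNorm 𝔣 * (discr K).natAbs) →
    χ₁.IsPrimitive → χ₂.IsPrimitive →
    IsModK (𝔣 * Ideal.span {(r : 𝓞 K)}) κ₂ (Pool.Agent.Y773.tw ψ χ₂) →
    IsModK (𝔣 * Ideal.span {((p * r : ℕ) : 𝓞 K)}) κ (Pool.Agent.Y773.tw ψ (pr p r χ₁ χ₂)) →
    (∀ x : 𝓞 K, x ≠ 0 → κ (x : K) * χ₁ (((Algebra.norm ℤ x).natAbs : ℕ) : ZMod p) =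
      κ₂ (x : K) * χ₁ ((Algebra.norm ℤ x : ℤ) : ZMod p)) →
    GaussP (𝔣 * Ideal.span {(r : 𝓞 K)}) κ₂ (Pool.Agent.Y773.tw ψ χ₂) τ₂ →
    GaussP (𝔣 * Ideal.span {((p * r : ℕ) : 𝓞 K)}) κ (Pool.Agent.Y773.tw ψ (pr p r χ₁ χ₂)) τ →
    τ = τ₂ * ψ (Ideal.span {(p : 𝓞 K)}) *
      χ₂ ((p ^ Module.finrank ℚ K : ℕ) : ZMod r) *
      χ₁ ((Ideal.absNorm 𝔣 * Ideal.absNorm (differentIdeal ℤ (𝓞 K)) *
        r ^ Module.finrank ℚ K : ℕ) : ZMod p) *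
      gs χ₁ ^ Module.finrank ℚ K

/-- **module 12**: Hecke characters of totally real fields -/
def S_hecke : Prop := ∀ (K : Type) [Field K] [NumberField K] [IsTotallyReal K]
    (𝔣 : Ideal (𝓞 K)) (ν : InfinitePlace K → ℝ) (ψ : Ideal (𝓞 K) →*₀ ℂ) (e : ℂ),
    IsHecke K 𝔣 ν ψ → ∑ w, ν w = 0 → (e = 1 ∨ e = -1) →
    ∃ (R V S : ℝ) (c : ℕ → ℂ) (F ep : (q : ℕ) → DirichletCharacter ℂ q → ℂ → ℂ) (g : ℂ → ℂ)
      (b : ℕ → ℕ → ℂ) (u : (r : ℕ) → DirichletCharacter ℂ r → ℂ) (v : ℕ → ℤ) (M : ℤ),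
      TwM (Module.finrank ℚ K) (Spl K) (Ideal.absNorm 𝔣 * (discr K).natAbs) e R V S c F ep g b u
        v M ∧
      ∀ (q : ℕ) (χ : DirichletCharacter ℂ q), 2 ≤ q →
        Nat.Coprime q (Ideal.absNorm 𝔣 * (discr K).natAbs) → χ.IsPrimitive →
        Differentiable ℂ (F q χ) ∧
        ∀ s : ℂ, 1 < s.re → F q χ s = LI (Pool.Agent.Y773.tw ψ χ) s

end Pool.Agent.NH12.GL
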